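import Pool.Agent.Lib.P28s.Defs

set_option autoImplicit false

/-!
# Transposes, skew operators, elements near a unit

PROOF. `tr A` is the operator of the transposed matrix: `tr A v i = ∑ j, (A (Pi.single i 1)) j * v j`; everything about `tr` follows from
`LinearMap.toMatrix'_mul`, `Matrix.transpose_mul`, ... or from `dot_tr` (test with `Pi.single`). `norm_tr_le`: `|A (e_i) j| ≤ ‖A‖`, so
`|tr A v i| ≤ ∑ j, ‖A‖ * ‖v‖`. `near_unit`: `b = (1 + (b - a) a⁻¹) a` and `‖(b - a) a⁻¹‖ < 1` (Neumann series, as `P28f.isUnit_of_near`).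
`near_inv`: `b⁻¹ = a⁻¹ (1 + (b - a) a⁻¹)⁻¹`, so `‖b⁻¹‖ ≤ ‖a⁻¹‖ + ‖b⁻¹‖ δ`... precisely `a⁻¹ - b⁻¹ = b⁻¹ (b - a) a⁻¹`, hence
`‖b⁻¹‖ ≤ ‖a⁻¹‖ + ‖b⁻¹‖ δ` and `‖a⁻¹‖ ≤ ‖b⁻¹‖ + ‖b⁻¹‖ δ`. `near_seg`: `(1-t) a + t b - a = t (b - a)`.
-/

open MeasureTheory Set Metric
open scoped ContDiff

namespace Pool.Agent.Lib.P28s

open Pool.Agent.Lib.P28f (V EV)

variable {m : ℕ}

theorem tr_apply (A : EV m) (v : V m) (i : Fin m) :
    tr A v i = ∑ j, (A (Pi.single i 1)) j * v j := by
  have h : tr A v = (LinearMap.toMatrix' (A : V m →ₗ[ℝ] V m)).transpose.mulVec v := rfl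
  rw [h]
  simp only [Matrix.mulVec, dotProduct, Matrix.transpose_apply, LinearMap.toMatrix'_apply]
  refine Finset.sum_congr rfl fun j _ => ?_
  congr 2

namespace AlgAux

theorem vec_eq (y : V m) : y = ∑ i, y i • (Pi.single i 1 : V m) := by
  ext j
  simp [Finset.sum_apply, Pi.single_apply]

theorem apply_eq (A : EV m) (y : V m) (j : Fin m) :
    A y j = ∑ i, y i * (A (Pi.single i 1)) j := by
  conv_lhs => rw [vec_eq y]
  rw [map_sum, Finset.sum_apply]
  refine Finset.sum_congr rfl fun i _ => ?_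
  rw [map_smul, Pi.smul_apply, smul_eq_mul]

theorem ext_dot {A B : EV m} (h : ∀ x y : V m, ∑ i, A x i * y i = ∑ i, B x i * y i) : A = B := by
  ext x i
  have h1 := h x (Pi.single i 1)
  simpa [Pi.single_apply] using h1

theorem norm_single_le (i : Fin m) : ‖(Pi.single i 1 : V m)‖ ≤ 1 := by
  rw [pi_norm_le_iff_of_nonneg zero_le_one]
  intro j
  by_cases h : j = i
  · subst h
    simp
  · simp [h]

end AlgAux

open AlgAux

theorem dot_tr (A : EV m) (x y : V m) : ∑ i, tr A x i * y i = ∑ i, x i * A y i := by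
  simp only [tr_apply, apply_eq A y, Finset.sum_mul, Finset.mul_sum]
  rw [Finset.sum_comm]
  refine Finset.sum_congr rfl fun j _ => Finset.sum_congr rfl fun i _ => ?_
  ring

theorem tr_tr (A : EV m) : tr (tr A) = A := by
  refine ext_dot fun x y => ?_
  rw [dot_tr]
  have h := dot_tr A y x
  calc ∑ i, x i * tr A y i = ∑ i, tr A y i * x i := Finset.sum_congr rfl fun i _ => mul_comm _ _
    _ = ∑ i, y i * A x i := h
    _ = ∑ i, A x i * y i := Finset.sum_congr rfl fun i _ => mul_comm _ _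

theorem tr_add (A B : EV m) : tr (A + B) = tr A + tr B := by
  ext v i
  rw [add_apply, Pi.add_apply, tr_apply, tr_apply, tr_apply,
    ← Finset.sum_add_distrib]
  refine Finset.sum_congr rfl fun j _ => ?_
  rw [add_apply, Pi.add_apply, add_mul]

theorem tr_smul (r : ℝ) (A : EV m) : tr (r • A) = r • tr A := by
  ext v i
  rw [smul_apply, Pi.smul_apply, tr_apply, tr_apply, smul_eq_mul,
    Finset.mul_sum]
  refine Finset.sum_congr rfl fun j _ => ?_
  rw [smul_apply, Pi.smul_apply, smul_eq_mul, mul_assoc]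

theorem tr_neg (A : EV m) : tr (-A) = -tr A := by
  have h : tr A + tr (-A) = 0 := by
    rw [← tr_add, add_neg_cancel]
    ext v i
    rw [tr_apply]
    simp
  exact (neg_eq_of_add_eq_zero_right h).symm

theorem tr_sub (A B : EV m) : tr (A - B) = tr A - tr B := by
  rw [sub_eq_add_neg, tr_add, tr_neg, ← sub_eq_add_neg]

theorem tr_one : tr (1 : EV m) = 1 := by
  ext v i
  rw [tr_apply]
  simp [Pi.single_apply]

theorem tr_mul (A B : EV m) : tr (A * B) = tr B * tr A := by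
  refine ext_dot fun x y => ?_
  rw [dot_tr]
  have h1 : ∑ i, (tr B * tr A) x i * y i = ∑ i, tr B (tr A x) i * y i := rfl
  have h2 : ∑ i, x i * (A * B) y i = ∑ i, x i * A (B y) i := rfl
  rw [h1, h2, dot_tr, dot_tr]

theorem norm_tr_le (A : EV m) : ‖tr A‖ ≤ m * ‖A‖ := by
  refine ContinuousLinearMap.opNorm_le_bound _ (by positivity) fun v => ?_
  rw [pi_norm_le_iff_of_nonneg (by positivity)]
  intro i
  rw [tr_apply]
  have h1 : ∀ j, ‖(A (Pi.single i 1)) j * v j‖ ≤ ‖A‖ * ‖v‖ := by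
    intro j
    rw [norm_mul]
    refine mul_le_mul ?_ (norm_le_pi_norm v j) (norm_nonneg _) (norm_nonneg _)
    refine (norm_le_pi_norm _ j).trans ?_
    calc ‖A (Pi.single i 1)‖ ≤ ‖A‖ * ‖(Pi.single i 1 : V m)‖ := A.le_opNorm _
      _ ≤ ‖A‖ * 1 := mul_le_mul_of_nonneg_left (norm_single_le i) (norm_nonneg _)
      _ = ‖A‖ := mul_one _
  calc ‖∑ j, (A (Pi.single i 1)) j * v j‖ ≤ ∑ _j : Fin m, ‖A‖ * ‖v‖ :=
        norm_sum_le_of_le _ fun j _ => h1 j
    _ = m * ‖A‖ * ‖v‖ := by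
        rw [Finset.sum_const, Finset.card_univ, Fintype.card_fin, nsmul_eq_mul]
        ring

theorem continuous_tr : Continuous (tr : EV m → EV m) := by
  let f : EV m →+ EV m := AddMonoidHom.mk' tr tr_add
  exact AddMonoidHomClass.continuous_of_bound f m norm_tr_le

theorem isUnit_tr {A : EV m} (h : IsUnit A) : IsUnit (tr A) := by
  obtain ⟨u, rfl⟩ := h
  refine ⟨⟨tr (u : EV m), tr ((u⁻¹ : (EV m)ˣ) : EV m), ?_, ?_⟩, rfl⟩
  · rw [← tr_mul, Units.inv_mul, tr_one]
  · rw [← tr_mul, Units.mul_inv, tr_one]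

theorem tr_inverse {A : EV m} (h : IsUnit A) : Ring.inverse (tr A) = tr (Ring.inverse A) := by
  have h1 : tr (Ring.inverse A) * tr A = 1 := by
    rw [← tr_mul, Ring.mul_inverse_cancel A h, tr_one]
  calc Ring.inverse (tr A) = (tr (Ring.inverse A) * tr A) * Ring.inverse (tr A) := by
        rw [h1, one_mul]
    _ = tr (Ring.inverse A) := by
        rw [mul_assoc, Ring.mul_inverse_cancel _ (isUnit_tr h), mul_one]

theorem Sk.add {c d : EV m} (hc : Sk c) (hd : Sk d) : Sk (c + d) := by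
  unfold Sk at *
  rw [tr_add, hc, hd, neg_add]

theorem Sk.sub {c d : EV m} (hc : Sk c) (hd : Sk d) : Sk (c - d) := by
  unfold Sk at *
  rw [tr_sub, hc, hd]
  abel

theorem Sk.smul {c : EV m} (hc : Sk c) (r : ℝ) : Sk (r • c) := by
  unfold Sk at *
  rw [tr_smul, hc, smul_neg]

theorem Sk.conj {c : EV m} (hc : Sk c) (A : EV m) : Sk (tr A * c * A) := by
  unfold Sk at *
  rw [tr_mul, tr_mul, tr_tr, hc]
  ext x i
  simp

/-- An isometry of a non-degenerate form is invertible. -/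
theorem isUnit_of_conj {c c' A : EV m} (hc' : IsUnit c') (h : tr A * c * A = c') : IsUnit A := by
  have h1 : (Ring.inverse c' * (tr A * c)) * A = 1 := by
    rw [mul_assoc, h, Ring.inverse_mul_cancel _ hc']
  set B : EV m := Ring.inverse c' * (tr A * c) with hB
  have h2 : (B : V m →ₗ[ℝ] V m) * (A : V m →ₗ[ℝ] V m) = 1 := by
    refine LinearMap.ext fun x => ?_
    exact DFunLike.congr_fun h1 x
  have h3 : (A : V m →ₗ[ℝ] V m) * (B : V m →ₗ[ℝ] V m) = 1 := mul_eq_one_comm.1 h2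
  have h4 : A * B = 1 := by
    ext1 x
    exact LinearMap.congr_fun h3 x
  exact ⟨⟨A, B, h4, h1⟩, rfl⟩

theorem near_unit {a b : EV m} (ha : IsUnit a) (h : ‖b - a‖ * ‖Ring.inverse a‖ < 1) :
    IsUnit b := by
  have h1 : ‖-((b - a) * Ring.inverse a)‖ < 1 := by
    rw [norm_neg]
    exact (norm_mul_le _ _).trans_lt h
  have h2 := isUnit_one_sub_of_norm_lt_one h1
  have h3 : (1 - -((b - a) * Ring.inverse a)) * a = b := by
    rw [sub_neg_eq_add, add_mul, one_mul, mul_assoc, Ring.inverse_mul_cancel a ha, mul_one]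
    abel
  rw [← h3]
  exact h2.mul ha

theorem near_inv {a b : EV m} {δ : ℝ} (ha : IsUnit a) (h : ‖b - a‖ * ‖Ring.inverse a‖ ≤ δ)
    (h1 : δ < 1) : ‖Ring.inverse b‖ ≤ ‖Ring.inverse a‖ / (1 - δ) ∧
      ‖Ring.inverse a‖ ≤ ‖Ring.inverse b‖ * (1 + δ) := by
  have hb : IsUnit b := near_unit ha (h.trans_lt h1)
  have e : Ring.inverse a - Ring.inverse b = Ring.inverse b * (b - a) * Ring.inverse a := by
    rw [mul_sub, Ring.inverse_mul_cancel b hb, sub_mul, one_mul, mul_assoc,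
      Ring.mul_inverse_cancel a ha, mul_one]
  have h2 : ‖Ring.inverse a - Ring.inverse b‖ ≤ ‖Ring.inverse b‖ * δ := by
    rw [e, mul_assoc]
    refine (norm_mul_le _ _).trans (mul_le_mul_of_nonneg_left ?_ (norm_nonneg _))
    exact (norm_mul_le _ _).trans h
  constructor
  · rw [le_div_iff₀ (by linarith)]
    have h3 : ‖Ring.inverse b‖ ≤ ‖Ring.inverse a‖ + ‖Ring.inverse a - Ring.inverse b‖ := by
      have h4 := norm_sub_norm_le (Ring.inverse b) (Ring.inverse a)
      rw [norm_sub_rev] at h4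
      linarith
    linarith
  · have h3 : ‖Ring.inverse a‖ ≤ ‖Ring.inverse b‖ + ‖Ring.inverse a - Ring.inverse b‖ := by
      have h4 := norm_sub_norm_le (Ring.inverse a) (Ring.inverse b)
      linarith
    linarith

/-- Convex combinations of elements near a common unit. -/
theorem AlgAux.near_mid' {a b b' : EV m} {t : ℝ} (ha : IsUnit a)
    (h : ‖b - a‖ * ‖Ring.inverse a‖ < 1) (h' : ‖b' - a‖ * ‖Ring.inverse a‖ < 1)
    (ht : t ∈ Icc (0 : ℝ) 1) : IsUnit ((1 - t) • b + t • b') := by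
  refine near_unit ha ?_
  have e : (1 - t) • b + t • b' - a = (1 - t) • (b - a) + t • (b' - a) := by
    module
  have h1 : ‖(1 - t) • b + t • b' - a‖ ≤ (1 - t) * ‖b - a‖ + t * ‖b' - a‖ := by
    rw [e]
    refine (norm_add_le _ _).trans ?_
    rw [norm_smul, norm_smul, Real.norm_eq_abs, Real.norm_eq_abs, abs_of_nonneg ht.1,
      abs_of_nonneg (sub_nonneg.2 ht.2)]
  have h2 := mul_le_mul_of_nonneg_right h1 (norm_nonneg (Ring.inverse a))
  refine h2.trans_lt ?_
  rw [add_mul, mul_assoc, mul_assoc]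
  have ht0 := ht.1
  have ht1 := ht.2
  rcases eq_or_lt_of_le ht0 with h0 | h0
  · rw [← h0]
    simpa using h
  · have h3 : (1 - t) * (‖b - a‖ * ‖Ring.inverse a‖) ≤ (1 - t) * 1 :=
      mul_le_mul_of_nonneg_left h.le (by linarith)
    have h4 : t * (‖b' - a‖ * ‖Ring.inverse a‖) < t * 1 := mul_lt_mul_of_pos_left h' h0
    linarith

theorem near_seg {a b : EV m} {t : ℝ} (ha : IsUnit a) (h : ‖b - a‖ * ‖Ring.inverse a‖ < 1)
    (ht : t ∈ Icc (0 : ℝ) 1) : IsUnit ((1 - t) • a + t • b) := by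
  refine AlgAux.near_mid' ha ?_ h ht
  rw [sub_self, norm_zero, zero_mul]
  exact zero_lt_one

/-- Convex combinations of elements near a common unit. -/
theorem near_mid {a b b' : EV m} {t : ℝ} (ha : IsUnit a) (h : ‖b - a‖ * ‖Ring.inverse a‖ < 1)
    (h' : ‖b' - a‖ * ‖Ring.inverse a‖ < 1) (ht : t ∈ Icc (0 : ℝ) 1) :
    IsUnit ((1 - t) • b + t • b') :=
  AlgAux.near_mid' ha h h' ht

end Pool.Agent.Lib.P28s
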