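import Mathlib

set_option autoImplicit false

/-!
# Additive constants: almost cocycles on the boundary of a cross-polytope are almost trivial

PROOF. Let `o = 0`, `i₁ = 1`, `i₂ = 2` in `Fin m`; `p₀ = (o, true)`, `p₁ = (o, false)`, `q₀ = (i₁, true)`. Define `a p₀ = 0`, `a q = g q p₀` for `q.1 ≠ o`, `a p₁ = a q₀ + g p₁ q₀`. The error `e p q = a p - a q - g p q` is antisymmetric.
Pairs: `(q, p₀)`, `q.1 ≠ o`: `e = 0`. `(q, r)` with `q.1 ≠ o`, `r.1 ≠ o`, `q.1 ≠ r.1`: `e q r = g q p₀ - g r p₀ - g q r = -(g q r + g r p₀ + g p₀ q)`, `|e| ≤ η`. `(p₁, q)` with `q.1 ≠ o`: if `q = q₀` then `e = 0`; if `q.1 ≠ i₁`: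
`e p₁ q = e q₀ q + (g p₁ q₀ + g q₀ q + g q p₁)`, `|e| ≤ 2 η`; if `q = (i₁, false)` put `r = (i₂, true)`: `e p₁ q = e p₁ r + e r q + (g p₁ r + g r q + g q p₁)`, `|e| ≤ 2 η + η + η`.
-/

namespace Pool.Agent.Lib.P28s

theorem nerve {m : ℕ} (hm : 3 ≤ m) (g : Fin m × Bool → Fin m × Bool → ℝ) (η : ℝ) (anti : ∀ p q, g p q = -g q p)
    (tri : ∀ p q r : Fin m × Bool, p.1 ≠ q.1 → q.1 ≠ r.1 → p.1 ≠ r.1 → |g p q + g q r + g r p| ≤ η) :
    ∃ a : Fin m × Bool → ℝ, ∀ p q : Fin m × Bool, p.1 ≠ q.1 → |a p - a q - g p q| ≤ 4 * η := by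
  have h0 : 0 < m := by omega
  have h1 : 1 < m := by omega
  have h2 : 2 < m := by omega
  set o : Fin m := ⟨0, h0⟩ with ho
  set i1 : Fin m := ⟨1, h1⟩ with hi1
  set i2 : Fin m := ⟨2, h2⟩ with hi2
  have d01 : o ≠ i1 := by simp [ho, hi1]
  have d02 : o ≠ i2 := by simp [ho, hi2]
  have d12 : i1 ≠ i2 := by simp [hi1, hi2]
  have hη : 0 ≤ η := (abs_nonneg _).trans (tri (o, true) (i1, true) (i2, true) d01 d12 d02)
  let a : Fin m × Bool → ℝ := fun p =>
    if p.1 = o then (if p.2 = true then 0 else g (i1, true) (o, true) + g (o, false) (i1, true))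
    else g p (o, true)
  have a0 : a (o, true) = 0 := by simp [a]
  have a1 : a (o, false) = g (i1, true) (o, true) + g (o, false) (i1, true) := by simp [a]
  have aq : ∀ q : Fin m × Bool, q.1 ≠ o → a q = g q (o, true) := by
    intro q hq
    simp [a, hq]
  -- the pairs away from the axis `o`
  have hqr : ∀ q r : Fin m × Bool, q.1 ≠ o → r.1 ≠ o → q.1 ≠ r.1 → |a q - a r - g q r| ≤ η := by
    intro q r hq hr hqr
    rw [aq q hq, aq r hr]
    have h := tri q r (o, true) hqr hr hq
    have e1 := anti q (o, true)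
    have e2 : g q (o, true) - g r (o, true) - g q r = -(g q r + g r (o, true) + g (o, true) q) := by
      rw [anti (o, true) q]; ring
    rw [e2, abs_neg]
    exact h
  have hp0 : ∀ q : Fin m × Bool, q.1 ≠ o → |a q - a (o, true) - g q (o, true)| ≤ η := by
    intro q hq
    rw [aq q hq, a0]
    simpa using hη
  -- the pairs of `p₁`
  have hA : ∀ q : Fin m × Bool, q.1 ≠ o → q.1 ≠ i1 → |a (o, false) - a q - g (o, false) q| ≤ 2 * η := by
    intro q hq hq1
    have e1 := hqr (i1, true) q d01.symm hq (fun h => hq1 h.symm)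
    have e2 := tri (o, false) (i1, true) q d01 (fun h => hq1 h.symm) (fun h => hq h.symm)
    have e3 : a (o, false) - a q - g (o, false) q = (a (i1, true) - a q - g (i1, true) q)
        + (g (o, false) (i1, true) + g (i1, true) q + g q (o, false)) := by
      rw [a1, aq (i1, true) d01.symm, anti q (o, false)]
      ring
    rw [e3]
    calc _ ≤ |a (i1, true) - a q - g (i1, true) q| + |g (o, false) (i1, true) + g (i1, true) q + g q (o, false)| :=
          abs_add_le _ _
      _ ≤ 2 * η := by linarith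
  have hB : ∀ b : Bool, |a (o, false) - a (i1, b) - g (o, false) (i1, b)| ≤ 4 * η := by
    intro b
    have e1 := hA (i2, true) d02.symm d12.symm
    have e2 := hqr (i2, true) (i1, b) d02.symm d01.symm d12.symm
    have e3 := tri (o, false) (i2, true) (i1, b) d02 d12.symm d01
    have e4 : a (o, false) - a (i1, b) - g (o, false) (i1, b) = (a (o, false) - a (i2, true) - g (o, false) (i2, true))
        + (a (i2, true) - a (i1, b) - g (i2, true) (i1, b))
        + (g (o, false) (i2, true) + g (i2, true) (i1, b) + g (i1, b) (o, false)) := by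
      rw [anti (i1, b) (o, false)]
      ring
    rw [e4]
    calc _ ≤ |a (o, false) - a (i2, true) - g (o, false) (i2, true)| + |a (i2, true) - a (i1, b) - g (i2, true) (i1, b)|
        + |g (o, false) (i2, true) + g (i2, true) (i1, b) + g (i1, b) (o, false)| := abs_add_three _ _ _
      _ ≤ 4 * η := by linarith
  have hp1 : ∀ q : Fin m × Bool, q.1 ≠ o → |a (o, false) - a q - g (o, false) q| ≤ 4 * η := by
    rintro ⟨i, b⟩ hq
    by_cases h : i = i1
    · subst h
      exact hB b
    · have := hA (i, b) hq h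
      linarith
  have hsym : ∀ p q : Fin m × Bool, |a p - a q - g p q| = |a q - a p - g q p| := by
    intro p q
    rw [anti q p, ← abs_neg]
    congr 1
    ring
  refine ⟨a, ?_⟩
  rintro ⟨i, b⟩ ⟨j, c⟩ hij
  simp only at hij
  by_cases hi : i = o
  · subst hi
    have hj : j ≠ o := fun h => hij h.symm
    cases b
    · exact hp1 (j, c) hj
    · rw [hsym]
      have := hp0 (j, c) hj
      linarith
  · by_cases hj : j = o
    · subst hj
      cases c
      · rw [hsym]
        exact hp1 (i, b) hi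
      · have := hp0 (i, b) hi
        linarith
    · have := hqr (i, b) (j, c) hi hj hij
      linarith

end Pool.Agent.Lib.P28s
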