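import Pool.Agent.Lib.P28s.Defs

set_option autoImplicit false

/-!
# A partition of unity on the annulus, subordinate to the faces

PROOF. `θ p v = Real.smoothTransition (64 * (sg p * v p.1) - 34)`: `0` for `sg p * v p.1 ≤ 34/64`, `1` for `≥ 35/64`. `ψ` a `ContDiffBump (0 : V m)` with radii `61/64 < 62/64` and `κ` one with radii `34/64 < 35/64`. `Θ = ∑ p, θ p`. `Θ + κ > 0` everywhere: if `‖v‖ < 35/64` then `κ v > 0` (`ContDiffBump.pos_of_mem_ball`),
otherwise `‖v‖ = |v i|` for some `i` (`m ≥ 1`) and `θ (i, ±) v = 1`. `ρ p = ψ * θ p / (Θ + κ)`. If `ρ p v ≠ 0` then `‖v‖ ≤ 62/64` and `34/64 ≤ sg p * v p.1`. For `35/64 ≤ ‖v‖ ≤ 61/64`: `κ v = 0`, `ψ v = 1`, so `∑ p, ρ p v = 1`; the sum is constant on the open set `35/64 < ‖v‖ < 61/64`, so its derivative vanishes there.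
The derivative of `ρ p` is continuous with compact support, hence bounded (`HasCompactSupport.exists_bound...`, or `IsCompact.exists_bound_of_continuousOn` on the closed ball and `0` outside), finitely many `p`.
-/

open MeasureTheory Set Metric
open scoped ContDiff Topology

namespace Pool.Agent.Lib.P28s

open Pool.Agent.Lib.P28f (V EV ann w0 Light)

variable {m : ℕ}

/-- the sign of a face -/
def sg (p : Fin m × Bool) : ℝ := if p.2 then 1 else -1

/-- the open face region -/
def face (p : Fin m × Bool) : Set (V m) := {v | ‖v‖ < 1 ∧ 1 / 2 < sg p * v p.1}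

namespace PartsAux

/-- the cut-off on a face -/
noncomputable def th (p : Fin m × Bool) (v : V m) : ℝ :=
  Real.smoothTransition (64 * (sg p * v p.1) - 34)

lemma th_nonneg (p : Fin m × Bool) (v : V m) : 0 ≤ th p v := Real.smoothTransition.nonneg _

lemma th_le (p : Fin m × Bool) (v : V m) : th p v ≤ 1 := Real.smoothTransition.le_one _

lemma th_smooth (p : Fin m × Bool) : ContDiff ℝ ∞ (th p : V m → ℝ) := by
  unfold th
  apply Real.smoothTransition.contDiff.comp
  apply ContDiff.sub _ contDiff_const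
  apply ContDiff.mul contDiff_const
  apply ContDiff.mul contDiff_const
  exact contDiff_apply ℝ ℝ p.1

lemma th_ne (p : Fin m × Bool) (v : V m) (h : th p v ≠ 0) : 17 / 32 ≤ sg p * v p.1 := by
  by_contra hc
  apply h
  apply Real.smoothTransition.zero_of_nonpos
  have : sg p * v p.1 < 17 / 32 := not_le.1 hc
  linarith

lemma th_one (p : Fin m × Bool) (v : V m) (h : 35 / 64 ≤ sg p * v p.1) : th p v = 1 := by
  apply Real.smoothTransition.one_of_one_le
  linarith

/-- inner bump -/
noncomputable def kap (m : ℕ) : ContDiffBump (0 : V m) := ⟨34 / 64, 35 / 64, by norm_num, by norm_num⟩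

/-- outer bump -/
noncomputable def psi (m : ℕ) : ContDiffBump (0 : V m) := ⟨61 / 64, 62 / 64, by norm_num, by norm_num⟩

/-- denominator -/
noncomputable def den (v : V m) : ℝ := ∑ p : Fin m × Bool, th p v + kap m v

lemma exists_face (_hm : 1 ≤ m) (v : V m) (hv : 35 / 64 ≤ ‖v‖) :
    ∃ p : Fin m × Bool, 35 / 64 ≤ sg p * v p.1 := by
  by_contra hc
  push Not at hc
  have : ‖v‖ < 35 / 64 := by
    rw [pi_norm_lt_iff (by norm_num)]
    intro i
    rw [Real.norm_eq_abs, abs_lt]
    have h1 := hc (i, true)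
    have h2 := hc (i, false)
    simp only [sg] at h1 h2
    norm_num at h1 h2
    constructor <;> linarith
  linarith

lemma sum_th_nonneg (v : V m) : 0 ≤ ∑ p : Fin m × Bool, th p v :=
  Finset.sum_nonneg fun p _ => th_nonneg p v

lemma den_pos (hm : 1 ≤ m) (v : V m) : 0 < den v := by
  unfold den
  rcases lt_or_ge ‖v‖ (35 / 64) with h | h
  · have : 0 < kap m v := (kap m).pos_of_mem_ball (by rw [mem_ball_zero_iff]; exact h)
    have := sum_th_nonneg v
    linarith
  · obtain ⟨p, hp⟩ := exists_face hm v h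
    have h1 := th_one p v hp
    have h2 : th p v ≤ ∑ p : Fin m × Bool, th p v :=
      Finset.single_le_sum (fun q _ => th_nonneg q v) (Finset.mem_univ p)
    have h3 : 0 ≤ kap m v := (kap m).nonneg
    linarith

lemma th_le_den (p : Fin m × Bool) (v : V m) : th p v ≤ den v := by
  have h2 : th p v ≤ ∑ p : Fin m × Bool, th p v :=
    Finset.single_le_sum (fun q _ => th_nonneg q v) (Finset.mem_univ p)
  have h3 : 0 ≤ kap m v := (kap m).nonneg
  unfold den; linarith

/-- the partition -/
noncomputable def rh (p : Fin m × Bool) (v : V m) : ℝ := psi m v * th p v / den v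

lemma den_smooth : ContDiff ℝ ∞ (den : V m → ℝ) := by
  unfold den
  exact (ContDiff.sum fun p _ => th_smooth p).add (kap m).contDiff

lemma rh_smooth (hm : 1 ≤ m) (p : Fin m × Bool) : ContDiff ℝ ∞ (rh p : V m → ℝ) := by
  unfold rh
  exact ((psi m).contDiff.mul (th_smooth p)).div den_smooth (fun v => (den_pos hm v).ne')

lemma psi_ne (v : V m) (h : psi m v ≠ 0) : ‖v‖ < 62 / 64 := by
  have : v ∈ Function.support (psi m) := h
  rw [(psi m).support_eq, mem_ball_zero_iff] at this
  exact this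

lemma rh_compact (p : Fin m × Bool) : HasCompactSupport (rh p : V m → ℝ) := by
  apply HasCompactSupport.of_support_subset_isCompact (isCompact_closedBall (0 : V m) (62 / 64))
  intro v hv
  rw [mem_closedBall_zero_iff]
  refine (psi_ne v fun h => hv ?_).le
  simp [rh, h]

lemma sum_rh (hm : 1 ≤ m) (v : V m) (h1 : 35 / 64 ≤ ‖v‖) (h2 : ‖v‖ ≤ 61 / 64) :
    ∑ p : Fin m × Bool, rh p v = 1 := by
  have hk : kap m v = 0 := (kap m).zero_of_le_dist (by rw [dist_zero_right]; exact h1)
  have hp : psi m v = 1 := (psi m).one_of_mem_closedBall (by rw [mem_closedBall_zero_iff]; exact h2)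
  have hd := den_pos hm v
  simp only [rh, hp, one_mul]
  rw [← Finset.sum_div]
  have : den v = ∑ p : Fin m × Bool, th p v := by simp [den, hk]
  rw [← this]
  exact div_self hd.ne'

end PartsAux

open PartsAux in
theorem parts (hm : 1 ≤ m) : ∃ (ρ : Fin m × Bool → V m → ℝ) (C : ℝ), 0 ≤ C ∧ (∀ p, ContDiff ℝ ∞ (ρ p)) ∧
    (∀ p v, 0 ≤ ρ p v ∧ ρ p v ≤ 1) ∧ (∀ p v, ρ p v ≠ 0 → ‖v‖ ≤ 31 / 32 ∧ 17 / 32 ≤ sg p * v p.1) ∧
    (∀ v, 9 / 16 ≤ ‖v‖ → ‖v‖ ≤ 15 / 16 → ∑ p, ρ p v = 1 ∧ ∑ p, fderiv ℝ (ρ p) v = 0) ∧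
    ∀ p v, ‖fderiv ℝ (ρ p) v‖ ≤ C := by
  have hb : ∀ p : Fin m × Bool, ∃ C, ∀ v : V m, ‖fderiv ℝ (rh p) v‖ ≤ C := by
    intro p
    apply Continuous.bounded_above_of_compact_support
    · exact (rh_smooth hm p).continuous_fderiv (by simp)
    · exact (rh_compact p).fderiv ℝ
  choose C hC using hb
  refine ⟨rh, ∑ p, max (C p) 0, Finset.sum_nonneg fun p _ => le_max_right _ _, rh_smooth hm, ?_, ?_,
    ?_, ?_⟩
  · intro p v
    have hd := den_pos hm v
    constructor
    · exact div_nonneg (mul_nonneg (psi m).nonneg (th_nonneg p v)) hd.le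
    · rw [rh, div_le_one hd]
      calc psi m v * th p v ≤ 1 * th p v :=
            mul_le_mul_of_nonneg_right (psi m).le_one (th_nonneg p v)
        _ = th p v := one_mul _
        _ ≤ den v := th_le_den p v
  · intro p v h
    constructor
    · have : ‖v‖ < 62 / 64 := psi_ne v fun h' => h (by simp [rh, h'])
      linarith
    · exact th_ne p v fun h' => h (by simp [rh, h'])
  · intro v h1 h2
    refine ⟨sum_rh hm v (by linarith) (by linarith), ?_⟩
    have hd : ∀ p ∈ (Finset.univ : Finset (Fin m × Bool)), DifferentiableAt ℝ (rh p) v :=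
      fun p _ => (rh_smooth hm p).differentiable (by simp) v
    rw [← fderiv_fun_sum hd]
    have he : (fun w : V m => ∑ p : Fin m × Bool, rh p w) =ᶠ[𝓝 v] fun _ => (1 : ℝ) := by
      have h3 : ∀ᶠ w in 𝓝 v, 35 / 64 < ‖w‖ :=
        continuous_norm.continuousAt.eventually (lt_mem_nhds (by linarith))
      have h4 : ∀ᶠ w in 𝓝 v, ‖w‖ < 61 / 64 :=
        continuous_norm.continuousAt.eventually (gt_mem_nhds (by linarith))
      filter_upwards [h3, h4] with w h5 h6
      exact sum_rh hm w h5.le h6.le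
    rw [he.fderiv_eq]
    simp
  · intro p v
    refine (hC p v).trans ((le_max_left _ 0).trans ?_)
    exact Finset.single_le_sum (f := fun p => max (C p) 0) (fun q _ => le_max_right _ _)
      (Finset.mem_univ p)

end Pool.Agent.Lib.P28s
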