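import Pool.Agent.Lib.P28s.PoinS
import Pool.Agent.Lib.P28s.Nerve
import Pool.Agent.Lib.P28s.Parts

set_option autoImplicit false

/-!
# Gauge fixing on an annulus

PROOF. `ρ`, `C₀` from `parts`. For `p = (i, b)` let `c_p = (3/4) sg p e_i ∈ face p`; `face p` is open and convex and contained in `{1/2 ≤ ‖v‖ ≤ 1}`. `f_p` from `poin` with the base point `c_p`: smooth on `face p`, `‖lam - grad f_p‖ ≤ 2 ε` there (`‖x - c_p‖ ≤ 7/4`).
For `p.1 ≠ q.1`: `z_pq = c_p + c_q ∈ face p ∩ face q` (norm `3/4`); `g p q = f_p z_pq - f_q z_pq` if `p.1 ≠ q.1`, else `0`: antisymmetric. On the convex set `face p ∩ face q` `‖grad (f_p - f_q)‖ ≤ 4 ε`, so `|(f_p - f_q) v - g p q| ≤ m * 4 ε * 2 = 8 m ε` (`grad_lip`).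
For pairwise different coordinates `z = c_p + c_q + c_r` is in the three faces, so `|g p q + g q r + g r p| ≤ 24 m ε`. `nerve`: `a` with `|a p - a q - g p q| ≤ 96 m ε`. Hence `h_p = f_p - a p` satisfies `|h_p v - h_q v| ≤ 104 m ε` on `face p ∩ face q` for all `p, q` (`p = q` is trivial; the intersection is empty for
`p.1 = q.1`, `p ≠ q`). `F v = ∑ p, ρ p v * h_p v` is smooth: at `v ∈ face p` both factors are smooth; the set where `‖v‖ > 31/32` or `sg p * v p.1 < 17/32` is open, `ρ p = 0` there, and it covers the complement of `face p`.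
Let `9/16 ≤ ‖v‖ ≤ 15/16` and `v ∈ face q` (`‖v‖ = |v i|`). `grad F v = ∑ p, (ρ p v • grad h_p v + h_p v • grad (ρ p) v)` (for `v ∉ face p` the term is `0`: `ρ p` vanishes near `v`). With `∑ ρ p v = 1`, `∑ grad (ρ p) v = 0`:
`lam v - grad F v = ∑ p, ρ p v • (lam v - grad h_p v) - ∑ p, (h_p v - h_q v) • grad (ρ p) v`, where only `p` with `v ∈ face p` count; norm `≤ 2 ε + 2 m * 104 m ε * C₀`.
-/

open MeasureTheory Set Metric
open scoped ContDiff Topology

namespace Pool.Agent.Lib.P28s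

open Pool.Agent.Lib.P28f (V EV ann w0 Light)

namespace GaugeAux

variable {m : ℕ}

theorem sg_mul_self (p : Fin m × Bool) : sg p * sg p = 1 := by
  unfold sg
  split_ifs <;> norm_num

theorem abs_sg (p : Fin m × Bool) : |sg p| = 1 := by
  unfold sg
  split_ifs <;> norm_num

/-- the centre of a face -/
noncomputable def cc (p : Fin m × Bool) : V m := Pi.single p.1 (3 / 4 * sg p)

theorem cc_same (p : Fin m × Bool) : cc p p.1 = 3 / 4 * sg p := by
  unfold cc
  rw [Pi.single_eq_same]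

theorem cc_ne {p : Fin m × Bool} {i : Fin m} (h : i ≠ p.1) : cc p i = 0 := by
  unfold cc
  exact Pi.single_eq_of_ne h _

theorem norm_cc_coord (p : Fin m × Bool) (i : Fin m) : |cc p i| ≤ 3 / 4 := by
  by_cases h : i = p.1
  · rw [h, cc_same, abs_mul, abs_sg, mul_one]
    norm_num
  · rw [cc_ne h, abs_zero]
    norm_num

theorem face_norm {p : Fin m × Bool} {v : V m} (hv : v ∈ face p) : 1 / 2 ≤ ‖v‖ ∧ ‖v‖ ≤ 1 := by
  obtain ⟨h1, h2⟩ := hv
  refine ⟨?_, h1.le⟩
  have h3 : |v p.1| ≤ ‖v‖ := norm_le_pi_norm v p.1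
  have h4 : sg p * v p.1 ≤ |v p.1| := by
    calc sg p * v p.1 ≤ |sg p * v p.1| := le_abs_self _
      _ = |v p.1| := by rw [abs_mul, abs_sg, one_mul]
  linarith

theorem face_convex (p : Fin m × Bool) : Convex ℝ (face p : Set (V m)) := by
  intro x hx y hy a b ha hb hab
  obtain ⟨x1, x2⟩ := hx
  obtain ⟨y1, y2⟩ := hy
  have hx0 : x ∈ ball (0 : V m) 1 := by rw [mem_ball_zero_iff]; exact x1
  have hy0 : y ∈ ball (0 : V m) 1 := by rw [mem_ball_zero_iff]; exact y1
  refine ⟨?_, ?_⟩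
  · have h := convex_ball (0 : V m) 1 hx0 hy0 ha hb hab
    rwa [mem_ball_zero_iff] at h
  · have e : sg p * (a • x + b • y) p.1 = a * (sg p * x p.1) + b * (sg p * y p.1) := by
      simp only [Pi.add_apply, Pi.smul_apply, smul_eq_mul]
      ring
    rw [e]
    rcases ha.eq_or_lt with h0 | h0
    · rw [← h0, zero_add] at hab
      rw [← h0, hab]
      linarith
    · have h1 : a * (1 / 2) < a * (sg p * x p.1) := mul_lt_mul_of_pos_left x2 h0
      have h2 : b * (1 / 2) ≤ b * (sg p * y p.1) := mul_le_mul_of_nonneg_left y2.le hb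
      have h3 : a * (1 / 2) + b * (1 / 2) = 1 / 2 := by rw [← add_mul, hab, one_mul]
      linarith

theorem face_open (p : Fin m × Bool) : IsOpen (face p : Set (V m)) := by
  have h1 : IsOpen {v : V m | ‖v‖ < 1} := isOpen_lt continuous_norm continuous_const
  have h2 : IsOpen {v : V m | 1 / 2 < sg p * v p.1} :=
    isOpen_lt continuous_const (continuous_const.mul (continuous_apply p.1))
  exact h1.inter h2

theorem norm_lt_of {v : V m} (h : ∀ i, |v i| ≤ 3 / 4) : ‖v‖ < 1 := by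
  have h1 : ‖v‖ ≤ 3 / 4 := (pi_norm_le_iff_of_nonneg (by norm_num)).2 fun i => h i
  linarith

theorem sg_cc (p : Fin m × Bool) : sg p * (3 / 4 * sg p) = 3 / 4 := by
  have := sg_mul_self p
  linear_combination (3 / 4) * this

theorem cc_mem (p : Fin m × Bool) : cc p ∈ (face p : Set (V m)) := by
  refine ⟨norm_lt_of (norm_cc_coord p), ?_⟩
  rw [cc_same, sg_cc]
  norm_num

theorem mem_two {p q : Fin m × Bool} (h : p.1 ≠ q.1) : cc p + cc q ∈ (face p : Set (V m)) := by
  refine ⟨norm_lt_of fun i => ?_, ?_⟩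
  · rw [Pi.add_apply]
    by_cases h1 : i = p.1
    · rw [cc_ne (p := q) (by rw [h1]; exact h), add_zero]
      exact norm_cc_coord p i
    · rw [cc_ne h1, zero_add]
      exact norm_cc_coord q i
  · rw [Pi.add_apply, cc_same, cc_ne h, add_zero, sg_cc]
    norm_num

theorem mem_three {p q r : Fin m × Bool} (h : p.1 ≠ q.1) (h' : p.1 ≠ r.1) (h'' : q.1 ≠ r.1) :
    cc p + cc q + cc r ∈ (face p : Set (V m)) := by
  refine ⟨norm_lt_of fun i => ?_, ?_⟩
  · rw [Pi.add_apply, Pi.add_apply]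
    by_cases h1 : i = p.1
    · rw [cc_ne (p := q) (by rw [h1]; exact h), cc_ne (p := r) (by rw [h1]; exact h'), add_zero,
        add_zero]
      exact norm_cc_coord p i
    · by_cases h2 : i = q.1
      · rw [cc_ne h1, cc_ne (p := r) (by rw [h2]; exact h''), add_zero, zero_add]
        exact norm_cc_coord q i
      · rw [cc_ne h1, cc_ne h2, zero_add, zero_add]
        exact norm_cc_coord r i
  · rw [Pi.add_apply, Pi.add_apply, cc_same, cc_ne h, cc_ne h', add_zero, add_zero, sg_cc]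
    norm_num

theorem face_disj {p q : Fin m × Bool} (h : p.1 = q.1) (hne : p ≠ q) {v : V m}
    (hp : v ∈ face p) (hq : v ∈ face q) : False := by
  obtain ⟨i, b⟩ := p
  obtain ⟨j, c⟩ := q
  simp only at h
  subst h
  have h1 := hp.2
  have h2 := hq.2
  unfold sg at h1 h2
  cases b <;> cases c
  · exact hne rfl
  · simp only [Bool.false_eq_true, if_false, if_true] at h1 h2
    linarith
  · simp only [Bool.false_eq_true, if_false, if_true] at h1 h2
    linarith
  · exact hne rfl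

theorem exists_face {v : V m} (h : 9 / 16 ≤ ‖v‖) (h' : ‖v‖ ≤ 15 / 16) : ∃ q, v ∈ (face q : Set (V m)) := by
  have h1 : ∃ i, 1 / 2 < |v i| := by
    by_contra hcon
    push Not at hcon
    have h2 : ‖v‖ ≤ 1 / 2 := (pi_norm_le_iff_of_nonneg (by norm_num)).2 fun i => hcon i
    linarith
  obtain ⟨i, hi⟩ := h1
  rcases le_total 0 (v i) with h2 | h2
  · refine ⟨(i, true), by linarith, ?_⟩
    rw [abs_of_nonneg h2] at hi
    unfold sg
    simp only [if_true, one_mul]
    exact hi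
  · refine ⟨(i, false), by linarith, ?_⟩
    rw [abs_of_nonpos h2] at hi
    unfold sg
    simp only [Bool.false_eq_true, if_false]
    linarith

theorem grad_sub' {f g : V m → ℝ} {x : V m} (hf : DifferentiableAt ℝ f x)
    (hg : DifferentiableAt ℝ g x) : grad (fun v => f v - g v) x = grad f x - grad g x := by
  funext i
  unfold grad
  rw [fderiv_fun_sub hf hg]
  rfl

theorem grad_sub_const (f : V m → ℝ) (a : ℝ) (x : V m) : grad (fun v => f v - a) x = grad f x := by
  funext i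
  unfold grad
  rw [fderiv_sub_const]

theorem grad_sum {ι : Type} (s : Finset ι) {f : ι → V m → ℝ} {x : V m}
    (hf : ∀ p ∈ s, DifferentiableAt ℝ (f p) x) :
    grad (fun v => ∑ p ∈ s, f p v) x = ∑ p ∈ s, grad (f p) x := by
  funext i
  rw [Finset.sum_apply]
  unfold grad
  rw [fderiv_fun_sum hf, sum_apply]

theorem grad_zero_of {f : V m → ℝ} {x : V m} (h : f =ᶠ[𝓝 x] fun _ => 0) : grad f x = 0 := by
  funext i
  unfold grad
  rw [h.fderiv_eq]
  simp

theorem grad_congr_fderiv {f : V m → ℝ} {x : V m} (h : fderiv ℝ f x = 0) : grad f x = 0 := by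
  funext i
  unfold grad
  rw [h]
  rfl

/-- the modified local potentials -/
theorem potentials (hm : 3 ≤ m) {ε : ℝ} {lam : V m → V m}
    (h : ∀ v, 1 / 2 ≤ ‖v‖ → ‖v‖ ≤ 1 → ContDiffAt ℝ ∞ lam v ∧ ‖dd lam v‖ ≤ ε) (hε : 0 ≤ ε) :
    ∃ H : Fin m × Bool → V m → ℝ, (∀ p, ∀ x ∈ face p, ContDiffAt ℝ ∞ (H p) x) ∧
      (∀ p, ∀ x ∈ face p, ‖lam x - grad (H p) x‖ ≤ 2 * ε) ∧
      ∀ p q, ∀ x ∈ face p, x ∈ face q → |H p x - H q x| ≤ 104 * m * ε := by
  classical
  have hpo : ∀ p : Fin m × Bool, ∃ f : V m → ℝ, (∀ x ∈ (face p : Set (V m)), ContDiffAt ℝ ∞ f x) ∧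
      ∀ x ∈ (face p : Set (V m)), ‖lam x - grad f x‖ ≤ ε * ‖x - cc p‖ := by
    intro p
    exact poin (face_convex p) (face_open p) (cc_mem p)
      (fun x hx => (h x (face_norm hx).1 (face_norm hx).2).1)
      (fun x hx => (h x (face_norm hx).1 (face_norm hx).2).2)
  choose f hf1 hf2 using hpo
  have hdist : ∀ {x y : V m}, ‖x‖ ≤ 1 → ‖y‖ ≤ 1 → ‖x - y‖ ≤ 2 := by
    intro x y hx hy
    have := norm_sub_le x y
    linarith
  have hf3 : ∀ p, ∀ x ∈ (face p : Set (V m)), ‖lam x - grad (f p) x‖ ≤ 2 * ε := by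
    intro p x hx
    refine (hf2 p x hx).trans ?_
    have h1 := hdist (face_norm hx).2 (face_norm (cc_mem p)).2
    have h2 := mul_le_mul_of_nonneg_left h1 hε
    linarith
  have hd : ∀ p, ∀ x ∈ (face p : Set (V m)), DifferentiableAt ℝ (f p) x := fun p x hx =>
    (hf1 p x hx).differentiableAt (by simp)
  -- comparison on the intersections
  have hcmp : ∀ p q : Fin m × Bool, ∀ x y : V m, x ∈ (face p ∩ face q : Set (V m)) →
      y ∈ (face p ∩ face q : Set (V m)) → |(f p x - f q x) - (f p y - f q y)| ≤ 8 * m * ε := by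
    intro p q x y hx hy
    have hS : Convex ℝ (face p ∩ face q : Set (V m)) := (face_convex p).inter (face_convex q)
    have h1 := grad_lip hS (f := fun v => f p v - f q v) (ε := 4 * ε)
      (fun z hz => (hd p z hz.1).sub (hd q z hz.2)) (fun z hz => by
        rw [grad_sub' (hd p z hz.1) (hd q z hz.2)]
        have e : grad (f p) z - grad (f q) z
            = (lam z - grad (f q) z) - (lam z - grad (f p) z) := by abel
        rw [e]
        have h2 := norm_sub_le (lam z - grad (f q) z) (lam z - grad (f p) z)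
        have h3 := hf3 p z hz.1
        have h4 := hf3 q z hz.2
        linarith) hx hy
    refine h1.trans ?_
    have h2 := hdist (face_norm hx.1).2 (face_norm hy.1).2
    have h3 : (0:ℝ) ≤ m * (4 * ε) := by positivity
    have h4 := mul_le_mul_of_nonneg_left h2 h3
    calc (m : ℝ) * (4 * ε) * ‖x - y‖ ≤ m * (4 * ε) * 2 := h4
      _ = 8 * m * ε := by ring
  -- the cocycle
  let g : Fin m × Bool → Fin m × Bool → ℝ := fun p q =>
    if p.1 = q.1 then 0 else f p (cc p + cc q) - f q (cc p + cc q)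
  have hg : ∀ p q : Fin m × Bool, p.1 ≠ q.1 → g p q = f p (cc p + cc q) - f q (cc p + cc q) := by
    intro p q hpq
    exact if_neg hpq
  have hanti : ∀ p q, g p q = -g q p := by
    intro p q
    by_cases hpq : p.1 = q.1
    · have e1 : g p q = 0 := if_pos hpq
      have e2 : g q p = 0 := if_pos hpq.symm
      rw [e1, e2, neg_zero]
    · rw [hg p q hpq, hg q p (Ne.symm hpq), add_comm (cc q) (cc p)]
      ring
  have hmem : ∀ p q : Fin m × Bool, p.1 ≠ q.1 →
      cc p + cc q ∈ (face p ∩ face q : Set (V m)) := by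
    intro p q hpq
    refine ⟨mem_two hpq, ?_⟩
    rw [add_comm]
    exact mem_two (Ne.symm hpq)
  have hcmp2 : ∀ p q : Fin m × Bool, p.1 ≠ q.1 → ∀ x ∈ (face p ∩ face q : Set (V m)),
      |(f p x - f q x) - g p q| ≤ 8 * m * ε := by
    intro p q hpq x hx
    rw [hg p q hpq]
    exact hcmp p q x _ hx (hmem p q hpq)
  have htri : ∀ p q r : Fin m × Bool, p.1 ≠ q.1 → q.1 ≠ r.1 → p.1 ≠ r.1 →
      |g p q + g q r + g r p| ≤ 24 * m * ε := by
    intro p q r hpq hqr hpr
    have z1 : cc p + cc q + cc r ∈ (face p : Set (V m)) := mem_three hpq hpr hqr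
    have z2 : cc p + cc q + cc r ∈ (face q : Set (V m)) := by
      have e : cc p + cc q + cc r = cc q + cc p + cc r := by abel
      rw [e]
      exact mem_three (Ne.symm hpq) hqr hpr
    have z3 : cc p + cc q + cc r ∈ (face r : Set (V m)) := by
      have e : cc p + cc q + cc r = cc r + cc p + cc q := by abel
      rw [e]
      exact mem_three (Ne.symm hpr) (Ne.symm hqr) hpq
    have h1 := abs_le.1 (hcmp2 p q hpq _ ⟨z1, z2⟩)
    have h2 := abs_le.1 (hcmp2 q r hqr _ ⟨z2, z3⟩)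
    have h3 := abs_le.1 (hcmp2 r p (Ne.symm hpr) _ ⟨z3, z1⟩)
    rw [abs_le]
    constructor
    · linarith [h1.1, h1.2, h2.1, h2.2, h3.1, h3.2]
    · linarith [h1.1, h1.2, h2.1, h2.2, h3.1, h3.2]
  obtain ⟨a, ha⟩ := nerve hm g (24 * m * ε) hanti htri
  refine ⟨fun p v => f p v - a p, ?_, ?_, ?_⟩
  · intro p x hx
    exact (hf1 p x hx).sub contDiffAt_const
  · intro p x hx
    rw [grad_sub_const]
    exact hf3 p x hx
  · intro p q x hxp hxq
    by_cases hpq : p.1 = q.1
    · by_cases hpq' : p = q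
      · rw [hpq', sub_self, abs_zero]
        positivity
      · exact (face_disj hpq hpq' hxp hxq).elim
    · have h1 := abs_le.1 (hcmp2 p q hpq x ⟨hxp, hxq⟩)
      have h2 := abs_le.1 (ha p q hpq)
      change |(f p x - a p) - (f q x - a q)| ≤ _
      rw [abs_le]
      constructor
      · linarith [h1.1, h1.2, h2.1, h2.2]
      · linarith [h1.1, h1.2, h2.1, h2.2]

end GaugeAux

open GaugeAux in
theorem GaugeAux.gauge' (m : ℕ) (hm : 3 ≤ m) : ∃ C : ℝ, 0 < C ∧ ∀ (ε : ℝ) (lam : V m → V m), 0 ≤ ε →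
    (∀ v, 1 / 2 ≤ ‖v‖ → ‖v‖ ≤ 1 → ContDiffAt ℝ ∞ lam v ∧ ‖dd lam v‖ ≤ ε) →
    ∃ F : V m → ℝ, ContDiff ℝ ∞ F ∧ ∀ v, 9 / 16 ≤ ‖v‖ → ‖v‖ ≤ 15 / 16 → ‖lam v - grad F v‖ ≤ C * ε := by
  classical
  obtain ⟨ρ, C₀, hC0, hρ1, hρ2, hρ3, hρ4, hρ5⟩ := parts (m := m) (by omega)
  refine ⟨(Fintype.card (Fin m × Bool) : ℝ) * (2 + 104 * m * C₀) + 1, by positivity, ?_⟩
  intro ε lam hε hlam
  obtain ⟨H, hH1, hH2, hH3⟩ := potentials hm hlam hε
  -- vanishing off the face
  have hvan : ∀ p : Fin m × Bool, ∀ v : V m, v ∉ (face p : Set (V m)) →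
      ∀ᶠ w in 𝓝 v, ρ p w = 0 := by
    intro p v hv
    have hopen : IsOpen ({w : V m | 31 / 32 < ‖w‖} ∪ {w : V m | sg p * w p.1 < 17 / 32}) :=
      (isOpen_lt continuous_const continuous_norm).union
        (isOpen_lt (continuous_const.mul (continuous_apply p.1)) continuous_const)
    have hin : v ∈ ({w : V m | 31 / 32 < ‖w‖} ∪ {w : V m | sg p * w p.1 < 17 / 32}) := by
      by_contra hcon
      rw [mem_union, not_or] at hcon
      obtain ⟨h1, h2⟩ := hcon
      rw [mem_ofPred_eq, not_lt] at h1 h2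
      exact hv ⟨by linarith, by linarith⟩
    filter_upwards [hopen.mem_nhds hin] with w hw
    by_contra hne
    obtain ⟨h1, h2⟩ := hρ3 p w hne
    rcases hw with h3 | h3
    · rw [mem_ofPred_eq] at h3
      linarith
    · rw [mem_ofPred_eq] at h3
      linarith
  have hzero : ∀ p : Fin m × Bool, ∀ v : V m, v ∉ (face p : Set (V m)) →
      (fun w => ρ p w * H p w) =ᶠ[𝓝 v] fun _ => 0 := by
    intro p v hv
    filter_upwards [hvan p v hv] with w hw
    rw [hw, zero_mul]
  have hsm : ∀ p : Fin m × Bool, ∀ v : V m, ContDiffAt ℝ ∞ (fun w => ρ p w * H p w) v := by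
    intro p v
    by_cases hv : v ∈ (face p : Set (V m))
    · exact (hρ1 p).contDiffAt.mul (hH1 p v hv)
    · exact contDiffAt_const.congr_of_eventuallyEq (hzero p v hv)
  refine ⟨fun v => ∑ p, ρ p v * H p v, ?_, ?_⟩
  · refine ContDiff.sum fun p _ => ?_
    exact contDiff_iff_contDiffAt.2 fun v => hsm p v
  intro v hv1 hv2
  obtain ⟨q, hq⟩ := exists_face hv1 hv2
  obtain ⟨hs1, hs2⟩ := hρ4 v hv1 hv2
  have hgs : grad (fun v => ∑ p, ρ p v * H p v) v = ∑ p, grad (fun w => ρ p w * H p w) v :=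
    grad_sum Finset.univ fun p _ => (hsm p v).differentiableAt (by simp)
  have hρd : ∀ p, DifferentiableAt ℝ (ρ p) v := fun p =>
    (hρ1 p).contDiffAt.differentiableAt (by simp)
  have hg0 : ∑ p, grad (ρ p) v = 0 := by
    rw [← grad_sum Finset.univ fun p _ => hρd p]
    apply grad_congr_fderiv
    rw [fderiv_fun_sum fun p _ => hρd p]
    exact hs2
  have key : lam v - grad (fun v => ∑ p, ρ p v * H p v) v
      = ∑ p, (ρ p v • lam v - grad (fun w => ρ p w * H p w) v + H q v • grad (ρ p) v) := by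
    rw [Finset.sum_add_distrib, Finset.sum_sub_distrib, ← Finset.sum_smul, hs1, one_smul,
      ← Finset.smul_sum, hg0, smul_zero, add_zero, hgs]
  rw [key]
  have hterm : ∀ p : Fin m × Bool,
      ‖ρ p v • lam v - grad (fun w => ρ p w * H p w) v + H q v • grad (ρ p) v‖
        ≤ (2 + 104 * m * C₀) * ε := by
    intro p
    by_cases hv : v ∈ (face p : Set (V m))
    · have hHd : DifferentiableAt ℝ (H p) v := (hH1 p v hv).differentiableAt (by simp)
      have e : ρ p v • lam v - grad (fun w => ρ p w * H p w) v + H q v • grad (ρ p) v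
          = ρ p v • (lam v - grad (H p) v) - (H p v - H q v) • grad (ρ p) v := by
        rw [grad_mul (hρd p) hHd, smul_sub, sub_smul]
        abel
      rw [e]
      refine (norm_sub_le _ _).trans ?_
      rw [norm_smul, norm_smul]
      have h1 : ‖ρ p v‖ ≤ 1 := by
        rw [Real.norm_eq_abs, abs_of_nonneg (hρ2 p v).1]
        exact (hρ2 p v).2
      have h2 : ‖ρ p v‖ * ‖lam v - grad (H p) v‖ ≤ 1 * (2 * ε) :=
        mul_le_mul h1 (hH2 p v hv) (norm_nonneg _) zero_le_one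
      have h3 : ‖H p v - H q v‖ ≤ 104 * m * ε := by
        rw [Real.norm_eq_abs]
        exact hH3 p q v hv hq
      have h4 : ‖grad (ρ p) v‖ ≤ C₀ := (norm_grad_le _ _).trans (hρ5 p v)
      have h5 : ‖H p v - H q v‖ * ‖grad (ρ p) v‖ ≤ 104 * m * ε * C₀ :=
        mul_le_mul h3 h4 (norm_nonneg _) (by positivity)
      calc ‖ρ p v‖ * ‖lam v - grad (H p) v‖ + ‖H p v - H q v‖ * ‖grad (ρ p) v‖
          ≤ 1 * (2 * ε) + 104 * m * ε * C₀ := add_le_add h2 h5
        _ = (2 + 104 * m * C₀) * ε := by ring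
    · have e1 : ρ p v = 0 := (hvan p v hv).self_of_nhds
      have e2 : grad (fun w => ρ p w * H p w) v = 0 := grad_zero_of (hzero p v hv)
      have e3 : grad (ρ p) v = 0 := grad_zero_of (hvan p v hv)
      rw [e1, e2, e3, zero_smul, smul_zero, sub_zero, add_zero, norm_zero]
      positivity
  calc ‖∑ p, (ρ p v • lam v - grad (fun w => ρ p w * H p w) v + H q v • grad (ρ p) v)‖
      ≤ ∑ p, ‖ρ p v • lam v - grad (fun w => ρ p w * H p w) v + H q v • grad (ρ p) v‖ :=
        norm_sum_le _ _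
    _ ≤ ∑ _p : Fin m × Bool, (2 + 104 * m * C₀) * ε := Finset.sum_le_sum fun p _ => hterm p
    _ = (Fintype.card (Fin m × Bool) : ℝ) * (2 + 104 * m * C₀) * ε := by
        rw [Finset.sum_const, Finset.card_univ, nsmul_eq_mul]
        ring
    _ ≤ ((Fintype.card (Fin m × Bool) : ℝ) * (2 + 104 * m * C₀) + 1) * ε := by
        rw [add_mul]
        linarith

theorem gauge (m : ℕ) (hm : 3 ≤ m) : ∃ C : ℝ, 0 < C ∧ ∀ (lam : V m → V m) (e : ℝ),
    (∀ v, 1 / 2 ≤ ‖v‖ → ‖v‖ ≤ 1 → ContDiffAt ℝ ∞ lam v ∧ ‖dd lam v‖ ≤ e) →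
    ∃ F : V m → ℝ, ContDiff ℝ ∞ F ∧
      ∀ v, 9 / 16 ≤ ‖v‖ → ‖v‖ ≤ 15 / 16 → ‖lam v - grad F v‖ ≤ C * e := by
  obtain ⟨C, hC, h⟩ := GaugeAux.gauge' m hm
  refine ⟨C, hC, fun lam e hl => ?_⟩
  have hv := GaugeAux.face_norm (GaugeAux.cc_mem (⟨⟨0, by omega⟩, true⟩ : Fin m × Bool))
  exact h e lam ((norm_nonneg _).trans (hl _ hv.1 hv.2).2) hl

end Pool.Agent.Lib.P28s
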