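import Pool.Agent.Lib.P28s.PathRel
import Pool.Agent.Lib.P28s.Gauge

set_option autoImplicit false

/-!
# Cutting off a form at a flat ring

PROOF. `c = dd lam (w0 m)` (`‖w0 m‖ = 3/4`, `P28f.norm_w0`), a skew unit (`sk_dd`). `e = δ / ‖c⁻¹‖` (for `m ≥ 3` `‖c⁻¹‖ > 0`). By strong flatness at `x = w0`, `‖dd lam v - c‖ ≤ e` on
the ring. `gauge` for `lam - lc c` (`dd_sub`, `dd_lc`): a smooth `F` with `‖lam v - lc c v - grad F v‖ ≤ C₀ e` for `9/16 ≤ ‖v‖ ≤ 15/16`.
Cut-off functions (`ContDiffBump`, centre `0`): `β₁ = ⟨9/16, 10/16⟩`, `β₂ = ⟨10/16, 11/16⟩`, `β₃ = ⟨13/16, 14/16⟩`, `β₄ = ⟨14/16, 15/16⟩`; `η = β₄ - β₁`,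
`χ = β₂ + 1 - β₃`. Put `H = lc c + χ (lam - lc c - grad (η F))`, `b = H - lam = (χ - 1) (lam - lc c) - χ grad (η F)` and `k = lc c + β₂ (lam - lc c - grad (η F))`.
`b = 0` for `‖v‖ ≤ 9/16` (`χ = 1`, `η = 0` there; for `‖v‖ = 9/16` by continuity of `grad (η F)`, or because `η F` vanishes on the closed ball, `β₁ = 1` there)
and for `‖v‖ ≥ 15/16`; smooth everywhere since `lam` is smooth near the closed unit ball. `k` is smooth, `k = lam` for `‖v‖ ≤ 9/16`, `k = lc c` for `‖v‖ ≥ 11/16`.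
`H = k` for `‖v‖ < 13/16`: there `β₃ = 1`, `χ = β₂`.
BOUNDS on `dd k v - c` and `dd H v - c` for `1/2 ≤ ‖v‖` (`dd (grad _) = 0`, `dd_grad`): where `χ = 1` (or `β₂ = 1`): `dd lam v - c`, norm `≤ e`; where
`η = 1` on a neighbourhood or by continuity (`10/16 ≤ ‖v‖ ≤ 14/16`): `dd (χ b')`, `b' = lam - lc c - grad F`, `‖dd (χ b') v - χ dd b' v‖ ≤ (m+1) ‖Dχ‖ ‖b'‖` (`norm_dd_fsmul_le`),
`‖dd b'‖ ≤ e`, `‖b'‖ ≤ C₀ e`, `|χ| ≤ 1`. At the boundary radii (`‖v‖ = 10/16` etc.) use that the derivative of a bump function vanishes where it takes the values `0` or `1`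
(extremum), or continuity of `dd H` and density. So all bounds are `≤ C e` with `C = 1 + (m + 1) (sup ‖Dχ‖ + sup ‖Dβ₂‖) C₀`; `δ₀ = 1 / (100 C)`.
`dd k x` is a unit: for `‖x‖ < 9/16` it is `dd lam x`; for `‖x‖ ≥ 1/2` use `near_unit` (`C δ₀ < 1`).
-/

open MeasureTheory Set Metric
open scoped ContDiff Topology

namespace Pool.Agent.Lib.P28s

open Pool.Agent.Lib.P28f (V EV ann w0)

namespace CutLAux

variable {m : ℕ}

theorem norm_w0 (hm : 1 ≤ m) : ‖w0 m‖ = 3 / 4 := by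
  apply le_antisymm
  · rw [pi_norm_le_iff_of_nonneg (by norm_num)]
    intro i
    unfold w0
    split_ifs
    · rw [Real.norm_eq_abs, abs_of_nonneg (by norm_num)]
    · rw [norm_zero]; norm_num
  · have h := norm_le_pi_norm (w0 m) ⟨0, hm⟩
    unfold w0 at h
    simp only [if_true] at h
    rw [Real.norm_eq_abs, abs_of_nonneg (by norm_num)] at h
    exact h

/-- the cut-off functions -/
noncomputable def b1 (m : ℕ) : ContDiffBump (0 : V m) := ⟨37 / 64, 38 / 64, by norm_num, by norm_num⟩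

noncomputable def b2 (m : ℕ) : ContDiffBump (0 : V m) := ⟨10 / 16, 11 / 16, by norm_num, by norm_num⟩

noncomputable def b3 (m : ℕ) : ContDiffBump (0 : V m) := ⟨13 / 16, 14 / 16, by norm_num, by norm_num⟩

noncomputable def b4 (m : ℕ) : ContDiffBump (0 : V m) := ⟨58 / 64, 59 / 64, by norm_num, by norm_num⟩

noncomputable def eta (v : V m) : ℝ := b4 m v - b1 m v

noncomputable def chi (v : V m) : ℝ := b2 m v + 1 - b3 m v

theorem one_le {f : ContDiffBump (0 : V m)} {v : V m} (h : ‖v‖ ≤ f.rIn) : f v = 1 :=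
  f.one_of_mem_closedBall (by rwa [mem_closedBall, dist_zero_right])

theorem zero_ge {f : ContDiffBump (0 : V m)} {v : V m} (h : f.rOut ≤ ‖v‖) : f v = 0 :=
  f.zero_of_le_dist (by rwa [dist_zero_right])

theorem ev_lt {r : ℝ} {v : V m} (h : ‖v‖ < r) : ∀ᶠ y in 𝓝 v, ‖y‖ < r :=
  continuous_norm.continuousAt.eventually (Iio_mem_nhds h)

theorem ev_gt {r : ℝ} {v : V m} (h : r < ‖v‖) : ∀ᶠ y in 𝓝 v, r < ‖y‖ :=
  continuous_norm.continuousAt.eventually (Ioi_mem_nhds h)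

theorem contDiff_eta : ContDiff ℝ ∞ (eta : V m → ℝ) := (b4 m).contDiff.sub (b1 m).contDiff

theorem contDiff_chi : ContDiff ℝ ∞ (chi : V m → ℝ) :=
  ((b2 m).contDiff.add contDiff_const).sub (b3 m).contDiff

theorem contDiff_b2 : ContDiff ℝ ∞ (b2 m : V m → ℝ) := (b2 m).contDiff

theorem eta_in {v : V m} (h : ‖v‖ ≤ 37 / 64) : eta v = 0 := by
  unfold eta
  rw [one_le (f := b4 m) (h.trans (by unfold b4; norm_num)),
    one_le (f := b1 m) (h.trans (le_of_eq (by unfold b1; norm_num))), sub_self]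

theorem eta_out {v : V m} (h : 59 / 64 ≤ ‖v‖) : eta v = 0 := by
  unfold eta
  rw [zero_ge (f := b4 m) (le_trans (le_of_eq (by unfold b4; norm_num)) h),
    zero_ge (f := b1 m) (le_trans (by unfold b1; norm_num) h), sub_self]

theorem eta_mid {v : V m} (h : 38 / 64 ≤ ‖v‖) (h' : ‖v‖ ≤ 58 / 64) : eta v = 1 := by
  unfold eta
  rw [one_le (f := b4 m) (h'.trans (le_of_eq (by unfold b4; norm_num))),
    zero_ge (f := b1 m) (le_trans (le_of_eq (by unfold b1; norm_num)) h), sub_zero]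

theorem chi_in {v : V m} (h : ‖v‖ ≤ 10 / 16) : chi v = 1 := by
  unfold chi
  rw [one_le (f := b2 m) (h.trans (le_of_eq (by unfold b2; norm_num))),
    one_le (f := b3 m) (h.trans (by unfold b3; norm_num))]
  norm_num

theorem chi_out {v : V m} (h : 14 / 16 ≤ ‖v‖) : chi v = 1 := by
  unfold chi
  rw [zero_ge (f := b2 m) (le_trans (by unfold b2; norm_num) h),
    zero_ge (f := b3 m) (le_trans (le_of_eq (by unfold b3; norm_num)) h)]
  norm_num

theorem chi_b2 {v : V m} (h : ‖v‖ ≤ 13 / 16) : chi v = b2 m v := by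
  unfold chi
  rw [one_le (f := b3 m) (h.trans (le_of_eq (by unfold b3; norm_num)))]
  ring

theorem chi_abs (v : V m) : |chi v| ≤ 2 := by
  unfold chi
  have h1 := (b2 m).nonneg' v
  have h2 := (b2 m).le_one (x := v)
  have h3 := (b3 m).nonneg' v
  have h4 := (b3 m).le_one (x := v)
  rw [abs_le]
  constructor <;> linarith

theorem b2_abs (v : V m) : |b2 m v| ≤ 2 := by
  have h1 := (b2 m).nonneg' v
  have h2 := (b2 m).le_one (x := v)
  rw [abs_le]
  constructor <;> linarith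

/-- a bound for the derivative of a smooth function on the closed unit ball -/
theorem fderiv_bd {ζ : V m → ℝ} (h : ContDiff ℝ ∞ ζ) : ∃ D : ℝ, 0 ≤ D ∧ ∀ v, ‖v‖ ≤ 1 → ‖fderiv ℝ ζ v‖ ≤ D := by
  have hc : Continuous fun v => ‖fderiv ℝ ζ v‖ := (h.continuous_fderiv (by simp)).norm
  obtain ⟨M, hM⟩ := (isCompact_closedBall (0 : V m) 1).bddAbove_image hc.continuousOn
  refine ⟨max M 0, le_max_right _ _, fun v hv => le_max_of_le_left (hM ⟨v, ?_, rfl⟩)⟩
  rwa [mem_closedBall, dist_zero_right]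

/-- the modified form -/
noncomputable def md (ζ : V m → ℝ) (c : EV m) (lam : V m → V m) (F : V m → ℝ) (v : V m) : V m :=
  lc c v + ζ v • (lam v - lc c v - grad (fun y => eta y * F y) v)

theorem grad_congr {F G : V m → ℝ} {v : V m} (h : F =ᶠ[𝓝 v] G) : grad F v = grad G v := by
  unfold grad
  rw [h.fderiv_eq]

theorem grad_zero_of {F : V m → ℝ} {v : V m} (h : ∀ᶠ y in 𝓝 v, eta y = 0) :
    grad (fun y => eta y * F y) v = 0 := by
  rw [grad_congr (G := fun _ => 0) (h.mono fun y hy => by rw [hy, zero_mul])]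
  unfold grad
  funext i
  simp

theorem grad_in {F : V m → ℝ} {v : V m} (h : ‖v‖ ≤ 9 / 16) : grad (fun y => eta y * F y) v = 0 :=
  grad_zero_of ((ev_lt (r := 37 / 64) (by linarith)).mono fun y hy => eta_in hy.le)

theorem grad_out {F : V m → ℝ} {v : V m} (h : 15 / 16 ≤ ‖v‖) : grad (fun y => eta y * F y) v = 0 :=
  grad_zero_of ((ev_gt (r := 59 / 64) (by linarith)).mono fun y hy => eta_out hy.le)

theorem cd_etaF {F : V m → ℝ} (hF : ContDiff ℝ ∞ F) : ContDiff ℝ ∞ fun y => eta y * F y :=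
  contDiff_eta.mul hF

theorem cd_grad {F : V m → ℝ} (hF : ContDiff ℝ ∞ F) (v : V m) :
    ContDiffAt ℝ ∞ (grad fun y => eta y * F y) v :=
  contDiffAt_grad (cd_etaF hF).contDiffAt

theorem cd_md {ζ : V m → ℝ} (hζ : ContDiff ℝ ∞ ζ) {c : EV m} {lam : V m → V m} {F : V m → ℝ}
    (hF : ContDiff ℝ ∞ F) {v : V m} (hl : ContDiffAt ℝ ∞ lam v) : ContDiffAt ℝ ∞ (md ζ c lam F) v := by
  unfold md
  exact (contDiff_lc c).contDiffAt.add
    (hζ.contDiffAt.smul ((hl.sub (contDiff_lc c).contDiffAt).sub (cd_grad hF v)))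

theorem ne_inf : (∞ : WithTop ℕ∞) ≠ 0 := by simp

theorem dd_md_one {ζ : V m → ℝ} {c : EV m} {lam : V m → V m} {F : V m → ℝ}
    (hF : ContDiff ℝ ∞ F) {v : V m} (hl : ContDiffAt ℝ ∞ lam v) (hz : ∀ᶠ y in 𝓝 v, ζ y = 1) :
    dd (md ζ c lam F) v = dd lam v := by
  have h1 : md ζ c lam F =ᶠ[𝓝 v] fun y => lam y - grad (fun y => eta y * F y) y := by
    filter_upwards [hz] with y hy
    unfold md
    rw [hy, one_smul]
    abel
  rw [dd_congr h1, dd_sub (hl.differentiableAt ne_inf) ((cd_grad hF v).differentiableAt ne_inf),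
    dd_grad (cd_etaF hF).contDiffAt, sub_zero]

theorem dd_md_zero {ζ : V m → ℝ} {c : EV m} (hc : Sk c) {lam : V m → V m} {F : V m → ℝ}
    {v : V m} (hz : ∀ᶠ y in 𝓝 v, ζ y = 0) : dd (md ζ c lam F) v = c := by
  have h1 : md ζ c lam F =ᶠ[𝓝 v] lc c := by
    filter_upwards [hz] with y hy
    unfold md
    rw [hy, zero_smul, add_zero]
  rw [dd_congr h1, dd_lc hc]

theorem dd_md_mid {ζ : V m → ℝ} (hζ : ContDiff ℝ ∞ ζ) {c : EV m} (hc : Sk c) {lam : V m → V m}
    {F : V m → ℝ} (hF : ContDiff ℝ ∞ F) {v : V m} (hl : ContDiffAt ℝ ∞ lam v) {e C₀ D : ℝ}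
    (h1 : 38 / 64 < ‖v‖) (h2 : ‖v‖ < 58 / 64) (hz : |ζ v| ≤ 2) (hD : ‖fderiv ℝ ζ v‖ ≤ D) (hD0 : 0 ≤ D)
    (he : ‖dd lam v - c‖ ≤ e) (hC : ‖lam v - lc c v - grad F v‖ ≤ C₀ * e) :
    ‖dd (md ζ c lam F) v - c‖ ≤ (2 + ((m : ℝ) + 1) * D * C₀) * e := by
  set b : V m → V m := fun y => lam y - lc c y - grad F y with hb
  have h3 : md ζ c lam F =ᶠ[𝓝 v] fun y => lc c y + ζ y • b y := by
    have e1 := (ev_gt h1).and (ev_lt h2)
    filter_upwards [e1.eventually_nhds] with y hy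
    have e2 : grad (fun z => eta z * F z) y = grad F y := by
      refine grad_congr (hy.mono fun z hz => ?_)
      show eta z * F z = F z
      rw [eta_mid hz.1.le hz.2.le, one_mul]
    unfold md
    rw [e2, hb]
  have hlcd : DifferentiableAt ℝ (lc c) v := (contDiff_lc c).contDiffAt.differentiableAt ne_inf
  have hgd : DifferentiableAt ℝ (grad F) v := (contDiffAt_grad hF.contDiffAt).differentiableAt ne_inf
  have hld : DifferentiableAt ℝ lam v := hl.differentiableAt ne_inf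
  have hζd : DifferentiableAt ℝ ζ v := hζ.contDiffAt.differentiableAt ne_inf
  have hbd : DifferentiableAt ℝ b v := (hld.sub hlcd).sub hgd
  have h4 : dd b v = dd lam v - c := by
    rw [hb, dd_sub (f := fun y => lam y - lc c y) (hld.sub hlcd) hgd, dd_sub hld hlcd, dd_lc hc,
      dd_grad hF.contDiffAt, sub_zero]
  rw [dd_congr h3, dd_add (f := lc c) (g := fun y => ζ y • b y) hlcd (hζd.smul hbd), dd_lc hc,
    add_sub_cancel_left]
  have h5 := norm_dd_fsmul_le hζd hbd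
  have h6 : ‖ζ v • dd b v‖ ≤ 2 * e := by
    rw [norm_smul, Real.norm_eq_abs, h4]
    exact mul_le_mul hz he (norm_nonneg _) (by norm_num)
  have h7 : ‖fderiv ℝ ζ v‖ * ‖b v‖ ≤ D * (C₀ * e) := mul_le_mul hD hC (norm_nonneg _) hD0
  have h8 : ((m : ℝ) + 1) * (‖fderiv ℝ ζ v‖ * ‖b v‖) ≤ ((m : ℝ) + 1) * (D * (C₀ * e)) :=
    mul_le_mul_of_nonneg_left h7 (by positivity)
  calc ‖dd (fun y => ζ y • b y) v‖ = ‖(dd (fun y => ζ y • b y) v - ζ v • dd b v) + ζ v • dd b v‖ := by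
        rw [sub_add_cancel]
    _ ≤ ‖dd (fun y => ζ y • b y) v - ζ v • dd b v‖ + ‖ζ v • dd b v‖ := norm_add_le _ _
    _ ≤ ((m : ℝ) + 1) * (D * (C₀ * e)) + 2 * e := by linarith
    _ = _ := by ring

end CutLAux

open CutLAux

theorem cut_exists (m : ℕ) (hm : 3 ≤ m) : ∃ δ₀ C : ℝ, 0 < δ₀ ∧ 0 < C ∧ C * δ₀ ≤ 1 / 100 ∧
    ∀ (δ : ℝ) (lam : V m → V m), 0 ≤ δ → δ ≤ δ₀ → NdOn (closedBall 0 1) lam →
      SFlat δ (ann 0 (1 / 2)) (dd lam) →
      ∃ b k : V m → V m, Md b ∧ Obj (dd lam (w0 m)) (11 / 16) k ∧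
        (∀ v, ‖v‖ ≤ 9 / 16 → b v = 0) ∧ (∀ v, ‖v‖ ≤ 9 / 16 → k v = lam v) ∧
        (∀ v, ‖v‖ < 13 / 16 → lam v + b v = k v) ∧
        (∀ v, 1 / 2 ≤ ‖v‖ →
          ‖dd k v - dd lam (w0 m)‖ * ‖Ring.inverse (dd lam (w0 m))‖ ≤ C * δ) ∧
        ∀ v, 1 / 2 ≤ ‖v‖ → ‖v‖ ≤ 1 →
          ‖dd (fun y => lam y + b y) v - dd lam (w0 m)‖ *
            ‖Ring.inverse (dd lam (w0 m))‖ ≤ C * δ := by
  obtain ⟨C₀, hC₀, hg⟩ := gauge m hm
  obtain ⟨D₁, hD₁, hD₁'⟩ := fderiv_bd (contDiff_chi (m := m))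
  obtain ⟨D₂, hD₂, hD₂'⟩ := fderiv_bd (contDiff_b2 (m := m))
  set C : ℝ := 2 + ((m : ℝ) + 1) * (D₁ + D₂) * C₀ with hC
  have hC2 : 2 ≤ C := by
    have : 0 ≤ ((m : ℝ) + 1) * (D₁ + D₂) * C₀ := by positivity
    linarith
  have hCa : 2 + ((m : ℝ) + 1) * D₁ * C₀ ≤ C := by
    have : 0 ≤ ((m : ℝ) + 1) * D₂ * C₀ := by positivity
    have e1 : C = 2 + ((m : ℝ) + 1) * D₁ * C₀ + ((m : ℝ) + 1) * D₂ * C₀ := by rw [hC]; ring
    linarith
  have hCb : 2 + ((m : ℝ) + 1) * D₂ * C₀ ≤ C := by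
    have : 0 ≤ ((m : ℝ) + 1) * D₁ * C₀ := by positivity
    have e1 : C = 2 + ((m : ℝ) + 1) * D₂ * C₀ + ((m : ℝ) + 1) * D₁ * C₀ := by rw [hC]; ring
    linarith
  have hC0 : 0 < C := by linarith
  refine ⟨1 / (100 * C), C, by positivity, hC0, le_of_eq (by field_simp), ?_⟩
  intro δ lam hδ0 hδ hnd hfl
  have hw : ‖w0 m‖ = 3 / 4 := norm_w0 (by omega)
  set c : EV m := dd lam (w0 m) with hc
  have hsk : Sk c := sk_dd lam (w0 m)
  have hcu : IsUnit c := (hnd (w0 m) (by rw [mem_closedBall, dist_zero_right, hw]; norm_num)).2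
  have : Nonempty (Fin m) := ⟨⟨0, by omega⟩⟩
  have : Nontrivial (EV m) := inferInstance
  set N : ℝ := ‖Ring.inverse c‖ with hN
  have hNpos : 0 < N := by
    rw [hN, norm_pos_iff]
    obtain ⟨u, hu⟩ := hcu
    rw [← hu, Ring.inverse_unit]
    exact u⁻¹.ne_zero
  set e : ℝ := δ / N with he
  have he0 : 0 ≤ e := by positivity
  have heN : e * N = δ := div_mul_cancel₀ _ hNpos.ne'
  have hflat : ∀ v, 1 / 2 ≤ ‖v‖ → ‖v‖ ≤ 1 → ‖dd lam v - c‖ ≤ e := by
    intro v h1 h2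
    have h3 := hfl (w0 m) ⟨by rw [sub_zero, hw]; norm_num, by rw [sub_zero, hw]; norm_num⟩ v
      ⟨by rwa [sub_zero], by rw [sub_zero]; linarith⟩
    rw [he, le_div_iff₀ hNpos]
    exact h3
  have hsm : ∀ v, ‖v‖ ≤ 1 → ContDiffAt ℝ ∞ lam v := fun v hv =>
    (hnd v (by rwa [mem_closedBall, dist_zero_right])).1
  obtain ⟨F, hF, hFb⟩ := hg (fun y => lam y - lc c y) e (fun v h1 h2 => ⟨(hsm v h2).sub (contDiff_lc c).contDiffAt, by
    rw [dd_sub ((hsm v h2).differentiableAt ne_inf) ((contDiff_lc c).contDiffAt.differentiableAt ne_inf), dd_lc hsk]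
    exact hflat v h1 h2⟩)
  -- bounds
  have hbd : ∀ v, 38 / 64 < ‖v‖ → ‖v‖ < 58 / 64 → ‖lam v - lc c v - grad F v‖ ≤ C₀ * e :=
    fun v h1 h2 => hFb v (by linarith) (by linarith)
  have hk_bd : ∀ v, 1 / 2 ≤ ‖v‖ → ‖dd (md (b2 m) c lam F) v - c‖ ≤ C * e := by
    intro v h1
    rcases lt_or_ge ‖v‖ (10 / 16) with h2 | h2
    · rw [dd_md_one hF (hsm v (by linarith)) ((ev_lt h2).mono fun y hy =>
        one_le (f := b2 m) (le_trans hy.le (le_of_eq (by unfold b2; norm_num))))]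
      refine (hflat v h1 (by linarith)).trans ?_
      nlinarith
    · rcases lt_or_ge ‖v‖ (58 / 64) with h3 | h3
      · refine (dd_md_mid (b2 m).contDiff hsk hF (hsm v (by linarith)) (by linarith) h3 (b2_abs v)
          (hD₂' v (by linarith)) hD₂ (hflat v h1 (by linarith)) (hbd v (by linarith) h3)).trans ?_
        exact mul_le_mul_of_nonneg_right hCb he0
      · rw [dd_md_zero hsk ((ev_gt (r := 11 / 16) (v := v) (by linarith)).mono fun y hy =>
          zero_ge (f := b2 m) (le_trans (le_of_eq (by unfold b2; norm_num)) hy.le)), sub_self, norm_zero]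
        positivity
  have hH_bd : ∀ v, 1 / 2 ≤ ‖v‖ → ‖v‖ ≤ 1 → ‖dd (md chi c lam F) v - c‖ ≤ C * e := by
    intro v h1 h1'
    rcases lt_or_ge ‖v‖ (10 / 16) with h2 | h2
    · rw [dd_md_one hF (hsm v h1') ((ev_lt h2).mono fun y hy => chi_in hy.le)]
      refine (hflat v h1 h1').trans ?_
      nlinarith
    · rcases lt_or_ge ‖v‖ (58 / 64) with h3 | h3
      · refine (dd_md_mid contDiff_chi hsk hF (hsm v h1') (by linarith) h3 (chi_abs v)
          (hD₁' v h1') hD₁ (hflat v h1 h1') (hbd v (by linarith) h3)).trans ?_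
        exact mul_le_mul_of_nonneg_right hCa he0
      · rw [dd_md_one hF (hsm v h1') ((ev_gt (r := 14 / 16) (v := v) (by linarith)).mono fun y hy =>
          chi_out hy.le)]
        refine (hflat v h1 h1').trans ?_
        nlinarith
  have hkN : ∀ v, 1 / 2 ≤ ‖v‖ → ‖dd (md (b2 m) c lam F) v - c‖ * N ≤ C * δ := by
    intro v hv
    calc ‖dd (md (b2 m) c lam F) v - c‖ * N ≤ C * e * N := mul_le_mul_of_nonneg_right (hk_bd v hv) hNpos.le
      _ = C * δ := by rw [mul_assoc, heN]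
  have hkin : ∀ v, ‖v‖ ≤ 9 / 16 → md (b2 m) c lam F v = lam v := by
    intro v hv
    unfold md
    rw [grad_in hv, one_le (f := b2 m) (hv.trans (by unfold b2; norm_num)), one_smul]
    abel
  have hkout : ∀ v, 11 / 16 ≤ ‖v‖ → md (b2 m) c lam F v = lc c v := by
    intro v hv
    unfold md
    rw [zero_ge (f := b2 m) (le_trans (le_of_eq (by unfold b2; norm_num)) hv), zero_smul, add_zero]
  have hksm : ContDiff ℝ ∞ (md (b2 m) c lam F) := by
    rw [contDiff_iff_contDiffAt]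
    intro v
    rcases lt_or_ge ‖v‖ 1 with h1 | h1
    · exact cd_md (b2 m).contDiff hF (hsm v h1.le)
    · refine (contDiff_lc c).contDiffAt.congr_of_eventuallyEq ?_
      exact (ev_gt (r := 11 / 16) (v := v) (by linarith)).mono fun y hy => hkout y hy.le
  set b : V m → V m := fun v => (chi v - 1) • (lam v - lc c v) - chi v • grad (fun y => eta y * F y) v with hb
  have hlb : (fun y => lam y + b y) = md chi c lam F := by
    funext y
    rw [hb]
    unfold md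
    simp only [sub_smul, smul_sub, one_smul]
    abel
  have hbsm : ContDiff ℝ ∞ b := by
    rw [contDiff_iff_contDiffAt]
    intro v
    rcases lt_or_ge ‖v‖ 1 with h1 | h1
    · exact ((contDiff_chi.contDiffAt.sub contDiffAt_const).smul
        ((hsm v h1.le).sub (contDiff_lc c).contDiffAt)).sub (contDiff_chi.contDiffAt.smul (cd_grad hF v))
    · have h2 : b =ᶠ[𝓝 v] fun y => -(chi y • grad (fun y => eta y * F y) y) := by
        refine (ev_gt (r := 14 / 16) (v := v) (by linarith)).mono fun y hy => ?_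
        rw [hb]
        simp only
        rw [chi_out hy.le, sub_self, zero_smul, zero_sub]
      exact (contDiff_chi.contDiffAt.smul (cd_grad hF v)).neg.congr_of_eventuallyEq h2
  refine ⟨b, md (b2 m) c lam F, ⟨hbsm, ?_⟩, ⟨hsk, hcu, hksm, ?_, hkout⟩, ?_, hkin, ?_, hkN, ?_⟩
  · intro v hv
    rw [hb]
    simp only
    rw [chi_out (by linarith), sub_self, zero_smul, grad_out hv, smul_zero, sub_zero]
  · intro x
    rcases lt_or_ge ‖x‖ (9 / 16) with h1 | h1
    · have h2 : md (b2 m) c lam F =ᶠ[𝓝 x] lam := (ev_lt h1).mono fun y hy => hkin y hy.le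
      rw [dd_congr h2]
      exact (hnd x (by rw [mem_closedBall, dist_zero_right]; linarith)).2
    · refine near_unit hcu ?_
      refine lt_of_le_of_lt (hkN x (by linarith)) ?_
      have h2 : C * δ ≤ C * (1 / (100 * C)) := mul_le_mul_of_nonneg_left hδ hC0.le
      have h3 : C * (1 / (100 * C)) = 1 / 100 := by field_simp
      rw [h3] at h2
      linarith
  · intro v hv
    rw [hb]
    simp only
    rw [chi_in (by linarith), sub_self, zero_smul, grad_in hv, smul_zero, sub_zero]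
  · intro v hv
    have h1 : lam v + b v = md chi c lam F v := congrFun hlb v
    rw [h1]
    unfold md
    rw [chi_b2 hv.le]
  · intro v h1 h2
    rw [hlb]
    calc ‖dd (md chi c lam F) v - c‖ * N ≤ C * e * N := mul_le_mul_of_nonneg_right (hH_bd v h1 h2) hNpos.le
      _ = C * δ := by rw [mul_assoc, heN]

/-- Cuts exist. -/
theorem cutOf_exists (m : ℕ) (hm : 3 ≤ m) : ∃ δ₀ : ℝ, 0 < δ₀ ∧ ∀ lam : V m → V m,
    NdOn (closedBall 0 1) lam → SFlat δ₀ (ann 0 (1 / 2)) (dd lam) → ∃ k, CutOf lam k := by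
  obtain ⟨δ₀, C, hδ₀, hC, hCδ, h⟩ := cut_exists m hm
  refine ⟨min δ₀ (1 / 100), lt_min hδ₀ (by norm_num), fun lam hnd hfl => ?_⟩
  have hmin : 0 ≤ min δ₀ (1 / 100) := (lt_min hδ₀ (by norm_num)).le
  obtain ⟨b, k, _, hk, _, hkl, _, hkb, _⟩ := h _ lam hmin (min_le_left _ _) hnd hfl
  have hw : ‖w0 m‖ = 3 / 4 := norm_w0 (by omega)
  refine ⟨k, ⟨dd lam (w0 m), hk.mono (by norm_num), fun v hv => ?_, fun v h1 h2 => ⟨?_, ?_⟩⟩⟩
  · exact dd_congr ((ev_lt (r := 9 / 16) (v := v) (by linarith)).mono fun y hy => hkl y hy.le)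
  · refine (hkb v h1).trans ?_
    exact (mul_le_mul_of_nonneg_left (min_le_left _ _) hC.le).trans hCδ
  · have h3 := hfl (w0 m) ⟨by rw [sub_zero, hw]; norm_num, by rw [sub_zero, hw]; norm_num⟩ v
      ⟨by rwa [sub_zero], by rw [sub_zero]; linarith⟩
    exact h3.trans (min_le_right _ _)

end Pool.Agent.Lib.P28s
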