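import Pool.Agent.Lib.P28s.PathRel

set_option autoImplicit false

/-!
# Uniqueness of cuts; the relation `LabEq`

PROOF. `cut_near`: let `c, c'` be the constants of the cuts `k, k'`. By `PathV.seg` it is enough that `(1-t) dd k v + t dd k' v` is a unit.
For `‖v‖ ≤ 1/2` this is `near_seg` (`dd k v = dd lam v`, `dd k' v = dd lam' v`). For `1/2 ≤ ‖v‖ ≤ 1`: write `a ~_ε b` for `‖b - a‖ ‖a⁻¹‖ ≤ ε`. We have `c ~ dd k v`, `c ~ dd lam v`,
`dd lam v ~ dd lam' v`, `c' ~ dd lam' v`, `c' ~ dd k' v`, all with `ε = 1/100`, all units. `~` is symmetric and transitive up to constants: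
`a ~_ε b` gives `b ~_{ε/(1-ε)} a` (`near_inv`: `‖b⁻¹‖ ≤ ‖a⁻¹‖/(1-ε)`), and `a ~_ε b ~_ε' d` gives `a ~_{(1+ε)(1+ε')-1} d` (`‖d - b‖ ‖a⁻¹‖ ≤ ‖d - b‖ ‖b⁻¹‖ (1 + ε)`, as
`‖a⁻¹‖ ≤ ‖b⁻¹‖ (1 + ε)`, `near_inv`). So `c ~ dd k' v` and `c ~ dd k v` with small constants, `near_mid`. For `‖v‖ > 1` the values are the constants, which are the values at a
point of norm `1` by continuity (`continuous_dd`), so this case follows from the previous one. `cut_uniq` is `cut_near` with `lam' = lam`.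
`LabEq.path`: `k ~ k₀ ~ k₀' ~ k'` (`cut_uniq`, `PathV.trans`). The rest is formal.
-/

open MeasureTheory Set Metric
open scoped ContDiff Topology

namespace Pool.Agent.Lib.P28s

open Pool.Agent.Lib.P28f (V EV)

variable {m : ℕ} {lam lam' lam'' k k' : V m → V m}

private theorem ring_est {L L' D c c' : EV m} (hc : IsUnit c) (hc' : IsUnit c')
    (h1 : ‖L - c‖ * ‖Ring.inverse c‖ ≤ 1 / 100)
    (h2 : ‖L' - L‖ * ‖Ring.inverse L‖ ≤ 1 / 100)
    (h3 : ‖L' - c'‖ * ‖Ring.inverse c'‖ ≤ 1 / 100)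
    (h4 : ‖D - c'‖ * ‖Ring.inverse c'‖ ≤ 1 / 100) :
    ‖D - c‖ * ‖Ring.inverse c‖ < 1 ∧ ‖c' - c‖ * ‖Ring.inverse c‖ < 1 := by
  have n1 := near_inv hc h1 (by norm_num)
  have hL : IsUnit L := near_unit hc (lt_of_le_of_lt h1 (by norm_num))
  set α := ‖Ring.inverse c‖ with hα
  set β := ‖Ring.inverse c'‖ with hβ
  have hα0 : 0 ≤ α := norm_nonneg _
  have hβ0 : 0 ≤ β := norm_nonneg _
  have e1 : ‖L' - L‖ * α ≤ 101 / 10000 := by
    calc ‖L' - L‖ * α ≤ ‖L' - L‖ * (‖Ring.inverse L‖ * (1 + 1 / 100)) :=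
          mul_le_mul_of_nonneg_left n1.2 (norm_nonneg _)
      _ = (‖L' - L‖ * ‖Ring.inverse L‖) * (1 + 1 / 100) := by ring
      _ ≤ 1 / 100 * (1 + 1 / 100) := mul_le_mul_of_nonneg_right h2 (by norm_num)
      _ = 101 / 10000 := by norm_num
  have e2 : ‖L' - c‖ * α ≤ 201 / 10000 := by
    have h5 : ‖L' - c‖ ≤ ‖L' - L‖ + ‖L - c‖ := norm_sub_le_norm_sub_add_norm_sub _ _ _
    calc ‖L' - c‖ * α ≤ (‖L' - L‖ + ‖L - c‖) * α := mul_le_mul_of_nonneg_right h5 hα0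
      _ = ‖L' - L‖ * α + ‖L - c‖ * α := by ring
      _ ≤ 201 / 10000 := by linarith
  have n2 := near_inv hc e2 (by norm_num)
  have n3 := near_inv hc' h3 (by norm_num)
  have e3 : α ≤ β * (104 / 100) := by
    have h5 := n2.2
    have h6 := n3.1
    have h7 : β / (1 - 1 / 100) = β * (100 / 99) := by ring
    rw [h7] at h6
    have h8 : ‖Ring.inverse L'‖ * (1 + 201 / 10000) ≤ β * (100 / 99) * (1 + 201 / 10000) :=
      mul_le_mul_of_nonneg_right h6 (by norm_num)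
    nlinarith
  have e4 : ‖D - c'‖ * α ≤ 104 / 10000 := by
    calc ‖D - c'‖ * α ≤ ‖D - c'‖ * (β * (104 / 100)) :=
          mul_le_mul_of_nonneg_left e3 (norm_nonneg _)
      _ = (‖D - c'‖ * β) * (104 / 100) := by ring
      _ ≤ 1 / 100 * (104 / 100) := mul_le_mul_of_nonneg_right h4 (by norm_num)
      _ = 104 / 10000 := by norm_num
  have e5 : ‖L' - c'‖ * α ≤ 104 / 10000 := by
    calc ‖L' - c'‖ * α ≤ ‖L' - c'‖ * (β * (104 / 100)) :=
          mul_le_mul_of_nonneg_left e3 (norm_nonneg _)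
      _ = (‖L' - c'‖ * β) * (104 / 100) := by ring
      _ ≤ 1 / 100 * (104 / 100) := mul_le_mul_of_nonneg_right h3 (by norm_num)
      _ = 104 / 10000 := by norm_num
  have e6 : ‖c' - c‖ * α ≤ 305 / 10000 := by
    have h5 : ‖c' - c‖ ≤ ‖c' - L'‖ + ‖L' - c‖ := norm_sub_le_norm_sub_add_norm_sub _ _ _
    rw [norm_sub_rev c' L'] at h5
    calc ‖c' - c‖ * α ≤ (‖L' - c'‖ + ‖L' - c‖) * α := mul_le_mul_of_nonneg_right h5 hα0
      _ = ‖L' - c'‖ * α + ‖L' - c‖ * α := by ring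
      _ ≤ 305 / 10000 := by linarith
  refine ⟨?_, lt_of_le_of_lt e6 (by norm_num)⟩
  have h5 : ‖D - c‖ ≤ ‖D - c'‖ + ‖c' - c‖ := norm_sub_le_norm_sub_add_norm_sub _ _ _
  calc ‖D - c‖ * α ≤ (‖D - c'‖ + ‖c' - c‖) * α := mul_le_mul_of_nonneg_right h5 hα0
    _ = ‖D - c'‖ * α + ‖c' - c‖ * α := by ring
    _ < 1 := by linarith

theorem cut_near (h : CutOf lam k) (h' : CutOf lam' k')
    (hn : ∀ v, ‖v‖ ≤ 1 → ‖dd lam' v - dd lam v‖ * ‖Ring.inverse (dd lam v)‖ ≤ 1 / 100) :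
    PathV k k' := by
  obtain ⟨c, ho, hi, hr⟩ := h.ex
  obtain ⟨c', ho', hi', hr'⟩ := h'.ex
  have hring : ∀ v : V m, 1 / 2 ≤ ‖v‖ → ‖v‖ ≤ 1 →
      ‖dd k' v - c‖ * ‖Ring.inverse c‖ < 1 ∧ ‖c' - c‖ * ‖Ring.inverse c‖ < 1 := fun v h1 h2 =>
    ring_est ho.cunit ho'.cunit (hr v h1 h2).2 (hn v h2) (hr' v h1 h2).2 (hr' v h1 h2).1
  refine PathV.seg ho ho' fun t ht v => ?_
  by_cases h1 : ‖v‖ ≤ 1 / 2
  · have hu := ho.unit v
    rw [hi v h1] at hu ⊢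
    rw [hi' v h1]
    exact near_seg hu (lt_of_le_of_lt (hn v (by linarith)) (by norm_num)) ht
  · push Not at h1
    by_cases h2 : ‖v‖ ≤ 1
    · exact near_mid ho.cunit (lt_of_le_of_lt (hr v h1.le h2).1 (by norm_num))
        (hring v h1.le h2).1 ht
    · push Not at h2
      rw [ho.dd_out h2, ho'.dd_out h2]
      have hv0 : ‖v‖ ≠ 0 := by linarith
      have hv1 : ‖(‖v‖⁻¹ : ℝ) • v‖ = 1 := by
        rw [norm_smul, norm_inv, norm_norm, inv_mul_cancel₀ hv0]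
      exact near_seg ho.cunit (hring ((‖v‖⁻¹ : ℝ) • v) (by rw [hv1]; norm_num) hv1.le).2 ht

theorem cut_uniq (h : CutOf lam k) (h' : CutOf lam k') : PathV k k' := by
  refine cut_near h h' fun v _ => ?_
  rw [sub_self, norm_zero, zero_mul]
  norm_num

theorem CutOf.congr (h : CutOf lam k) (he : ∀ v, ‖v‖ ≤ 1 → dd lam' v = dd lam v) :
    CutOf lam' k := by
  obtain ⟨c, ho, hi, hr⟩ := h.ex
  refine ⟨c, ho, fun v hv => ?_, fun v h1 h2 => ?_⟩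
  · rw [hi v hv, he v (by linarith)]
  · rw [he v h2]
    exact hr v h1 h2

theorem CutOf.self (h : CutOf lam k) : LabEq lam lam := by
  obtain ⟨c, ho, -, -⟩ := h.ex
  exact ⟨k, k, h, h, PathV.refl ho⟩

theorem LabEq.path (h : LabEq lam lam') (hk : CutOf lam k) (hk' : CutOf lam' k') :
    PathV k k' := by
  obtain ⟨k₀, k₀', h0, h0', hp⟩ := h
  exact (cut_uniq hk h0).trans (hp.trans (cut_uniq h0' hk'))

theorem LabEq.symm (h : LabEq lam lam') : LabEq lam' lam := by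
  obtain ⟨k₀, k₀', h0, h0', hp⟩ := h
  exact ⟨k₀', k₀, h0', h0, hp.symm⟩

theorem LabEq.trans (h : LabEq lam lam') (h' : LabEq lam' lam'') : LabEq lam lam'' := by
  obtain ⟨k₀, k₀', h0, h0', hp⟩ := h
  obtain ⟨k₁, k₁', h1, h1', hp'⟩ := h'
  exact ⟨k₀, k₁', h0, h1', hp.trans ((cut_uniq h0' h1).trans hp')⟩

theorem cut_lc {c : EV m} (hs : Sk c) (hu : IsUnit c) : CutOf (lc c) (lc c) := by
  refine ⟨c, (obj_lc hs hu).mono zero_le_one, fun v _ => rfl, fun v _ _ => ?_⟩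
  rw [dd_lc hs, sub_self, norm_zero, zero_mul]
  norm_num

end Pool.Agent.Lib.P28s
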