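import Pool.Agent.Lib.P28s.Alg

set_option autoImplicit false

/-!
# Lifting a path of non-degenerate skew forms

PROOF. (1) SQUARE ROOTS. Let `c` be a skew unit, `‖M‖ ≤ 1/8` with `c * M = tr M * c`. On the closed set `{X | ‖X‖ ≤ 1/4, c * X = tr X * c}` the map
`X ↦ (1/2) (M - X * X)` is a contraction of factor `1/4` (`c X X = tr X c X = tr X tr X c = tr (X X) c`); its fixed point `X(M)` (`ContractingWith`, or the
limit of the iterates of `0`) satisfies `(1 + X)² = 1 + M`; `‖X(M) - X(M')‖ ≤ ‖M - M'‖/2 + ‖X(M) - X(M')‖/4`, so it is Lipschitz in `M` (the fixed point in the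
ball `‖X‖ ≤ 1/4` does not depend on `c`). `B = 1 + X` is a unit and `tr B * c * B = c * B * B = c (1 + M)`.
(2) For `s t`, `M = c_s⁻¹ c_t - 1` satisfies `c_s M = c_t - c_s`, which is skew, so `tr M c_s = - tr M tr c_s = - tr (c_s M) = c_s M`. By compactness of `[0,1]` there is `N` with `‖c_s⁻¹ c_t - 1‖ ≤ 1/8` for
`s, t ∈ [0,1]`, `|s - t| ≤ 1/N` (`c_s⁻¹` is continuous: `Ring.inverse` is continuous at units, `NormedRing.inverse_continuousAt`).
(3) Induction on `i ≤ N`: there is a continuous `A : ℝ → EV m`, all values units, `A 0 = 1`, `tr (A t) c_0 (A t) = c_t` on `[0, i/N]`: replace `A` by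
`A (min t (i/N)) * B (clamp t)` with `B t = 1 + X(c_{i/N}⁻¹ c_t - 1)`, `t` clamped to `[i/N, (i+1)/N]` (`B (i/N) = 1` since `X(0) = 0`).
-/

open MeasureTheory Set Metric
open scoped ContDiff Topology

namespace Pool.Agent.Lib.P28s

open Pool.Agent.Lib.P28f (V EV)

variable {m : ℕ}

namespace LiftAux

theorem sq_step {M X : EV m} (hM : ‖M‖ ≤ 1 / 8) (hX : ‖X‖ ≤ 1 / 4) :
    ‖(1 / 2 : ℝ) • (M - X * X)‖ ≤ 1 / 4 := by
  rw [norm_smul]
  have h1 : ‖M - X * X‖ ≤ ‖M‖ + ‖X‖ * ‖X‖ :=
    (norm_sub_le _ _).trans (by have := norm_mul_le X X; linarith)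
  have h2 : ‖X‖ * ‖X‖ ≤ 1 / 4 * (1 / 4) := mul_le_mul hX hX (norm_nonneg _) (by norm_num)
  have h3 : ‖(1 / 2 : ℝ)‖ = 1 / 2 := by norm_num
  rw [h3]
  linarith

theorem sq_diff {X Y : EV m} (hX : ‖X‖ ≤ 1 / 4) (hY : ‖Y‖ ≤ 1 / 4) :
    ‖X * X - Y * Y‖ ≤ 1 / 2 * ‖X - Y‖ := by
  have e : X * X - Y * Y = X * (X - Y) + (X - Y) * Y := by
    rw [mul_sub, sub_mul]
    abel
  rw [e]
  refine (norm_add_le _ _).trans ?_
  have h1 := norm_mul_le X (X - Y)
  have h2 := norm_mul_le (X - Y) Y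
  have h0 := norm_nonneg (X - Y)
  nlinarith

theorem root_diff {M M' X X' : EV m} (hX : ‖X‖ ≤ 1 / 4) (hX' : ‖X'‖ ≤ 1 / 4) :
    ‖(1 / 2 : ℝ) • (M - X * X) - (1 / 2 : ℝ) • (M' - X' * X')‖ ≤
      1 / 2 * ‖M - M'‖ + 1 / 4 * ‖X - X'‖ := by
  have e : (1 / 2 : ℝ) • (M - X * X) - (1 / 2 : ℝ) • (M' - X' * X') =
      (1 / 2 : ℝ) • ((M - M') - (X * X - X' * X')) := by
    module
  have h3 : ‖(1 / 2 : ℝ)‖ = 1 / 2 := by norm_num
  rw [e, norm_smul, h3]
  have h1 := norm_sub_le (M - M') (X * X - X' * X')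
  have h2 := sq_diff hX hX'
  linarith

theorem root_lip {M M' X X' : EV m} (hX : ‖X‖ ≤ 1 / 4) (hX' : ‖X'‖ ≤ 1 / 4)
    (h : X = (1 / 2 : ℝ) • (M - X * X)) (h' : X' = (1 / 2 : ℝ) • (M' - X' * X')) :
    ‖X - X'‖ ≤ ‖M - M'‖ := by
  have h1 := root_diff (M := M) (M' := M') hX hX'
  rw [← h, ← h'] at h1
  have := norm_nonneg (M - M')
  linarith

theorem exists_root {M : EV m} (hM : ‖M‖ ≤ 1 / 8) : ∃ X : EV m, ‖X‖ ≤ 1 / 4 ∧
    X = (1 / 2 : ℝ) • (M - X * X) ∧ ∀ c : EV m, c * M = tr M * c → c * X = tr X * c := by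
  obtain ⟨f, hf0, hf⟩ : ∃ f : ℕ → EV m, f 0 = 0 ∧
      ∀ n, f (n + 1) = (1 / 2 : ℝ) • (M - f n * f n) :=
    ⟨fun n => Nat.rec 0 (fun _ X => (1 / 2 : ℝ) • (M - X * X)) n, rfl, fun n => rfl⟩
  have hb : ∀ n, ‖f n‖ ≤ 1 / 4 := by
    intro n
    induction n with
    | zero => rw [hf0, norm_zero]; norm_num
    | succ n ih => rw [hf]; exact sq_step hM ih
  have hd : ∀ n, dist (f n) (f (n + 1)) ≤ 1 / 4 * (1 / 4) ^ n := by
    intro n
    induction n with
    | zero =>
      rw [hf0, dist_zero_left]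
      simpa using hb 1
    | succ n ih =>
      have h1 := root_diff (M := M) (M' := M) (hb n) (hb (n + 1))
      rw [← hf, ← hf, sub_self, norm_zero, mul_zero, zero_add, ← dist_eq_norm,
        ← dist_eq_norm] at h1
      rw [pow_succ]
      linarith
  obtain ⟨X, hX⟩ := cauchySeq_tendsto_of_complete
    (cauchySeq_of_le_geometric (1 / 4 : ℝ) (1 / 4) (by norm_num) hd)
  refine ⟨X, le_of_tendsto hX.norm (Filter.Eventually.of_forall hb), ?_, ?_⟩
  · have h1 : Filter.Tendsto (fun n => f (n + 1)) Filter.atTop (𝓝 X) :=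
      hX.comp (Filter.tendsto_add_atTop_nat 1)
    have h2 : Filter.Tendsto (fun n => f (n + 1)) Filter.atTop
        (𝓝 ((1 / 2 : ℝ) • (M - X * X))) := by
      simp only [hf]
      exact (tendsto_const_nhds.sub (hX.mul hX)).const_smul _
    exact tendsto_nhds_unique h1 h2
  · intro c hc
    have hn : ∀ n, c * f n = tr (f n) * c := by
      intro n
      induction n with
      | zero =>
        have h0 : tr (0 : EV m) = 0 := by
          have := tr_sub (0 : EV m) 0
          rw [sub_self, sub_self] at this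
          exact this
        rw [hf0, h0, mul_zero, zero_mul]
      | succ n ih =>
        rw [hf, tr_smul, tr_sub, tr_mul, mul_smul_comm, smul_mul_assoc, mul_sub, sub_mul, hc]
        congr 2
        rw [← mul_assoc, ih, mul_assoc, ih, mul_assoc]
    have h1 : Filter.Tendsto (fun n => c * f n) Filter.atTop (𝓝 (c * X)) := hX.const_mul c
    have h2 : Filter.Tendsto (fun n => c * f n) Filter.atTop (𝓝 (tr X * c)) := by
      simp only [hn]
      exact ((continuous_tr.tendsto X).comp hX).mul_const c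
    exact tendsto_nhds_unique h1 h2

/-- one step of the lifting -/
theorem step {c : ℝ → EV m} (hc : Continuous c) (hs : ∀ t, Sk (c t)) (hu : ∀ t, IsUnit (c t))
    {a b : ℝ} (ha : 0 ≤ a) (hab : a ≤ b)
    (hnear : ∀ t ∈ Icc a b, ‖Ring.inverse (c a) * c t - 1‖ ≤ 1 / 8)
    (h : ∃ A : ℝ → EV m, Continuous A ∧ A 0 = 1 ∧ (∀ t, IsUnit (A t)) ∧
      ∀ t ∈ Icc (0 : ℝ) a, tr (A t) * c 0 * A t = c t) :
    ∃ A : ℝ → EV m, Continuous A ∧ A 0 = 1 ∧ (∀ t, IsUnit (A t)) ∧
      ∀ t ∈ Icc (0 : ℝ) b, tr (A t) * c 0 * A t = c t := by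
  obtain ⟨A, hA, hA0, hAu, hAc⟩ := h
  set cl : ℝ → ℝ := fun t => max a (min t b) with hcl
  have hclm : ∀ t, cl t ∈ Icc a b := fun t => ⟨le_max_left _ _, max_le hab (min_le_right _ _)⟩
  set M : ℝ → EV m := fun t => Ring.inverse (c a) * c (cl t) - 1 with hM
  have hMn : ∀ t, ‖M t‖ ≤ 1 / 8 := fun t => hnear _ (hclm t)
  have hclc : Continuous cl := by
    rw [hcl]
    fun_prop
  have hMc : Continuous M := (continuous_const.mul (hc.comp hclc)).sub continuous_const
  have hcom : ∀ t, c a * M t = tr (M t) * c a := by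
    intro t
    have e1 : c a * M t = c (cl t) - c a := by
      rw [hM]
      simp only
      rw [mul_sub, mul_one, ← mul_assoc, Ring.mul_inverse_cancel _ (hu a), one_mul]
    have e2 : Sk (c a * M t) := by
      rw [e1]
      exact (hs _).sub (hs _)
    have e3 := e2
    unfold Sk at e3
    rw [tr_mul, (hs a : tr (c a) = -c a)] at e3
    have e4 : tr (M t) * -c a = -(tr (M t) * c a) := by
      ext x i
      simp
    rw [e4] at e3
    have e5 := congrArg (fun z : EV m => -z) e3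
    simp only [neg_neg] at e5
    exact e5.symm
  choose X hX1 hX2 hX3 using fun t => exists_root (hMn t)
  have hXc : Continuous X := by
    rw [continuous_iff_continuousAt]
    intro t
    have h1 : Filter.Tendsto (fun s => ‖M s - M t‖) (𝓝 t) (𝓝 0) := by
      have := (hMc.tendsto t).sub_const (M t)
      rw [sub_self] at this
      simpa using this.norm
    have h2 : Filter.Tendsto (fun s => ‖X s - X t‖) (𝓝 t) (𝓝 0) :=
      squeeze_zero (fun _ => norm_nonneg _)
        (fun s => root_lip (hX1 s) (hX1 t) (hX2 s) (hX2 t)) h1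
    exact tendsto_iff_norm_sub_tendsto_zero.mpr h2
  have hX0 : ∀ t, cl t = a → X t = 0 := by
    intro t ht
    have hMt : M t = 0 := by
      rw [hM]
      simp only
      rw [ht, Ring.inverse_mul_cancel _ (hu a), sub_self]
    have h1 := root_lip (M := M t) (M' := 0) (X' := 0) (hX1 t) (by rw [norm_zero]; norm_num)
      (hX2 t) (by simp)
    rw [hMt, sub_self, norm_zero, sub_zero] at h1
    exact norm_le_zero_iff.mp h1
  have hsq : ∀ t, tr (1 + X t) * c a * (1 + X t) = c (cl t) := by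
    intro t
    have h1 := hX3 t (c a) (hcom t)
    have e1 : tr (1 + X t) * c a = c a * (1 + X t) := by
      rw [tr_add, tr_one, add_mul, one_mul, ← h1, mul_add, mul_one]
    have e2 : (1 + X t) * (1 + X t) = 1 + M t := by
      have h2 := hX2 t
      have h3 : X t + X t = M t - X t * X t := by
        conv_lhs => rw [h2]
        rw [← add_smul]
        norm_num
      have e3 : (1 + X t) * (1 + X t) = 1 + (X t + X t) + X t * X t := by
        rw [add_mul, one_mul, mul_add, mul_one]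
        abel
      rw [e3, h3]
      abel
    rw [e1, mul_assoc, e2, hM]
    simp only
    rw [add_sub_cancel, ← mul_assoc, Ring.mul_inverse_cancel _ (hu a), one_mul]
  have hXu : ∀ t, IsUnit (1 + X t) := by
    intro t
    have h1 : ‖-X t‖ < 1 := by
      rw [norm_neg]
      linarith [hX1 t]
    have h2 := isUnit_one_sub_of_norm_lt_one h1
    rwa [sub_neg_eq_add] at h2
  have hcl0 : ∀ t, t ≤ a → cl t = a := by
    intro t ht
    rw [hcl]
    simp only
    exact max_eq_left ((min_le_left _ _).trans ht)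
  refine ⟨fun t => A (min t a) * (1 + X t), ?_, ?_, ?_, ?_⟩
  · exact (hA.comp (continuous_id.min continuous_const)).mul (continuous_const.add hXc)
  · simp only
    rw [min_eq_left ha, hA0, hX0 0 (hcl0 0 ha), add_zero, mul_one]
  · intro t
    exact (hAu _).mul (hXu t)
  · intro t ht
    simp only
    rw [tr_mul]
    have e : tr (1 + X t) * tr (A (min t a)) * c 0 * (A (min t a) * (1 + X t)) =
        tr (1 + X t) * (tr (A (min t a)) * c 0 * A (min t a)) * (1 + X t) := by
      simp only [mul_assoc]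
    rw [e, hAc _ ⟨le_min ht.1 ha, min_le_right _ _⟩]
    rcases le_total t a with hta | hta
    · rw [min_eq_left hta, hX0 t (hcl0 t hta), add_zero, tr_one, one_mul, mul_one]
    · rw [min_eq_right hta, hsq]
      congr 1
      rw [hcl]
      simp only
      rw [min_eq_left ht.2, max_eq_right hta]

end LiftAux

theorem lift {c : ℝ → EV m} (hc : Continuous c) (hs : ∀ t, Sk (c t)) (hu : ∀ t, IsUnit (c t)) :
    ∃ A : ℝ → EV m, Continuous A ∧ A 0 = 1 ∧ (∀ t, IsUnit (A t)) ∧
      ∀ t ∈ Icc (0 : ℝ) 1, tr (A t) * c 0 * A t = c t := by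
  have hinv : Continuous fun t => Ring.inverse (c t) := by
    rw [continuous_iff_continuousAt]
    intro t
    obtain ⟨u, hu'⟩ := hu t
    have h1 := NormedRing.inverse_continuousAt u
    rw [hu'] at h1
    exact ContinuousAt.comp (f := c) (x := t) h1 hc.continuousAt
  set g : ℝ × ℝ → EV m := fun p => Ring.inverse (c p.1) * c p.2 - 1 with hg
  have hgc : Continuous g :=
    ((hinv.comp continuous_fst).mul (hc.comp continuous_snd)).sub continuous_const
  have hK : IsCompact (Icc (0 : ℝ) 1 ×ˢ Icc (0 : ℝ) 1) := isCompact_Icc.prod isCompact_Icc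
  have huc := hK.uniformContinuousOn_of_continuous hgc.continuousOn
  rw [Metric.uniformContinuousOn_iff] at huc
  obtain ⟨δ, hδ, hδ'⟩ := huc (1 / 8) (by norm_num)
  have hnear : ∀ s ∈ Icc (0 : ℝ) 1, ∀ t ∈ Icc (0 : ℝ) 1, |t - s| < δ →
      ‖Ring.inverse (c s) * c t - 1‖ ≤ 1 / 8 := by
    intro s hs1 t ht1 hst
    have h1 := hδ' (s, t) ⟨hs1, ht1⟩ (s, s) ⟨hs1, hs1⟩ (by
      rw [Prod.dist_eq, dist_self, Real.dist_eq]
      exact max_lt hδ hst)
    have h2 : g (s, s) = 0 := by
      rw [hg]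
      simp only
      rw [Ring.inverse_mul_cancel _ (hu s), sub_self]
    rw [h2, dist_zero_right] at h1
    exact h1.le
  obtain ⟨N, hN⟩ := exists_nat_gt (1 / δ)
  have hN0 : (0 : ℝ) < N := lt_trans (by positivity) hN
  have hNδ : 1 / (N : ℝ) < δ := by
    rw [div_lt_iff₀ hN0]
    rw [div_lt_iff₀ hδ] at hN
    linarith
  have key : ∀ i : ℕ, i ≤ N → ∃ A : ℝ → EV m, Continuous A ∧ A 0 = 1 ∧ (∀ t, IsUnit (A t)) ∧
      ∀ t ∈ Icc (0 : ℝ) (i / N), tr (A t) * c 0 * A t = c t := by
    intro i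
    induction i with
    | zero =>
      intro _
      refine ⟨fun _ => 1, continuous_const, rfl, fun _ => isUnit_one, fun t ht => ?_⟩
      have ht0 : t = 0 := by
        have h1 := ht.2
        simp only [Nat.cast_zero, zero_div] at h1
        exact le_antisymm h1 ht.1
      rw [ht0, tr_one, one_mul, mul_one]
    | succ i ih =>
      intro hi
      have h1 : (i : ℝ) / N ≤ ((i + 1 : ℕ) : ℝ) / N := by
        push_cast
        gcongr
        linarith
      have h2 : ((i + 1 : ℕ) : ℝ) / N ≤ 1 := by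
        rw [div_le_one hN0]
        exact_mod_cast hi
      have h3 : ((i + 1 : ℕ) : ℝ) / N - i / N = 1 / N := by
        push_cast
        ring
      have h4 : (0 : ℝ) ≤ (i : ℝ) / N := by positivity
      refine LiftAux.step hc hs hu h4 h1 ?_ (ih (by omega))
      intro t ht
      refine hnear _ ⟨h4, h1.trans h2⟩ t ⟨h4.trans ht.1, ht.2.trans h2⟩ ?_
      rw [abs_of_nonneg (by linarith [ht.1])]
      linarith [ht.2]
  have h := key N le_rfl
  rwa [div_self hN0.ne'] at h

end Pool.Agent.Lib.P28s
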