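import Pool.Agent.Lib.P28s.Trv

set_option autoImplicit false

/-!
# The symplectic group is connected

PROOF. Write `ω = om c`. Call a subspace `W` of `V m` good if every vector has a correction: `∀ z, ∃ p ∈ W, ∀ w ∈ W, ω w (z - p) = 0` (so `V = W + W^⊥`). CLAIM: for every `k` and every good `W` with `finrank W ≥ m - k` and every `S` with `Pr c S` that fixes `W` pointwise, `JSp c S`. Induction on `k` (or strong
induction on `m - finrank W`). If `W = ⊤` then `S = 1`. Otherwise there is `z ∉ W`; `x = z - p ≠ 0` is orthogonal to `W`. Non-degeneracy: some `z₂` with `ω x z₂ ≠ 0`; its correction `y = z₂ - p₂` satisfies `ω x y = ω x z₂ ≠ 0` (`ω x p₂ = - ω p₂ x = 0`). `S x` is orthogonal to `W`: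
`ω w (S x) = ω (S w) (S x) = ω w x = 0`, and `S x ≠ 0` (`Pr.isUnit`). `move2` (with the set `W`; `hW` from goodness with `z' = z - p`: for `u` orthogonal to `W`, `ω u z' = ω u z - ω u p = ω u z` as `ω u p = - ω p u = 0`) gives `T₁` with `JSp c T₁`, `T₁ (S x) = x`, `T₁ w = w`. Put `S₁ = T₁ S`:
`Pr c S₁`, `S₁ x = x`, `S₁` fixes `W`. `z = S₁ y` satisfies `ω x z = ω (S₁ x) (S₁ y) = ω x y ≠ 0` and is orthogonal to `W`. `move3` (fixing `x`, `z ↦ y`) gives `T₂` with `T₂ z = y`, `T₂ x = x`, `T₂ w = w`. `S₂ = T₂ S₁` fixes `W' = W ⊔ span {x, y}` pointwise.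
`W'` is good: for a vector `z` with `p` its correction in `W` put `u = z - p`, `p' = p + (ω u y / ω x y) x + (ω x u / ω x y) y`: for `w ∈ W`: `ω w (z - p') = 0`; `ω x (z - p') = ω x u - (ω x u / ω x y) ω x y = 0`;
`ω y (z - p') = ω y u - (ω u y / ω x y) ω y x = - ω u y + ω u y = 0`. `finrank W' > finrank W` (`x ∉ W`: if `x ∈ W` then `ω x x' = 0` for the vector `y` orthogonal to `W`, contradiction with `ω x y ≠ 0`). By induction `JSp c S₂`, and `S = T₁⁻¹ T₂⁻¹ S₂` (`JSp.inv`, `JSp.mul`).
Start: `W = ⊥` is good (`p = 0`).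
-/

open MeasureTheory Set Metric
open scoped ContDiff Topology

namespace Pool.Agent.Lib.P28s

open Pool.Agent.Lib.P28f (V EV ann w0 Light)

variable {m : ℕ}

namespace SpConnAux

/-- every vector has a correction in `W` -/
def Good (c : EV m) (W : Submodule ℝ (V m)) : Prop :=
  ∀ z, ∃ p ∈ W, ∀ w ∈ W, om c w (z - p) = 0

theorem om_neg_right (c : EV m) (x y : V m) : om c x (-y) = -om c x y := by
  have h := om_smul_right c (-1) x y
  rw [neg_one_smul] at h
  rw [h]
  ring

theorem om_sub_right (c : EV m) (x y z : V m) : om c x (y - z) = om c x y - om c x z := by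
  rw [sub_eq_add_neg, om_add_right, om_neg_right]
  ring

theorem om_zero_left (c : EV m) (y : V m) : om c 0 y = 0 := by
  have h := om_smul_left c 0 0 y
  rw [zero_smul, zero_mul] at h
  exact h

/-- the vectors which are orthogonal to a given one -/
def orth (c : EV m) (z : V m) : Submodule ℝ (V m) where
  carrier := {w | om c w z = 0}
  zero_mem' := om_zero_left c z
  add_mem' := by
    intro a b ha hb
    have ha' : om c a z = 0 := ha
    have hb' : om c b z = 0 := hb
    show om c (a + b) z = 0
    rw [om_add_left, ha', hb', add_zero]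
  smul_mem' := by
    intro r a ha
    have ha' : om c a z = 0 := ha
    show om c (r • a) z = 0
    rw [om_smul_left, ha', mul_zero]

/-- the fixed vectors -/
def fixd (S : EV m) : Submodule ℝ (V m) where
  carrier := {w | S w = w}
  zero_mem' := map_zero S
  add_mem' := by
    intro a b ha hb
    have ha' : S a = a := ha
    have hb' : S b = b := hb
    show S (a + b) = a + b
    rw [map_add, ha', hb']
  smul_mem' := by
    intro r a ha
    have ha' : S a = a := ha
    show S (r • a) = r • a
    rw [map_smul, ha']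

theorem good_step {c : EV m} (hc : Sk c) {W : Submodule ℝ (V m)} (hW : Good c W) {x y : V m}
    (hx : ∀ w ∈ W, om c w x = 0) (hy : ∀ w ∈ W, om c w y = 0) (hxy : om c x y ≠ 0) :
    Good c (W ⊔ Submodule.span ℝ {x, y}) := by
  intro z
  obtain ⟨p, hp, hpw⟩ := hW z
  set u : V m := z - p with hu
  set a : ℝ := om c u y / om c x y with ha
  set b : ℝ := om c x u / om c x y with hb
  refine ⟨p + (a • x + b • y), ?_, ?_⟩
  · refine Submodule.add_mem_sup hp ?_
    refine Submodule.add_mem _ (Submodule.smul_mem _ _ (Submodule.subset_span ?_))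
      (Submodule.smul_mem _ _ (Submodule.subset_span ?_)) <;> simp
  · have hz : z - (p + (a • x + b • y)) = u - (a • x + b • y) := by
      rw [hu]
      abel
    have key : W ⊔ Submodule.span ℝ {x, y} ≤ orth c (z - (p + (a • x + b • y))) := by
      rw [hz]
      refine sup_le ?_ (Submodule.span_le.2 ?_)
      · intro w hw
        show om c w (u - (a • x + b • y)) = 0
        rw [om_sub_right, om_add_right, om_smul_right, om_smul_right, hpw w hw, hx w hw, hy w hw]
        ring
      · intro w hw
        rcases hw with rfl | hw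
        · show om c w (u - (a • w + b • y)) = 0
          rw [om_sub_right, om_add_right, om_smul_right, om_smul_right, om_self hc, hb]
          field_simp
          ring
        · have hw' : w = y := hw
          subst hw'
          show om c w (u - (a • x + b • w)) = 0
          rw [om_sub_right, om_add_right, om_smul_right, om_smul_right, om_self hc, ha,
            om_anti hc w u, om_anti hc w x]
          field_simp
          ring
    intro w hw
    exact key hw

theorem key {c : EV m} (hc : Sk c) (hu : IsUnit c) : ∀ (k : ℕ) (W : Submodule ℝ (V m)),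
    Good c W → m ≤ Module.finrank ℝ W + k → ∀ S : EV m, Pr c S → (∀ w ∈ W, S w = w) → JSp c S := by
  intro k
  induction k with
  | zero =>
    intro W _ hk S _ hSW
    have hWt : W = ⊤ := by
      apply Submodule.eq_top_of_finrank_eq
      have h1 : Module.finrank ℝ W ≤ Module.finrank ℝ (V m) := Submodule.finrank_le W
      have h2 : Module.finrank ℝ (V m) = m := by simp
      omega
    have hS1 : S = 1 := by
      ext1 w
      exact hSW w (by rw [hWt]; exact Submodule.mem_top)
    rw [hS1]
    exact JSp.one c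
  | succ k ih =>
    intro W hW hk S hS hSW
    by_cases hWt : W = ⊤
    · have hS1 : S = 1 := by
        ext1 w
        exact hSW w (by rw [hWt]; exact Submodule.mem_top)
      rw [hS1]
      exact JSp.one c
    obtain ⟨z, hz⟩ : ∃ z, z ∉ W := by
      by_contra hcon
      apply hWt
      rw [eq_top_iff]
      intro z _
      by_contra hz
      exact hcon ⟨z, hz⟩
    obtain ⟨p, hp, hpw⟩ := hW z
    set x : V m := z - p with hx
    have hx0 : x ≠ 0 := by
      intro h0
      apply hz
      rw [sub_eq_zero.1 h0]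
      exact hp
    obtain ⟨z₂, hz₂⟩ := om_nondeg hu hx0
    obtain ⟨p₂, hp₂, hp₂w⟩ := hW z₂
    set y : V m := z₂ - p₂ with hy
    have hxy : om c x y ≠ 0 := by
      rw [hy, om_sub_right, om_anti hc x p₂, hpw p₂ hp₂, neg_zero, sub_zero]
      exact hz₂
    have hSx : ∀ w ∈ W, om c w (S x) = 0 := by
      intro w hw
      have h1 := (pr_iff c S).1 hS w x
      rw [hSW w hw, hpw w hw] at h1
      exact h1
    have hSx0 : S x ≠ 0 := by
      intro h0
      apply hx0
      have h1 : (Ring.inverse S * S) x = x := by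
        rw [Ring.inverse_mul_cancel S (Pr.isUnit hu hS)]
        rfl
      have h2 : (Ring.inverse S * S) x = Ring.inverse S (S x) := rfl
      rw [h2, h0, map_zero] at h1
      exact h1.symm
    have hcor : ∀ z, ∃ z', (∀ w ∈ (W : Set (V m)), om c w z' = 0) ∧
        ∀ u, (∀ w ∈ (W : Set (V m)), om c w u = 0) → om c u z' = om c u z := by
      intro z
      obtain ⟨q, hq, hqw⟩ := hW z
      refine ⟨z - q, hqw, ?_⟩
      intro u hu'
      rw [om_sub_right, om_anti hc u q, hu' q hq, neg_zero, sub_zero]
    obtain ⟨T₁, hT₁, hT₁x, hT₁w⟩ := move2 hc hu hcor (x := S x) (y := x) hSx hpw hSx0 hx0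
    have hS₁ : Pr c (T₁ * S) := hT₁.pr.mul hS
    have hS₁x : (T₁ * S) x = x := hT₁x
    have hS₁w : ∀ w ∈ W, (T₁ * S) w = w := by
      intro w hw
      show T₁ (S w) = w
      rw [hSW w hw]
      exact hT₁w w hw
    set S₁ : EV m := T₁ * S with hS₁d
    have hxy₁ : om c x (S₁ y) = om c x y := by
      have h1 := (pr_iff c S₁).1 hS₁ x y
      rw [hS₁x] at h1
      exact h1
    have hS₁y : ∀ w ∈ W, om c w (S₁ y) = 0 := by
      intro w hw
      have h1 := (pr_iff c S₁).1 hS₁ w y
      rw [hS₁w w hw, hp₂w w hw] at h1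
      exact h1
    obtain ⟨T₂, hT₂, hT₂x, hT₂z, hT₂w⟩ := move3 hc (W := (W : Set (V m))) (x := x) (z := S₁ y)
      (w' := y) hpw hS₁y hp₂w hxy₁ (by rw [hxy₁]; exact hxy)
    have hS₂ : Pr c (T₂ * S₁) := hT₂.pr.mul hS₁
    have hfix : W ⊔ Submodule.span ℝ {x, y} ≤ fixd (T₂ * S₁) := by
      refine sup_le ?_ (Submodule.span_le.2 ?_)
      · intro w hw
        show T₂ (S₁ w) = w
        rw [hS₁w w hw]
        exact hT₂w w hw
      · intro w hw
        rcases hw with rfl | hw
        · show T₂ (S₁ _) = _
          rw [hS₁x]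
          exact hT₂x
        · have hw' : w = y := hw
          rw [hw']
          show T₂ (S₁ y) = y
          exact hT₂z
    have hlt : W < W ⊔ Submodule.span ℝ {x, y} := by
      refine lt_of_le_of_ne le_sup_left ?_
      intro heq
      have hxW : x ∈ W := by
        rw [heq]
        exact Submodule.mem_sup_right (Submodule.subset_span (by simp))
      exact hxy (hp₂w x hxW)
    have hrank := Submodule.finrank_lt_finrank_of_lt hlt
    have hJ : JSp c (T₂ * S₁) :=
      ih (W ⊔ Submodule.span ℝ {x, y}) (good_step hc hW hpw hp₂w hxy) (by omega) (T₂ * S₁) hS₂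
        (fun w hw => hfix hw)
    have hT₁u := Pr.isUnit hu hT₁.pr
    have hT₂u := Pr.isUnit hu hT₂.pr
    have hSeq : S = Ring.inverse T₁ * (Ring.inverse T₂ * (T₂ * S₁)) := by
      rw [← mul_assoc (Ring.inverse T₂), Ring.inverse_mul_cancel T₂ hT₂u, one_mul, hS₁d,
        ← mul_assoc, Ring.inverse_mul_cancel T₁ hT₁u, one_mul]
    rw [hSeq]
    exact (hT₁.inv hu).mul ((hT₂.inv hu).mul hJ)

end SpConnAux

open SpConnAux

theorem SpConnAux.sp_conn' {c S : EV m} (hc : Sk c) (hu : IsUnit c) (hS : tr S * c * S = c) :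
    ∃ P : ℝ → EV m, Continuous P ∧ P 0 = 1 ∧ P 1 = S ∧ ∀ t, tr (P t) * c * P t = c := by
  refine SpConnAux.key hc hu m ⊥ ?_ (by omega) S hS ?_
  · intro z
    refine ⟨0, Submodule.zero_mem _, ?_⟩
    intro w hw
    rw [(Submodule.mem_bot ℝ).1 hw]
    exact om_zero_left c _
  · intro w hw
    rw [(Submodule.mem_bot ℝ).1 hw, map_zero]

theorem sp_conn {c S : EV m} (hs : Sk c) (hu : IsUnit c) (hS : tr S * c * S = c) :
    ∃ A : ℝ → EV m, Continuous A ∧ A 0 = 1 ∧ A 1 = S ∧
      ∀ t, IsUnit (A t) ∧ tr (A t) * c * A t = c := by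
  obtain ⟨P, h1, h2, h3, h4⟩ := SpConnAux.sp_conn' hs hu hS
  exact ⟨P, h1, h2, h3, fun t => ⟨Pr.isUnit hu (h4 t), h4 t⟩⟩

end Pool.Agent.Lib.P28s
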