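import Pool.Agent.Lib.P28s.PathRel
import Pool.Agent.Lib.P28s.Lift
import Pool.Agent.Lib.P28s.SpConn

set_option autoImplicit false

/-!
# Normalising the constant at infinity along a path

PROOF. `pathC_of_pathV`: let `K, c, R` be the path; `c 0` and `c 1` are the constants of `k` and `k'` (`Obj.unique`). Let `A` be the lift of the path `t ↦ c (τ t)`, `τ` the
clamp to `[0,1]` (`lift`), `B t = Ring.inverse (A (τ t))`; `tr (B t) (c (τ t)) (B t) = c 0` (`tr_mul`, `tr_inverse`). The family
`t ↦ pl (B t) (K (τ t))` has constant `c 0` (`Obj.pl`), radius `sup ‖A (τ t)‖ |R|` (continuous, only `[0,1]` matters), and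
`dd (pl (B t) (K (τ t))) x = tr (B t) * dd (K (τ t)) (B t x) * B t` is jointly continuous (`dd_pl`, `continuous_tr`, inversion is continuous at units).
It starts at `pl 1 k = k` and ends at `pl (B 1) k'`. The matrix of the statement is `B 1`.
`pathC_sp`: `sp_conn` gives `A` with `A 0 = 1`, `A 1 = S`; the family `t ↦ pl (A (τ t)) k` has constant `c` and radius `sup ‖(A (τ t))⁻¹‖ |R|`.
-/

open MeasureTheory Set Metric
open scoped ContDiff Topology

namespace Pool.Agent.Lib.P28s

open Pool.Agent.Lib.P28f (V EV)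

variable {m : ℕ} {c c' : EV m} {R R' : ℝ} {k k' : V m → V m}

namespace NormlAux

/-- the clamp to the unit interval -/
noncomputable def tau (t : ℝ) : ℝ := max 0 (min 1 t)

theorem continuous_tau : Continuous tau :=
  continuous_const.max (continuous_const.min continuous_id)

theorem tau_mem (t : ℝ) : tau t ∈ Icc (0 : ℝ) 1 :=
  ⟨le_max_left _ _, max_le zero_le_one (min_le_left _ _)⟩

theorem tau_of_mem {t : ℝ} (ht : t ∈ Icc (0 : ℝ) 1) : tau t = t := by
  rw [tau, min_eq_right ht.2, max_eq_right ht.1]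

theorem tau_zero : tau 0 = 0 := tau_of_mem ⟨le_rfl, zero_le_one⟩

theorem tau_one : tau 1 = 1 := tau_of_mem ⟨zero_le_one, le_rfl⟩

theorem continuous_inverse {B : ℝ → EV m} (hB : Continuous B) (hu : ∀ t, IsUnit (B t)) :
    Continuous fun t => Ring.inverse (B t) := by
  rw [continuous_iff_continuousAt]
  intro t
  obtain ⟨u, hu'⟩ := hu t
  have h1 : ContinuousAt Ring.inverse (B t) := by
    rw [← hu']
    exact NormedRing.inverse_continuousAt u
  exact ContinuousAt.comp (f := B) (g := Ring.inverse) h1 hB.continuousAt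

theorem continuous_dd_pl {B : ℝ → EV m} (hB : Continuous B) {K : ℝ → V m → V m}
    (hK : ∀ t, ContDiff ℝ ∞ (K t)) (hdd : Continuous fun p : ℝ × V m => dd (K p.1) p.2) :
    Continuous fun p : ℝ × V m => dd (pl (B p.1) (K p.1)) p.2 := by
  have h1 : (fun p : ℝ × V m => dd (pl (B p.1) (K p.1)) p.2) = fun p : ℝ × V m =>
      tr (B p.1) * dd (K p.1) (B p.1 p.2) * B p.1 := by
    funext p
    exact dd_pl (B p.1) ((hK p.1).differentiable (by simp) _)
  rw [h1]
  have hB' : Continuous fun p : ℝ × V m => B p.1 := hB.comp continuous_fst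
  have h2 : Continuous fun p : ℝ × V m => (p.1, B p.1 p.2) :=
    continuous_fst.prodMk (hB'.clm_apply continuous_snd)
  exact ((continuous_tr.comp hB').mul (hdd.comp h2)).mul hB'

theorem conj_inverse {A a b : EV m} (hA : IsUnit A) (h : tr A * a * A = b) :
    tr (Ring.inverse A) * b * Ring.inverse A = a := by
  have h1 : A * Ring.inverse A = 1 := Ring.mul_inverse_cancel A hA
  have h2 : tr (Ring.inverse A) * tr A = 1 := by
    rw [← tr_mul, h1, tr_one]
  calc tr (Ring.inverse A) * b * Ring.inverse A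
      = (tr (Ring.inverse A) * tr A) * a * (A * Ring.inverse A) := by
        rw [← h]; simp only [mul_assoc]
    _ = a := by rw [h1, h2, one_mul, mul_one]

end NormlAux

open NormlAux

theorem pathC_of_pathV (h : Obj c R k) (h' : Obj c' R' k') (hp : PathV k k') :
    ∃ (A : EV m) (r : ℝ), IsUnit A ∧ tr A * c' * A = c ∧ PathC c r k (pl A k') := by
  obtain ⟨K, cc, RR, hK, hcc, hdd, hK0, hK1⟩ := hp
  have hc0 : cc 0 = c := (hK 0).unique (hK0 ▸ h)
  have hc1 : cc 1 = c' := (hK 1).unique (hK1 ▸ h')
  obtain ⟨A, hAc, hA0, hAu, hA⟩ := lift (c := fun t => cc (tau t)) (hcc.comp continuous_tau)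
    (fun t => (hK (tau t)).sk) (fun t => (hK (tau t)).cunit)
  have hB : Continuous fun t => Ring.inverse (A (tau t)) :=
    continuous_inverse (hAc.comp continuous_tau) fun t => hAu _
  have hconj : ∀ t, tr (Ring.inverse (A (tau t))) * cc (tau t) * Ring.inverse (A (tau t)) = c := by
    intro t
    have h1 := hA (tau t) (tau_mem t)
    simp only [tau_zero, tau_of_mem (tau_mem t), hc0] at h1
    exact conj_inverse (hAu _) h1
  obtain ⟨C, hC⟩ := (isCompact_Icc (a := (0 : ℝ)) (b := 1)).exists_bound_of_continuousOn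
    hAc.continuousOn
  refine ⟨Ring.inverse (A (tau 1)), C * |RR|, (hAu _).ringInverse, ?_,
    fun t => pl (Ring.inverse (A (tau t))) (K (tau t)), ?_, ?_, ?_, ?_⟩
  · have h1 := hconj 1
    rw [tau_one, hc1] at h1
    rw [tau_one]
    exact h1
  · intro t
    have h1 := (hK (tau t)).pl (hAu (tau t)).ringInverse
    rw [hconj t] at h1
    refine h1.mono ?_
    have h2 : Ring.inverse (Ring.inverse (A (tau t))) = A (tau t) := by
      obtain ⟨u, hu⟩ := hAu (tau t)
      rw [← hu, Ring.inverse_unit, Ring.inverse_unit, inv_inv]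
    rw [h2]
    exact mul_le_mul_of_nonneg_right (hC _ (tau_mem t)) (abs_nonneg _)
  · refine continuous_dd_pl hB (K := fun t => K (tau t)) (fun t => (hK _).smooth) ?_
    exact hdd.comp ((continuous_tau.comp continuous_fst).prodMk continuous_snd)
  · change pl (Ring.inverse (A (tau 0))) (K (tau 0)) = k
    rw [tau_zero, hA0, Ring.inverse_one, pl_one, hK0]
  · change pl (Ring.inverse (A (tau 1))) (K (tau 1)) = pl (Ring.inverse (A (tau 1))) k'
    rw [tau_one, hK1]

theorem pathC_sp {S : EV m} (h : Obj c R k) (hS : tr S * c * S = c) :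
    ∃ r : ℝ, PathC c r k (pl S k) := by
  obtain ⟨A, hAc, hA0, hA1, hA⟩ := sp_conn h.sk h.cunit hS
  have hB : Continuous fun t => Ring.inverse (A t) := continuous_inverse hAc fun t => (hA t).1
  obtain ⟨C, hC⟩ := (isCompact_Icc (a := (0 : ℝ)) (b := 1)).exists_bound_of_continuousOn
    hB.continuousOn
  refine ⟨C * |R|, fun t => pl (A (tau t)) k, ?_, ?_, ?_, ?_⟩
  · intro t
    have h1 := h.pl (hA (tau t)).1
    rw [(hA (tau t)).2] at h1
    exact h1.mono (mul_le_mul_of_nonneg_right (hC _ (tau_mem t)) (abs_nonneg _))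
  · refine continuous_dd_pl (hAc.comp continuous_tau) (K := fun _ => k) (fun _ => h.smooth) ?_
    exact (continuous_dd h.smooth).comp continuous_snd
  · change pl (A (tau 0)) k = k
    rw [tau_zero, hA0, pl_one]
  · change pl (A (tau 1)) k = pl S k
    rw [tau_one, hA1]

end Pool.Agent.Lib.P28s
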