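import Pool.Agent.Lib.P28s.AmbIns
import Pool.Agent.Lib.P28s.CutL
import Pool.Agent.Lib.P28s.CutUniq
import Pool.Agent.Lib.P28s.Norml

set_option autoImplicit false

/-!
# Splitting a form into an outer form and bubbles

PROOF. `δ₀, C` from `cut_exists`, `δ₁ = min δ₀ (min η (1/100) / (C + 1))`. For each `i` the form `lam_i = M.res i x` is smooth and non-degenerate for `‖v‖ < 5/4` and
`δ₁`-flat on the ring: `b_i, k_i`, with `c_i = dd lam_i (w0)`. Put `H = x + ∑ i, ext i (b_i)` and `g_i v = b_i v - (k_i v - lc c_i v)` (`Md`: `k_i - lc c_i` vanishes for `‖v‖ ≥ 11/16`),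
`o = x + ∑ ext i (g_i)`. `res i H = lam_i + b_i` and `res i o = lam_i + b_i - k_i + lc c_i` for `‖v‖ < 5/4` (`res_sum`), so `res i o = lc c_i` for `‖v‖ < 13/16`, and `res i o = res i H` for
`‖v‖ ≥ 11/16`. `dd (res i H) v`: for `‖v‖ < 9/16` it is `dd lam_i v`; for `1/2 ≤ ‖v‖ ≤ 1` within `C δ₁` of `c_i`; for `15/16 < ‖v‖` it is `dd lam_i v`. So `ND H`, `ND o`, and
`Seg x H`: `(1-t) x + t H = x + ∑ ext i (t b_i)`, `dd = (1-t) dd lam_i v + t dd (lam_i + b_i) v`, for `1/2 ≤ ‖v‖ ≤ 1` both are near `c_i` (`near_mid`; `dd lam_i v` by flatness at `w0`).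
The last claim of the theorem: for `‖v‖ < 13/16` `dd (res i o) v = c_i`, for `11/16 < ‖v‖ ≤ 1` it is `dd (lam_i + b_i) v`.
`H = M.put o k c 1` (`sc_one`, linearity). `M.Eqv (put o k c 1) (put o k c e)` for `0 < e ≤ 1` by `ins_pathC` with the paths `sc_path` (radius `11/16`, scale `1`): here `put o (sc e k) c 1 = put o k c e`
(`sc_sc`, `sc_one`). `k_i` is a cut of `lam_i` (constant `c_i`), so `PathV (k_i) (kb i)` and `pathC_of_pathV` gives `A_i, r_i` with `tr A_i cb_i A_i = c_i` and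
`PathC c_i r_i k_i (pl A_i kb_i)`: `ins_pathC` for `e r_i ≤ 3/4`: `Eqv (put o k c e) (put o (pl A kb) c e)`, and the last form is `M.fill cb kb o A e`. `e₀ = min 1 (min_i 3/(4 (|r_i| + 1)))`.
-/

open MeasureTheory Set Metric
open scoped ContDiff Topology

namespace Pool.Agent.Lib.P28s

open Pool.Agent.Lib.P28f (V EV ann w0)

namespace AmbInitAux

variable {m : ℕ}

theorem norm_w0_eq (hm : 1 ≤ m) : ‖w0 m‖ = 3 / 4 := by
  apply le_antisymm
  · rw [pi_norm_le_iff_of_nonneg (by norm_num)]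
    intro i
    unfold w0
    split_ifs
    · rw [Real.norm_eq_abs, abs_of_pos (by norm_num)]
    · rw [norm_zero]; norm_num
  · have h := norm_le_pi_norm (w0 m) ⟨0, hm⟩
    have h2 : w0 m ⟨0, hm⟩ = 3 / 4 := by simp [w0]
    rw [h2, Real.norm_eq_abs, abs_of_pos (by norm_num)] at h
    exact h

theorem w0_mem (hm : 1 ≤ m) : w0 m ∈ ann (0 : V m) (1 / 2) := by
  have h := norm_w0_eq hm
  refine ⟨?_, ?_⟩ <;> rw [sub_zero, h] <;> norm_num

theorem mem_ann {v : V m} (h1 : 1 / 2 ≤ ‖v‖) (h2 : ‖v‖ ≤ 1) : v ∈ ann (0 : V m) (1 / 2) := by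
  refine ⟨?_, ?_⟩
  · rw [sub_zero]; exact h1
  · rw [sub_zero]; linarith

theorem ev_lt {v : V m} {a : ℝ} (h : ‖v‖ < a) : ∀ᶠ w in 𝓝 v, ‖w‖ < a :=
  (isOpen_lt continuous_norm continuous_const).mem_nhds h

theorem ev_gt {v : V m} {a : ℝ} (h : a < ‖v‖) : ∀ᶠ w in 𝓝 v, a < ‖w‖ :=
  (isOpen_lt continuous_const continuous_norm).mem_nhds h

end AmbInitAux

open AmbInitAux in
theorem rep_init (m : ℕ) (hm : 3 ≤ m) {η : ℝ} (hη : 0 < η) : ∃ δ₁ : ℝ, 0 < δ₁ ∧
    ∀ {ι X : Type} [Fintype ι] [AddCommGroup X] [Module ℝ X] (M : Amb m ι X) (cb : ι → EV m)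
      (rb : ℝ) (kb : ι → V m → V m) (_ : Bub cb rb kb) (x : X) (_ : M.ND x)
      (_ : ∀ i, SFlat δ₁ (ann 0 (1 / 2)) (dd (M.res i x)))
      (_ : ∀ i k, CutOf (M.res i x) k → PathV k (kb i)),
      ∃ g : ι → V m → V m, (∀ i, Md (g i)) ∧ M.Rep cb kb x (x + ∑ i, M.ext i (g i)) ∧
        (∀ i v, ‖v‖ < 13 / 16 →
          M.res i (x + ∑ j, M.ext j (g j)) v = lc (dd (M.res i x) (w0 m)) v) ∧
        ∀ i v, ‖v‖ ≤ 1 →
          ‖dd (M.res i (x + ∑ j, M.ext j (g j))) v - dd (M.res i x) (w0 m)‖ *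
            ‖Ring.inverse (dd (M.res i x) (w0 m))‖ ≤ η := by
  have hm1 : 1 ≤ m := by omega
  obtain ⟨δ₀, C, hδ₀, hC, hCδ, hcut⟩ := cut_exists m hm
  have hC1 : 0 < C + 1 := by linarith
  have hδ₁ : 0 < min δ₀ (min η (1 / 100) / (C + 1)) := by positivity
  have hδ₁b : min δ₀ (min η (1 / 100) / (C + 1)) * (C + 1) ≤ min η (1 / 100) := by
    have h := min_le_right δ₀ (min η (1 / 100) / (C + 1))
    rwa [le_div_iff₀ hC1] at h
  have hδ₁a : min δ₀ (min η (1 / 100) / (C + 1)) ≤ δ₀ := min_le_left _ _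
  generalize min δ₀ (min η (1 / 100) / (C + 1)) = δ₁ at hδ₁ hδ₁b hδ₁a
  have h1η : C * δ₁ ≤ η := by
    have := min_le_left η (1 / 100)
    nlinarith
  have h1c : C * δ₁ ≤ 1 / 100 := by
    have := min_le_right η (1 / 100)
    nlinarith
  have h1d : δ₁ ≤ 1 / 100 := by
    have := min_le_right η (1 / 100)
    nlinarith [mul_pos hC hδ₁]
  refine ⟨δ₁, hδ₁, ?_⟩
  intro ι X _ _ _ M cb rb kb hB x hx hflat hpath
  have hnd : ∀ i, NdOn (closedBall 0 1) (M.res i x) := fun i v hv =>
    hx.inn i v (by rw [mem_closedBall_zero_iff] at hv; linarith)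
  choose b k hb hk hb0 hk0 hbk hk1 hb1 using fun i =>
    hcut δ₁ (M.res i x) hδ₁.le hδ₁a (hnd i) (hflat i)
  set c : ι → EV m := fun i => dd (M.res i x) (w0 m) with hcdef
  have hcu : ∀ i, IsUnit (c i) := fun i => (hk i).cunit
  have hcs : ∀ i, Sk (c i) := fun i => (hk i).sk
  -- flatness
  have hlamflat : ∀ i v, 1 / 2 ≤ ‖v‖ → ‖v‖ ≤ 1 →
      ‖dd (M.res i x) v - c i‖ * ‖Ring.inverse (c i)‖ ≤ δ₁ := fun i v h1 h2 =>
    hflat i (w0 m) (w0_mem hm1) v (mem_ann h1 h2)
  -- the modifications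
  set g : ι → V m → V m := fun i v => b i v - (k i v - lc (c i) v) with hgdef
  have hg : ∀ i, Md (g i) := by
    intro i
    refine ⟨(hb i).smooth.sub ((hk i).smooth.sub (contDiff_lc (c i))), fun v hv => ?_⟩
    have h1 := (hb i).supp v hv
    have h2 := (hk i).out v (by linarith)
    simp only [hgdef]
    rw [h1, h2]
    simp [hcdef]
  have hH : ∀ (t : ℝ) i, Md (fun v => t • b i v) := by
    intro t i
    have h0 : ContDiff ℝ ∞ (fun v => t • b i v) := (hb i).smooth.const_smul t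
    refine ⟨h0, fun v hv => ?_⟩
    rw [(hb i).supp v hv, smul_zero]
  -- restriction of sums near a point
  have hres : ∀ (f : ι → V m → V m), (∀ i, Md (f i)) → ∀ i v, ‖v‖ < 5 / 4 →
      M.res i (x + ∑ j, M.ext j (f j)) =ᶠ[𝓝 v] fun w => M.res i x w + f i w := by
    intro f hf i v hv
    filter_upwards [ev_lt hv] with w hw
    exact M.res_sum x f hf i hw
  have hsm : ∀ i v, ‖v‖ < 5 / 4 → ContDiffAt ℝ ∞ (M.res i x) v := fun i v hv => (hx.inn i v hv).1
  have hdf : ∀ i v, ‖v‖ < 5 / 4 → DifferentiableAt ℝ (M.res i x) v := fun i v hv =>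
    (hsm i v hv).differentiableAt (by simp)
  have hbdf : ∀ i v, DifferentiableAt ℝ (b i) v := fun i v =>
    ((hb i).smooth.differentiable (by simp)) v
  -- dd of lam + b
  have hout : ∀ i v, 15 / 16 < ‖v‖ → dd (b i) v = 0 := by
    intro i v hv
    have h1 : b i =ᶠ[𝓝 v] fun _ => (0 : V m) := by
      filter_upwards [ev_gt hv] with w hw
      exact (hb i).supp w hw.le
    rw [dd_congr h1]
    simp [dd, tr]
  have hinn : ∀ i v, ‖v‖ < 9 / 16 → dd (b i) v = 0 := by
    intro i v hv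
    have h1 : b i =ᶠ[𝓝 v] fun _ => (0 : V m) := by
      filter_upwards [ev_lt hv] with w hw
      exact hb0 i w hw.le
    rw [dd_congr h1]
    simp [dd, tr]
  have hddsum : ∀ i v, ‖v‖ < 5 / 4 →
      dd (fun y => M.res i x y + b i y) v = dd (M.res i x) v + dd (b i) v := fun i v hv =>
    dd_add (hdf i v hv) (hbdf i v)
  -- N_t : x + sum ext (t b)
  have hNDt : ∀ t ∈ Icc (0 : ℝ) 1, M.ND (x + ∑ i, M.ext i (fun v => t • b i v)) := by
    intro t ht
    refine ⟨(M.nd_sum x _ (hH t)).2 hx.out, fun i v hv => ?_⟩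
    have h1 := hres _ (hH t) i v hv
    have hddt : dd (M.res i (x + ∑ j, M.ext j (fun v => t • b j v))) v
        = dd (M.res i x) v + t • dd (b i) v := by
      have h2 : DifferentiableAt ℝ (fun y => t • b i y) v := (hbdf i v).const_smul t
      rw [dd_congr h1, dd_add (hdf i v hv) h2, dd_smul (hbdf i v)]
    refine ⟨((hsm i v hv).add ((hH t i).smooth.contDiffAt)).congr_of_eventuallyEq h1, ?_⟩
    rw [hddt]
    rcases lt_or_ge ‖v‖ (9 / 16) with h2 | h2
    · rw [hinn i v h2, smul_zero, add_zero]; exact (hx.inn i v hv).2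
    rcases lt_or_ge 1 ‖v‖ with h3 | h3
    · rw [hout i v (by linarith), smul_zero, add_zero]; exact (hx.inn i v hv).2
    have h4 := hlamflat i v (by linarith) h3
    have h5 := hb1 i v (by linarith) h3
    have h6 : dd (M.res i x) v + t • dd (b i) v
        = (1 - t) • dd (M.res i x) v + t • dd (fun y => M.res i x y + b i y) v := by
      rw [hddsum i v hv]; module
    rw [h6]
    exact near_mid (hcu i) (by linarith) (lt_of_le_of_lt h5 (by linarith)) ht
  set H : X := x + ∑ i, M.ext i (b i) with hHdef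
  set o : X := x + ∑ i, M.ext i (g i) with hodef
  -- Seg x H
  have hSeg : M.Seg x H := by
    intro t ht0 ht1
    have h1 : (1 - t) • x + t • H = x + ∑ i, M.ext i (fun v => t • b i v) := by
      have h2 : ∀ i, M.ext i (fun v => t • b i v) = t • M.ext i (b i) := fun i => by
        rw [← map_smul]; rfl
      simp only [h2]
      rw [hHdef, ← Finset.smul_sum]
      module
    rw [h1]
    exact hNDt t ⟨ht0, ht1⟩
  -- restriction of o
  have hreso : ∀ i v, ‖v‖ < 13 / 16 → M.res i o v = lc (c i) v := by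
    intro i v hv
    rw [hodef, M.res_sum x g hg i (by linarith)]
    have h1 := hbk i v hv
    simp only [hgdef]
    rw [← h1]
    abel
  have hddo1 : ∀ i v, ‖v‖ < 13 / 16 → dd (M.res i o) v = c i := by
    intro i v hv
    have h1 : M.res i o =ᶠ[𝓝 v] lc (c i) := by
      filter_upwards [ev_lt hv] with w hw
      exact hreso i w hw
    rw [dd_congr h1, dd_lc (hcs i)]
  have hoev : ∀ i v, ‖v‖ < 5 / 4 → 11 / 16 < ‖v‖ →
      M.res i o =ᶠ[𝓝 v] fun y => M.res i x y + b i y := by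
    intro i v hv hv2
    filter_upwards [ev_lt hv, ev_gt hv2] with w hw hw2
    rw [hodef, M.res_sum x g hg i hw]
    have h2 := (hk i).out w hw2.le
    simp only [hgdef]
    rw [h2]
    simp [hcdef]
  have hddo2 : ∀ i v, ‖v‖ < 5 / 4 → 11 / 16 < ‖v‖ →
      dd (M.res i o) v = dd (fun y => M.res i x y + b i y) v := fun i v hv hv2 =>
    dd_congr (hoev i v hv hv2)
  have hNDo : M.ND o := by
    refine ⟨(M.nd_sum x g hg).2 hx.out, fun i v hv => ?_⟩
    refine ⟨((hsm i v hv).add ((hg i).smooth.contDiffAt)).congr_of_eventuallyEq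
      (hres g hg i v hv), ?_⟩
    rcases lt_or_ge ‖v‖ (13 / 16) with h2 | h2
    · rw [hddo1 i v h2]; exact hcu i
    rw [hddo2 i v hv (by linarith)]
    rcases lt_or_ge 1 ‖v‖ with h3 | h3
    · rw [hddsum i v hv, hout i v (by linarith), add_zero]; exact (hx.inn i v hv).2
    · exact near_unit (hcu i) (lt_of_le_of_lt (hb1 i v (by linarith) h3) (by linarith))
  -- cuts
  have hCut : ∀ i, CutOf (M.res i x) (k i) := by
    intro i
    refine ⟨c i, (hk i).mono (by norm_num), fun v hv => ?_, fun v h1 h2 => ⟨?_, ?_⟩⟩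
    · apply dd_congr
      have hv2 : ‖v‖ < 9 / 16 := by linarith
      filter_upwards [ev_lt hv2] with w hw
      exact hk0 i w hw.le
    · exact (hk1 i v h1).trans h1c
    · exact (hlamflat i v h1 h2).trans h1d
  choose A r hAu hAc hAp using fun i =>
    pathC_of_pathV (hk i) (hB.obj i) (hpath i (k i) (hCut i))
  -- put o k c 1 = H
  have hput1 : M.put o k c 1 = H := by
    unfold Amb.put
    rw [hodef, hHdef, add_assoc, ← Finset.sum_add_distrib]
    congr 1
    refine Finset.sum_congr rfl fun i _ => ?_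
    rw [← map_add]
    congr 1
    funext v
    simp only [Pi.add_apply, hgdef, sc_one]
    abel
  have hputsc : ∀ e : ℝ, e ≠ 0 → M.put o (fun i => sc e (k i)) c 1 = M.put o k c e := by
    intro e he
    unfold Amb.put
    simp only [sc_one]
  refine ⟨g, hg, ⟨A, ⟨hNDo, hAu, fun i v hv => ?_⟩, min 1 (3 / (4 * (∑ i, |r i| + 1))), ?_,
    fun e he hee => ?_⟩, hreso, fun i v hv => ?_⟩
  · rw [hAc i]; exact hreso i v hv
  · have hs : 0 ≤ ∑ i, |r i| := Finset.sum_nonneg fun i _ => abs_nonneg _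
    positivity
  · have hs : 0 ≤ ∑ i, |r i| := Finset.sum_nonneg fun i _ => abs_nonneg _
    have he1 : e ≤ 1 := hee.trans (min_le_left _ _)
    have he2 : e * (∑ i, |r i| + 1) ≤ 3 / 4 := by
      have h1 := hee.trans (min_le_right _ _)
      have h2 : e * (4 * (∑ i, |r i| + 1)) ≤ 3 := by
        rwa [le_div_iff₀ (by positivity)] at h1
      linarith
    have hfill : M.fill cb kb o A e = M.put o (fun i => pl (A i) (kb i)) c e := by
      unfold Amb.fill
      congr 1
      funext i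
      exact hAc i
    have step1 : M.Eqv x H := Relation.ReflTransGen.single hSeg
    have step2 : M.Eqv H (M.put o k c e) := by
      rw [← hput1, ← hputsc e he.ne']
      exact ins_pathC M hNDo (r := fun _ => 11 / 16)
        (fun i => sc_path (hk i) (by norm_num) he he1) hreso one_pos
        (fun i => by norm_num)
    have step3 : M.Eqv (M.put o k c e) (M.fill cb kb o A e) := by
      rw [hfill]
      refine ins_pathC M hNDo hAp hreso he fun i => ?_
      have h1 : |r i| ≤ ∑ i, |r i| :=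
        Finset.single_le_sum (f := fun i => |r i|) (fun j _ => abs_nonneg _) (Finset.mem_univ i)
      have h2 : r i ≤ |r i| := le_abs_self _
      have h3 : e * r i ≤ e * (∑ i, |r i| + 1) := mul_le_mul_of_nonneg_left (by linarith) he.le
      linarith
    exact (step1.trans step2).trans step3
  · rcases lt_or_ge ‖v‖ (13 / 16) with h2 | h2
    · rw [hddo1 i v h2, sub_self, norm_zero, zero_mul]; exact hη.le
    · rw [hddo2 i v (by linarith) (by linarith)]
      exact (hb1 i v (by linarith) hv).trans h1η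

end Pool.Agent.Lib.P28s
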