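import Pool.Agent.Lib.P28s.PathRel

set_option autoImplicit false

/-!
# Inserting a family of forms into a segment of outer forms

PROOF. `Seg` is symmetric (`t ↦ 1 - t`), so `Eqv` is (`Relation.ReflTransGen.symmetric`). `res_put`: the function `b i v = sc e (k i) v - lc (c i) v` is smooth and vanishes for `‖v‖ ≥ e R`
(`Obj.sc`), so it is `Md` when `e R ≤ 15/16`; use `res_ext`, `res_ext_ne` and linearity (`map_add`, `map_sum`, `Finset.sum_eq_single`). `nd_put`: `nd_ext` repeatedly (induction on the finite sum: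
`M.Nd (x + ∑ i ∈ s, M.ext i (b i)) ↔ M.Nd x`, `nd_sum`).
`ins_seg`: for `t ∈ [0,1]` let `o_t = (1-t) o + t o'` and `F t = M.put o_t (K · t) (c · t) e`. For `t, t' ∈ [0,1]`, `s ∈ [0,1]`, `r = (1-s) t + s t'`: `(1-s) F t + s F t' = o_r + (sum of ext of Md
functions)`, so `Nd` of it follows from `Nd o_r` (`Seg`). Its restriction to chart `i` is, for `‖v‖ < 13/16`: `(1-s) sc e (K i t) v + s sc e (K i t') v` (there `res o_t = lc (c i t)`), with
`dd = (1-s) dd (K i t) (v/e) + s dd (K i t') (v/e)`; and for `‖v‖ ≥ 3/4 ≥ e R` it is `res i o_r v` near which `dd` is a unit (at points with `3/4 < ‖v‖`, or `13/16 ≤ ‖v‖`).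
The map `(t, x) ↦ dd (K i t) x` is continuous, with unit values, and for `‖x‖ > R` equal to `c i t`; on the compact set `[0,1] × closedBall 0 (R+1)` it is uniformly continuous
and the norms of the inverses are bounded, say by `C` (and so everywhere); so there is `N` such that for `|t - t'| ≤ 1/N`: `‖dd (K i t') x - dd (K i t) x‖ C < 1` for
all `x` and `i`; then `(1-s) dd (K i t) x + s dd (K i t') x` is a unit (`near_seg`). So `M.Seg (F (j/N)) (F ((j+1)/N))` for `j < N`: a chain from `F 0` to `F 1`.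
-/

open MeasureTheory Set Metric
open scoped ContDiff Topology

namespace Pool.Agent.Lib.P28s

open Pool.Agent.Lib.P28f (V EV)

variable {m : ℕ} {ι X : Type} [Fintype ι] [AddCommGroup X] [Module ℝ X]

theorem Amb.Seg.symm {M : Amb m ι X} {x y : X} (h : M.Seg x y) : M.Seg y x := by
  intro t h0 h1
  have h2 := h (1 - t) (by linarith) (by linarith)
  have e : (1 - t) • y + t • x = (1 - (1 - t)) • x + (1 - t) • y := by
    rw [sub_sub_cancel, add_comm]
  rw [e]
  exact h2

theorem Amb.Eqv.symm {M : Amb m ι X} {x y : X} (h : M.Eqv x y) : M.Eqv y x := by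
  unfold Amb.Eqv at h ⊢
  induction h with
  | refl => exact Relation.ReflTransGen.refl
  | tail _ hbc ih => exact Relation.ReflTransGen.head (Amb.Seg.symm hbc) ih

theorem Amb.nd_sum (M : Amb m ι X) (x : X) (g : ι → V m → V m) (hg : ∀ i, Md (g i)) :
    M.Nd (x + ∑ i, M.ext i (g i)) ↔ M.Nd x := by
  classical
  have h : ∀ s : Finset ι, M.Nd (x + ∑ i ∈ s, M.ext i (g i)) ↔ M.Nd x := by
    intro s
    induction s using Finset.induction_on with
    | empty => simp
    | insert a s ha ih =>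
      rw [Finset.sum_insert ha]
      have e : x + (M.ext a (g a) + ∑ i ∈ s, M.ext i (g i)) =
          (x + ∑ i ∈ s, M.ext i (g i)) + M.ext a (g a) := by abel
      rw [e, M.nd_ext _ a (g a) (hg a), ih]
  exact h Finset.univ

theorem Amb.res_sum (M : Amb m ι X) (x : X) (g : ι → V m → V m) (hg : ∀ i, Md (g i)) (i : ι)
    {v : V m} (hv : ‖v‖ < 5 / 4) :
    M.res i (x + ∑ j, M.ext j (g j)) v = M.res i x v + g i v := by
  classical
  rw [map_add, map_sum, Pi.add_apply, Finset.sum_apply,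
    Finset.sum_eq_single i (fun j _ hj => M.res_ext_ne j i (g j) hj (hg j) v hv)
      (fun h => absurd (Finset.mem_univ i) h), M.res_ext i (g i) (hg i) v hv]

theorem md_put {c : EV m} {R e : ℝ} {k : V m → V m} (h : Obj c R k) (he : 0 < e)
    (heR : e * R ≤ 15 / 16) : Md (fun v => sc e k v - lc c v) where
  smooth := (h.sc he).smooth.sub (contDiff_lc c)
  supp := by
    intro v hv
    show sc e k v - lc c v = 0
    rw [(h.sc he).out v (heR.trans hv), sub_self]

namespace AmbInsAux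

theorem Md.lin {b b' : V m → V m} (h : Md b) (h' : Md b') (p q : ℝ) :
    Md (fun v => p • b v + q • b' v) where
  smooth := by
    have h1 : ContDiff ℝ ∞ (fun v => p • b v) := h.smooth.const_smul p
    have h2 : ContDiff ℝ ∞ (fun v => q • b' v) := h'.smooth.const_smul q
    exact h1.add h2
  supp := by
    intro v hv
    show p • b v + q • b' v = 0
    rw [h.supp v hv, h'.supp v hv, smul_zero, smul_zero, add_zero]

/-- uniform closeness along a compact set of units -/
theorem unif {f : ℝ × V m → EV m} (hf : Continuous f) {S : Set (V m)} (hS : IsCompact S)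
    (hu : ∀ t x, IsUnit (f (t, x))) : ∃ n : ℕ, ∀ t ∈ Icc (0 : ℝ) 1, ∀ t' ∈ Icc (0 : ℝ) 1,
      |t' - t| ≤ 1 / ((n : ℝ) + 1) → ∀ x ∈ S, ‖f (t', x) - f (t, x)‖ * ‖Ring.inverse (f (t, x))‖ < 1 := by
  have hc : IsCompact (Icc (0 : ℝ) 1 ×ˢ S) := isCompact_Icc.prod hS
  have hinv : Continuous (fun p => Ring.inverse (f p)) := by
    rw [continuous_iff_continuousAt]
    rintro ⟨t, x⟩
    obtain ⟨u, hu'⟩ := hu t x
    have h1 : ContinuousAt Ring.inverse (f (t, x)) := by
      rw [← hu']
      exact NormedRing.inverse_continuousAt u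
    exact ContinuousAt.comp (f := f) (g := Ring.inverse) (x := (t, x)) h1 hf.continuousAt
  obtain ⟨C, hC⟩ := hc.exists_bound_of_continuousOn hinv.continuousOn
  have huc := hc.uniformContinuousOn_of_continuous hf.continuousOn
  rw [Metric.uniformContinuousOn_iff] at huc
  have hC1 : 0 < |C| + 1 := by positivity
  obtain ⟨δ, hδ0, hδ⟩ := huc (1 / (|C| + 1)) (by positivity)
  obtain ⟨n, hn⟩ := exists_nat_one_div_lt hδ0
  refine ⟨n, fun t ht t' ht' htt x hx => ?_⟩
  have h1 : dist (f (t', x)) (f (t, x)) < 1 / (|C| + 1) := by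
    apply hδ _ ⟨ht', hx⟩ _ ⟨ht, hx⟩
    rw [Prod.dist_eq, dist_self, Real.dist_eq]
    exact max_lt (lt_of_le_of_lt htt hn) hδ0
  have h2 : ‖Ring.inverse (f (t, x))‖ ≤ |C| := (hC (t, x) ⟨ht, hx⟩).trans (le_abs_self C)
  rw [dist_eq_norm] at h1
  calc ‖f (t', x) - f (t, x)‖ * ‖Ring.inverse (f (t, x))‖
      ≤ 1 / (|C| + 1) * |C| := mul_le_mul h1.le h2 (norm_nonneg _) (by positivity)
    _ < 1 := by
      rw [div_mul_eq_mul_div, one_mul, div_lt_one hC1]
      linarith

/-- uniform closeness for one chart -/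
theorem unif_obj {K : ℝ → V m → V m} {c : ℝ → EV m} {R : ℝ} (hO : ∀ t, Obj (c t) R (K t))
    (hc : Continuous c) (hK : Continuous fun p : ℝ × V m => dd (K p.1) p.2) :
    ∃ n : ℕ, ∀ t ∈ Icc (0 : ℝ) 1, ∀ t' ∈ Icc (0 : ℝ) 1, |t' - t| ≤ 1 / ((n : ℝ) + 1) →
      ∀ x, ‖dd (K t') x - dd (K t) x‖ * ‖Ring.inverse (dd (K t) x)‖ < 1 := by
  obtain ⟨n₁, h₁⟩ := unif hK (isCompact_closedBall (0 : V m) R) (fun t x => (hO t).unit x)
  obtain ⟨n₂, h₂⟩ := unif (f := fun p : ℝ × V m => c p.1) (hc.comp continuous_fst)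
    (isCompact_singleton (x := (0 : V m))) (fun t x => (hO t).cunit)
  refine ⟨n₁ + n₂, fun t ht t' ht' htt x => ?_⟩
  have hn₁ : 1 / (((n₁ + n₂ : ℕ) : ℝ) + 1) ≤ 1 / ((n₁ : ℝ) + 1) := by
    apply one_div_le_one_div_of_le (by positivity)
    push_cast
    linarith [(Nat.cast_nonneg n₂ : (0 : ℝ) ≤ n₂)]
  have hn₂ : 1 / (((n₁ + n₂ : ℕ) : ℝ) + 1) ≤ 1 / ((n₂ : ℝ) + 1) := by
    apply one_div_le_one_div_of_le (by positivity)
    push_cast
    linarith [(Nat.cast_nonneg n₁ : (0 : ℝ) ≤ n₁)]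
  by_cases hx : ‖x‖ ≤ R
  · exact h₁ t ht t' ht' (htt.trans hn₁) x (mem_closedBall_zero_iff.2 hx)
  · rw [not_le] at hx
    rw [(hO t).dd_out hx, (hO t').dd_out hx]
    exact h₂ t ht t' ht' (htt.trans hn₂) 0 (mem_singleton _)

/-- one step -/
theorem step (M : Amb m ι X) {o o' : X} (hseg : M.Seg o o') {R : ℝ} (K : ι → ℝ → V m → V m)
    (c : ι → ℝ → EV m) (hO : ∀ i t, Obj (c i t) R (K i t))
    (hin : ∀ i, ∀ t ∈ Icc (0 : ℝ) 1, ∀ v, ‖v‖ < 13 / 16 →
      (1 - t) • M.res i o v + t • M.res i o' v = lc (c i t) v)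
    {e : ℝ} (he : 0 < e) (heR : e * R ≤ 3 / 4) {t t' : ℝ} (ht : t ∈ Icc (0 : ℝ) 1)
    (ht' : t' ∈ Icc (0 : ℝ) 1)
    (hnear : ∀ i x, ‖dd (K i t') x - dd (K i t) x‖ * ‖Ring.inverse (dd (K i t) x)‖ < 1) :
    M.Seg (M.put ((1 - t) • o + t • o') (fun i => K i t) (fun i => c i t) e)
      (M.put ((1 - t') • o + t' • o') (fun i => K i t') (fun i => c i t') e) := by
  intro s hs0 hs1
  set r : ℝ := (1 - s) * t + s * t' with hr
  have hr0 : 0 ≤ r := add_nonneg (mul_nonneg (by linarith) ht.1) (mul_nonneg hs0 ht'.1)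
  have hr1 : r ≤ 1 := by
    rw [hr]
    nlinarith [ht.2, ht'.2]
  set g : ι → V m → V m := fun i v => (1 - s) • (sc e (K i t) v - lc (c i t) v) +
    s • (sc e (K i t') v - lc (c i t') v) with hg
  have hmd : ∀ i τ, Md (fun v => sc e (K i τ) v - lc (c i τ) v) := fun i τ =>
    md_put (hO i τ) he (heR.trans (by norm_num))
  have hgm : ∀ i, Md (g i) := fun i => Md.lin (hmd i t) (hmd i t') (1 - s) s
  have hnd := hseg r hr0 hr1
  have e1 : (1 - s) • M.put ((1 - t) • o + t • o') (fun i => K i t) (fun i => c i t) e +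
      s • M.put ((1 - t') • o + t' • o') (fun i => K i t') (fun i => c i t') e =
      ((1 - r) • o + r • o') + ∑ i, M.ext i (g i) := by
    unfold Amb.put
    have e2 : ∀ i ∈ (Finset.univ : Finset ι), M.ext i (g i) =
        (1 - s) • M.ext i (fun v => sc e (K i t) v - lc (c i t) v) +
        s • M.ext i (fun v => sc e (K i t') v - lc (c i t') v) := by
      intro i _
      rw [← map_smul, ← map_smul, ← map_add]
      rfl
    rw [Finset.sum_congr rfl e2, Finset.sum_add_distrib, ← Finset.smul_sum, ← Finset.smul_sum,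
      smul_add, smul_add, hr]
    module
  rw [e1]
  have hres : ∀ i v, ‖v‖ < 5 / 4 → M.res i (((1 - r) • o + r • o') + ∑ i, M.ext i (g i)) v =
      M.res i ((1 - r) • o + r • o') v + g i v := fun i v hv => M.res_sum _ g hgm i hv
  refine ⟨(M.nd_sum _ g hgm).2 hnd.out, fun i v hv => ?_⟩
  have hev : M.res i (((1 - r) • o + r • o') + ∑ i, M.ext i (g i)) =ᶠ[𝓝 v]
      fun w => M.res i ((1 - r) • o + r • o') w + g i w := by
    have h1 : ∀ᶠ w in 𝓝 v, ‖w‖ < 5 / 4 :=
      (continuous_norm.continuousAt (x := v)).eventually_lt continuousAt_const hv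
    filter_upwards [h1] with w hw
    exact hres i w hw
  obtain ⟨hn1, hn2⟩ := hnd.inn i v hv
  refine ⟨(hn1.add (hgm i).smooth.contDiffAt).congr_of_eventuallyEq hev, ?_⟩
  by_cases hv1 : ‖v‖ < 13 / 16
  · have hev2 : M.res i (((1 - r) • o + r • o') + ∑ i, M.ext i (g i)) =ᶠ[𝓝 v]
        fun w => (1 - s) • sc e (K i t) w + s • sc e (K i t') w := by
      have h1 : ∀ᶠ w in 𝓝 v, ‖w‖ < 13 / 16 :=
        (continuous_norm.continuousAt (x := v)).eventually_lt continuousAt_const hv1
      filter_upwards [h1] with w hw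
      rw [hres i w (by linarith), map_add, map_smul, map_smul, Pi.add_apply, Pi.smul_apply,
        Pi.smul_apply]
      have a1 := hin i t ht w hw
      have a2 := hin i t' ht' w hw
      show _ + ((1 - s) • (sc e (K i t) w - lc (c i t) w) +
        s • (sc e (K i t') w - lc (c i t') w)) = _
      rw [← a1, ← a2, hr]
      module
    rw [dd_congr hev2]
    have hd : ∀ τ, DifferentiableAt ℝ (sc e (K i τ)) v := fun τ =>
      ((hO i τ).sc he).smooth.contDiffAt.differentiableAt (by simp)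
    have hd2 : ∀ τ, dd (sc e (K i τ)) v = dd (K i τ) (e⁻¹ • v) := fun τ =>
      dd_sc he.ne' ((hO i τ).smooth.contDiffAt.differentiableAt (by simp))
    have h3 : dd (fun w => (1 - s) • sc e (K i t) w + s • sc e (K i t') w) v =
        (1 - s) • dd (K i t) (e⁻¹ • v) + s • dd (K i t') (e⁻¹ • v) := by
      have b1 : DifferentiableAt ℝ (fun w => (1 - s) • sc e (K i t) w) v :=
        (hd t).const_smul (1 - s)
      have b2 : DifferentiableAt ℝ (fun w => s • sc e (K i t') w) v := (hd t').const_smul s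
      rw [dd_add b1 b2, dd_smul (hd t), dd_smul (hd t'), hd2, hd2]
    rw [h3]
    exact near_seg ((hO i t).unit _) (hnear i _) ⟨hs0, hs1⟩
  · rw [not_lt] at hv1
    have hev2 : M.res i (((1 - r) • o + r • o') + ∑ i, M.ext i (g i)) =ᶠ[𝓝 v]
        M.res i ((1 - r) • o + r • o') := by
      have h1 : ∀ᶠ w in 𝓝 v, ‖w‖ < 5 / 4 :=
        (continuous_norm.continuousAt (x := v)).eventually_lt continuousAt_const hv
      have h2 : ∀ᶠ w in 𝓝 v, 3 / 4 < ‖w‖ :=
        continuousAt_const.eventually_lt (continuous_norm.continuousAt (x := v)) (by linarith)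
      filter_upwards [h1, h2] with w hw hw2
      rw [hres i w hw]
      have a1 : ∀ τ, sc e (K i τ) w = lc (c i τ) w := fun τ =>
        ((hO i τ).sc he).out w (by linarith)
      show _ + ((1 - s) • (sc e (K i t) w - lc (c i t) w) +
        s • (sc e (K i t') w - lc (c i t') w)) = _
      rw [a1, a1, sub_self, sub_self, smul_zero, smul_zero, add_zero, add_zero]
    rw [dd_congr hev2]
    exact hn2

end AmbInsAux

open AmbInsAux

theorem ins_seg (M : Amb m ι X) {o o' : X} (hseg : M.Seg o o') {R : ℝ} (K : ι → ℝ → V m → V m)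
    (c : ι → ℝ → EV m) (hO : ∀ i t, Obj (c i t) R (K i t)) (hc : ∀ i, Continuous (c i))
    (hK : ∀ i, Continuous fun p : ℝ × V m => dd (K i p.1) p.2)
    (hin : ∀ i, ∀ t ∈ Icc (0 : ℝ) 1, ∀ v, ‖v‖ < 13 / 16 →
      (1 - t) • M.res i o v + t • M.res i o' v = lc (c i t) v)
    {e : ℝ} (he : 0 < e) (heR : e * R ≤ 3 / 4) :
    M.Eqv (M.put o (fun i => K i 0) (fun i => c i 0) e)
      (M.put o' (fun i => K i 1) (fun i => c i 1) e) := by
  choose n hn using fun i => unif_obj (hO i) (hc i) (hK i)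
  set N : ℕ := ∑ i, n i + 1 with hN
  have hN0 : (0 : ℝ) < (N : ℝ) := by
    rw [hN]
    positivity
  have hNi : ∀ i, (n i : ℝ) + 1 ≤ (N : ℝ) := by
    intro i
    have h1 : n i ≤ ∑ i, n i := Finset.single_le_sum (fun _ _ => Nat.zero_le _) (Finset.mem_univ i)
    rw [hN]
    push_cast
    have h2 : (n i : ℝ) ≤ ((∑ i, n i : ℕ) : ℝ) := by exact_mod_cast h1
    push_cast at h2
    linarith
  set F : ℝ → X := fun t => M.put ((1 - t) • o + t • o') (fun i => K i t) (fun i => c i t) e
    with hF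
  have hchain : ∀ j : ℕ, j ≤ N → M.Eqv (F 0) (F ((j : ℝ) / N)) := by
    intro j
    induction j with
    | zero =>
      intro _
      rw [Nat.cast_zero, zero_div]
      exact Relation.ReflTransGen.refl
    | succ j ih =>
      intro hj
      have hj' : (j : ℝ) + 1 ≤ N := by exact_mod_cast hj
      refine Relation.ReflTransGen.tail (ih (by omega)) ?_
      have ht : (j : ℝ) / N ∈ Icc (0 : ℝ) 1 :=
        ⟨by positivity, by rw [div_le_one hN0]; linarith⟩
      have ht' : ((j + 1 : ℕ) : ℝ) / N ∈ Icc (0 : ℝ) 1 :=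
        ⟨by positivity, by rw [div_le_one hN0]; push_cast; linarith⟩
      refine step M hseg K c hO hin he heR ht ht' (fun i x => ?_)
      refine hn i _ ht _ ht' ?_ x
      have e1 : ((j + 1 : ℕ) : ℝ) / N - (j : ℝ) / N = 1 / N := by
        push_cast
        ring
      rw [e1, abs_of_nonneg (by positivity)]
      exact one_div_le_one_div_of_le (by positivity) (hNi i)
  have h1 := hchain N le_rfl
  rw [div_self hN0.ne'] at h1
  have h0 : F 0 = M.put o (fun i => K i 0) (fun i => c i 0) e := by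
    rw [hF]
    simp
  have h2 : F 1 = M.put o' (fun i => K i 1) (fun i => c i 1) e := by
    rw [hF]
    simp
  rw [h0, h2] at h1
  exact h1

/-- Paths with fixed constants inserted into a fixed outer form. -/
theorem ins_pathC (M : Amb m ι X) {o : X} (ho : M.ND o) {k k' : ι → V m → V m} {c : ι → EV m}
    {r : ι → ℝ} (h : ∀ i, PathC (c i) (r i) (k i) (k' i))
    (hin : ∀ i v, ‖v‖ < 13 / 16 → M.res i o v = lc (c i) v) {e : ℝ} (he : 0 < e)
    (her : ∀ i, e * r i ≤ 3 / 4) :
    M.Eqv (M.put o k c e) (M.put o k' c e) := by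
  choose K hO hK h0 h1 using h
  have hR : ∀ i, r i ≤ 3 / 4 / e := by
    intro i
    rw [le_div_iff₀ he, mul_comm]
    exact her i
  have hs : M.Seg o o := by
    intro t _ _
    have e1 : (1 - t) • o + t • o = o := by
      rw [← add_smul, sub_add_cancel, one_smul]
    rw [e1]
    exact ho
  have h2 := ins_seg M hs (R := 3 / 4 / e) K (fun i _ => c i) (fun i t => (hO i t).mono (hR i))
    (fun i => continuous_const) hK (fun i t _ v hv => by
      rw [← add_smul, sub_add_cancel, one_smul]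
      exact hin i v hv) he (by rw [mul_div_cancel₀ _ he.ne'])
  have e0 : (fun i => K i 0) = k := funext h0
  have e1 : (fun i => K i 1) = k' := funext h1
  rw [e0, e1] at h2
  exact h2

end Pool.Agent.Lib.P28s
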