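import Pool.Agent.Lib.P28s.AmbIns
import Pool.Agent.Lib.P28s.Norml

set_option autoImplicit false

/-!
# Moving the outer form; forms with the same outer form

PROOF. `rep_nd`, `rep_seg`: let `A`, `e₀` be given by `Rep x o`, `c_i = tr (A i) cb_i (A i)`, `res i o = lc c_i` for `‖v‖ < 13/16`. With `τ` the clamp to `[0,1]`, `ct i t = (1 - τ t) c_i + τ t c' i` is a unit
(for `t ∈ [0,1]` it is `dd (res i ((1-t) o + t o')) 0`, `dd_add`, `dd_smul`, `dd_lc`), skew, continuous: `lift` gives `At i` with `At i 0 = 1`, `tr (At i t) c_i (At i t) = ct i t` for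
`t ∈ [0,1]`. `K i t = pl (A i * At i (τ t)) (kb i)` is an `Obj` with constant `ct i t` and a common radius (`Obj.pl`, the inverse norms are bounded for `t ∈ [0,1]`), and
`dd (K i t) x = tr B * dd (kb i) (B x) * B`, `B = A i * At i (τ t)`, is jointly continuous. `ins_seg` (`hin`: `(1-t) lc c_i + t lc (c' i) = lc (ct i t)`) gives, for
small `e`, `Eqv (fill o A e) (fill o' A' e)` with `A' i = A i * At i 1`. (`pl 1 k = k`: at `t = 0` `A i * 1`.) Hence `Rep x o'`.
`rep_final`: `Rep x o` with `A`, `Rep y o` with `A'`: comparing `res i o` near `0`: `tr (A i) cb (A i) = tr (A' i) cb (A' i) =: c_i` (a linear map is determined by its values on a ball).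
`S i = (A i)⁻¹ A' i` satisfies `tr (S i) c_i (S i) = c_i`, so `pathC_sp` for `pl (A i) (kb i)`: a path with fixed constant to `pl (S i) (pl (A i) (kb i)) = pl (A i * S i) (kb i) = pl (A' i) (kb i)`
(`pl_pl`). `ins_pathC` for small `e`: `x ~ fill o A e ~ fill o A' e ~ y` (`Eqv.symm`, `Relation.ReflTransGen.trans`).
-/

open MeasureTheory Set Metric
open scoped ContDiff Topology

namespace Pool.Agent.Lib.P28s

open Pool.Agent.Lib.P28f (V EV)

variable {m : ℕ} {ι X : Type} [Fintype ι] [AddCommGroup X] [Module ℝ X]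

namespace AmbSegAux

theorem lc_smul (c : EV m) (t : ℝ) (v : V m) : lc c (t • v) = t • lc c v := by
  simp only [lc, map_smul]
  rw [smul_comm]

theorem lc_inj {c c' : EV m} (h : ∀ v : V m, ‖v‖ < 13 / 16 → lc c v = lc c' v) : c = c' := by
  ext1 w
  have hw : 0 < ‖w‖ + 1 := by have := norm_nonneg w; linarith
  set t : ℝ := (1 / 2) / (‖w‖ + 1) with ht
  have ht0 : 0 < t := by positivity
  have h1 : ‖t • w‖ < 13 / 16 := by
    rw [norm_smul, Real.norm_eq_abs, abs_of_pos ht0]
    have h2 : t * ‖w‖ ≤ t * (‖w‖ + 1) := mul_le_mul_of_nonneg_left (by linarith) ht0.le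
    have h3 : t * (‖w‖ + 1) = 1 / 2 := by rw [ht]; field_simp
    linarith
  have h4 := h _ h1
  rw [lc_smul, lc_smul] at h4
  have h5 : lc c w = lc c' w := smul_right_injective _ ht0.ne' h4
  simp only [lc] at h5
  exact smul_right_injective _ (by norm_num : (1 / 2 : ℝ) ≠ 0) h5

/-- the clamp to `[0,1]` -/
noncomputable def cl (t : ℝ) : ℝ := max 0 (min 1 t)

theorem continuous_cl : Continuous cl := continuous_const.max (continuous_const.min continuous_id)

theorem cl_mem (t : ℝ) : cl t ∈ Icc (0 : ℝ) 1 :=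
  ⟨le_max_left _ _, max_le zero_le_one (min_le_left _ _)⟩

theorem cl_of_mem {t : ℝ} (h : t ∈ Icc (0 : ℝ) 1) : cl t = t := by
  rw [cl, min_eq_right h.2, max_eq_right h.1]

theorem cl_zero : cl 0 = 0 := cl_of_mem ⟨le_rfl, zero_le_one⟩
theorem cl_one : cl 1 = 1 := cl_of_mem ⟨zero_le_one, le_rfl⟩

theorem lc_comb (c c' : EV m) (s : ℝ) (v : V m) :
    (1 - s) • lc c v + s • lc c' v = lc ((1 - s) • c + s • c') v := by
  simp only [lc, _root_.add_apply, _root_.smul_apply]
  module

theorem sum_bound {ι : Type} [Fintype ι] (r : ι → ℝ) : ∃ e : ℝ, 0 < e ∧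
    ∀ e' : ℝ, 0 < e' → e' ≤ e → ∀ i, e' * r i ≤ 3 / 4 := by
  have h0 : 0 ≤ ∑ i, |r i| := Finset.sum_nonneg fun i _ => abs_nonneg _
  refine ⟨(3 / 4) / (∑ i, |r i| + 1), by positivity, ?_⟩
  intro e' he' hle i
  have h1 : r i ≤ ∑ i, |r i| + 1 := by
    have h2 : |r i| ≤ ∑ i, |r i| := Finset.single_le_sum (fun j _ => abs_nonneg (r j)) (Finset.mem_univ i)
    have h3 := le_abs_self (r i)
    linarith
  have h4 : e' * (∑ i, |r i| + 1) ≤ 3 / 4 := by
    rw [le_div_iff₀ (by linarith)] at hle
    exact hle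
  have h5 : e' * r i ≤ e' * (∑ i, |r i| + 1) := mul_le_mul_of_nonneg_left h1 he'.le
  linarith

end AmbSegAux

open AmbSegAux

theorem rep_seg (M : Amb m ι X) {cb : ι → EV m} {rb : ℝ} {kb : ι → V m → V m}
    (hb : Bub cb rb kb) {x o o' : X} (h : M.Rep cb kb x o) (hs : M.Seg o o') {c' : ι → EV m}
    (hc' : ∀ i, Sk (c' i)) (hin : ∀ i v, ‖v‖ < 13 / 16 → M.res i o' v = lc (c' i) v) :
    M.Rep cb kb x o' := by
  obtain ⟨A, hDec, e₀, he₀, hrep⟩ := h
  set ci : ι → EV m := fun i => tr (A i) * cb i * A i with hci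
  set ct : ι → ℝ → EV m := fun i t => (1 - cl t) • ci i + cl t • c' i with hct
  have hskc : ∀ i, Sk (ci i) := fun i => Sk.conj (hb.obj i).sk (A i)
  have hsk : ∀ i t, Sk (ct i t) := fun i t => ((hskc i).smul _).add ((hc' i).smul _)
  have hcont : ∀ i, Continuous (ct i) := fun i =>
    ((continuous_const.sub continuous_cl).smul continuous_const).add
      (continuous_cl.smul continuous_const)
  have hcomb : ∀ i (t : ℝ), t ∈ Icc (0 : ℝ) 1 → ∀ v, ‖v‖ < 13 / 16 →
      (1 - t) • M.res i o v + t • M.res i o' v = lc (ct i t) v := by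
    intro i t ht v hv
    rw [hDec.cst i v hv, hin i v hv, lc_comb]
    simp only [hct, cl_of_mem ht, hci]
  have hunit : ∀ i t, IsUnit (ct i t) := by
    intro i t
    have hm := cl_mem t
    have hnd := hs (cl t) hm.1 hm.2
    have h1 := (hnd.inn i 0 (by simp)).2
    have he : M.res i ((1 - cl t) • o + cl t • o') =ᶠ[𝓝 (0 : V m)] lc (ct i t) := by
      have hopen : IsOpen {z : V m | ‖z‖ < 13 / 16} := isOpen_lt continuous_norm continuous_const
      have hmem : (0 : V m) ∈ {z : V m | ‖z‖ < 13 / 16} := by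
        change ‖(0 : V m)‖ < 13 / 16
        rw [norm_zero]; norm_num
      filter_upwards [hopen.mem_nhds hmem] with z hz
      have hz' : ‖z‖ < 13 / 16 := hz
      rw [map_add, map_smul, map_smul, Pi.add_apply, Pi.smul_apply, Pi.smul_apply,
        hcomb i (cl t) hm z hz']
      simp only [hct, cl_of_mem hm]
    rw [dd_congr he, dd_lc (hsk i t)] at h1
    exact h1
  choose At hAc hA0 hAu hAl using fun i => lift (hcont i) (hsk i) (hunit i)
  have hct0 : ∀ i, ct i 0 = ci i := by
    intro i
    simp [hct, cl_zero]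
  have hct1 : ∀ i, ct i 1 = c' i := by
    intro i
    simp [hct, cl_one]
  have hctcl : ∀ i t, ct i (cl t) = ct i t := by
    intro i t
    simp only [hct, cl_of_mem (cl_mem t)]
  set B : ι → ℝ → EV m := fun i t => A i * At i (cl t) with hB
  have hBu : ∀ i t, IsUnit (B i t) := fun i t => (hDec.unit i).mul (hAu i _)
  have hBc : ∀ i, Continuous (B i) := fun i =>
    continuous_const.mul ((hAc i).comp continuous_cl)
  have hBconj : ∀ i t, tr (B i t) * cb i * B i t = ct i t := by
    intro i t
    have h1 := hAl i (cl t) (cl_mem t)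
    rw [hct0, hctcl] at h1
    rw [← h1]
    simp only [hB, hci, tr_mul]
    noncomm_ring
  -- common radius
  have hbd : ∀ i, ∃ C : ℝ, ∀ t, ‖Ring.inverse (B i t)‖ ≤ C := by
    intro i
    have hc : ContinuousOn (fun t => Ring.inverse (A i * At i t)) (Icc (0 : ℝ) 1) := by
      intro t _
      have hu : IsUnit (A i * At i t) := (hDec.unit i).mul (hAu i t)
      obtain ⟨u, hu'⟩ := hu
      have h1 : ContinuousAt Ring.inverse (A i * At i t) := by
        rw [← hu']; exact NormedRing.inverse_continuousAt u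
      have h2 : ContinuousAt (fun t => A i * At i t) t := (continuous_const.mul (hAc i)).continuousAt
      exact (ContinuousAt.comp (f := fun t => A i * At i t) h1 h2).continuousWithinAt
    obtain ⟨C, hC⟩ := isCompact_Icc.exists_bound_of_continuousOn hc
    exact ⟨C, fun t => hC (cl t) (cl_mem t)⟩
  choose C hC using hbd
  have hC0 : ∀ i, 0 ≤ C i := fun i => le_trans (norm_nonneg _) (hC i 0)
  set R : ℝ := (∑ i, C i) * |rb| with hR
  have hCR : ∀ i t, ‖Ring.inverse (B i t)‖ * |rb| ≤ R := by
    intro i t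
    have h1 : C i ≤ ∑ i, C i := Finset.single_le_sum (fun j _ => hC0 j) (Finset.mem_univ i)
    exact mul_le_mul_of_nonneg_right ((hC i t).trans h1) (abs_nonneg _)
  have hO : ∀ i t, Obj (ct i t) R (pl (B i t) (kb i)) := by
    intro i t
    have h1 := (hb.obj i).pl (hBu i t)
    rw [hBconj] at h1
    exact h1.mono (hCR i t)
  have hK : ∀ i, Continuous fun p : ℝ × V m => dd (pl (B i p.1) (kb i)) p.2 := by
    intro i
    have h1 : (fun p : ℝ × V m => dd (pl (B i p.1) (kb i)) p.2) =
        fun p : ℝ × V m => tr (B i p.1) * dd (kb i) (B i p.1 p.2) * B i p.1 := by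
      funext p
      exact dd_pl _ ((hb.obj i).smooth.contDiffAt.differentiableAt (by simp))
    rw [h1]
    have h2 : Continuous fun p : ℝ × V m => B i p.1 := (hBc i).comp continuous_fst
    have h3 : Continuous fun p : ℝ × V m => B i p.1 p.2 := h2.clm_apply continuous_snd
    exact ((continuous_tr.comp h2).mul ((continuous_dd (hb.obj i).smooth).comp h3)).mul h2
  obtain ⟨e₁, he₁, hsm⟩ := sum_bound (fun _ : Unit => R)
  refine ⟨fun i => A i * At i 1, ⟨?_, ?_, ?_⟩, min e₀ e₁, lt_min he₀ he₁, ?_⟩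
  · have h1 := hs 1 zero_le_one le_rfl
    simp only [sub_self, zero_smul, one_smul, zero_add] at h1
    exact h1
  · intro i
    exact (hDec.unit i).mul (hAu i 1)
  · intro i v hv
    have h1 := hBconj i 1
    simp only [hB, cl_one, hct1] at h1
    rw [hin i v hv, h1]
  · intro e he hle
    have hins := ins_seg M hs (fun i t => pl (B i t) (kb i)) ct hO hcont hK hcomb he
      (hsm e he (hle.trans (min_le_right _ _)) ())
    have h0 := hrep e he (hle.trans (min_le_left _ _))
    have e1 : M.fill cb kb o A e = M.put o (fun i => pl (B i 0) (kb i)) (fun i => ct i 0) e := by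
      unfold Amb.fill
      congr 1
      · funext i
        simp only [hB, cl_zero, hA0, mul_one]
      · funext i
        rw [hct0]
    have e2 : M.fill cb kb o' (fun i => A i * At i 1) e =
        M.put o' (fun i => pl (B i 1) (kb i)) (fun i => ct i 1) e := by
      unfold Amb.fill
      congr 1
      · funext i
        simp only [hB, cl_one]
      · funext i
        have h1 := hBconj i 1
        simp only [hB, cl_one] at h1
        exact h1
    rw [e2]
    rw [e1] at h0
    exact Relation.ReflTransGen.trans h0 hins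

theorem rep_final (M : Amb m ι X) {cb : ι → EV m} {rb : ℝ} {kb : ι → V m → V m}
    (hb : Bub cb rb kb) {x y o : X} (h : M.Rep cb kb x o) (h' : M.Rep cb kb y o) :
    M.Eqv x y := by
  obtain ⟨A, hDec, e₀, he₀, hrep⟩ := h
  obtain ⟨A', hDec', e₀', he₀', hrep'⟩ := h'
  have hcc : ∀ i, tr (A i) * cb i * A i = tr (A' i) * cb i * A' i := by
    intro i
    apply lc_inj
    intro v hv
    rw [← hDec.cst i v hv, ← hDec'.cst i v hv]
  have hpath : ∀ i, ∃ r : ℝ, PathC (tr (A i) * cb i * A i) r (pl (A i) (kb i)) (pl (A' i) (kb i)) := by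
    intro i
    have hA := hDec.unit i
    have hAinv : A i * Ring.inverse (A i) = 1 := Ring.mul_inverse_cancel _ hA
    have hO := (hb.obj i).pl hA
    have hS : tr (Ring.inverse (A i) * A' i) * (tr (A i) * cb i * A i) * (Ring.inverse (A i) * A' i)
        = tr (A i) * cb i * A i := by
      have h1 : tr (Ring.inverse (A i)) * tr (A i) = 1 := by
        rw [← tr_mul, hAinv, tr_one]
      calc tr (Ring.inverse (A i) * A' i) * (tr (A i) * cb i * A i) * (Ring.inverse (A i) * A' i)
          = tr (A' i) * (tr (Ring.inverse (A i)) * tr (A i)) * cb i *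
              (A i * Ring.inverse (A i)) * A' i := by rw [tr_mul]; noncomm_ring
        _ = tr (A' i) * cb i * A' i := by rw [h1, hAinv]; noncomm_ring
        _ = tr (A i) * cb i * A i := (hcc i).symm
    obtain ⟨r, hr⟩ := pathC_sp hO hS
    refine ⟨r, ?_⟩
    rw [pl_pl, ← mul_assoc, hAinv, one_mul] at hr
    exact hr
  choose r hr using hpath
  obtain ⟨e₁, he₁, hsm⟩ := sum_bound r
  set e : ℝ := min e₀ (min e₀' e₁) with he
  have he0 : 0 < e := lt_min he₀ (lt_min he₀' he₁)
  have hle0 : e ≤ e₀ := min_le_left _ _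
  have hle0' : e ≤ e₀' := (min_le_right _ _).trans (min_le_left _ _)
  have hle1 : e ≤ e₁ := (min_le_right _ _).trans (min_le_right _ _)
  have hins := ins_pathC M hDec.nd hr hDec.cst he0 (hsm e he0 hle1)
  have h1 : M.Eqv x (M.fill cb kb o A e) := hrep e he0 hle0
  have h2 : M.Eqv (M.fill cb kb o A' e) y := (hrep' e he0 hle0').symm
  have h3 : M.Eqv (M.fill cb kb o A e) (M.fill cb kb o A' e) := by
    unfold Amb.fill
    have hfe : (fun i => tr (A' i) * cb i * A' i) = fun i => tr (A i) * cb i * A i := by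
      funext i
      exact (hcc i).symm
    rw [hfe]
    exact hins
  exact (h1.trans h3).trans h2

end Pool.Agent.Lib.P28s
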