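import Pool.Agent.Lib.P28s.Dd
import Pool.Agent.Lib.P28f.AnnFlat

set_option autoImplicit false

/-!
# Strong flatness on rings

PROOF. Adapt the proved file `P28f/AnnFlat.lean` (`ann_flat`, `ann_ctrl`): the quantity `M f x y` is replaced by `1 + ‖T y - T x‖ * ‖(T x)⁻¹‖` for a map `T : V m → EV m` with unit
values. It is submultiplicative along chains (`chainS`): from `(T x)⁻¹ = (T y)⁻¹ + (T y)⁻¹ (T y - T x) (T x)⁻¹` we get `‖(T x)⁻¹‖ ≤ ‖(T y)⁻¹‖ (1 + ‖T y - T x‖ ‖(T x)⁻¹‖)`, so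
`‖T z - T x‖ ‖(T x)⁻¹‖ ≤ ‖T z - T y‖ ‖(T y)⁻¹‖ (1 + α) + α` with `α = ‖T y - T x‖ ‖(T x)⁻¹‖`. The pieces (`P28f.piece_convex`, `qp`, `exists_piece`, ...), the numerical lemmas and the
structure of the proof are the same.
-/

open MeasureTheory Set Metric
open scoped ContDiff Topology

namespace Pool.Agent.Lib.P28s

open Pool.Agent.Lib.P28f (V EV ann)

variable {m : ℕ}

theorem SFlat.mono {δ δ' : ℝ} {S S' : Set (V m)} {T : V m → EV m} (h : SFlat δ S T)
    (hδ : δ ≤ δ') (hS : S' ⊆ S) : SFlat δ' S' T :=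
  fun x hx y hy => (h x (hS hx) y (hS hy)).trans hδ

theorem chainS {T : V m → EV m} {x y z : V m} (hx : IsUnit (T x)) (hy : IsUnit (T y)) :
    1 + ‖T z - T x‖ * ‖Ring.inverse (T x)‖ ≤
      (1 + ‖T y - T x‖ * ‖Ring.inverse (T x)‖) * (1 + ‖T z - T y‖ * ‖Ring.inverse (T y)‖) := by
  have e : Ring.inverse (T x) = Ring.inverse (T y) +
      Ring.inverse (T y) * (T y - T x) * Ring.inverse (T x) := by
    rw [mul_sub, sub_mul, Ring.inverse_mul_cancel _ hy, one_mul, mul_assoc,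
      Ring.mul_inverse_cancel _ hx, mul_one]
    abel
  have h1 : ‖Ring.inverse (T x)‖ ≤ ‖Ring.inverse (T y)‖ *
      (1 + ‖T y - T x‖ * ‖Ring.inverse (T x)‖) := by
    calc ‖Ring.inverse (T x)‖ = ‖Ring.inverse (T y) +
          Ring.inverse (T y) * (T y - T x) * Ring.inverse (T x)‖ := by rw [← e]
      _ ≤ ‖Ring.inverse (T y)‖ + ‖Ring.inverse (T y) * (T y - T x) * Ring.inverse (T x)‖ :=
          norm_add_le _ _
      _ ≤ ‖Ring.inverse (T y)‖ + ‖Ring.inverse (T y)‖ * ‖T y - T x‖ * ‖Ring.inverse (T x)‖ := by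
          gcongr
          exact (norm_mul_le _ _).trans (by gcongr; exact norm_mul_le _ _)
      _ = _ := by ring
  have h2 : ‖T z - T x‖ ≤ ‖T z - T y‖ + ‖T y - T x‖ := by
    have := norm_add_le (T z - T y) (T y - T x)
    rwa [sub_add_sub_cancel] at this
  have h3 : ‖T z - T x‖ * ‖Ring.inverse (T x)‖ ≤
      (‖T z - T y‖ + ‖T y - T x‖) * ‖Ring.inverse (T x)‖ :=
    mul_le_mul_of_nonneg_right h2 (norm_nonneg _)
  have h4 : ‖T z - T y‖ * ‖Ring.inverse (T x)‖ ≤
      ‖T z - T y‖ * (‖Ring.inverse (T y)‖ * (1 + ‖T y - T x‖ * ‖Ring.inverse (T x)‖)) :=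
    mul_le_mul_of_nonneg_left h1 (norm_nonneg _)
  nlinarith

namespace AnnSAux

open Pool.Agent.Lib.P28f.AnnFlatAux (piece piece_convex piece_sub qp qp_left qp_right exists_piece
  num_pow num cube_le)

/-- one plus the relative deviation of the values at `x` and `y` -/
noncomputable def M (T : V m → EV m) (x y : V m) : ℝ :=
  1 + ‖T y - T x‖ * ‖Ring.inverse (T x)‖

theorem M_pos (T : V m → EV m) (x y : V m) : 0 ≤ M T x y := by
  unfold M
  positivity

theorem M_chain {T : V m → EV m} {x y z : V m} (hx : IsUnit (T x)) (hy : IsUnit (T y)) {α β : ℝ}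
    (h1 : M T x y ≤ α) (h2 : M T y z ≤ β) : M T x z ≤ α * β :=
  (chainS hx hy).trans (mul_le_mul h1 h2 (M_pos T y z) ((M_pos T x y).trans h1))

theorem M_self {T : V m → EV m} {x : V m} : M T x x = 1 := by
  unfold M
  rw [sub_self, norm_zero, zero_mul, add_zero]

/-- one segment -/
theorem segm {δ : ℝ} (h0 : 0 ≤ δ) {T : V m → EV m} {S : Set (V m)} (hS : Convex ℝ S) {R : ℝ}
    (hI : ∀ x ∈ S, IsUnit (T x))
    (hloc : ∀ x ∈ S, SFlat δ (closedBall x (R / 32)) T) {x y : V m} (hx : x ∈ S) (hy : y ∈ S)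
    (hxy : ‖y - x‖ ≤ 4 * R) : M T x y ≤ (1 + δ) ^ 256 := by
  set p : ℕ → V m := fun k => x + ((k : ℝ) / 256) • (y - x) with hp
  have hmem : ∀ k ≤ 256, p k ∈ S := by
    intro k hk
    have hk' : (k : ℝ) ≤ 256 := by exact_mod_cast hk
    exact hS.add_smul_sub_mem hx hy ⟨by positivity, by rw [div_le_one (by norm_num)]; exact hk'⟩
  have key : ∀ k ≤ 256, M T x (p k) ≤ (1 + δ) ^ k := by
    intro k
    induction k with
    | zero =>
      intro _
      have e : p 0 = x := by simp [hp]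
      rw [e, M_self, pow_zero]
    | succ k ih =>
      intro hk
      have h1 := ih (by omega)
      have hpk := hmem k (by omega)
      rw [pow_succ]
      apply M_chain (hI _ hx) (hI _ hpk) h1
      unfold M
      have h4R : 0 ≤ R := by
        have := (norm_nonneg (y - x)).trans hxy
        linarith
      have h2 := hloc _ hpk (p k) (mem_closedBall_self (by positivity)) (p (k + 1)) (by
        rw [mem_closedBall, dist_eq_norm]
        have e : p (k + 1) - p k = (1 / 256 : ℝ) • (y - x) := by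
          simp only [hp]
          push_cast
          module
        rw [e, norm_smul, Real.norm_eq_abs, abs_of_pos (by norm_num)]
        linarith)
      linarith
  have h1 := key 256 le_rfl
  have e : p 256 = y := by simp [hp]
  rwa [e] at h1

end AnnSAux

open AnnSAux in
open Pool.Agent.Lib.P28f.AnnFlatAux (piece piece_convex piece_sub qp qp_left qp_right exists_piece
  num_pow num cube_le) in
theorem ann_flatS (hm : 2 ≤ m) {δ : ℝ} (h0 : 0 ≤ δ) (h1 : δ ≤ 1 / 2000) {T : V m → EV m}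
    {a : V m} {R : ℝ} (hR : 0 < R) (hI : ∀ x ∈ ann a R, IsUnit (T x))
    (hloc : ∀ x ∈ ann a R, SFlat δ (closedBall x (R / 32)) T) :
    SFlat (2000 * δ) (ann a R) T := by
  obtain ⟨P, hPdef⟩ : ∃ P : ℝ, P = (1 + δ) ^ 256 := ⟨_, rfl⟩
  have hone : (1 : ℝ) ≤ P := by
    rw [hPdef]
    exact one_le_pow₀ (by linarith)
  have hPexp : P ≤ Real.exp (256 * δ) := by
    rw [hPdef]
    exact num_pow h0 256
  have hseg : ∀ (i : Fin m) (σ : ℝ), |σ| = 1 → ∀ x ∈ piece a R i σ, ∀ y ∈ piece a R i σ,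
      M T x y ≤ P := by
    intro i σ hσ x hx y hy
    rw [hPdef]
    apply segm h0 (piece_convex a i σ) (fun z hz => hI z (piece_sub hσ hz))
      (fun z hz => hloc z (piece_sub hσ hz)) hx hy
    calc ‖y - x‖ = ‖(y - a) - (x - a)‖ := by rw [sub_sub_sub_cancel_right]
      _ ≤ ‖y - a‖ + ‖x - a‖ := norm_sub_le _ _
      _ ≤ 2 * R + 2 * R := add_le_add hy.1 hx.1
      _ = 4 * R := by ring
  clear hPdef
  have h11 : |(1 : ℝ)| = 1 := abs_one
  have hseg2 : ∀ (i : Fin m) (σ : ℝ), |σ| = 1 → ∀ (j : Fin m) (τ : ℝ), |τ| = 1 → j ≠ i →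
      ∀ x ∈ piece a R i σ, ∀ y ∈ piece a R j τ, M T x y ≤ P * P := by
    intro i σ hσ j τ hτ hij x hx y hy
    have hq := qp_left a hR i hσ j hτ
    exact M_chain (hI _ (piece_sub hσ hx)) (hI _ (piece_sub hσ hq)) (hseg i σ hσ x hx _ hq)
      (hseg j τ hτ _ (qp_right a hR i hσ j hτ hij) y hy)
  intro x hx y hy
  obtain ⟨i, σ, hσ, hxi⟩ := exists_piece hR hx
  obtain ⟨j, τ, hτ, hyj⟩ := exists_piece hR hy
  have habs : ∀ s : ℝ, (s = 1 ∨ s = -1) → |s| = 1 := by
    rintro s (rfl | rfl)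
    · exact abs_one
    · rw [abs_neg, abs_one]
  have hσ' := habs σ hσ
  have hτ' := habs τ hτ
  have hPP : P ≤ P * P := le_mul_of_one_le_left (by linarith) hone
  have hPPP : P * P ≤ P * P * P := le_mul_of_one_le_right (by positivity) hone
  have hfin : M T x y ≤ P * P * P := by
    by_cases hij : j = i
    · subst hij
      by_cases hst : τ = σ
      · subst hst
        exact (hseg j τ hτ' x hxi y hyj).trans (hPP.trans hPPP)
      · obtain ⟨l, hl⟩ : ∃ l : Fin m, l ≠ j := by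
          by_cases h : (⟨0, by omega⟩ : Fin m) = j
          · refine ⟨⟨1, by omega⟩, fun h' => ?_⟩
            rw [← h] at h'
            have := congrArg Fin.val h'
            simp at this
          · exact ⟨_, h⟩
        have e1 := hseg2 j σ hσ' l 1 h11 hl x hxi (qp a R j τ l 1)
          (qp_right a hR j hτ' l h11 hl)
        exact M_chain (hI _ hx) (hI _ (piece_sub hτ' (qp_left a hR j hτ' l h11))) e1
          (hseg j τ hτ' _ (qp_left a hR j hτ' l h11) y hyj)
    · exact (hseg2 i σ hσ' j τ hτ' hij x hxi y hyj).trans hPPP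
  have hn := num h0 h1 (cube_le h0 (by linarith) hPexp)
  unfold M at hfin
  linarith

theorem ann_ctrlS (hm : 2 ≤ m) {δ c : ℝ} (h0 : 0 ≤ δ) (h1 : δ ≤ 1 / 2000) {U : Set (V m)}
    {lam : V m → V m} {μ : Measure (V m)} [IsFiniteMeasure μ] (h : Ctrl δ c U lam μ) {a : V m}
    {R : ℝ} (hR : 0 < R) (hU : closedBall a (9 / 4 * R) ⊆ U)
    (hμ : μ.real (closedBall a (9 / 4 * R) \ ball a (3 / 4 * R)) ≤ c) :
    SFlat (2000 * δ) (ann a R) (dd lam) := by
  have hsub : ∀ x ∈ ann a R, closedBall x (R / 4) ⊆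
      closedBall a (9 / 4 * R) \ ball a (3 / 4 * R) := by
    intro x hx y hy
    rw [mem_closedBall, dist_eq_norm] at hy
    have h2 : ‖y - a‖ ≤ ‖y - x‖ + ‖x - a‖ := norm_sub_le_norm_sub_add_norm_sub y x a
    have h3 : ‖x - a‖ ≤ ‖y - x‖ + ‖y - a‖ := by
      have := norm_sub_le_norm_sub_add_norm_sub x y a
      rwa [norm_sub_rev x y] at this
    refine ⟨?_, ?_⟩
    · rw [mem_closedBall, dist_eq_norm]
      linarith [hx.2]
    · rw [mem_ball, dist_eq_norm, not_lt]
      linarith [hx.1]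
  apply ann_flatS hm h0 h1 hR
  · intro x hx
    exact (h.nd x (hU ((hsub x hx) (mem_closedBall_self (by positivity))).1)).2
  · intro x hx
    have h4 := h.flat x (R / 4) (by positivity) (fun y hy => hU ((hsub x hx) hy).1)
      ((measureReal_mono (hsub x hx)).trans hμ)
    have e : R / 4 / 8 = R / 32 := by ring
    rwa [e] at h4

end Pool.Agent.Lib.P28s
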