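import Pool.Agent.Lib.P28s.Dd
import Pool.Agent.Lib.P28f.PullLoc

set_option autoImplicit false

/-!
# Rescaling controlled forms

PROOF. As in `P28f/PullLoc.lean` (`pull_real`, `pull_closedBall` there can be used; the private lemmas can be copied), with `co lam a s` in place of `v ↦ f (a + s • v)`:
`dd (co lam a s) v = dd lam (a + s • v)` (`dd_co`), so non-degeneracy and strong flatness are transported without any factor.
-/

open MeasureTheory Set Metric
open scoped ContDiff Topology

namespace Pool.Agent.Lib.P28s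

open Pool.Agent.Lib.P28f (V EV pull)

variable {m : ℕ}

namespace PullSAux

theorem pull_apply' {a : V m} {s : ℝ} (hs : 0 < s) (μ : Measure (V m)) (S : Set (V m)) :
    pull a s μ S = μ {x | s⁻¹ • (x - a) ∈ S} := by
  let e : V m ≃ₜ V m := (Homeomorph.subRight a).trans (Homeomorph.smulOfNeZero s⁻¹ (inv_ne_zero hs.ne'))
  have h : pull a s μ = μ.map e.toMeasurableEquiv := rfl
  rw [h, MeasurableEquiv.map_apply]
  rfl

theorem norm_scale {a x z : V m} {s : ℝ} (hs : 0 < s) :
    ‖x - (a + s • z)‖ = s * ‖s⁻¹ • (x - a) - z‖ := by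
  have h : x - (a + s • z) = s • (s⁻¹ • (x - a) - z) := by
    rw [smul_sub, smul_smul, mul_inv_cancel₀ hs.ne', one_smul]
    abel
  rw [h, norm_smul, Real.norm_of_nonneg hs.le]

theorem pre_closedBall {a : V m} {s : ℝ} (hs : 0 < s) (z : V m) (r : ℝ) :
    {x | s⁻¹ • (x - a) ∈ closedBall z r} = closedBall (a + s • z) (s * r) := by
  ext x
  rw [mem_ofPred_eq, mem_closedBall, mem_closedBall, dist_eq_norm, dist_eq_norm, norm_scale hs]
  exact ⟨fun h => mul_le_mul_of_nonneg_left h hs.le, fun h => le_of_mul_le_mul_left h hs⟩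

theorem pre_ball {a : V m} {s : ℝ} (hs : 0 < s) (z : V m) (r : ℝ) :
    {x | s⁻¹ • (x - a) ∈ ball z r} = ball (a + s • z) (s * r) := by
  ext x
  rw [mem_ofPred_eq, mem_ball, mem_ball, dist_eq_norm, dist_eq_norm, norm_scale hs]
  exact ⟨fun h => mul_lt_mul_of_pos_left h hs, fun h => lt_of_mul_lt_mul_left h hs.le⟩

theorem mem_scaled {a v : V m} {s : ℝ} (hs : 0 < s) (hv : v ∈ ball (0 : V m) 1) :
    a + s • v ∈ ball a s := by
  rw [mem_ball_zero_iff] at hv
  rw [mem_ball, dist_eq_norm, add_sub_cancel_left, norm_smul, Real.norm_of_nonneg hs.le]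
  calc s * ‖v‖ < s * 1 := mul_lt_mul_of_pos_left hv hs
    _ = s := mul_one s

end PullSAux

open PullSAux

theorem ctrl_pullS {δ c : ℝ} {U : Set (V m)} {lam : V m → V m} {μ : Measure (V m)}
    [IsFiniteMeasure μ] (h : Ctrl δ c U lam μ) {a : V m} {s : ℝ} (hs : 0 < s)
    (hb : ball a s ⊆ U) : Ctrl δ c (ball 0 1) (co lam a s) (pull a s μ) := by
  have hdd : ∀ v ∈ ball (0 : V m) 1, dd (co lam a s) v = dd lam (a + s • v) := by
    intro v hv
    obtain ⟨h1, -⟩ := h.nd _ (hb (mem_scaled hs hv))
    exact dd_co hs.ne' (h1.differentiableAt (by simp))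
  constructor
  · intro v hv
    obtain ⟨h1, h2⟩ := h.nd _ (hb (mem_scaled hs hv))
    refine ⟨contDiffAt_co h1, ?_⟩
    rw [hdd v hv]
    exact h2
  · intro z r hr hsub hmass
    rw [Pool.Agent.Lib.P28f.pull_closedBall hs] at hmass
    have hsub' : closedBall (a + s • z) (s * r) ⊆ U := by
      rw [← pre_closedBall hs]
      intro x hx
      have hx' := hsub hx
      have h2 := mem_scaled (a := a) hs hx'
      rw [smul_smul, mul_inv_cancel₀ hs.ne', one_smul, add_sub_cancel] at h2
      exact hb h2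
    have hflat := h.flat _ _ (mul_pos hs hr) hsub' hmass
    have hzr : closedBall z (r / 8) ⊆ ball 0 1 :=
      (closedBall_subset_closedBall (by linarith)).trans hsub
    have hmem : ∀ v ∈ closedBall z (r / 8), a + s • v ∈ closedBall (a + s • z) (s * r / 8) := by
      intro v hv
      rw [mem_closedBall, dist_eq_norm] at hv
      rw [mem_closedBall, dist_eq_norm]
      have e : a + s • v - (a + s • z) = s • (v - z) := by
        rw [smul_sub]
        abel
      rw [e, norm_smul, Real.norm_of_nonneg hs.le]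
      have := mul_le_mul_of_nonneg_left hv hs.le
      linarith
    intro x hx y hy
    rw [hdd x (hzr hx), hdd y (hzr hy)]
    exact hflat _ (hmem x hx) _ (hmem y hy)

theorem loc_subS {δ c E : ℝ} {U : Set (V m)} {lam : V m → V m} {μ : Measure (V m)}
    (hfin : IsFiniteMeasure μ) (hatom : ∀ x, μ {x} = 0) (h : Ctrl δ c U lam μ) {a : V m} {s : ℝ}
    (hs : 0 < s) (hb : ball a s ⊆ U) (hmass : μ.real (ball a s) ≤ E)
    (hcol : μ.real (ball a s \ closedBall a (s / 16)) ≤ c / 4) :
    Loc δ c E (co lam a s) (pull a s μ) := by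
  refine ⟨?_, ?_, ctrl_pullS h hs hb, ?_, ?_⟩
  · unfold pull
    infer_instance
  · intro x
    rw [pull_apply' hs]
    have e : {y : V m | s⁻¹ • (y - a) ∈ ({x} : Set (V m))} = {a + s • x} := by
      ext y
      simp only [mem_ofPred_eq, mem_singleton_iff]
      constructor
      · rintro rfl
        rw [smul_smul, mul_inv_cancel₀ hs.ne', one_smul, add_sub_cancel]
      · rintro rfl
        rw [add_sub_cancel_left, smul_smul, inv_mul_cancel₀ hs.ne', one_smul]
    rw [e]
    exact hatom _
  · rw [Pool.Agent.Lib.P28f.pull_real hs, pre_ball hs]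
    simpa using hmass
  · rw [Pool.Agent.Lib.P28f.pull_real hs]
    have e : {x : V m | s⁻¹ • (x - a) ∈ ball (0 : V m) 1 \ closedBall 0 (1 / 16)} =
        ball a s \ closedBall a (s / 16) := by
      have e1 := pre_ball (a := a) hs (0 : V m) 1
      have e2 := pre_closedBall (a := a) hs (0 : V m) (1 / 16)
      rw [smul_zero, add_zero, mul_one] at e1
      rw [smul_zero, add_zero, mul_one_div] at e2
      rw [← e1, ← e2]
      rfl
    rw [e]
    exact hcol

end Pool.Agent.Lib.P28s
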