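import Pool.Agent.Lib.P28s.Move
import Pool.Agent.Lib.P28s.AnnS
import Pool.Agent.Lib.P28s.PullS

set_option autoImplicit false

/-!
# Small mass: the class is that of a constant form

PROOF. `δ₀ = min (1/2000) (δ₁/2000)`, also `≤` the constant of `cutOf_exists` divided by `2000`, `δ₁` from `lab_move`. All subsets of `ball 0 1` have mass `≤ E ≤ c`, so by `ann_ctrlS` the ring `ann 0 R'` is `2000 δ`-flat for `0 < R' ≤ 1/4`
(compare `P28f/BaseCls.lean`). `lab_move` with `a = a' = 0`, `R = 1/4`: `LabEq (co lam 0 (1/2)) (co lam 0 (2 R'))` for each such `R'`. `T = dd lam` is continuous at `0` with `T 0` a unit, so for `R'` small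
`‖T (2 R' v) - T 0‖ ‖(T 0)⁻¹‖ ≤ 1/100` for `‖v‖ ≤ 1`. The form `lc (T 0)` is a cut of itself (`cut_lc`, `sk_dd`), `co lam 0 (2 R')` has a cut (`cutOf_exists`), and `cut_near` (from `lc (T 0)` to
`co lam 0 (2R')`) gives `LabEq (co lam 0 (2R')) (lc (T 0))`. `LabEq.trans`.
-/

open MeasureTheory Set Metric
open scoped ContDiff Topology

namespace Pool.Agent.Lib.P28s

open Pool.Agent.Lib.P28f (V EV ann)

private theorem continuousAt_dd {m : ℕ} {lam : V m → V m} {x : V m} (h : ContDiffAt ℝ ∞ lam x) :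
    ContinuousAt (dd lam) x := by
  have h1 : ContinuousAt (fderiv ℝ lam) x :=
    (h.fderiv_right (m := 0) (by simp)).continuousAt
  exact h1.sub (continuous_tr.continuousAt.comp h1)

theorem base_S (m : ℕ) (hm : 3 ≤ m) : ∃ δ₀ : ℝ, 0 < δ₀ ∧ ∀ (δ c E : ℝ) (lam : V m → V m)
    (μ : Measure (V m)), 0 ≤ δ → δ ≤ δ₀ → E ≤ c → Loc δ c E lam μ →
    LabEq (st lam) (lc (dd lam 0)) := by
  obtain ⟨δ₁, hδ₁, hmove⟩ := lab_move m hm
  obtain ⟨δ₂, hδ₂, hcut⟩ := cutOf_exists m hm
  refine ⟨min (1 / 2000) (min (δ₁ / 2000) (δ₂ / 2000)), by positivity,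
    fun δ c E lam μ h0 hδ hE h => ?_⟩
  have h1 : δ ≤ 1 / 2000 := hδ.trans (min_le_left _ _)
  have h2 : 2000 * δ ≤ δ₁ := by
    have := hδ.trans ((min_le_right _ _).trans (min_le_left _ _))
    linarith
  have h3 : 2000 * δ ≤ δ₂ := by
    have := hδ.trans ((min_le_right _ _).trans (min_le_right _ _))
    linarith
  have hfin := h.fin
  have hnd := h.ctrl.nd
  have hflat : ∀ R : ℝ, 0 < R → R ≤ 1 / 4 → SFlat (2000 * δ) (ann 0 R) (dd lam) := by
    intro R hR hR4
    have hsub : closedBall (0 : V m) (9 / 4 * R) ⊆ ball 0 1 := by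
      intro x hx
      rw [mem_closedBall] at hx
      rw [mem_ball]
      linarith
    refine ann_ctrlS (by omega) h0 h1 h.ctrl hR hsub ?_
    refine le_trans (measureReal_mono ?_) (h.mass.trans hE)
    exact sdiff_subset.trans hsub
  have hmv : ∀ R' : ℝ, 0 < R' → R' ≤ 1 / 4 →
      LabEq (co lam 0 (2 * (1 / 4))) (co lam 0 (2 * R')) := by
    intro R' hR' hR4
    refine hmove lam 0 0 (1 / 4) R' (by norm_num) hR' fun t ht => ?_
    have e1 : (1 - t) • (0 : V m) + t • (0 : V m) = 0 := by simp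
    rw [e1]
    obtain ⟨t0, t1⟩ := ht
    have e2 : 0 < (1 - t) * (1 / 4) + t * R' := by
      by_cases h4 : t = 1
      · rw [h4]; linarith
      · have h5 : t < 1 := lt_of_le_of_ne t1 h4
        have h6 : 0 ≤ t * R' := mul_nonneg t0 hR'.le
        linarith
    have e3 : (1 - t) * (1 / 4) + t * R' ≤ 1 / 4 := by
      have : t * R' ≤ t * (1 / 4) := mul_le_mul_of_nonneg_left hR4 t0
      linarith
    refine ⟨fun x hx => hnd x ?_, (hflat _ e2 e3).mono h2 (subset_refl _)⟩
    rw [mem_closedBall] at hx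
    rw [mem_ball]
    linarith
  -- the value at the centre
  have h00 : (0 : V m) ∈ ball (0 : V m) 1 := by simp
  obtain ⟨hs0, hu0⟩ := hnd 0 h00
  have hcont := continuousAt_dd hs0
  have hev : ∀ᶠ x in 𝓝 (0 : V m), ‖dd lam x - dd lam 0‖ * ‖Ring.inverse (dd lam 0)‖ < 1 / 100 := by
    have hc : ContinuousAt (fun x => ‖dd lam x - dd lam 0‖ * ‖Ring.inverse (dd lam 0)‖) 0 :=
      (hcont.sub continuousAt_const).norm.mul continuousAt_const
    refine hc.eventually_lt continuousAt_const ?_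
    rw [sub_self, norm_zero, zero_mul]
    norm_num
  obtain ⟨r, hr0, hr⟩ := Metric.eventually_nhds_iff.1 hev
  set R' : ℝ := min (1 / 4) (r / 4) with hR'
  have hR'0 : 0 < R' := lt_min (by norm_num) (by linarith)
  have hR'4 : R' ≤ 1 / 4 := min_le_left _ _
  have hR'r : R' ≤ r / 4 := min_le_right _ _
  have hin : ∀ v : V m, ‖v‖ ≤ 1 → (0 : V m) + (2 * R') • v ∈ ball (0 : V m) 1 := by
    intro v hv
    rw [zero_add, mem_ball_zero_iff, norm_smul, Real.norm_eq_abs, abs_of_pos (by linarith)]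
    nlinarith [norm_nonneg v]
  have hdd : ∀ v : V m, ‖v‖ ≤ 1 → dd (co lam 0 (2 * R')) v = dd lam ((2 * R') • v) := by
    intro v hv
    have h5 := (hnd _ (hin v hv)).1
    rw [dd_co (by positivity) (h5.differentiableAt (by simp)), zero_add]
  have hnd' : NdOn (closedBall 0 1) (co lam 0 (2 * R')) := by
    intro v hv
    rw [mem_closedBall_zero_iff] at hv
    have h5 := hnd _ (hin v hv)
    refine ⟨contDiffAt_co h5.1, ?_⟩
    rw [hdd v hv]
    have h6 := h5.2
    rwa [zero_add] at h6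
  have hmem : ∀ v ∈ ann (0 : V m) (1 / 2), ‖v‖ ≤ 1 ∧ (2 * R') • v ∈ ann (0 : V m) R' := by
    intro v hv
    obtain ⟨h5, h6⟩ := hv
    rw [sub_zero] at h5 h6
    refine ⟨by linarith, ?_, ?_⟩
    · rw [sub_zero, norm_smul, Real.norm_eq_abs, abs_of_pos (by linarith)]
      nlinarith
    · rw [sub_zero, norm_smul, Real.norm_eq_abs, abs_of_pos (by linarith)]
      nlinarith
  have hfl' : SFlat δ₂ (ann 0 (1 / 2)) (dd (co lam 0 (2 * R'))) := by
    intro x hx y hy
    obtain ⟨hx1, hx2⟩ := hmem x hx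
    obtain ⟨hy1, hy2⟩ := hmem y hy
    rw [hdd x hx1, hdd y hy1]
    exact (hflat R' hR'0 hR'4 _ hx2 _ hy2).trans h3
  obtain ⟨k', hk'⟩ := hcut _ hnd' hfl'
  have hsk : Sk (dd lam 0) := sk_dd lam 0
  have hpath : PathV (lc (dd lam 0)) k' := by
    refine cut_near (cut_lc hsk hu0) hk' fun v hv => ?_
    rw [hdd v hv, dd_lc hsk]
    refine (hr ?_).le
    rw [dist_zero_right, norm_smul, Real.norm_eq_abs, abs_of_pos (by linarith)]
    nlinarith [norm_nonneg v]
  have hlab : LabEq (lc (dd lam 0)) (co lam 0 (2 * R')) := ⟨_, _, cut_lc hsk hu0, hk', hpath⟩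
  have hst : st lam = co lam 0 (2 * (1 / 4)) := by
    unfold st
    norm_num
  rw [hst]
  exact (hmv R' hR'0 hR'4).trans hlab.symm

end Pool.Agent.Lib.P28s
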