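import Pool.Agent.Lib.P28s.Alg
import Pool.Agent.Lib.P28f.Bdd

set_option autoImplicit false

/-!
# Boundedness along connected sets; nets (strong version)

PROOF. `bddS`: adapt the proved theorem `P28f.bdd` (`P28f/Bdd.lean`): let `P x` be: there is `C > 0` such that for almost all `j` the three inequalities hold at `x`. The set of `x ∈ Ω` with `P x`
is open and its complement in `Ω` is open, since for `y` in the ball of `hloc` around `x` (with `α = ‖G y - G x‖ ‖(G x)⁻¹‖ ≤ 1/2`, `near_inv`) `‖(G y)⁻¹‖ ≤ 2 ‖(G x)⁻¹‖`,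
`‖(G x)⁻¹‖ ≤ (3/2) ‖(G y)⁻¹‖` and `‖G y - G x‖ ‖(G x₀)⁻¹‖ ≤ C ‖G y - G x‖ ‖(G x)⁻¹‖ ≤ C / 2` when `‖(G x₀)⁻¹‖ ≤ C ‖(G x)⁻¹‖`. It contains `x₀` (`C = 1`). Then a finite subcover of `K`.
For the uniformity on `K` use that the balls of `hloc` around finitely many points cover `K`.
`net_closeS`: adapt `P28f.net_close`. On a finite `r`-net `t ⊆ K` the limits `L p` of `N j p` along `ult` exist; let `S` be the set of `j` which satisfy `h` and
`‖N j p - L p‖ ≤ ε`, `ε = 1/(100 (C + 1))`. For `i, j ∈ S`, `x ∈ K`, `p` the net point near `x`: `‖N j p - N i p‖ ‖(N i p)⁻¹‖ ≤ 2 ε C ≤ 2/100`, and `x, p` are close for `i` and for `j`: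
by `near_inv` all inverse norms `‖(N i x)⁻¹‖, ‖(N i p)⁻¹‖, ‖(N j p)⁻¹‖` agree up to factors in `[0.9, 1.1]`, so
`‖N j x - N i x‖ ‖(N i x)⁻¹‖ ≤ 1.1 (1/100 * 1.1 + 2/100 + 1/100 * 1.1) ≤ 1/8`. (`h` at `p` with `y = x`.)
-/

open MeasureTheory Set Metric
open scoped ContDiff Topology

namespace Pool.Agent.Lib.P28s

open Pool.Agent.Lib.P28f (V EV ult)

variable {m : ℕ}

namespace BddSAux

/-- the three inequalities -/
def Q3 (C : ℝ) (g a : EV m) : Prop := ‖Ring.inverse g‖ ≤ C * ‖Ring.inverse a‖ ∧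
  ‖Ring.inverse a‖ ≤ C * ‖Ring.inverse g‖ ∧ ‖g - a‖ * ‖Ring.inverse a‖ ≤ C

theorem Q3.mono {C D : ℝ} {g a : EV m} (h : Q3 C g a) (hCD : C ≤ D) : Q3 D g a :=
  ⟨h.1.trans (mul_le_mul_of_nonneg_right hCD (norm_nonneg _)),
    h.2.1.trans (mul_le_mul_of_nonneg_right hCD (norm_nonneg _)), h.2.2.trans hCD⟩

theorem inv_pair {b c : EV m} (hb : IsUnit b) (h : ‖c - b‖ * ‖Ring.inverse b‖ ≤ 1 / 2) :
    ‖Ring.inverse c‖ ≤ 2 * ‖Ring.inverse b‖ ∧ ‖Ring.inverse b‖ ≤ 3 / 2 * ‖Ring.inverse c‖ := by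
  obtain ⟨h1, h2⟩ := near_inv hb h (by norm_num)
  constructor
  · refine h1.trans (le_of_eq ?_)
    norm_num
    ring
  · refine h2.trans (le_of_eq ?_)
    ring

theorem step {a b c : EV m} (hb : IsUnit b) {C : ℝ} (hC : 0 < C)
    (h : ‖c - b‖ * ‖Ring.inverse b‖ ≤ 1 / 2) (hQ : Q3 C b a) : Q3 (2 * C) c a := by
  obtain ⟨h1, h2⟩ := inv_pair hb h
  obtain ⟨q1, q2, q3⟩ := hQ
  have hn := norm_nonneg (c - b)
  refine ⟨?_, ?_, ?_⟩
  · linarith
  · have e1 := mul_le_mul_of_nonneg_left h2 hC.le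
    have e2 : 0 ≤ C * ‖Ring.inverse c‖ := by positivity
    linarith
  · have e1 : ‖c - a‖ ≤ ‖c - b‖ + ‖b - a‖ := norm_sub_le_norm_sub_add_norm_sub c b a
    have e2 := mul_le_mul_of_nonneg_right e1 (norm_nonneg (Ring.inverse a))
    have e3 : ‖c - b‖ * ‖Ring.inverse a‖ ≤ ‖c - b‖ * (C * ‖Ring.inverse b‖) :=
      mul_le_mul_of_nonneg_left q2 hn
    have e4 : ‖c - b‖ * (C * ‖Ring.inverse b‖) = C * (‖c - b‖ * ‖Ring.inverse b‖) := by ring
    have e5 := mul_le_mul_of_nonneg_left h hC.le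
    linarith

theorem step' {a b c : EV m} (hb : IsUnit b) {C : ℝ} (hC : 0 < C)
    (h : ‖c - b‖ * ‖Ring.inverse b‖ ≤ 1 / 2) (hQ : Q3 C c a) : Q3 (2 * C) b a := by
  obtain ⟨h1, h2⟩ := inv_pair hb h
  obtain ⟨q1, q2, q3⟩ := hQ
  have hn := norm_nonneg (c - b)
  refine ⟨?_, ?_, ?_⟩
  · have e2 : 0 ≤ C * ‖Ring.inverse a‖ := by positivity
    linarith
  · have e1 := mul_le_mul_of_nonneg_left h1 hC.le
    linarith
  · have e1 : ‖b - a‖ ≤ ‖c - b‖ + ‖c - a‖ := by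
      rw [norm_sub_rev c b]
      exact norm_sub_le_norm_sub_add_norm_sub b c a
    have e2 := mul_le_mul_of_nonneg_right e1 (norm_nonneg (Ring.inverse a))
    have e3 : ‖c - b‖ * ‖Ring.inverse a‖ ≤ ‖c - b‖ * (C * (2 * ‖Ring.inverse b‖)) :=
      mul_le_mul_of_nonneg_left (q2.trans (mul_le_mul_of_nonneg_left h1 hC.le)) hn
    have e4 : ‖c - b‖ * (C * (2 * ‖Ring.inverse b‖)) =
        2 * C * (‖c - b‖ * ‖Ring.inverse b‖) := by ring
    have e5 := mul_le_mul_of_nonneg_left h (show 0 ≤ 2 * C by positivity)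
    linarith

end BddSAux

open BddSAux

theorem bddS {Ω : Set (V m)} (hΩ : IsOpen Ω) (hc : IsPreconnected Ω) {x₀ : V m} (hx₀ : x₀ ∈ Ω)
    (G : ℕ → V m → EV m) (hu : ∀ᶠ j in (ult : Filter ℕ), ∀ x ∈ Ω, IsUnit (G j x))
    (hloc : ∀ x ∈ Ω, ∃ ρ : ℝ, 0 < ρ ∧ closedBall x ρ ⊆ Ω ∧
      ∀ᶠ j in (ult : Filter ℕ), ∀ y ∈ closedBall x ρ,
        ‖G j y - G j x‖ * ‖Ring.inverse (G j x)‖ ≤ 1 / 2)
    {K : Set (V m)} (hK : IsCompact K) (hKΩ : K ⊆ Ω) :
    ∃ C : ℝ, 1 ≤ C ∧ ∀ᶠ j in (ult : Filter ℕ), ∀ x ∈ K,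
      ‖Ring.inverse (G j x)‖ ≤ C * ‖Ring.inverse (G j x₀)‖ ∧
      ‖Ring.inverse (G j x₀)‖ ≤ C * ‖Ring.inverse (G j x)‖ ∧
      ‖G j x - G j x₀‖ * ‖Ring.inverse (G j x₀)‖ ≤ C := by
  let P : V m → Prop := fun x => ∃ C : ℝ, 0 < C ∧ ∀ᶠ j in (ult : Filter ℕ), Q3 C (G j x) (G j x₀)
  have hA : IsOpen {x | x ∈ Ω ∧ P x} := by
    rw [Metric.isOpen_iff]
    rintro x ⟨hx, C, hC, hCx⟩
    obtain ⟨ρ, hρ, hρΩ, hev⟩ := hloc x hx
    refine ⟨ρ, hρ, fun y hy => ?_⟩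
    have hy' := ball_subset_closedBall hy
    refine ⟨hρΩ hy', 2 * C, by positivity, ?_⟩
    filter_upwards [hu, hCx, hev] with j h1 h2 h3
    exact step (h1 x hx) hC (h3 y hy') h2
  have hB : IsOpen {x | x ∈ Ω ∧ ¬ P x} := by
    rw [Metric.isOpen_iff]
    rintro x ⟨hx, hPx⟩
    obtain ⟨ρ, hρ, hρΩ, hev⟩ := hloc x hx
    refine ⟨ρ, hρ, fun y hy => ?_⟩
    have hy' := ball_subset_closedBall hy
    refine ⟨hρΩ hy', fun hPy => hPx ?_⟩
    obtain ⟨C, hC, hCy⟩ := hPy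
    refine ⟨2 * C, by positivity, ?_⟩
    filter_upwards [hu, hCy, hev] with j h1 h2 h3
    exact step' (h1 x hx) hC (h3 y hy') h2
  have hall : ∀ x ∈ Ω, P x := by
    have h1 : Ω ⊆ {x | x ∈ Ω ∧ P x} := by
      refine hc.subset_left_of_subset_union hA hB ?_ ?_ ?_
      · rw [Set.disjoint_left]
        rintro x ⟨_, h⟩ ⟨_, h'⟩
        exact h' h
      · intro x hx
        by_cases h : P x
        · exact Or.inl ⟨hx, h⟩
        · exact Or.inr ⟨hx, h⟩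
      · refine ⟨x₀, hx₀, hx₀, 1, one_pos, ?_⟩
        refine Filter.Eventually.of_forall fun j => ⟨?_, ?_, ?_⟩
        · rw [one_mul]
        · rw [one_mul]
        · rw [sub_self, norm_zero, zero_mul]
          exact zero_le_one
    exact fun x hx => (h1 hx).2
  choose! c hcpos hcev using hall
  choose! ρ hρ hρΩ hρev using hloc
  obtain ⟨t, htK, htc⟩ := hK.elim_nhds_subcover (fun x => closedBall x (ρ x))
    (fun x hx => closedBall_mem_nhds x (hρ x (hKΩ hx)))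
  refine ⟨1 + ∑ x ∈ t, 2 * c x, ?_, ?_⟩
  · have : 0 ≤ ∑ x ∈ t, 2 * c x :=
      Finset.sum_nonneg fun x hx => by have := hcpos x (hKΩ (htK x hx)); positivity
    linarith
  · have h1 : ∀ᶠ j in (ult : Filter ℕ), ∀ x ∈ t, Q3 (c x) (G j x) (G j x₀) ∧
        ∀ y ∈ closedBall x (ρ x), ‖G j y - G j x‖ * ‖Ring.inverse (G j x)‖ ≤ 1 / 2 := by
      rw [Filter.eventually_all_finset]
      intro x hx
      exact (hcev x (hKΩ (htK x hx))).and (hρev x (hKΩ (htK x hx)))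
    filter_upwards [hu, h1] with j h2 h3
    intro y hy
    obtain ⟨x, hx, hyx⟩ : ∃ x ∈ t, y ∈ closedBall x (ρ x) := by
      have := htc hy
      simp only [mem_iUnion, exists_prop] at this
      exact this
    have hxΩ := hKΩ (htK x hx)
    obtain ⟨h4, h5⟩ := h3 x hx
    have h6 := step (h2 x hxΩ) (hcpos x hxΩ) (h5 y hyx) h4
    have h7 : 2 * c x ≤ 1 + ∑ x ∈ t, 2 * c x := by
      have h8 : 2 * c x ≤ ∑ x ∈ t, 2 * c x :=
        Finset.single_le_sum (f := fun x => 2 * c x)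
          (fun z hz => by have := hcpos z (hKΩ (htK z hz)); positivity) hx
      linarith
    exact h6.mono h7

theorem net_closeS (N : ℕ → V m → EV m) {K : Set (V m)} (hK : IsCompact K) {C r : ℝ}
    (hr : 0 < r)
    (h : ∀ᶠ j in (ult : Filter ℕ), ∀ x ∈ K, IsUnit (N j x) ∧ ‖N j x‖ ≤ C ∧
      ‖Ring.inverse (N j x)‖ ≤ C ∧
      ∀ y ∈ K, ‖y - x‖ ≤ r → ‖N j y - N j x‖ * ‖Ring.inverse (N j x)‖ ≤ 1 / 100) :
    ∃ S : Set ℕ, (∀ᶠ j in (ult : Filter ℕ), j ∈ S) ∧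
      ∀ i ∈ S, ∀ j ∈ S, ∀ x ∈ K, ‖N j x - N i x‖ * ‖Ring.inverse (N i x)‖ ≤ 1 / 8 := by
  obtain ⟨t, htK, htc⟩ := hK.elim_nhds_subcover (fun x => closedBall x r)
    (fun x _ => closedBall_mem_nhds x hr)
  have hlim : ∀ p ∈ t, ∃ L : EV m, Filter.Tendsto (fun j => N j p) (ult : Filter ℕ) (𝓝 L) := by
    intro p hp
    have h1 : ((ult.map (fun j => N j p) : Ultrafilter (EV m)) : Filter (EV m)) ≤
        Filter.principal (closedBall 0 C) := by
      rw [Ultrafilter.coe_map, Filter.le_principal_iff, Filter.mem_map]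
      filter_upwards [h] with j hj
      rw [mem_preimage, mem_closedBall, dist_zero_right]
      exact (hj p (htK p hp)).2.1
    obtain ⟨L, _, hL⟩ := (isCompact_closedBall (0 : EV m) C).ultrafilter_le_nhds _ h1
    exact ⟨L, hL⟩
  choose! L hL using hlim
  have hτ : (0 : ℝ) < 1 / (100 * (|C| + 1)) := by positivity
  refine ⟨{j | (∀ x ∈ K, IsUnit (N j x) ∧ ‖N j x‖ ≤ C ∧
      ‖Ring.inverse (N j x)‖ ≤ C ∧
      ∀ y ∈ K, ‖y - x‖ ≤ r → ‖N j y - N j x‖ * ‖Ring.inverse (N j x)‖ ≤ 1 / 100) ∧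
      ∀ p ∈ t, dist (N j p) (L p) < 1 / (100 * (|C| + 1))}, ?_, ?_⟩
  · refine h.and ?_
    rw [Filter.eventually_all_finset]
    intro p hp
    exact (Metric.tendsto_nhds.1 (hL p hp)) _ hτ
  · rintro i ⟨hi, hi'⟩ j ⟨hj, hj'⟩ x hx
    obtain ⟨p, hp, hxp⟩ : ∃ p ∈ t, x ∈ closedBall p r := by
      have := htc hx
      simp only [mem_iUnion, exists_prop] at this
      exact this
    have hpK := htK p hp
    rw [mem_closedBall, dist_eq_norm] at hxp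
    have h1 : ‖N i p - N i x‖ * ‖Ring.inverse (N i x)‖ ≤ 1 / 100 :=
      (hi x hx).2.2.2 p hpK (by rw [norm_sub_rev]; exact hxp)
    have h1' : ‖N i x - N i p‖ * ‖Ring.inverse (N i p)‖ ≤ 1 / 100 := (hi p hpK).2.2.2 x hx hxp
    have h2 : ‖N j x - N j p‖ * ‖Ring.inverse (N j p)‖ ≤ 1 / 100 := (hj p hpK).2.2.2 x hx hxp
    have h4 : ‖N j p - N i p‖ ≤ 2 * (1 / (100 * (|C| + 1))) := by
      rw [← dist_eq_norm]
      calc dist (N j p) (N i p) ≤ dist (N j p) (L p) + dist (N i p) (L p) :=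
            dist_triangle_right _ _ _
        _ ≤ _ := by linarith [hi' p hp, hj' p hp]
    have h5 : ∀ z ∈ K, ‖N j p - N i p‖ * ‖Ring.inverse (N i z)‖ ≤ 2 / 100 := by
      intro z hz
      have h6 : ‖Ring.inverse (N i z)‖ ≤ |C| + 1 := by
        have := (hi z hz).2.2.1
        have := le_abs_self C
        linarith
      calc ‖N j p - N i p‖ * ‖Ring.inverse (N i z)‖
          ≤ (2 * (1 / (100 * (|C| + 1)))) * (|C| + 1) :=
            mul_le_mul h4 h6 (norm_nonneg _) (by positivity)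
        _ = 2 / 100 := by field_simp
    obtain ⟨-, h7⟩ := near_inv (hi p hpK).1 (h5 p hpK) (by norm_num)
    obtain ⟨h8, -⟩ := near_inv (hi p hpK).1 h1' (by norm_num)
    have h9 : ‖Ring.inverse (N i x)‖ ≤ 11 / 10 * ‖Ring.inverse (N j p)‖ := by
      have e0 := norm_nonneg (Ring.inverse (N j p))
      have e1 : ‖Ring.inverse (N i p)‖ / (1 - 1 / 100) = 100 / 99 * ‖Ring.inverse (N i p)‖ := by
        norm_num
        ring
      rw [e1] at h8
      linarith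
    have h10 : ‖N j x - N j p‖ * ‖Ring.inverse (N i x)‖ ≤ 11 / 1000 := by
      have e1 := mul_le_mul_of_nonneg_left h9 (norm_nonneg (N j x - N j p))
      have e2 : ‖N j x - N j p‖ * (11 / 10 * ‖Ring.inverse (N j p)‖) =
          11 / 10 * (‖N j x - N j p‖ * ‖Ring.inverse (N j p)‖) := by ring
      linarith
    have h11 : ‖N j x - N i x‖ ≤ ‖N j x - N j p‖ + ‖N j p - N i p‖ + ‖N i p - N i x‖ := by
      have e1 := norm_sub_le_norm_sub_add_norm_sub (N j x) (N j p) (N i x)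
      have e2 := norm_sub_le_norm_sub_add_norm_sub (N j p) (N i p) (N i x)
      linarith
    have h12 := mul_le_mul_of_nonneg_right h11 (norm_nonneg (Ring.inverse (N i x)))
    have h13 := h5 x hx
    rw [add_mul, add_mul] at h12
    linarith

end Pool.Agent.Lib.P28s
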