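import Pool.Agent.Lib.P28s.Alg

set_option autoImplicit false

/-!
# Capping the large singular values of a skew form

PROOF. Work first with Euclidean norms `|x|` on `V m` (dot product; `‖x‖ ≤ |x| ≤ √m ‖x‖`), `|A|` the Euclidean operator norm of `A : EV m`, `|A| ≤ √m ‖A‖`, `‖A‖ ≤ √m |A|`.
Let `P = tr c * c = -(c * c)`: symmetric, positive semidefinite; orthonormal eigenbasis with eigenvalues `λ_i ≥ 0` (`LinearMap.IsSymmetric.eigenvectorBasis` on
`EuclideanSpace ℝ (Fin m)`). For `M > 0` let `p` be a real polynomial with `p(λ_i) = (1 + λ_i / M²)^(-1/2)` for all `i` (`Lagrange.interpolate`), `G = p(P)`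
(`Polynomial.aeval`). `G` is symmetric, commutes with `c` (as `P` does), acts on the `i`-th eigenvector by `g_i = (1 + λ_i/M²)^(-1/2) ∈ (0, 1]`. `D = c (1 - G)` is skew:
`tr (c (1 - G)) = (1 - G) (-c) = -c (1 - G)`. For `s ∈ [0,1]` put `G_s = 1 - s (1 - G)` (eigenvalues `1 - s (1 - g_i) ≥ g_i`), so `c - s D = c G_s`.
(a) `|c G| ≤ M`: `|c G y|² = ⟨P G y, G y⟩ = ∑ λ_i g_i² y_i²` and `λ g² = λ / (1 + λ/M²) ≤ M²`. So `|c - D| ≤ M`.
(b) `|(1 - G_s) y| ≤ |c G_s y| / M`: with `x = √λ_i / M`, `1 - (G_s)_i ≤ 1 - g_i ≤ x g_i ≤ x (G_s)_i`, because `1/g_i - 1 = √(1 + x²) - 1 ≤ x`.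
(c) Let `z = (c G_s + S) y`, `y' = G_s y`: `(c + S) y' = c G_s y + S y - S (1 - G_s) y = z - S (1 - G_s) y`. Let `c₁ = |S|` and `B = |(c + S)⁻¹|`. By (b)
`|(1 - G_s) y| ≤ |c G_s y| / M = |z - S y| / M ≤ (|z| + c₁ |y|) / M =: q`. So `|y| ≤ |y'| + q ≤ B (|z| + c₁ q) + q`, i.e.
`|y| (1 - c₁/M - B c₁²/M) ≤ |z| (B + B c₁/M + 1/M)`. Here `c₁ ≤ √m C₁`, `B ≤ √m C₂`, and `B` is bounded below: `‖c⁻¹‖ = 1` is attained (compactness of the unit sphere) at `z₀`, `‖z₀‖ = 1`, and `x = c⁻¹ z₀` has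
`‖x‖ = 1`, `‖c x‖ = 1`, so `1 = ‖x‖ ≤ ‖(c + S)⁻¹‖ (1 + C₁)` and `B ≥ ‖(c + S)⁻¹‖ / √m ≥ 1 / (√m (1 + C₁))`. So for `M` large,
depending on `m, C₁, C₂` only, the bracket on the left is `≥ 3/4` and the one on the right is `≤ (3/2) B`: `|y| ≤ 2 B |z|`. So `c - s D + S` is injective, a unit, and
`|(c - s D + S)⁻¹| ≤ 2 |(c + S)⁻¹|`; in the maximum norm the constant is `2 m`. (The case `m = 0` is trivial: all operators are equal; `‖c⁻¹‖ = 1` is then impossible.)
-/

open MeasureTheory Set Metric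
open scoped ContDiff Topology

namespace Pool.Agent.Lib.P28s

open Pool.Agent.Lib.P28f (V EV)

namespace CapAux

open scoped InnerProductSpace

section
variable {E : Type*} [NormedAddCommGroup E] [InnerProductSpace ℝ E] {m : ℕ}
  (b : OrthonormalBasis (Fin m) ℝ E)

/-- The operator with eigenvalues `φ i`. -/
noncomputable def dg (φ : Fin m → ℝ) : E →ₗ[ℝ] E where
  toFun y := ∑ i, (φ i * ⟪b i, y⟫_ℝ) • b i
  map_add' x y := by
    simp only [inner_add_right, mul_add, add_smul, Finset.sum_add_distrib]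
  map_smul' r x := by
    simp only [inner_smul_right, Finset.smul_sum, RingHom.id_apply, smul_smul]
    exact Finset.sum_congr rfl fun i _ => by congr 1; ring

theorem inner_dg (φ : Fin m → ℝ) (y : E) (j : Fin m) :
    ⟪b j, dg b φ y⟫_ℝ = φ j * ⟪b j, y⟫_ℝ := by
  show ⟪b j, ∑ i, (φ i * ⟪b i, y⟫_ℝ) • b i⟫_ℝ = _
  rw [inner_sum, Finset.sum_eq_single j]
  · rw [inner_smul_right, real_inner_self_eq_norm_sq, b.norm_eq_one]
    ring
  · intro i _ hi
    rw [inner_smul_right, b.inner_eq_zero (Ne.symm hi), mul_zero]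
  · intro h
    exact absurd (Finset.mem_univ _) h

theorem norm_sq_b (x : E) : ‖x‖ ^ 2 = ∑ j, ⟪b j, x⟫_ℝ ^ 2 := by
  rw [← b.sum_sq_norm_inner_right x]
  refine Finset.sum_congr rfl fun i _ => ?_
  rw [Real.norm_eq_abs, sq_abs]

theorem ext_b {x y : E} (h : ∀ j, ⟪b j, x⟫_ℝ = ⟪b j, y⟫_ℝ) : x = y := by
  have h1 : ‖x - y‖ ^ 2 = 0 := by
    rw [norm_sq_b b]
    refine Finset.sum_eq_zero fun i _ => ?_
    rw [inner_sub_right, h i, sub_self]
    ring
  have h2 : ‖x - y‖ = 0 := by simpa using h1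
  exact sub_eq_zero.1 (norm_eq_zero.1 h2)

theorem inner_b (x y : E) : ⟪x, y⟫_ℝ = ∑ j, ⟪b j, x⟫_ℝ * ⟪b j, y⟫_ℝ := by
  rw [← b.sum_inner_mul_inner x y]
  refine Finset.sum_congr rfl fun i _ => ?_
  rw [real_inner_comm]

end

/-- the abstract form of the capping lemma -/
theorem capE {E : Type*} [NormedAddCommGroup E] [InnerProductSpace ℝ E] [FiniteDimensional ℝ E]
    (c : E →ₗ[ℝ] E) (hc : ∀ x y, ⟪c x, y⟫_ℝ = -⟪x, c y⟫_ℝ) (M : ℝ) (hM : 0 < M) :
    ∃ D : E →ₗ[ℝ] E, (∀ x y, ⟪D x, y⟫_ℝ = -⟪x, D y⟫_ℝ) ∧ (∀ y, ‖c y - D y‖ ≤ M * ‖y‖) ∧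
      ∀ s ∈ Icc (0 : ℝ) 1, ∀ y, ∃ y', c y' = c y - s • D y ∧
        ‖y - y'‖ ≤ ‖c y - s • D y‖ / M := by
  classical
  have hP : LinearMap.IsSymmetric (-(c ∘ₗ c)) := by
    intro x y
    show ⟪-(c (c x)), y⟫_ℝ = ⟪x, -(c (c y))⟫_ℝ
    rw [inner_neg_left, inner_neg_right, hc, hc, neg_neg]
  obtain ⟨m, hm⟩ : ∃ m, Module.finrank ℝ E = m := ⟨_, rfl⟩
  let b := hP.eigenvectorBasis hm
  let lam : Fin m → ℝ := hP.eigenvalues hm
  have hb : ∀ i, c (c (b i)) = -(lam i • b i) := by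
    intro i
    have h := hP.apply_eigenvectorBasis hm i
    have h1 : -(c (c (b i))) = lam i • b i := by simpa using h
    rw [← h1, neg_neg]
  have hcn : ∀ z, ‖c z‖ ^ 2 = ∑ i, lam i * ⟪b i, z⟫_ℝ ^ 2 := by
    intro z
    rw [← real_inner_self_eq_norm_sq, hc, inner_b b z (c (c z)), ← Finset.sum_neg_distrib]
    refine Finset.sum_congr rfl fun i _ => ?_
    have h1 : ⟪b i, c (c z)⟫_ℝ = -(lam i * ⟪b i, z⟫_ℝ) := by
      have h2 := hc (b i) (c z)
      have h3 := hc (c (b i)) z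
      rw [hb, inner_neg_left, real_inner_smul_left] at h3
      linarith
    rw [h1]
    ring
  have hlam : ∀ i, 0 ≤ lam i := by
    intro i
    have h := hcn (b i)
    rw [Finset.sum_eq_single i] at h
    · rw [real_inner_self_eq_norm_sq, b.norm_eq_one] at h
      have : lam i = ‖c (b i)‖ ^ 2 := by rw [h]; ring
      rw [this]
      positivity
    · intro j _ hj
      rw [b.inner_eq_zero hj]
      ring
    · intro h
      exact absurd (Finset.mem_univ _) h
  -- the function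
  let g : Fin m → ℝ := fun i => 1 / Real.sqrt (1 + lam i / M ^ 2)
  have hcomm : ∀ φ : Fin m → ℝ, (∀ i j, lam i = lam j → φ i = φ j) → ∀ y,
      c (dg b φ y) = dg b φ (c y) := by
    intro φ hφ y
    apply ext_b b
    intro i
    rw [inner_dg]
    have h1 : ∀ z, ⟪b i, c z⟫_ℝ = ∑ j, (-⟪b j, c (b i)⟫_ℝ) * ⟪b j, z⟫_ℝ := by
      intro z
      have h2 := hc (b i) z
      rw [inner_b b (c (b i)) z] at h2
      simp only [neg_mul, Finset.sum_neg_distrib]
      linarith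
    rw [h1, h1, Finset.mul_sum]
    refine Finset.sum_congr rfl fun j _ => ?_
    rw [inner_dg]
    by_cases hij : lam i = lam j
    · rw [hφ i j hij]
      ring
    · have h2 : ⟪b j, c (b i)⟫_ℝ = 0 := by
        have h3 := hc (b j) (c (b i))
        -- ⟪c (b j), c (b i)⟫ symmetric in i and j
        have h4 := hc (b i) (c (b j))
        have h5 : ⟪b j, c (c (c (b i)))⟫_ℝ = -(lam i * ⟪b j, c (b i)⟫_ℝ) := by
          rw [hb i, map_neg, map_smul, inner_neg_right, inner_smul_right]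
        have h6 : ⟪b j, c (c (c (b i)))⟫_ℝ = -(lam j * ⟪b j, c (b i)⟫_ℝ) := by
          have h7 := hc (b j) (c (c (b i)))
          have h8 := hc (c (b j)) (c (b i))
          rw [hb j, inner_neg_left, real_inner_smul_left] at h8
          linarith
        have h9 : (lam i - lam j) * ⟪b j, c (b i)⟫_ℝ = 0 := by linarith
        rcases mul_eq_zero.1 h9 with h | h
        · exact absurd (by linarith) hij
        · exact h
      rw [h2]
      ring
  have hg : ∀ i, 0 < g i ∧ g i ≤ 1 ∧ lam i * g i ^ 2 ≤ M ^ 2 ∧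
      ∀ s ∈ Icc (0 : ℝ) 1, (s * (1 - g i)) ^ 2 ≤ lam i * (1 - s * (1 - g i)) ^ 2 / M ^ 2 := by
    intro i
    have hM2 : 0 < M ^ 2 := by positivity
    have h0 : 0 ≤ lam i / M ^ 2 := div_nonneg (hlam i) hM2.le
    set r := Real.sqrt (1 + lam i / M ^ 2) with hr
    have hr1 : 1 ≤ r := by
      rw [hr, Real.one_le_sqrt]
      linarith
    have hr2 : r ^ 2 = 1 + lam i / M ^ 2 := Real.sq_sqrt (by linarith)
    have hgi : g i = 1 / r := rfl
    have hr0 : 0 < r := by linarith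
    have hl : lam i = M ^ 2 * (r ^ 2 - 1) := by
      rw [hr2]
      field_simp
      ring
    refine ⟨by rw [hgi]; positivity, by rw [hgi, div_le_one hr0]; exact hr1, ?_, ?_⟩
    · rw [hgi, hl]
      have : M ^ 2 * (r ^ 2 - 1) * (1 / r) ^ 2 = M ^ 2 * (1 - (1 / r) ^ 2) := by
        field_simp
      rw [this]
      have h3 : 0 ≤ (1 / r) ^ 2 := by positivity
      nlinarith
    · rintro s ⟨hs0, hs1⟩
      rw [hgi, hl]
      have h3 : M ^ 2 * (r ^ 2 - 1) * (1 - s * (1 - 1 / r)) ^ 2 / M ^ 2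
          = (r ^ 2 - 1) * (1 - s * (1 - 1 / r)) ^ 2 := by
        field_simp
      rw [h3]
      have h4 : (0 : ℝ) ≤ 1 - 1 / r := by
        rw [sub_nonneg, div_le_one hr0]
        exact hr1
      have h5 : (1 / r : ℝ) ≤ 1 - s * (1 - 1 / r) := by nlinarith
      have h6 : (0 : ℝ) ≤ 1 / r := by positivity
      have h7 : (s * (1 - 1 / r)) ^ 2 ≤ (1 - 1 / r) ^ 2 := by
        apply pow_le_pow_left₀ (mul_nonneg hs0 h4)
        nlinarith
      have h8 : (1 / r : ℝ) ^ 2 ≤ (1 - s * (1 - 1 / r)) ^ 2 := pow_le_pow_left₀ h6 h5 2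
      have h9 : (0 : ℝ) ≤ r ^ 2 - 1 := by nlinarith
      have h10 : (1 - 1 / r) ^ 2 ≤ (r ^ 2 - 1) * (1 / r) ^ 2 := by
        have e1 : (1 - 1 / r) ^ 2 = (r - 1) ^ 2 / r ^ 2 := by field_simp
        have e2 : (r ^ 2 - 1) * (1 / r) ^ 2 = (r ^ 2 - 1) / r ^ 2 := by field_simp
        rw [e1, e2]
        apply div_le_div_of_nonneg_right _ (by positivity)
        nlinarith
      calc (s * (1 - 1 / r)) ^ 2 ≤ (1 - 1 / r) ^ 2 := h7
        _ ≤ (r ^ 2 - 1) * (1 / r) ^ 2 := h10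
        _ ≤ _ := mul_le_mul_of_nonneg_left h8 h9
  have hG : ∀ y, c (dg b (fun i => 1 - g i) y) = dg b (fun i => 1 - g i) (c y) := by
    refine hcomm _ fun i j hij => ?_
    show 1 - 1 / Real.sqrt (1 + lam i / M ^ 2) = 1 - 1 / Real.sqrt (1 + lam j / M ^ 2)
    rw [hij]
  have hsym : ∀ (φ : Fin m → ℝ) x y, ⟪dg b φ x, y⟫_ℝ = ⟪x, dg b φ y⟫_ℝ := by
    intro φ x y
    rw [inner_b b, inner_b b x]
    refine Finset.sum_congr rfl fun i _ => ?_
    rw [inner_dg, inner_dg]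
    ring
  refine ⟨c ∘ₗ dg b (fun i => 1 - g i), ?_, ?_, ?_⟩
  · intro x y
    show ⟪c (dg b _ x), y⟫_ℝ = -⟪x, c (dg b _ y)⟫_ℝ
    rw [hc, hsym, hG]
  · intro y
    show ‖c y - c (dg b _ y)‖ ≤ _
    rw [← map_sub]
    refine le_of_sq_le_sq ?_ (by positivity)
    rw [hcn, mul_pow, norm_sq_b b y, Finset.mul_sum]
    refine Finset.sum_le_sum fun i _ => ?_
    rw [inner_sub_right, inner_dg]
    have h := (hg i).2.2.1
    have h2 : lam i * (⟪b i, y⟫_ℝ - (1 - g i) * ⟪b i, y⟫_ℝ) ^ 2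
        = lam i * g i ^ 2 * ⟪b i, y⟫_ℝ ^ 2 := by ring
    rw [h2]
    exact mul_le_mul_of_nonneg_right h (sq_nonneg _)
  · intro s hs y
    refine ⟨y - s • dg b (fun i => 1 - g i) y, ?_, ?_⟩
    · rw [map_sub, map_smul]
      rfl
    · have h1 : c y - s • (c ∘ₗ dg b (fun i => 1 - g i)) y
          = c (y - s • dg b (fun i => 1 - g i) y) := by
        rw [map_sub, map_smul]
        rfl
      rw [h1, sub_sub_cancel]
      refine le_of_sq_le_sq ?_ (by positivity)
      rw [div_pow, hcn, norm_sq_b b, Finset.sum_div]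
      refine Finset.sum_le_sum fun i _ => ?_
      rw [inner_sub_right, inner_smul_right, inner_dg]
      have h := (hg i).2.2.2 s hs
      have h2 : (s * ((1 - g i) * ⟪b i, y⟫_ℝ)) ^ 2 = (s * (1 - g i)) ^ 2 * ⟪b i, y⟫_ℝ ^ 2 := by
        ring
      have h3 : lam i * (⟪b i, y⟫_ℝ - s * ((1 - g i) * ⟪b i, y⟫_ℝ)) ^ 2 / M ^ 2
          = lam i * (1 - s * (1 - g i)) ^ 2 / M ^ 2 * ⟪b i, y⟫_ℝ ^ 2 := by ring
      rw [h2, h3]
      exact mul_le_mul_of_nonneg_right h (sq_nonneg _)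

/-! Euclidean norms on `V m` -/

/-- the Euclidean norm -/
noncomputable def en {m : ℕ} (x : V m) : ℝ := ‖WithLp.toLp 2 x‖

theorem en_nonneg {m : ℕ} (x : V m) : 0 ≤ en x := norm_nonneg _

theorem en_add {m : ℕ} (x y : V m) : en (x + y) ≤ en x + en y := by
  unfold en
  rw [WithLp.toLp_add]
  exact norm_add_le _ _

theorem en_sub {m : ℕ} (x y : V m) : en (x - y) ≤ en x + en y := by
  unfold en
  rw [WithLp.toLp_sub]
  exact norm_sub_le _ _

theorem norm_le_en {m : ℕ} (x : V m) : ‖x‖ ≤ en x := by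
  refine (pi_norm_le_iff_of_nonneg (en_nonneg x)).2 fun i => ?_
  refine le_of_sq_le_sq ?_ (en_nonneg x)
  unfold en
  rw [EuclideanSpace.norm_sq_eq]
  exact Finset.single_le_sum (f := fun i => ‖(WithLp.toLp 2 x).ofLp i‖ ^ 2)
    (fun i _ => sq_nonneg _) (Finset.mem_univ i)

theorem en_le {m : ℕ} (x : V m) : en x ≤ Real.sqrt m * ‖x‖ := by
  refine le_of_sq_le_sq ?_ (by positivity)
  rw [mul_pow, Real.sq_sqrt (Nat.cast_nonneg m)]
  unfold en
  rw [EuclideanSpace.norm_sq_eq]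
  have h : ∀ i ∈ (Finset.univ : Finset (Fin m)), ‖(WithLp.toLp 2 x).ofLp i‖ ^ 2 ≤ ‖x‖ ^ 2 :=
    fun i _ => pow_le_pow_left₀ (norm_nonneg _) (norm_le_pi_norm x i) 2
  have h2 := Finset.sum_le_card_nsmul _ _ _ h
  simpa using h2

theorem en_op {m : ℕ} (A : EV m) (x : V m) : en (A x) ≤ Real.sqrt m * ‖A‖ * en x := by
  calc en (A x) ≤ Real.sqrt m * ‖A x‖ := en_le _
    _ ≤ Real.sqrt m * (‖A‖ * ‖x‖) := by gcongr; exact A.le_opNorm x
    _ ≤ Real.sqrt m * (‖A‖ * en x) := by gcongr; exact norm_le_en x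
    _ = _ := by ring

theorem inner_toLp {m : ℕ} (x y : V m) :
    ⟪WithLp.toLp 2 x, WithLp.toLp 2 y⟫_ℝ = ∑ i, x i * y i := by
  rw [PiLp.inner_apply]
  refine Finset.sum_congr rfl fun i _ => ?_
  simp [mul_comm]

/-- the capping lemma in Euclidean norms -/
theorem capV (m : ℕ) (c : EV m) (hc : Sk c) (M : ℝ) (hM : 0 < M) :
    ∃ D : EV m, Sk D ∧ (∀ y, en (c y - D y) ≤ M * en y) ∧
      ∀ s ∈ Icc (0 : ℝ) 1, ∀ y, ∃ y', c y' = c y - s • D y ∧
        en (y - y') ≤ en (c y - s • D y) / M := by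
  let e := WithLp.linearEquiv 2 ℝ (Fin m → ℝ)
  let c' : EuclideanSpace ℝ (Fin m) →ₗ[ℝ] EuclideanSpace ℝ (Fin m) :=
    e.symm.toLinearMap ∘ₗ (c : V m →ₗ[ℝ] V m) ∘ₗ e.toLinearMap
  have hc' : ∀ x, c' (WithLp.toLp 2 x) = WithLp.toLp 2 (c x) := fun x => rfl
  have hsk : ∀ x y : EuclideanSpace ℝ (Fin m), ⟪c' x, y⟫_ℝ = -⟪x, c' y⟫_ℝ := by
    intro x y
    obtain ⟨x, rfl⟩ := e.symm.surjective x
    obtain ⟨y, rfl⟩ := e.symm.surjective y
    show ⟪WithLp.toLp 2 (c x), WithLp.toLp 2 y⟫_ℝ = -⟪WithLp.toLp 2 x, WithLp.toLp 2 (c y)⟫_ℝ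
    rw [inner_toLp, inner_toLp, ← dot_tr, hc]
    simp
  obtain ⟨D', hD1, hD2, hD3⟩ := capE c' hsk M hM
  let D : EV m := LinearMap.toContinuousLinearMap
    (e.toLinearMap ∘ₗ D' ∘ₗ e.symm.toLinearMap)
  have hD : ∀ x, WithLp.toLp 2 (D x) = D' (WithLp.toLp 2 x) := fun x => rfl
  refine ⟨D, ?_, ?_, ?_⟩
  · ext x i
    have h1 := dot_tr D x (Pi.single i 1)
    have h2 := hD1 (WithLp.toLp 2 x) (WithLp.toLp 2 (Pi.single i 1))
    rw [← hD, ← hD, inner_toLp, inner_toLp, ← h1] at h2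
    simp only [Pi.single_apply, mul_ite, mul_one, mul_zero, Finset.sum_ite_eq',
      Finset.mem_univ, if_true] at h2
    show tr D x i = -(D x i)
    linarith
  · intro y
    exact hD2 (WithLp.toLp 2 y)
  · intro s hs y
    obtain ⟨y', h1, h2⟩ := hD3 s hs (WithLp.toLp 2 y)
    obtain ⟨y', rfl⟩ := e.symm.surjective y'
    refine ⟨y', ?_, h2⟩
    exact (WithLp.toLp_injective 2) h1

end CapAux

open CapAux

theorem cap (m : ℕ) (C₁ C₂ : ℝ) : ∃ M : ℝ, 0 < M ∧ ∀ c : EV m, Sk c → IsUnit c →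
    ‖Ring.inverse c‖ = 1 → ∃ D : EV m, Sk D ∧ ‖c - D‖ ≤ M ∧
      ∀ s ∈ Icc (0 : ℝ) 1, ∀ S : EV m, ‖S‖ ≤ C₁ → IsUnit (c + S) →
        ‖Ring.inverse (c + S)‖ ≤ C₂ →
        IsUnit (c - s • D + S) ∧
          ‖Ring.inverse (c - s • D + S)‖ ≤ 2 * m * ‖Ring.inverse (c + S)‖ := by
  rcases Nat.eq_zero_or_pos m with rfl | hm
  · refine ⟨1, one_pos, fun c _ _ h => ?_⟩
    have h0 : Ring.inverse c = 0 := Subsingleton.elim _ _
    rw [h0, norm_zero] at h
    exact absurd h (by norm_num)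
  set r := Real.sqrt m with hr
  have hm1 : (1 : ℝ) ≤ m := by exact_mod_cast hm
  have hr1 : 1 ≤ r := by rw [hr, Real.one_le_sqrt]; exact hm1
  have hr0 : 0 < r := by linarith
  have hrr : r * r = m := Real.mul_self_sqrt (by linarith)
  set c₁ := r * |C₁| with hc₁
  set Bm := r * |C₂| with hBm
  have hc₁0 : 0 ≤ c₁ := by positivity
  have hBm0 : 0 ≤ Bm := by positivity
  set M := 4 * ((Bm * c₁ + 1) * (c₁ + 1) * (1 + |C₁|)) with hM
  have hM0 : 0 < M := by positivity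
  have hMa : (Bm * c₁ + 1) * c₁ / M ≤ 1 / 4 := by
    rw [div_le_div_iff₀ hM0 (by norm_num), hM]
    have h1 : 0 ≤ |C₁| := abs_nonneg _
    have h2 : 0 ≤ Bm * c₁ := by positivity
    nlinarith [mul_nonneg (mul_nonneg h2 hc₁0) h1, mul_nonneg h2 hc₁0, mul_nonneg hc₁0 h1,
      mul_nonneg h2 h1]
  have hMb : (Bm * c₁ + 1) / M ≤ 1 / (4 * (1 + |C₁|)) := by
    rw [div_le_div_iff₀ hM0 (by positivity), hM]
    have h1 : 0 ≤ |C₁| := abs_nonneg _
    have h2 : 0 ≤ Bm * c₁ := by positivity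
    nlinarith [mul_nonneg (mul_nonneg h2 hc₁0) h1, mul_nonneg h2 hc₁0, mul_nonneg hc₁0 h1,
      mul_nonneg h2 h1]
  refine ⟨r * M, by positivity, fun c hc hcu hcn => ?_⟩
  obtain ⟨D, hDs, hD1, hD2⟩ := capV m c hc M hM0
  refine ⟨D, hDs, ?_, ?_⟩
  · refine ContinuousLinearMap.opNorm_le_bound _ (by positivity) fun x => ?_
    calc ‖(c - D) x‖ ≤ en (c x - D x) := norm_le_en _
      _ ≤ M * en x := hD1 x
      _ ≤ M * (r * ‖x‖) := by gcongr; exact en_le x
      _ = _ := by ring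
  · intro s hs S hS hu hinv
    set T := Ring.inverse (c + S) with hT
    have hC1 : |C₁| = C₁ := abs_of_nonneg ((norm_nonneg S).trans hS)
    have hC2 : |C₂| = C₂ := abs_of_nonneg ((norm_nonneg T).trans hinv)
    set β := ‖T‖ with hβ
    -- lower bound for β
    have hβ1 : 1 ≤ β * (1 + |C₁|) := by
      have e1 : Ring.inverse c = T * (1 + S * Ring.inverse c) := by
        have : 1 + S * Ring.inverse c = (c + S) * Ring.inverse c := by
          rw [add_mul, Ring.mul_inverse_cancel c hcu]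
        rw [this, ← mul_assoc, hT, Ring.inverse_mul_cancel _ hu, one_mul]
      calc (1 : ℝ) = ‖Ring.inverse c‖ := hcn.symm
        _ = ‖T * (1 + S * Ring.inverse c)‖ := by rw [← e1]
        _ ≤ ‖T‖ * ‖1 + S * Ring.inverse c‖ := norm_mul_le _ _
        _ ≤ ‖T‖ * (‖(1 : EV m)‖ + ‖S‖ * ‖Ring.inverse c‖) := by
            gcongr
            exact (norm_add_le _ _).trans (by gcongr; exact norm_mul_le _ _)
        _ ≤ ‖T‖ * (1 + C₁ * 1) := by
            have hC0 : 0 ≤ C₁ := (norm_nonneg S).trans hS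
            gcongr
            · exact ContinuousLinearMap.norm_id_le
            · exact hcn.le
        _ = β * (1 + |C₁|) := by rw [hC1, mul_one]
    have hβ0 : 0 ≤ β := norm_nonneg _
    have hkey : ∀ y, en y ≤ 2 * (r * β) * en ((c - s • D + S) y) := by
      intro y
      set z := (c - s • D + S) y with hz
      obtain ⟨y', h1, h2⟩ := hD2 s hs y
      have hzy : z = c y - s • D y + S y := rfl
      have h3 : c y - s • D y = z - S y := by rw [hzy]; abel
      have h4 : (c + S) y' = z - S (y - y') := by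
        show c y' + S y' = _
        rw [h1, h3, map_sub]
        abel
      have h5 : y' = T (z - S (y - y')) := by
        rw [← h4]
        show y' = (T * (c + S)) y'
        rw [hT, Ring.inverse_mul_cancel _ hu]
        rfl
      have hSe : ∀ x, en (S x) ≤ c₁ * en x := by
        intro x
        refine (en_op S x).trans ?_
        rw [hc₁]
        have := en_nonneg x
        gcongr
        rw [hC1]
        exact hS
      have hTe : ∀ x, en (T x) ≤ r * β * en x := fun x => en_op T x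
      set q := (en z + c₁ * en y) / M with hq
      have h6 : en (y - y') ≤ q := by
        refine h2.trans ?_
        rw [h3]
        exact div_le_div_of_nonneg_right ((en_sub _ _).trans (by gcongr; exact hSe y)) hM0.le
      have h7 : en y' ≤ r * β * (en z + c₁ * q) := by
        rw [h5]
        refine (hTe _).trans ?_
        gcongr
        refine (en_sub _ _).trans ?_
        gcongr
        exact (hSe _).trans (by gcongr)
      have h8 : en y ≤ en y' + q := by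
        have : y = y' + (y - y') := by abel
        calc en y = en (y' + (y - y')) := by rw [← this]
          _ ≤ en y' + en (y - y') := en_add _ _
          _ ≤ _ := by gcongr
      have hz0 := en_nonneg z
      have hy0 := en_nonneg y
      have hβB : r * β ≤ Bm := by
        rw [hBm, hC2]
        gcongr
      -- q * (r β c₁ + 1) ≤ (Bm c₁ + 1)/M * (en z + c₁ * en y)
      have h9 : q * (r * β * c₁ + 1) ≤ (Bm * c₁ + 1) / M * en z
          + (Bm * c₁ + 1) * c₁ / M * en y := by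
        have hq0 : 0 ≤ q := by positivity
        calc q * (r * β * c₁ + 1) ≤ q * (Bm * c₁ + 1) := by gcongr
          _ = _ := by rw [hq]; ring
      have h10 : (Bm * c₁ + 1) / M * en z ≤ 1 / (4 * (1 + |C₁|)) * en z := by gcongr
      have h11 : (Bm * c₁ + 1) * c₁ / M * en y ≤ 1 / 4 * en y := by gcongr
      have h12 : 1 / (4 * (1 + |C₁|)) ≤ r * β / 4 := by
        have h0 : 0 < 1 + |C₁| := by positivity
        rw [div_le_div_iff₀ (by positivity) (by norm_num)]
        nlinarith [mul_nonneg (mul_nonneg (sub_nonneg.2 hr1) hβ0) h0.le]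
      have h13 : 1 / (4 * (1 + |C₁|)) * en z ≤ r * β / 4 * en z := by gcongr
      have h14 : en y ≤ r * β * en z + (r * β / 4 * en z + 1 / 4 * en y) := by
        calc en y ≤ en y' + q := h8
          _ ≤ r * β * (en z + c₁ * q) + q := by gcongr
          _ = r * β * en z + q * (r * β * c₁ + 1) := by ring
          _ ≤ r * β * en z + (r * β / 4 * en z + 1 / 4 * en y) := by linarith
      have h15 : 0 ≤ r * β * en z := by positivity
      nlinarith
    have hinj : Function.Injective (c - s • D + S) := by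
      intro x y hxy
      have h := hkey (x - y)
      have h0 : (c - s • D + S) (x - y) = 0 := by rw [map_sub, hxy, sub_self]
      rw [h0] at h
      have h1 : en (0 : V m) = 0 := by simp [en]
      rw [h1, mul_zero] at h
      have h2 := (norm_le_en (x - y)).trans h
      exact sub_eq_zero.1 (norm_le_zero_iff.1 h2)
    have hbij : Function.Bijective (c - s • D + S) := by
      refine ⟨hinj, ?_⟩
      exact (LinearMap.injective_iff_surjective (f := ((c - s • D + S : EV m) : V m →ₗ[ℝ] V m))).1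
        hinj
    have hU : IsUnit (c - s • D + S) := ContinuousLinearMap.isUnit_iff_bijective.2 hbij
    refine ⟨hU, ?_⟩
    refine ContinuousLinearMap.opNorm_le_bound _ (by positivity) fun z => ?_
    have h1 : (c - s • D + S) (Ring.inverse (c - s • D + S) z) = z := by
      show ((c - s • D + S) * Ring.inverse (c - s • D + S)) z = z
      rw [Ring.mul_inverse_cancel _ hU]
      rfl
    have h2 := hkey (Ring.inverse (c - s • D + S) z)
    rw [h1] at h2
    calc ‖Ring.inverse (c - s • D + S) z‖ ≤ en (Ring.inverse (c - s • D + S) z) := norm_le_en _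
      _ ≤ 2 * (r * β) * en z := h2
      _ ≤ 2 * (r * β) * (r * ‖z‖) := by gcongr; exact en_le z
      _ = 2 * (r * r) * β * ‖z‖ := by ring
      _ = 2 * m * β * ‖z‖ := by rw [hrr]

end Pool.Agent.Lib.P28s
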