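import Pool.Agent.Lib.P28s.PairRm
import Pool.Agent.Lib.P28s.AnnS
import Pool.Agent.Lib.P28s.PullS
import Pool.Agent.Lib.P28s.BddS
import Pool.Agent.Lib.P28s.Cap
import Pool.Agent.Lib.P28f.CaseA

set_option autoImplicit false

/-!
# The induction step for light maps

PROOF. Follow the proved file `P28f/CaseA.lean` (`exists_sep`, `good_cover`, `good_scale`, `bad_finite`, `bad_subset`, `pick`, `exists_ne_of_eventually`, `isPreconnected_ball_diff` are about measures and sets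
only and can be used directly; `P28f.exists_sep` is in `P28f/CaseA.lean`). Let `δ₁` be that of `pair_rm`, `δ₂, C₂` of `cut_exists`; `δ' = 2000 δ`; `δ₀ ≤ 1/2000` so small that `δ' ≤ min δ₁ δ₂` and
`C₂ δ' (2 m) ≤ 1/100`, `2 m δ₀ ≤ 1/100`.
(1) `B = Bad c μ` finite, in `closedBall 0 (1/16)`; separation `s₁ ≤ 1/64`, scales `s a ≤ s₁` with `(μ j).real (ball a (s a) \ closedBall a (s a/16)) ≤ c/4` for almost all `j`.
(2) `pick` with `rel i j = LabEq (co (lam i) a (s a/2)) (co (lam j) a (s a/2))`: `hIH` for the forms `co (lam (q k)) a (s a)` (`loc_subS`, mass `≤ E - c/8` by `Light`), and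
`st (co lam a s) = co lam a (s/2)` (`co_co`). So indices `i₀ a` such that for almost all `j`, for all `a ∈ B`, the collar condition and `LabEq (co (lam (i₀ a)) a (s a/2)) (co (lam j) a (s a/2))` hold.
(3) For `a ∈ B` let `kb a` be a cut of `co (lam (i₀ a)) a (s a/2)` with constant `cb a` (unfold `LabEq`, `CutOf`), radius `1`. Index type `ι = {a // a ∈ hB.toFinset}` (a `Fintype`), centres
`a' = 2 • a`, `R = s a/2`, so that `2 R = s a`; `Rings` by separation (`‖2a - 2b‖ > 2 s₁ ≥ s a + (5/4) s b`... take `s₁` with `‖a - b‖ > 2 s₁`, i.e. replace `s₁` by `s₁/2`). All rings lie in `‖v‖ ≤ 1/2`: `2/16 + 5/4 · 1/64 < 1/2`.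
(4) `K j` = the form `k` of `cut_exists` for `st (lam j)` (flatness of the ring `ann 0 (1/4)` by `ann_ctrlS` and the collar condition of `Loc`, as in `P28f.loc_flat_ann`): `K j = st (lam j)` for
`‖v‖ ≤ 9/16`; `dd (K j) v = dd (lam j) (v/2)` for `‖v‖ < 9/16`; `‖dd (K j) v - G j x₀‖ ‖(G j x₀)⁻¹‖ ≤ C₂ δ' ≤ 1/(200 m)` for `‖v‖ ≥ 1/2`, where `G j x = dd (lam j) x`, `x₀ = (1/2) w0`.
`co (K j) (2a) (s a) v = co (lam j) a (s a/2) v` for `‖v‖ ≤ 5/4` (`co_co`).
(5) `Kc = closedBall 0 (3/8) \ ⋃ a ∈ B, ball a (s a/4)` compact, contains `x₀`, all `a + (s a/2) w0` and all `y/2` for `y ∈ Yset`, `‖y‖ ≤ 3/4`. `bddS` on `Ω = ball 0 1 \ B` (local flatness by `good_cover` and `Ctrl.flat`, as `flat_near`):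
`C ≥ 1` with, for almost all `j` and `x ∈ Kc`: `‖(G j x)⁻¹‖ ≤ C ‖(G j x₀)⁻¹‖`, `‖G j x - G j x₀‖ ‖(G j x₀)⁻¹‖ ≤ C`, and `‖(G j x₀)⁻¹‖ ≤ C ‖(G j x)⁻¹‖`.
(6) `ν j = ‖(G j x₀)⁻¹‖ > 0`, `c̃ = ν j • G j x₀` has `‖c̃⁻¹‖ = 1`. `cap m C' C'` with `C' = max C 2` gives `M` and `D̃ j`; put `D j = (ν j)⁻¹ • D̃ j`. For `y ∈ Yset` put `S = ν j • (dd (K j) y - G j x₀)`:
for `‖y‖ ≤ 1/2` (`x = y/2 ∈ Kc`) `‖S‖ ≤ C` and `‖(c̃ + S)⁻¹‖ = ‖(G j x)⁻¹‖ / ν j ≤ C`; for `‖y‖ ≥ 1/2` `‖S‖ ≤ 1/100`, `‖(c̃ + S)⁻¹‖ ≤ 2` (`near_inv`). So `cap` gives the field `unit` of `One` (multiply by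
`ν j`), with the parameters `D j`, `ν j`.
(7) `N j x = ν j • (G j x - D j) = c̃ - D̃ + S`, `‖N j x‖ ≤ M + C`, `‖(N j x)⁻¹‖ ≤ 2 m C` on `Kc`, and for `x, y ∈ Kc` close: `‖N j y - N j x‖ ‖(N j x)⁻¹‖ ≤ ν j ‖G j y - G j x‖ 2 m ‖(G j x)⁻¹‖ / ν j ≤ 2 m δ ≤ 1/100`.
`net_closeS` gives `S`; take `i ≠ j` in it satisfying all the properties valid for almost all indices. The last hypothesis of `pair_rm`: for `‖y‖ ≤ 1/2` it is `1/8`-closeness at `y/2`; for `‖y‖ ≥ 1/2`
`ν j • (dd (K j) y - D j)` is `2 m C₂ δ' ≤ 1/100`-near `N j x₀` (the same for `i`), and `N i x₀`, `N j x₀` are `1/8`-close: total `≤ 1/4`.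
(8) `pair_rm` gives `PathV (K i) (K j)`, and `K i`, `K j` are cuts of `st (lam i)`, `st (lam j)`: `LabEq`.
-/

open MeasureTheory Set Metric
open scoped ContDiff Topology

namespace Pool.Agent.Lib.P28s

open Pool.Agent.Lib.P28f (V EV ann w0 Light ult Bad pull)

namespace CaseAAux

variable {m : ℕ}

theorem isUnit_smul {c : EV m} (hu : IsUnit c) {r : ℝ} (hr : r ≠ 0) : IsUnit (r • c) := by
  obtain ⟨u, rfl⟩ := hu
  refine ⟨⟨r • (u : EV m), r⁻¹ • ((u⁻¹ : (EV m)ˣ) : EV m), ?_, ?_⟩, rfl⟩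
  · rw [smul_mul_smul_comm, mul_inv_cancel₀ hr, Units.mul_inv, one_smul]
  · rw [smul_mul_smul_comm, inv_mul_cancel₀ hr, Units.inv_mul, one_smul]

theorem inverse_smul {c : EV m} (hu : IsUnit c) {r : ℝ} (hr : r ≠ 0) :
    Ring.inverse (r • c) = r⁻¹ • Ring.inverse c := by
  have h1 : (r • c) * (r⁻¹ • Ring.inverse c) = 1 := by
    rw [smul_mul_smul_comm, mul_inv_cancel₀ hr, Ring.mul_inverse_cancel _ hu, one_smul]
  calc Ring.inverse (r • c) = Ring.inverse (r • c) * ((r • c) * (r⁻¹ • Ring.inverse c)) := by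
        rw [h1, mul_one]
    _ = r⁻¹ • Ring.inverse c := by
        rw [← mul_assoc, Ring.inverse_mul_cancel _ (isUnit_smul hu hr), one_mul]

theorem norm_inverse_smul {c : EV m} (hu : IsUnit c) {r : ℝ} (hr : 0 < r) :
    ‖Ring.inverse (r • c)‖ = r⁻¹ * ‖Ring.inverse c‖ := by
  rw [inverse_smul hu hr.ne', norm_smul, Real.norm_of_nonneg (inv_nonneg.2 hr.le)]

theorem norm_inverse_pos (hm : 1 ≤ m) {c : EV m} (hu : IsUnit c) : 0 < ‖Ring.inverse c‖ := by
  rw [norm_pos_iff]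
  intro h
  have h1 := Ring.mul_inverse_cancel _ hu
  rw [h, mul_zero] at h1
  have h2 := congrArg (fun A : EV m => A (fun _ => 1) ⟨0, hm⟩) h1
  simp at h2

theorem sflat_co {δ s R : ℝ} {lam : V m → V m} {a : V m} (hs : 0 < s)
    (hd : ∀ x ∈ ann a (s * R), DifferentiableAt ℝ lam x) (h : SFlat δ (ann a (s * R)) (dd lam)) :
    SFlat δ (ann 0 R) (dd (co lam a s)) := by
  have hmem : ∀ x ∈ ann (0 : V m) R, a + s • x ∈ ann a (s * R) := by
    rintro x ⟨h1, h2⟩
    rw [sub_zero] at h1 h2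
    refine ⟨?_, ?_⟩ <;> rw [add_sub_cancel_left, norm_smul, Real.norm_of_nonneg hs.le]
    · exact mul_le_mul_of_nonneg_left h1 hs.le
    · calc s * ‖x‖ ≤ s * (2 * R) := mul_le_mul_of_nonneg_left h2 hs.le
        _ = 2 * (s * R) := by ring
  intro x hx y hy
  rw [dd_co hs.ne' (hd _ (hmem x hx)), dd_co hs.ne' (hd _ (hmem y hy))]
  exact h _ (hmem x hx) _ (hmem y hy)

theorem st_co (lam : V m → V m) (a : V m) (s : ℝ) : st (co lam a s) = co lam a (s / 2) := by
  unfold st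
  rw [co_co, smul_zero, add_zero]
  congr 1
  ring

/-- local flatness near the points of a compact set away from the concentration points -/
theorem flat_near {δ c E : ℝ} {lam : ℕ → V m → V m} {μ : ℕ → Measure (V m)}
    (hL : ∀ j, Loc δ c E (lam j) (μ j)) {K : Set (V m)} (hK : IsCompact K) (hK1 : K ⊆ ball 0 1)
    (hKB : Disjoint K (Bad c μ)) :
    ∃ r : ℝ, 0 < r ∧ (∀ x ∈ K, closedBall x r ⊆ ball 0 1) ∧
      ∀ᶠ j in (ult : Filter ℕ), ∀ x ∈ K, SFlat δ (closedBall x r) (dd (lam j)) := by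
  obtain ⟨r, hr, hsub, hev⟩ := P28f.good_cover (fun j => (hL j).fin) hK hK1 hKB
  refine ⟨r / 8, by positivity, fun x hx => (closedBall_subset_closedBall (by linarith)).trans
    (hsub x hx), ?_⟩
  filter_upwards [hev] with j hj x hx
  exact (hL j).ctrl.flat x r hr (hsub x hx) (hj x hx)

theorem loc_flat_ann {δ c E : ℝ} (hm : 2 ≤ m) (h0 : 0 ≤ δ) (h1 : δ ≤ 1 / 2000) (hc : 0 < c)
    {lam : V m → V m} {μ : Measure (V m)} (h : Loc δ c E lam μ) {a : V m} {s : ℝ} (hs : 0 < s)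
    (hb : closedBall a (9 / 16 * s) ⊆ ball 0 1)
    (hcol : μ.real (ball a s \ closedBall a (s / 16)) ≤ c / 4) :
    SFlat (2000 * δ) (ann a (s / 4)) (dd lam) := by
  haveI := h.fin
  apply ann_ctrlS hm h0 h1 h.ctrl (by positivity : 0 < s / 4)
  · rwa [show 9 / 4 * (s / 4) = 9 / 16 * s by ring]
  · refine (measureReal_mono (μ := μ) ?_ (by finiteness)).trans (hcol.trans (by linarith))
    intro x hx
    rw [mem_diff, mem_closedBall, mem_ball, not_lt] at hx
    rw [mem_diff, mem_ball, mem_closedBall, not_le]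
    constructor <;> linarith [hx.1, hx.2]

/-- the capping lemma in the form used below -/
theorem cap_use {C' ν : ℝ} {G₀ Dt T : EV m} (hν : 0 < ν)
    (hcap : ∀ s ∈ Icc (0 : ℝ) 1, ∀ S : EV m, ‖S‖ ≤ C' → IsUnit (ν • G₀ + S) →
      ‖Ring.inverse (ν • G₀ + S)‖ ≤ C' → IsUnit (ν • G₀ - s • Dt + S) ∧
        ‖Ring.inverse (ν • G₀ - s • Dt + S)‖ ≤ 2 * m * ‖Ring.inverse (ν • G₀ + S)‖)
    (hT : IsUnit T) (h1 : ν * ‖T - G₀‖ ≤ C') (h2 : ‖Ring.inverse T‖ ≤ C' * ν) {s : ℝ}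
    (hs : s ∈ Icc (0 : ℝ) 1) :
    IsUnit (T - s • (ν⁻¹ • Dt)) ∧
      ‖Ring.inverse (T - s • (ν⁻¹ • Dt))‖ ≤ 2 * m * ‖Ring.inverse T‖ := by
  have e1 : ν • G₀ + ν • (T - G₀) = ν • T := by rw [smul_sub]; abel
  have e2 : ν • G₀ - s • Dt + ν • (T - G₀) = ν • (T - s • (ν⁻¹ • Dt)) := by
    have e3 : ν • (s • (ν⁻¹ • Dt)) = s • Dt := by
      rw [smul_smul, smul_smul]
      congr 1
      field_simp
    rw [smul_sub ν T (s • (ν⁻¹ • Dt)), e3, smul_sub]
    abel
  have h3 : ‖ν • (T - G₀)‖ ≤ C' := by rw [norm_smul, Real.norm_of_nonneg hν.le]; exact h1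
  have h4 : IsUnit (ν • G₀ + ν • (T - G₀)) := by rw [e1]; exact isUnit_smul hT hν.ne'
  have h5 : ‖Ring.inverse (ν • G₀ + ν • (T - G₀))‖ ≤ C' := by
    rw [e1, norm_inverse_smul hT hν, inv_mul_le_iff₀ hν, mul_comm ν]
    exact h2
  obtain ⟨h6, h7⟩ := hcap s hs _ h3 h4 h5
  rw [e2] at h6 h7
  rw [e1] at h7
  have h8 : IsUnit (T - s • (ν⁻¹ • Dt)) := by
    have := isUnit_smul h6 (inv_ne_zero hν.ne')
    rwa [smul_smul, inv_mul_cancel₀ hν.ne', one_smul] at this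
  refine ⟨h8, ?_⟩
  rw [norm_inverse_smul h8 hν, norm_inverse_smul hT hν] at h7
  have h9 : ν⁻¹ * ‖Ring.inverse (T - s • (ν⁻¹ • Dt))‖ ≤ ν⁻¹ * (2 * m * ‖Ring.inverse T‖) := by
    calc _ ≤ 2 * m * (ν⁻¹ * ‖Ring.inverse T‖) := h7
      _ = _ := by ring
  exact le_of_mul_le_mul_left h9 (inv_pos.2 hν)

theorem norm_N {C' M ν : ℝ} {G₀ Dt T : EV m} (hν : 0 < ν) (hM : ‖ν • G₀ - Dt‖ ≤ M)
    (h1 : ν * ‖T - G₀‖ ≤ C') : ‖ν • (T - ν⁻¹ • Dt)‖ ≤ M + C' := by
  have e : ν • (T - ν⁻¹ • Dt) = (ν • G₀ - Dt) + ν • (T - G₀) := by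
    rw [smul_sub, smul_sub, smul_smul, mul_inv_cancel₀ hν.ne', one_smul]
    abel
  rw [e]
  refine (norm_add_le _ _).trans (add_le_add hM ?_)
  rw [norm_smul, Real.norm_of_nonneg hν.le]
  exact h1

/-- closeness of two elements which are near two close elements -/
theorem four {A₀ A B₀ B : EV m} (hA₀ : IsUnit A₀) (hB₀ : IsUnit B₀)
    (h1 : ‖A - A₀‖ * ‖Ring.inverse A₀‖ ≤ 1 / 100)
    (h2 : ‖B₀ - A₀‖ * ‖Ring.inverse A₀‖ ≤ 1 / 8)
    (h3 : ‖B - B₀‖ * ‖Ring.inverse B₀‖ ≤ 1 / 100) :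
    ‖B - A‖ * ‖Ring.inverse A‖ ≤ 1 / 4 := by
  obtain ⟨h4, -⟩ := near_inv hA₀ h1 (by norm_num)
  obtain ⟨-, h5⟩ := near_inv hA₀ h2 (by norm_num)
  have e : ‖B - A‖ ≤ ‖B - B₀‖ + ‖B₀ - A₀‖ + ‖A - A₀‖ := by
    have : B - A = (B - B₀) + (B₀ - A₀) - (A - A₀) := by abel
    rw [this]
    exact (norm_sub_le _ _).trans (add_le_add (norm_add_le _ _) le_rfl)
  have h6 : ‖B - B₀‖ * ‖Ring.inverse A₀‖ ≤ 1 / 100 * (1 + 1 / 8) := by
    calc ‖B - B₀‖ * ‖Ring.inverse A₀‖ ≤ ‖B - B₀‖ * (‖Ring.inverse B₀‖ * (1 + 1 / 8)) :=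
          mul_le_mul_of_nonneg_left h5 (norm_nonneg _)
      _ = (‖B - B₀‖ * ‖Ring.inverse B₀‖) * (1 + 1 / 8) := by ring
      _ ≤ 1 / 100 * (1 + 1 / 8) := mul_le_mul_of_nonneg_right h3 (by norm_num)
  have h7 : ‖Ring.inverse A‖ ≤ 100 / 99 * ‖Ring.inverse A₀‖ := by
    refine h4.trans (le_of_eq ?_)
    ring
  calc ‖B - A‖ * ‖Ring.inverse A‖ ≤ (‖B - B₀‖ + ‖B₀ - A₀‖ + ‖A - A₀‖) *
        (100 / 99 * ‖Ring.inverse A₀‖) := mul_le_mul e h7 (norm_nonneg _) (by positivity)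
    _ = 100 / 99 * (‖B - B₀‖ * ‖Ring.inverse A₀‖ + ‖B₀ - A₀‖ * ‖Ring.inverse A₀‖ +
          ‖A - A₀‖ * ‖Ring.inverse A₀‖) := by ring
    _ ≤ 100 / 99 * (1 / 100 * (1 + 1 / 8) + 1 / 8 + 1 / 100) := by gcongr
    _ ≤ 1 / 4 := by norm_num

theorem smul_diff (ν : ℝ) (a b d : EV m) : ν • (a - d) - ν • (b - d) = ν • (a - b) := by
  rw [smul_sub, smul_sub, smul_sub]
  abel

theorem half_aux (a w a' : V m) (t : ℝ) :
    (1 / 2 : ℝ) • ((2 : ℝ) • a + (2 * (t / 2)) • w) - a' = (a - a') + (t / 2) • w := by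
  have e7 : (1 / 2 : ℝ) * (2 * (t / 2)) = t / 2 := by ring
  have e8 : (1 / 2 : ℝ) * 2 = 1 := by norm_num
  rw [smul_add, smul_smul, smul_smul, e7, e8, one_smul]
  abel

end CaseAAux

open CaseAAux
open Pool.Agent.Lib.P28f (bad_finite bad_subset good_scale good_cover pick exists_sep
  exists_ne_of_eventually isPreconnected_ball_diff)

theorem case_AS (m : ℕ) (hm : 3 ≤ m) : ∃ δ₀ : ℝ, 0 < δ₀ ∧ ∀ δ c E : ℝ, 0 ≤ δ → δ ≤ δ₀ → 0 < c →
    c ≤ E → FinCls m δ c (E - c / 8) → ∀ (lam : ℕ → V m → V m) (μ : ℕ → Measure (V m)),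
    (∀ j, Loc δ c E (lam j) (μ j) ∧ Light c E (μ j)) →
    ∃ i j, i ≠ j ∧ LabEq (st (lam i)) (st (lam j)) := by
  classical
  obtain ⟨δ₁, hδ₁, hpair⟩ := pair_rm m hm
  obtain ⟨δ₂, C₂, hδ₂, hC₂, -, hcutex⟩ := cut_exists m hm
  have hm1 : 1 ≤ m := by omega
  have hm2 : 2 ≤ m := by omega
  have hm0 : (0 : ℝ) < m := by exact_mod_cast (by omega : 0 < m)
  have hm3 : (3 : ℝ) ≤ m := by exact_mod_cast hm
  refine ⟨min (min (δ₁ / 2000) (δ₂ / 2000)) (min (1 / 200000) (min (1 / (2000 * C₂ * (200 * m)))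
    (1 / (200 * m)))), by positivity, ?_⟩
  intro δ c E h0 hδ hc hcE hIH lam μ hLL
  have hδ1 : 2000 * δ ≤ δ₁ := by
    have := hδ.trans ((min_le_left _ _).trans (min_le_left _ _))
    linarith
  have hδ2 : 2000 * δ ≤ δ₂ := by
    have := hδ.trans ((min_le_left _ _).trans (min_le_right _ _))
    linarith
  have hδ3 : δ ≤ 1 / 200000 := hδ.trans ((min_le_right _ _).trans (min_le_left _ _))
  have hδ4 : C₂ * (2000 * δ) ≤ 1 / (200 * m) := by
    have h1 := hδ.trans ((min_le_right _ _).trans ((min_le_right _ _).trans (min_le_left _ _)))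
    rw [le_div_iff₀ (by positivity)] at h1 ⊢
    calc C₂ * (2000 * δ) * (200 * m) = δ * (2000 * C₂ * (200 * m)) := by ring
      _ ≤ 1 := h1
  have hδ5 : 2 * m * δ ≤ 1 / 100 := by
    have h1 := hδ.trans ((min_le_right _ _).trans ((min_le_right _ _).trans (min_le_right _ _)))
    rw [le_div_iff₀ (by positivity)] at h1
    linarith
  have hsmall : 1 / (200 * (m : ℝ)) ≤ 1 / 600 := by
    apply one_div_le_one_div_of_le (by norm_num)
    linarith
  have hL : ∀ j, Loc δ c E (lam j) (μ j) := fun j => (hLL j).1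
  have hLi : ∀ j, Light c E (μ j) := fun j => (hLL j).2
  have hfin : ∀ j, IsFiniteMeasure (μ j) := fun j => (hL j).fin
  have hnd : ∀ j, ∀ x ∈ ball (0 : V m) 1, ContDiffAt ℝ ∞ (lam j) x ∧ IsUnit (dd (lam j) x) :=
    fun j x hx => (hL j).ctrl.nd x hx
  have hdf : ∀ j, ∀ x ∈ ball (0 : V m) 1, DifferentiableAt ℝ (lam j) x := fun j x hx =>
    (hnd j x hx).1.differentiableAt (by simp)
  set B : Set (V m) := Bad c μ with hBdef
  have hBfin : B.Finite := bad_finite hc hfin fun j => (hL j).mass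
  have hBsub : B ⊆ closedBall 0 (1 / 16) := bad_subset hc hfin fun j => (hL j).collar
  have hBn : ∀ a ∈ B, ‖a‖ ≤ 1 / 16 := fun a ha => by simpa using hBsub ha
  obtain ⟨s₁, hs₁, hs₁', hsep⟩ := exists_sep hBfin
  have hin : ∀ a ∈ B, closedBall a (s₁ / 2) ⊆ ball 0 1 := by
    intro a ha x hx
    have h1 := hBn a ha
    have h2 : ‖x - a‖ ≤ s₁ / 2 := by simpa [dist_eq_norm] using hx
    have h3 : ‖x‖ ≤ ‖x - a‖ + ‖a‖ := by simpa using norm_add_le (x - a) a
    simp only [mem_ball, dist_zero_right]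
    linarith
  have hsc : ∀ a ∈ B, ∃ s : ℝ, 0 < s ∧ s ≤ s₁ / 2 ∧
      ∀ᶠ j in (ult : Filter ℕ), (μ j).real (ball a s \ closedBall a (s / 16)) ≤ c / 4 :=
    fun a ha => good_scale hc hfin (fun j => (hL j).mass) (by positivity) (hin a ha)
  choose! s hspos hsle hscol using hsc
  have hin' : ∀ a ∈ B, closedBall a (s a) ⊆ ball 0 1 := fun a ha =>
    (closedBall_subset_closedBall (hsle a ha)).trans (hin a ha)
  -- local classes
  have hpick : ∀ a ∈ B, ∃ i, ∀ᶠ j in (ult : Filter ℕ),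
      (μ j).real (ball a (s a) \ closedBall a (s a / 16)) ≤ c / 4 ∧
      LabEq (co (lam i) a (s a / 2)) (co (lam j) a (s a / 2)) := by
    intro a ha
    obtain ⟨i, -, hi⟩ := pick (hscol a ha)
      (rel := fun i j => LabEq (co (lam i) a (s a / 2)) (co (lam j) a (s a / 2)))
      (fun i j h => h.symm) (by
        intro q hq
        have hloc : ∀ k, Loc δ c (E - c / 8) (co (lam (q k)) a (s a))
            (P28f.pull a (s a) (μ (q k))) := by
          intro k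
          haveI := hfin (q k)
          have hb : ball a (s a) ⊆ ball 0 1 := ball_subset_closedBall.trans (hin' a ha)
          refine loc_subS (hfin _) (hL _).atom (hL _).ctrl (hspos a ha) hb ?_ (hq k)
          have h1 := hLi (q k) a (s a) (hspos a ha) ((hsle a ha).trans (by linarith)) (hin' a ha)
          exact (measureReal_mono ball_subset_closedBall (by finiteness)).trans h1.le
        obtain ⟨k, l, hkl, hlab⟩ := hIH _ _ hloc
        refine ⟨k, l, hkl, ?_⟩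
        rw [st_co, st_co] at hlab
        exact hlab)
    exact ⟨i, hi⟩
  choose! i₀ hi₀ using hpick
  have hall : ∀ᶠ j in (ult : Filter ℕ), ∀ a ∈ B,
      (μ j).real (ball a (s a) \ closedBall a (s a / 16)) ≤ c / 4 ∧
      LabEq (co (lam (i₀ a)) a (s a / 2)) (co (lam j) a (s a / 2)) :=
    (Filter.eventually_all_finite hBfin).2 fun a ha => hi₀ a ha
  -- the bubbles
  have hkb : ∀ a ∈ B, ∃ k, CutOf (co (lam (i₀ a)) a (s a / 2)) k := by
    intro a ha
    obtain ⟨j, hj⟩ := (hi₀ a ha).exists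
    obtain ⟨k, -, hk, -, -⟩ := hj.2
    exact ⟨k, hk⟩
  choose! kb hkb using hkb
  have hcb : ∀ a ∈ B, ∃ cb : EV m, Obj cb 1 (kb a) := by
    intro a ha
    obtain ⟨cb, hcb, -⟩ := (hkb a ha).ex
    exact ⟨cb, hcb⟩
  choose! cb hcb using hcb
  -- the base point
  set x₀ : V m := (1 / 2 : ℝ) • w0 m with hx₀
  have hx₀n : ‖x₀‖ = 3 / 8 := by
    rw [hx₀, norm_smul, P28f.norm_w0 hm1]; norm_num
  set G : ℕ → V m → EV m := fun j x => dd (lam j) x with hG
  have hGu : ∀ j, ∀ x ∈ ball (0 : V m) 1, IsUnit (G j x) := fun j x hx => (hnd j x hx).2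
  have hx₀1 : x₀ ∈ ball (0 : V m) 1 := by
    simp only [mem_ball, dist_zero_right]; rw [hx₀n]; norm_num
  -- the cuts
  have hstball : ∀ v : V m, ‖v‖ ≤ 1 → (0 : V m) + (1 / 2 : ℝ) • v ∈ ball (0 : V m) 1 := by
    intro v hv
    rw [zero_add, mem_ball, dist_zero_right, norm_smul]
    norm_num
    linarith
  have hddst : ∀ j (v : V m), ‖v‖ ≤ 1 → dd (st (lam j)) v = G j ((1 / 2 : ℝ) • v) := by
    intro j v hv
    have h1 := dd_co (lam := lam j) (a := 0) (v := v) (s := 1 / 2) (by norm_num)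
      (hdf j _ (hstball v hv))
    rw [zero_add] at h1
    exact h1
  have hring : ∀ j, SFlat (2000 * δ) (ann 0 (1 / 2)) (dd (st (lam j))) := by
    intro j
    refine sflat_co (by norm_num) ?_ ?_
    · rintro x ⟨-, hx⟩
      refine hdf j x ?_
      rw [sub_zero] at hx
      rw [mem_ball, dist_zero_right]
      linarith
    · have h1 := loc_flat_ann hm2 h0 (by linarith) hc (hL j) (a := 0) (s := 1) one_pos
        (closedBall_subset_ball (by norm_num)) (hL j).collar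
      have e : (1 / 2 : ℝ) * (1 / 2) = 1 / 4 := by norm_num
      rw [e]
      exact h1
  have hKex : ∀ j, ∃ k : V m → V m, Obj (G j x₀) (11 / 16) k ∧
      (∀ v, ‖v‖ ≤ 9 / 16 → k v = st (lam j) v) ∧
      (∀ v, 1 / 2 ≤ ‖v‖ → ‖dd k v - G j x₀‖ * ‖Ring.inverse (G j x₀)‖ ≤ C₂ * (2000 * δ)) := by
    intro j
    have hNd : NdOn (closedBall 0 1) (st (lam j)) := by
      intro v hv
      have hv' : ‖v‖ ≤ 1 := by simpa using hv
      refine ⟨contDiffAt_co (hnd j _ (hstball v hv')).1, ?_⟩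
      rw [hddst j v hv']
      have := hGu j _ (hstball v hv')
      rwa [zero_add] at this
    obtain ⟨b, k, -, h1, -, h2, -, h3, -⟩ := hcutex (2000 * δ) (st (lam j)) (by positivity) hδ2 hNd
      (hring j)
    have e : dd (st (lam j)) (w0 m) = G j x₀ := hddst j (w0 m) (by rw [P28f.norm_w0 hm1]; norm_num)
    rw [e] at h1 h3
    exact ⟨k, h1, h2, h3⟩
  choose K hKobj hKin hKout using hKex
  have hddK : ∀ j (v : V m), ‖v‖ < 9 / 16 → dd (K j) v = G j ((1 / 2 : ℝ) • v) := by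
    intro j v hv
    rw [← hddst j v (by linarith)]
    apply dd_congr
    filter_upwards [(isOpen_lt continuous_norm continuous_const).mem_nhds hv] with y hy
    exact hKin j y (le_of_lt hy)
  have hcutK : ∀ j, CutOf (st (lam j)) (K j) := by
    intro j
    refine ⟨⟨G j x₀, (hKobj j).mono (by norm_num), ?_, ?_⟩⟩
    · intro v hv
      rw [hddK j v (by linarith), hddst j v (by linarith)]
    · intro v hv1 hv2
      refine ⟨(hKout j v hv1).trans (hδ4.trans (hsmall.trans (by norm_num))), ?_⟩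
      have h1 := hring j (w0 m) (by
        refine ⟨?_, ?_⟩ <;> rw [sub_zero, P28f.norm_w0 hm1] <;> norm_num) v (by
        refine ⟨?_, ?_⟩ <;> rw [sub_zero]
        · exact hv1
        · linarith)
      have e : dd (st (lam j)) (w0 m) = G j x₀ :=
        hddst j (w0 m) (by rw [P28f.norm_w0 hm1]; norm_num)
      rw [e] at h1
      exact h1.trans (by linarith)
  -- the good region
  set Ω : Set (V m) := ball 0 1 \ B with hΩ
  have hΩo : IsOpen Ω := isOpen_ball.sdiff hBfin.isClosed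
  have hx₀Ω : x₀ ∈ Ω := by
    refine ⟨hx₀1, fun h => ?_⟩
    have := hBn _ h
    rw [hx₀n] at this
    norm_num at this
  set Kc : Set (V m) := closedBall 0 (3 / 8) \ ⋃ a ∈ B, ball a (s a / 4) with hKdef
  have hKc : IsCompact Kc := by
    have hop : IsOpen (⋃ a ∈ B, ball a (s a / 4)) := isOpen_biUnion fun a _ => isOpen_ball
    exact (isCompact_closedBall _ _).diff hop
  have hK1 : Kc ⊆ ball 0 1 := by
    rintro x ⟨hx, -⟩
    exact closedBall_subset_ball (by norm_num) hx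
  have hKB : Disjoint Kc B := by
    rw [Set.disjoint_left]
    rintro x ⟨-, hx⟩ hxB
    apply hx
    rw [mem_iUnion₂]
    exact ⟨x, hxB, mem_ball_self (by have := hspos x hxB; positivity)⟩
  have hKmem : ∀ x : V m, ‖x‖ ≤ 3 / 8 → (∀ a ∈ B, s a / 4 ≤ ‖x - a‖) → x ∈ Kc := by
    intro x hx hxa
    refine ⟨by simpa using hx, ?_⟩
    rw [mem_iUnion₂]
    rintro ⟨a, ha, hxa'⟩
    have := hxa a ha
    rw [mem_ball, dist_eq_norm] at hxa'
    linarith
  have hx₀K : x₀ ∈ Kc := by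
    refine hKmem x₀ hx₀n.le fun a ha => ?_
    have h1 := hBn a ha
    have h2 := hsle a ha
    have h3 : ‖x₀‖ - ‖a‖ ≤ ‖x₀ - a‖ := norm_sub_norm_le _ _
    rw [hx₀n] at h3
    linarith
  obtain ⟨C, hC, hbd⟩ := bddS hΩo (isPreconnected_ball_diff hm2 hBfin) hx₀Ω G
    (Filter.Eventually.of_forall fun j x hx => hGu j x hx.1) (by
      intro x hx
      obtain ⟨r, hr, -, hfl⟩ := flat_near hL (isCompact_singleton (x := x))
        (singleton_subset_iff.2 hx.1) (Set.disjoint_singleton_left.2 hx.2)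
      obtain ⟨ρ, hρ, hρΩ⟩ := nhds_basis_closedBall.mem_iff.1 (hΩo.mem_nhds hx)
      refine ⟨min r ρ, lt_min hr hρ, (closedBall_subset_closedBall (min_le_right _ _)).trans hρΩ,
        ?_⟩
      filter_upwards [hfl] with j hj y hy
      have h1 := hj x rfl x (mem_closedBall_self hr.le) y
        (closedBall_subset_closedBall (min_le_left _ _) hy)
      exact h1.trans (by linarith)) hKc (fun x hx => ⟨hK1 hx, fun hB => hKB.le_bot ⟨hx, hB⟩⟩)
  obtain ⟨r, hr, -, hfl⟩ := flat_near hL hKc hK1 hKB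
  -- capping
  obtain ⟨C', hC'⟩ : ∃ C', C' = max C 2 := ⟨_, rfl⟩
  have hCC' : C ≤ C' := hC' ▸ le_max_left _ _
  have h2C' : 2 ≤ C' := hC' ▸ le_max_right _ _
  obtain ⟨M, hM, hcapM⟩ := cap m C' C'
  obtain ⟨ν, hν⟩ : ∃ ν : ℕ → ℝ, ν = fun j => ‖Ring.inverse (G j x₀)‖ := ⟨_, rfl⟩
  have hνj : ∀ j, ‖Ring.inverse (G j x₀)‖ = ν j := fun j => by rw [hν]
  have hG₀ : ∀ j, IsUnit (G j x₀) := fun j => hGu j x₀ hx₀1
  have hνpos : ∀ j, 0 < ν j := fun j => by
    rw [← hνj]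
    exact norm_inverse_pos hm1 (hG₀ j)
  have hDex : ∀ j, ∃ Dt : EV m, Sk Dt ∧ ‖ν j • G j x₀ - Dt‖ ≤ M ∧
      ∀ s ∈ Icc (0 : ℝ) 1, ∀ S : EV m, ‖S‖ ≤ C' → IsUnit (ν j • G j x₀ + S) →
        ‖Ring.inverse (ν j • G j x₀ + S)‖ ≤ C' → IsUnit (ν j • G j x₀ - s • Dt + S) ∧
          ‖Ring.inverse (ν j • G j x₀ - s • Dt + S)‖ ≤
            2 * m * ‖Ring.inverse (ν j • G j x₀ + S)‖ := by
    intro j
    refine hcapM (ν j • G j x₀) ((sk_dd _ _).smul _) (isUnit_smul (hG₀ j) (hνpos j).ne') ?_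
    rw [norm_inverse_smul (hG₀ j) (hνpos j), hνj, inv_mul_cancel₀ (hνpos j).ne']
  choose Dt hDsk hDM hDcap using hDex
  obtain ⟨D, hD⟩ : ∃ D : ℕ → EV m, D = fun j => (ν j)⁻¹ • Dt j := ⟨_, rfl⟩
  have hDj : ∀ j, (ν j)⁻¹ • Dt j = D j := fun j => by rw [hD]
  -- conditions on `T`
  have hcu : ∀ j (T : EV m), IsUnit T → ν j * ‖T - G j x₀‖ ≤ C' →
      ‖Ring.inverse T‖ ≤ C' * ν j → ∀ s ∈ Icc (0 : ℝ) 1, IsUnit (T - s • D j) ∧
        ‖Ring.inverse (T - s • D j)‖ ≤ 2 * m * ‖Ring.inverse T‖ := by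
    intro j T hT h1 h2 s hs
    rw [← hDj]
    exact cap_use (hνpos j) (hDcap j) hT h1 h2 hs
  have hcN : ∀ j (T : EV m), IsUnit T → ν j * ‖T - G j x₀‖ ≤ C' →
      ‖Ring.inverse T‖ ≤ C' * ν j → IsUnit (ν j • (T - D j)) ∧
        ‖Ring.inverse (ν j • (T - D j))‖ ≤ 2 * m * ((ν j)⁻¹ * ‖Ring.inverse T‖) := by
    intro j T hT h1 h2
    obtain ⟨h3, h4⟩ := hcu j T hT h1 h2 1 ⟨zero_le_one, le_rfl⟩
    rw [one_smul] at h3 h4
    refine ⟨isUnit_smul h3 (hνpos j).ne', ?_⟩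
    rw [norm_inverse_smul h3 (hνpos j)]
    calc (ν j)⁻¹ * ‖Ring.inverse (T - D j)‖ ≤ (ν j)⁻¹ * (2 * m * ‖Ring.inverse T‖) :=
          mul_le_mul_of_nonneg_left h4 (inv_nonneg.2 (hνpos j).le)
      _ = _ := by ring
  have hN₀ : ∀ j, IsUnit (ν j • (G j x₀ - D j)) ∧
      ‖Ring.inverse (ν j • (G j x₀ - D j))‖ ≤ 2 * m := by
    intro j
    have h1 := hcN j (G j x₀) (hG₀ j) (by rw [sub_self, norm_zero, mul_zero]; linarith)
      (by rw [hνj]; nlinarith [hνpos j])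
    refine ⟨h1.1, h1.2.trans (le_of_eq ?_)⟩
    rw [hνj, inv_mul_cancel₀ (hνpos j).ne', mul_one]
  set N : ℕ → V m → EV m := fun j x => ν j • (G j x - D j) with hN
  obtain ⟨S, hS, hclose⟩ := net_closeS N hKc hr (C := max (M + C') (2 * m * C')) (by
    filter_upwards [hbd, hfl] with j h1 h2 x hx
    obtain ⟨ha, -, hb⟩ := h1 x hx
    rw [hνj] at ha hb
    have hux : IsUnit (G j x) := hGu j x (hK1 hx)
    have hb' : ν j * ‖G j x - G j x₀‖ ≤ C' := by rw [mul_comm]; exact hb.trans hCC'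
    have ha' : ‖Ring.inverse (G j x)‖ ≤ C' * ν j :=
      ha.trans (mul_le_mul_of_nonneg_right hCC' (hνpos j).le)
    obtain ⟨h3, h4⟩ := hcN j (G j x) hux hb' ha'
    refine ⟨h3, ?_, ?_, ?_⟩
    · refine le_trans ?_ (le_max_left _ _)
      simp only [hN]
      rw [← hDj]
      exact norm_N (hνpos j) (hDM j) hb'
    · refine le_trans (h4.trans ?_) (le_max_right _ _)
      refine mul_le_mul_of_nonneg_left ?_ (by positivity)
      rw [inv_mul_le_iff₀ (hνpos j), mul_comm (ν j)]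
      exact ha'
    · intro y hy hyx
      have h5 := h2 x hx x (mem_closedBall_self hr.le) y (by
        rw [mem_closedBall, dist_eq_norm]
        exact hyx)
      have e : N j y - N j x = ν j • (G j y - G j x) := by
        exact smul_diff _ _ _ _
      rw [e, norm_smul, Real.norm_of_nonneg (hνpos j).le]
      calc ν j * ‖G j y - G j x‖ * ‖Ring.inverse (N j x)‖
          ≤ ν j * ‖G j y - G j x‖ * (2 * m * ((ν j)⁻¹ * ‖Ring.inverse (G j x)‖)) :=
            mul_le_mul_of_nonneg_left h4 (mul_nonneg (hνpos j).le (norm_nonneg _))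
        _ = (ν j * (ν j)⁻¹) * (2 * m * (‖G j y - G j x‖ * ‖Ring.inverse (G j x)‖)) := by ring
        _ = 2 * m * (‖G j y - G j x‖ * ‖Ring.inverse (G j x)‖) := by
            rw [mul_inv_cancel₀ (hνpos j).ne', one_mul]
        _ ≤ 2 * m * δ := mul_le_mul_of_nonneg_left h5 (by positivity)
        _ ≤ 1 / 100 := hδ5)
  -- two good indices
  obtain ⟨i, j, hij, ⟨hi1, hi2, hi3⟩, hj1, hj2, hj3⟩ :=
    exists_ne_of_eventually (hS.and (hall.and hbd))
  refine ⟨i, j, hij, K i, K j, hcutK i, hcutK j, ?_⟩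
  -- the rings
  let ι : Type := {a : V m // a ∈ hBfin.toFinset}
  have hιB : ∀ a : ι, (a : V m) ∈ B := fun a => hBfin.mem_toFinset.1 a.2
  have hrings : Rings (fun a : ι => (2 : ℝ) • (a : V m)) (fun a : ι => s a / 2) := by
    refine ⟨fun a => by have := hspos a (hιB a); positivity, fun a b hab => ?_⟩
    have h1 := hsep a (hιB a) b (hιB b) (fun h => hab (Subtype.ext h))
    have h2 := hsle a (hιB a)
    have h3 := hsle b (hιB b)
    have h4 : ‖(2 : ℝ) • (a : V m) - (2 : ℝ) • (b : V m)‖ = 2 * ‖(a : V m) - b‖ := by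
      rw [← smul_sub, norm_smul]; norm_num
    rw [h4]
    linarith
  have hbub : Bub (fun a : ι => cb a) 1 (fun a : ι => kb a) :=
    ⟨one_pos, fun a => hcb a (hιB a)⟩
  -- the points of `Yset`
  have hYa : ∀ y ∈ Yset (fun a : ι => (2 : ℝ) • (a : V m)) (fun a : ι => s a / 2),
      ∀ a ∈ B, s a / 4 ≤ ‖(1 / 2 : ℝ) • y - a‖ := by
    rintro y (hy | ⟨b, hy⟩) a ha
    · have h1 := hy ⟨a, hBfin.mem_toFinset.2 ha⟩
      simp only at h1
      have e4 : (1 / 2 : ℝ) • y - a = (1 / 2 : ℝ) • (y - (2 : ℝ) • a) := by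
        rw [smul_sub, smul_smul]
        norm_num
      have h2 := hspos a ha
      rw [e4, norm_smul]
      norm_num
      linarith
    · rw [hy]
      simp only
      rw [half_aux]
      have hb := hιB b
      have h3 := hspos b hb
      have hw : ‖(s b / 2) • w0 m‖ = 3 / 8 * s b := by
        rw [norm_smul, P28f.norm_w0 hm1, Real.norm_eq_abs, abs_of_pos (by positivity)]
        ring
      by_cases haa : (b : V m) = a
      · rw [haa, sub_self, zero_add]
        rw [haa] at hw h3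
        rw [hw]
        linarith
      · have h5 := hsep b hb a ha haa
        have h6 := hsle a ha
        have h6' := hsle b hb
        have h7 : ‖(b : V m) - a‖ ≤ ‖((b : V m) - a) + (s b / 2) • w0 m‖ + ‖(s b / 2) • w0 m‖ := by
          have := norm_sub_le (((b : V m) - a) + (s b / 2) • w0 m) ((s b / 2) • w0 m)
          simpa using this
        rw [hw] at h7
        linarith
  have hYK : ∀ y ∈ Yset (fun a : ι => (2 : ℝ) • (a : V m)) (fun a : ι => s a / 2),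
      ‖y‖ ≤ 1 / 2 → (1 / 2 : ℝ) • y ∈ Kc := by
    intro y hy hyn
    refine hKmem _ ?_ (hYa y hy)
    rw [norm_smul]
    norm_num
    linarith
  -- the conditions on one form
  have hone : ∀ l, (∀ a ∈ B, (μ l).real (ball a (s a) \ closedBall a (s a / 16)) ≤ c / 4 ∧
      LabEq (co (lam (i₀ a)) a (s a / 2)) (co (lam l) a (s a / 2))) →
      (∀ x ∈ Kc, ‖Ring.inverse (G l x)‖ ≤ C * ‖Ring.inverse (G l x₀)‖ ∧
        ‖Ring.inverse (G l x₀)‖ ≤ C * ‖Ring.inverse (G l x)‖ ∧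
        ‖G l x - G l x₀‖ * ‖Ring.inverse (G l x₀)‖ ≤ C) →
      One δ₁ (fun a : ι => (2 : ℝ) • (a : V m)) (fun a : ι => s a / 2) (fun a : ι => kb a)
        (K l) (D l) (ν l) := by
    intro l hl1 hl2
    -- the form in the charts
    have hddco : ∀ a ∈ B, ∀ v : V m, ‖v‖ ≤ 1 →
        dd (co (K l) ((2 : ℝ) • a) (2 * (s a / 2))) v = dd (co (lam l) a (s a / 2)) v := by
      intro a ha v hv
      have h1 := hBn a ha
      have h2 := hsle a ha
      have h3 := hspos a ha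
      apply dd_congr
      have h5 : ∀ᶠ y in 𝓝 v, ‖y‖ < 5 / 4 :=
        (isOpen_lt continuous_norm continuous_const).mem_nhds (by
          show ‖v‖ < 5 / 4
          linarith)
      filter_upwards [h5] with y hy
      have e1 : 2 * (s a / 2) = s a := by ring
      have h4 : ‖(2 : ℝ) • a + s a • y‖ ≤ 9 / 16 := by
        refine (norm_add_le _ _).trans ?_
        rw [norm_smul, norm_smul, Real.norm_of_nonneg h3.le]
        norm_num
        nlinarith
      have e2 : co (K l) ((2 : ℝ) • a) (s a) y = co (st (lam l)) ((2 : ℝ) • a) (s a) y := by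
        unfold co
        rw [hKin l _ h4]
      rw [e1, e2]
      unfold st
      rw [co_co, smul_smul]
      norm_num
      congr 1
      ring
    refine ⟨⟨_, _, hKobj l⟩, fun a => ?_, fun a k hk => ?_, ?_, hνpos l, ?_⟩
    · have ha := hιB a
      have h3 := hspos a ha
      have h6 := loc_flat_ann hm2 h0 (by linarith) hc (hL l) h3
        ((closedBall_subset_closedBall (by linarith)).trans (hin' a ha)) (hl1 a ha).1
      have h7 : SFlat (2000 * δ) (ann 0 (1 / 2)) (dd (co (lam l) a (s a / 2))) := by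
        refine sflat_co (by positivity) ?_ ?_
        · rintro x ⟨-, hx⟩
          refine hdf l x (hin' a ha ?_)
          rw [mem_closedBall, dist_eq_norm]
          linarith
        · have e : s (a : V m) / 2 * (1 / 2) = s a / 4 := by ring
          rw [e]
          exact h6
      intro x hx y hy
      have hx' : ‖x‖ ≤ 1 := by
        have := hx.2
        rw [sub_zero] at this
        linarith
      have hy' : ‖y‖ ≤ 1 := by
        have := hy.2
        rw [sub_zero] at this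
        linarith
      rw [hddco a ha x hx', hddco a ha y hy']
      exact (h7 x hx y hy).trans hδ1
    · have ha := hιB a
      have h1 : CutOf (co (lam l) a (s a / 2)) k :=
        hk.congr fun v hv => (hddco a ha v hv).symm
      exact ((hl1 a ha).2.path (hkb a ha) h1).symm
    · rw [← hDj]
      exact (hDsk l).smul _
    · intro y hy t ht
      by_cases hyn : ‖y‖ ≤ 1 / 2
      · have h1 := hYK y hy hyn
        obtain ⟨ha, -, hb⟩ := hl2 _ h1
        rw [hνj] at ha hb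
        rw [hddK l y (by linarith)]
        refine hcu l _ (hGu l _ (hK1 h1)) ?_ ?_ t ht
        · rw [mul_comm]; exact hb.trans hCC'
        · exact ha.trans (mul_le_mul_of_nonneg_right hCC' (hνpos l).le)
      · push Not at hyn
        have h1 := (hKout l y hyn.le).trans (hδ4.trans hsmall)
        have h2 := (near_inv (hG₀ l) h1 (by norm_num)).1
        refine hcu l _ ((hKobj l).unit y) ?_ ?_ t ht
        · rw [hνj] at h1
          rw [mul_comm]
          linarith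
        · rw [hνj] at h2
          refine h2.trans ?_
          have := hνpos l
          rw [div_le_iff₀ (by norm_num)]
          nlinarith
  refine hpair hrings hbub (hone i hi2 hi3) (hone j hj2 hj3) ?_
  intro y hy
  by_cases hyn : ‖y‖ ≤ 1 / 2
  · rw [hddK i y (by linarith), hddK j y (by linarith)]
    exact (hclose i hi1 j hj1 _ (hYK y hy hyn)).trans (by norm_num)
  · push Not at hyn
    have hnear : ∀ l, ‖ν l • (dd (K l) y - D l) - ν l • (G l x₀ - D l)‖ *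
        ‖Ring.inverse (ν l • (G l x₀ - D l))‖ ≤ 1 / 100 := by
      intro l
      have e : ν l • (dd (K l) y - D l) - ν l • (G l x₀ - D l) = ν l • (dd (K l) y - G l x₀) := by
        exact smul_diff _ _ _ _
      have h1 := (hKout l y hyn.le).trans hδ4
      rw [hνj] at h1
      rw [e, norm_smul, Real.norm_of_nonneg (hνpos l).le]
      calc ν l * ‖dd (K l) y - G l x₀‖ * ‖Ring.inverse (ν l • (G l x₀ - D l))‖
          ≤ ν l * ‖dd (K l) y - G l x₀‖ * (2 * m) :=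
            mul_le_mul_of_nonneg_left (hN₀ l).2 (mul_nonneg (hνpos l).le (norm_nonneg _))
        _ = (‖dd (K l) y - G l x₀‖ * ν l) * (2 * m) := by ring
        _ ≤ 1 / (200 * m) * (2 * m) := mul_le_mul_of_nonneg_right h1 (by positivity)
        _ = 1 / 100 := by field_simp; norm_num
    exact four (hN₀ i).1 (hN₀ j).1 (hnear i) (hclose i hi1 j hj1 _ hx₀K) (hnear j)

end Pool.Agent.Lib.P28s
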