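import Pool.Agent.Lib.P28s.PathRel
import Pool.Agent.Lib.P28s.Cap
import Pool.Agent.Lib.P28f.Bdd

set_option autoImplicit false

/-!
# Constant forms: finitely many classes

PROOF. If `m = 0`, `EV 0` is a subsingleton and `PathV.refl` does it. Let `m ≥ 1` (so `‖c⁻¹‖ > 0` for units). (1) Multiplying `c j` by `ν = ‖(c j)⁻¹‖ > 0` does not change the class:
`PathV.seg` for `lc c`, `lc (ν c)` (`obj_lc`, `dd_lc`): `(1 - t) c + t ν c` is a positive multiple of `c`. `‖(ν c)⁻¹‖ = 1`. (2) `cap m 0 1` with `S = 0`: `D` with `c - s D` units of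
inverse norm `≤ 2 m` and `‖c - D‖ ≤ M`; so `PathV (lc c) (lc (c - D))` (`PathV.seg`, the combination of `c` and `c - D` is `c - t D`). (3) The sequence `c' j = c j - D j` is bounded in the
finite-dimensional space `EV m`: there are `i ≠ j` with `‖c' i - c' j‖ (2 m) < 1` (a convergent subsequence); `near_seg`, `PathV.seg`.
-/

open MeasureTheory Set Metric
open scoped ContDiff Topology

namespace Pool.Agent.Lib.P28s

open Pool.Agent.Lib.P28f (V EV)

variable {m : ℕ}

namespace ConstFinAux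

theorem pathV_lc {c c' : EV m} (hs : Sk c) (hu : IsUnit c) (hs' : Sk c') (hu' : IsUnit c')
    (h : ∀ t ∈ Icc (0 : ℝ) 1, IsUnit ((1 - t) • c + t • c')) : PathV (lc c) (lc c') := by
  refine PathV.seg (obj_lc hs hu) (obj_lc hs' hu') fun t ht x => ?_
  rw [dd_lc hs, dd_lc hs']
  exact h t ht

theorem isUnit_smul {c : EV m} (hu : IsUnit c) {r : ℝ} (hr : r ≠ 0) : IsUnit (r • c) := by
  obtain ⟨u, rfl⟩ := hu
  refine ⟨⟨r • (u : EV m), r⁻¹ • ((u⁻¹ : (EV m)ˣ) : EV m), ?_, ?_⟩, rfl⟩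
  · rw [smul_mul_smul_comm, mul_inv_cancel₀ hr, Units.mul_inv, one_smul]
  · rw [smul_mul_smul_comm, inv_mul_cancel₀ hr, Units.inv_mul, one_smul]

theorem inverse_smul {c : EV m} (hu : IsUnit c) {r : ℝ} (hr : r ≠ 0) :
    Ring.inverse (r • c) = r⁻¹ • Ring.inverse c := by
  have h1 : (r • c) * (r⁻¹ • Ring.inverse c) = 1 := by
    rw [smul_mul_smul_comm, mul_inv_cancel₀ hr, Ring.mul_inverse_cancel _ hu, one_smul]
  calc Ring.inverse (r • c) = Ring.inverse (r • c) * ((r • c) * (r⁻¹ • Ring.inverse c)) := by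
        rw [h1, mul_one]
    _ = r⁻¹ • Ring.inverse c := by
        rw [← mul_assoc, Ring.inverse_mul_cancel _ (isUnit_smul hu hr), one_mul]

theorem norm_inverse_pos (hm : 1 ≤ m) {c : EV m} (hu : IsUnit c) : 0 < ‖Ring.inverse c‖ := by
  rw [norm_pos_iff]
  intro h
  have h1 := Ring.mul_inverse_cancel _ hu
  rw [h, mul_zero] at h1
  have h2 := congrArg (fun A : EV m => A (fun _ => 1) ⟨0, hm⟩) h1
  simp at h2

end ConstFinAux

open ConstFinAux in
theorem const_fin (c : ℕ → EV m) (hs : ∀ j, Sk (c j)) (hu : ∀ j, IsUnit (c j)) :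
    ∃ i j, i ≠ j ∧ PathV (lc (c i)) (lc (c j)) := by
  rcases Nat.eq_zero_or_pos m with hm | hm
  · subst hm
    refine ⟨0, 1, by norm_num, ?_⟩
    have h : c 1 = c 0 := by
      ext v i
      exact i.elim0
    rw [h]
    exact PathV.refl (obj_lc (hs 0) (hu 0))
  obtain ⟨M, hM, hcap⟩ := cap m 0 1
  have hmr : (1 : ℝ) ≤ m := by exact_mod_cast hm
  -- normalised forms
  have key : ∀ j, ∃ c' : EV m, Sk c' ∧ IsUnit c' ∧ ‖c'‖ ≤ M ∧ ‖Ring.inverse c'‖ ≤ 2 * m ∧
      PathV (lc (c j)) (lc c') := by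
    intro j
    have hν := norm_inverse_pos hm (hu j)
    set ν := ‖Ring.inverse (c j)‖ with hνdef
    have hu1 : IsUnit (ν • c j) := isUnit_smul (hu j) hν.ne'
    have hs1 : Sk (ν • c j) := (hs j).smul ν
    have hn1 : ‖Ring.inverse (ν • c j)‖ = 1 := by
      rw [inverse_smul (hu j) hν.ne', norm_smul, ← hνdef, norm_inv, Real.norm_eq_abs,
        abs_of_pos hν, inv_mul_cancel₀ hν.ne']
    have hp1 : PathV (lc (c j)) (lc (ν • c j)) := by
      refine pathV_lc (hs j) (hu j) hs1 hu1 fun t ht => ?_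
      have h1 : (1 - t) • c j + t • (ν • c j) = ((1 - t) + t * ν) • c j := by module
      rw [h1]
      refine isUnit_smul (hu j) ?_
      have h2 : 0 < (1 - t) + t * ν := by
        rcases lt_or_ge t 1 with h3 | h3
        · have := mul_nonneg ht.1 hν.le
          linarith
        · have h4 : t = 1 := le_antisymm ht.2 h3
          rw [h4]; linarith
      exact h2.ne'
    obtain ⟨D, hDs, hDM, hD⟩ := hcap (ν • c j) hs1 hu1 hn1
    have hD' : ∀ s ∈ Icc (0 : ℝ) 1, IsUnit (ν • c j - s • D) ∧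
        ‖Ring.inverse (ν • c j - s • D)‖ ≤ 2 * m := by
      intro s hs'
      have h1 := hD s hs' 0 (by simp) (by rw [add_zero]; exact hu1)
        (by rw [add_zero, hn1])
      rw [add_zero, add_zero, hn1, mul_one] at h1
      exact h1
    have h1 := hD' 1 ⟨zero_le_one, le_refl 1⟩
    rw [one_smul] at h1
    refine ⟨ν • c j - D, hs1.sub hDs, h1.1, hDM, h1.2, hp1.trans ?_⟩
    refine pathV_lc hs1 hu1 (hs1.sub hDs) h1.1 fun t ht => ?_
    have h2 : (1 - t) • (ν • c j) + t • (ν • c j - D) = ν • c j - t • D := by module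
    rw [h2]
    exact (hD' t ht).1
  choose c' hs' hu' hM' hinv' hp' using key
  obtain ⟨a, _, φ, hφ, ha⟩ := (isCompact_closedBall (0 : EV m) M).tendsto_subseq
    (x := c') (fun j => by rw [mem_closedBall_zero_iff]; exact hM' j)
  have hε : (0 : ℝ) < 1 / (8 * m) := by positivity
  obtain ⟨N, hN⟩ := Metric.tendsto_atTop.1 ha _ hε
  have h1 := hN N le_rfl
  have h2 := hN (N + 1) (Nat.le_succ N)
  have h3 : ‖c' (φ (N + 1)) - c' (φ N)‖ < 1 / (4 * m) := by
    rw [← dist_eq_norm]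
    have h4 := dist_triangle_right (c' (φ (N + 1))) (c' (φ N)) a
    have h5 : (1 : ℝ) / (8 * m) + 1 / (8 * m) = 1 / (4 * m) := by field_simp; norm_num
    simp only [Function.comp] at h1 h2
    linarith
  refine ⟨φ N, φ (N + 1), (hφ (Nat.lt_succ_self N)).ne, (hp' (φ N)).trans (PathV.trans ?_
    (hp' (φ (N + 1))).symm)⟩
  refine pathV_lc (hs' _) (hu' _) (hs' _) (hu' _) fun t ht => near_seg (hu' _) ?_ ht
  have h6 := hinv' (φ N)
  calc ‖c' (φ (N + 1)) - c' (φ N)‖ * ‖Ring.inverse (c' (φ N))‖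
      ≤ 1 / (4 * m) * (2 * m) := mul_le_mul h3.le h6 (norm_nonneg _) (by positivity)
    _ < 1 := by
        have : (1 : ℝ) / (4 * m) * (2 * m) = 1 / 2 := by field_simp; norm_num
        rw [this]; norm_num

end Pool.Agent.Lib.P28s
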