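import Pool.Agent.Lib.P28s.Alg

set_option autoImplicit false

/-!
# Calculus of the exterior derivative

PROOF. `dd` is `D - tr D`. Sums, multiples, `congr`: `fderiv` rules and `tr_add`, `tr_smul`. `dd_lc`: the derivative of `lc c` is
`(1/2) c`, and `tr c = -c`. `dd_grad`: the matrix of `D (grad F)` is the Hessian, which is symmetric (`second_derivative_symmetric`
style lemmas, e.g. `ContDiffAt.isSymmSndFDerivAt`). `dd_fsmul`: `D (χ b) v = χ (D b v) + (Dχ v) b`; the operator `v ↦ (Dχ v) b` has norm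
`≤ ‖Dχ‖ ‖b‖` and its transpose at most `m` times that. `dd_pl`: chain rule and `tr (tr A * D * A) = tr A * tr D * A`.
`dd_sc`, `dd_co`: chain rule, the factors cancel. `sk_dd`: `tr (D - tr D) = tr D - D`.
`dd_pull`: pull-back of a one-form by a map `ψ`: `(ψ^* lam) x = tr (Dψ x) (lam (ψ x))`, `dd (ψ^* lam) x = tr (Dψ x) * dd lam (ψ x) * Dψ x`
(the second derivatives of `ψ` cancel, symmetry).
-/

open MeasureTheory Set Metric
open scoped ContDiff Topology

namespace Pool.Agent.Lib.P28s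

open Pool.Agent.Lib.P28f (V EV)

variable {m : ℕ}

namespace DdAux

/-- `tr` as a continuous linear map -/
noncomputable def trL (m : ℕ) : EV m →L[ℝ] EV m :=
  LinearMap.mkContinuous
    { toFun := tr
      map_add' := tr_add
      map_smul' := tr_smul } m norm_tr_le

theorem trL_apply (A : EV m) : trL m A = tr A := rfl

theorem sum_single (v : V m) : ∑ j, v j • (Pi.single j 1 : V m) = v := by
  funext i
  rw [Finset.sum_apply, Finset.sum_eq_single i]
  · simp
  · intro j _ hj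
    simp [hj.symm]
  · intro h
    exact absurd (Finset.mem_univ _) h

theorem sum_apply_single {W : Type*} [AddCommGroup W] [Module ℝ W] (L : V m →ₗ[ℝ] W) (v : V m) :
    ∑ j, v j • L (Pi.single j 1) = L v := by
  conv_rhs => rw [← sum_single v]
  rw [map_sum]
  refine Finset.sum_congr rfl fun j _ => ?_
  rw [map_smul]

theorem eq_of_tr_eq {A : EV m} (h : ∀ v i, ∑ j, (A (Pi.single i 1)) j * v j = A v i) : tr A = A := by
  ext v i
  rw [tr_apply, h]

end DdAux

open DdAux

theorem dd_congr {f g : V m → V m} {x : V m} (h : f =ᶠ[𝓝 x] g) : dd f x = dd g x := by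
  unfold dd
  rw [h.fderiv_eq]

theorem dd_add {f g : V m → V m} {x : V m} (hf : DifferentiableAt ℝ f x)
    (hg : DifferentiableAt ℝ g x) : dd (fun y => f y + g y) x = dd f x + dd g x := by
  have h : fderiv ℝ (fun y => f y + g y) x = fderiv ℝ f x + fderiv ℝ g x := fderiv_fun_add hf hg
  unfold dd
  rw [h, tr_add]
  abel

theorem dd_sub {f g : V m → V m} {x : V m} (hf : DifferentiableAt ℝ f x)
    (hg : DifferentiableAt ℝ g x) : dd (fun y => f y - g y) x = dd f x - dd g x := by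
  have h : fderiv ℝ (fun y => f y - g y) x = fderiv ℝ f x - fderiv ℝ g x := fderiv_fun_sub hf hg
  unfold dd
  rw [h, tr_sub]
  abel

theorem dd_smul {f : V m → V m} {x : V m} (hf : DifferentiableAt ℝ f x) (r : ℝ) :
    dd (fun y => r • f y) x = r • dd f x := by
  have h : fderiv ℝ (fun y => r • f y) x = r • fderiv ℝ f x := (hf.hasFDerivAt.const_smul r).fderiv
  unfold dd
  rw [h, tr_smul, smul_sub]

theorem dd_lc {c : EV m} (hc : Sk c) (x : V m) : dd (lc c) x = c := by
  have h : fderiv ℝ (lc c) x = (1 / 2 : ℝ) • c := by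
    have h1 : HasFDerivAt (lc c) ((1 / 2 : ℝ) • c) x := c.hasFDerivAt.const_smul (1 / 2 : ℝ)
    exact h1.fderiv
  unfold dd
  rw [h, tr_smul, hc, smul_neg, sub_neg_eq_add, ← add_smul]
  norm_num

theorem contDiff_lc (c : EV m) : ContDiff ℝ ∞ (lc c) := by
  unfold lc
  exact c.contDiff.const_smul (1 / 2 : ℝ)

theorem contDiffAt_grad {F : V m → ℝ} {x : V m} (hF : ContDiffAt ℝ ∞ F x) :
    ContDiffAt ℝ ∞ (grad F) x := by
  have h1 : ContDiffAt ℝ ∞ (fderiv ℝ F) x := hF.fderiv_right (m := ∞) (by simp)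
  refine contDiffAt_pi.2 fun i => ?_
  exact h1.clm_apply contDiffAt_const

theorem dd_grad {F : V m → ℝ} {x : V m} (hF : ContDiffAt ℝ ∞ F x) : dd (grad F) x = 0 := by
  have h1 : ContDiffAt ℝ ∞ (fderiv ℝ F) x := hF.fderiv_right (m := ∞) (by simp)
  have h2 : DifferentiableAt ℝ (fderiv ℝ F) x := h1.differentiableAt (by simp)
  have h3 : ∀ v i, fderiv ℝ (grad F) x v i = fderiv ℝ (fderiv ℝ F) x v (Pi.single i 1) := by
    intro v i
    have h4 : HasFDerivAt (grad F) (ContinuousLinearMap.pi fun i =>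
        (fderiv ℝ (fderiv ℝ F) x).flip (Pi.single i 1)) x := by
      refine hasFDerivAt_pi.2 fun i => ?_
      have h5 := h2.hasFDerivAt.clm_apply (hasFDerivAt_const (Pi.single i (1 : ℝ) : V m) x)
      refine h5.congr_fderiv ?_
      ext v
      simp
    rw [h4.fderiv]
    rfl
  have hs : ∀ v w, fderiv ℝ (fderiv ℝ F) x v w = fderiv ℝ (fderiv ℝ F) x w v := by
    have : IsSymmSndFDerivAt ℝ F x := hF.isSymmSndFDerivAt (by
      simp only [minSmoothness_of_isRCLikeNormedField]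
      exact WithTop.coe_le_coe.2 (OrderTop.le_top (2 : ℕ∞)))
    exact fun v w => this v w
  unfold dd
  rw [sub_eq_zero]
  symm
  refine eq_of_tr_eq fun v i => ?_
  rw [h3]
  simp only [h3]
  have h6 := sum_apply_single ((fderiv ℝ (fderiv ℝ F) x (Pi.single i 1)) : V m →ₗ[ℝ] ℝ) v
  rw [hs v]
  rw [← ContinuousLinearMap.coe_coe, ← h6]
  refine Finset.sum_congr rfl fun j _ => ?_
  rw [smul_eq_mul, mul_comm]

theorem norm_dd_fsmul_le {χ : V m → ℝ} {b : V m → V m} {x : V m} (hχ : DifferentiableAt ℝ χ x)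
    (hb : DifferentiableAt ℝ b x) :
    ‖dd (fun y => χ y • b y) x - χ x • dd b x‖ ≤ ((m : ℝ) + 1) * (‖fderiv ℝ χ x‖ * ‖b x‖) := by
  have h : fderiv ℝ (fun y => χ y • b y) x = χ x • fderiv ℝ b x +
      (fderiv ℝ χ x).smulRight (b x) := fderiv_fun_smul hχ hb
  have e : dd (fun y => χ y • b y) x - χ x • dd b x =
      (fderiv ℝ χ x).smulRight (b x) - tr ((fderiv ℝ χ x).smulRight (b x)) := by
    unfold dd
    rw [h, tr_add, tr_smul, smul_sub]
    abel
  rw [e]
  have h1 : ‖(fderiv ℝ χ x).smulRight (b x)‖ = ‖fderiv ℝ χ x‖ * ‖b x‖ :=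
    ContinuousLinearMap.norm_smulRight_apply _ _
  have h2 := norm_tr_le ((fderiv ℝ χ x).smulRight (b x))
  have h3 := norm_sub_le ((fderiv ℝ χ x).smulRight (b x)) (tr ((fderiv ℝ χ x).smulRight (b x)))
  rw [h1] at h2 h3
  linarith

theorem dd_pl (A : EV m) {k : V m → V m} {x : V m} (hk : DifferentiableAt ℝ k (A x)) :
    dd (pl A k) x = tr A * dd k (A x) * A := by
  have h : HasFDerivAt (pl A k) (tr A * fderiv ℝ k (A x) * A) x :=
    ((tr A).hasFDerivAt.comp x (hk.hasFDerivAt.comp x A.hasFDerivAt))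
  unfold dd
  rw [h.fderiv, tr_mul, tr_mul, tr_tr, mul_sub, sub_mul, mul_assoc (tr A) (tr _) A]

theorem dd_sc {e : ℝ} (he : e ≠ 0) {k : V m → V m} {x : V m}
    (hk : DifferentiableAt ℝ k (e⁻¹ • x)) : dd (sc e k) x = dd k (e⁻¹ • x) := by
  have h : HasFDerivAt (sc e k) (fderiv ℝ k (e⁻¹ • x)) x := by
    have h1 : HasFDerivAt (fun x : V m => e⁻¹ • x) (e⁻¹ • ContinuousLinearMap.id ℝ (V m)) x :=
      (hasFDerivAt_id x).const_smul e⁻¹
    have h2 := (hk.hasFDerivAt.comp x h1).const_smul e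
    refine h2.congr_fderiv ?_
    ext v
    simp [smul_smul, he]
  unfold dd
  rw [h.fderiv]

theorem dd_co {lam : V m → V m} {a v : V m} {s : ℝ} (hs : s ≠ 0)
    (h : DifferentiableAt ℝ lam (a + s • v)) : dd (co lam a s) v = dd lam (a + s • v) := by
  have h0 : HasFDerivAt (co lam a s) (fderiv ℝ lam (a + s • v)) v := by
    have h1 : HasFDerivAt (fun v : V m => a + s • v) (s • ContinuousLinearMap.id ℝ (V m)) v :=
      ((hasFDerivAt_id v).const_smul s).const_add a
    have h2 := (h.hasFDerivAt.comp v h1).const_smul s⁻¹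
    refine h2.congr_fderiv ?_
    ext w
    simp [smul_smul, hs]
  unfold dd
  rw [h0.fderiv]

theorem contDiffAt_co {lam : V m → V m} {a v : V m} {s : ℝ}
    (h : ContDiffAt ℝ ∞ lam (a + s • v)) : ContDiffAt ℝ ∞ (co lam a s) v := by
  have h1 : ContDiffAt ℝ ∞ (fun v : V m => a + s • v) v :=
    contDiffAt_const.add (contDiffAt_id.const_smul s)
  exact (ContDiffAt.comp v (g := lam) h h1).const_smul s⁻¹

theorem co_co (lam : V m → V m) (a b : V m) (s t : ℝ) :
    co (co lam a s) b t = co lam (a + s • b) (s * t) := by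
  funext v
  unfold co
  rw [smul_smul, mul_inv, mul_comm t⁻¹, smul_add, smul_smul, add_assoc]

theorem sk_dd (lam : V m → V m) (x : V m) : Sk (dd lam x) := by
  unfold Sk dd
  rw [tr_sub, tr_tr]
  abel

theorem continuous_dd {k : V m → V m} (hk : ContDiff ℝ ∞ k) : Continuous (dd k) := by
  have h1 : Continuous (fderiv ℝ k) := hk.continuous_fderiv (by simp)
  exact h1.sub (continuous_tr.comp h1)

/-- Pull-back by a smooth map. -/
theorem dd_pull {lam : V m → V m} {ψ : V m → V m} {x : V m} (hψ : ContDiffAt ℝ ∞ ψ x)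
    (hl : DifferentiableAt ℝ lam (ψ x)) :
    dd (fun y => tr (fderiv ℝ ψ y) (lam (ψ y))) x =
      tr (fderiv ℝ ψ x) * dd lam (ψ x) * fderiv ℝ ψ x := by
  have h1 : ContDiffAt ℝ ∞ (fderiv ℝ ψ) x := hψ.fderiv_right (m := ∞) (by simp)
  have h2 : DifferentiableAt ℝ (fderiv ℝ ψ) x := h1.differentiableAt (by simp)
  have h3 : DifferentiableAt ℝ ψ x := hψ.differentiableAt (by simp)
  have hs : ∀ v w, fderiv ℝ (fderiv ℝ ψ) x v w = fderiv ℝ (fderiv ℝ ψ) x w v := by
    have : IsSymmSndFDerivAt ℝ ψ x := hψ.isSymmSndFDerivAt (by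
      simp only [minSmoothness_of_isRCLikeNormedField]
      exact WithTop.coe_le_coe.2 (OrderTop.le_top (2 : ℕ∞)))
    exact fun v w => this v w
  set D2 : V m →L[ℝ] V m →L[ℝ] V m := fderiv ℝ (fderiv ℝ ψ) x with hD2
  set B : EV m := ((trL m).comp D2).flip (lam (ψ x)) with hB
  have hBa : ∀ v i, B v i = ∑ j, (D2 v (Pi.single i 1)) j * lam (ψ x) j := by
    intro v i
    have : B v = tr (D2 v) (lam (ψ x)) := rfl
    rw [this, tr_apply]
  have hBs : tr B = B := by
    refine eq_of_tr_eq fun v i => ?_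
    rw [hBa]
    have e1 : ∀ j, (B (Pi.single i 1)) j = ∑ l, (D2 (Pi.single i 1) (Pi.single j 1)) l *
        lam (ψ x) l := fun j => hBa _ j
    simp only [e1, Finset.sum_mul]
    rw [Finset.sum_comm]
    refine Finset.sum_congr rfl fun l _ => ?_
    rw [hs v]
    have h6 := sum_apply_single ((D2 (Pi.single i 1)) : V m →ₗ[ℝ] V m) v
    rw [← ContinuousLinearMap.coe_coe, ← h6, Finset.sum_apply, Finset.sum_mul]
    refine Finset.sum_congr rfl fun j _ => ?_
    rw [Pi.smul_apply, smul_eq_mul]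
    show _ * _ * _ = _ * _ * _
    rw [ContinuousLinearMap.coe_coe]
    ring
  have hd : HasFDerivAt (fun y => tr (fderiv ℝ ψ y) (lam (ψ y)))
      (B + tr (fderiv ℝ ψ x) * fderiv ℝ lam (ψ x) * fderiv ℝ ψ x) x := by
    have h4 : HasFDerivAt (fun y => trL m (fderiv ℝ ψ y)) ((trL m).comp D2) x :=
      (trL m).hasFDerivAt.comp x h2.hasFDerivAt
    have h5 : HasFDerivAt (fun y => lam (ψ y)) ((fderiv ℝ lam (ψ x)).comp (fderiv ℝ ψ x)) x :=
      hl.hasFDerivAt.comp x h3.hasFDerivAt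
    have h6 := h4.clm_apply h5
    refine h6.congr_fderiv ?_
    rw [add_comm]
    rfl
  unfold dd
  rw [hd.fderiv, tr_add, hBs, tr_mul, tr_mul, tr_tr, mul_sub, sub_mul,
    mul_assoc (tr (fderiv ℝ ψ x)) (tr _) (fderiv ℝ ψ x)]
  abel

end Pool.Agent.Lib.P28s
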