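import Pool.Agent.Lib.P28f.Defs

set_option autoImplicit false

/-!
# Critical finiteness for symplectic forms: local theory in `ℝ^m`, definitions

`V m = Fin m → ℝ` with the maximum norm, `EV m` its continuous endomorphisms. A one-form on `V m` is given by its components, a
map `lam : V m → V m`; `dd lam x` is the operator of its exterior derivative: `d lam (v, w) = ⟨dd lam x v, w⟩` (dot product).
`Sk c`: `c` is skew; `lc c x = (1/2) c x` is the primitive of the constant form `c`. `SFlat δ S T`: strong flatness,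
`‖T y - T x‖ ‖(T x)⁻¹‖ ≤ δ` on `S`. `Ctrl`, `Loc`, `FinCls` are as in `P28f`, with `dd lam` in place of the derivative.
`Obj c R k`: a form with non-degenerate `dd k` which is `lc c` for `‖x‖ ≥ R`. `PathV`: continuous paths of such forms (the
constant may move), `PathC c r`: with fixed constant `c` and fixed radius `r`. `pl A k` is the pull-back by the linear map `A`,
`sc e k` the contraction by the factor `e`. `CutOf lam a R k`: `k` is a form which has the components of `lam` inside the ring
`R ≤ ‖x - a‖ ≤ 2 R` (in the coordinates `v`, `x = a + 2 R v`) and is nearly constant in the ring and constant outside.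
`Amb`: an ambient space of forms with finitely many charts in which one can modify a form.
-/

open MeasureTheory Set Metric
open scoped ContDiff

namespace Pool.Agent.Lib.P28s

open Pool.Agent.Lib.P28f (V EV ann w0 Light)

variable {m : ℕ}

/-- Transpose with respect to the dot product. -/
noncomputable def tr (A : EV m) : EV m :=
  LinearMap.toContinuousLinearMap
    (Matrix.toLin' (LinearMap.toMatrix' (A : V m →ₗ[ℝ] V m)).transpose)

/-- The operator of the exterior derivative of the one-form with components `lam`. -/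
noncomputable def dd (lam : V m → V m) (x : V m) : EV m := fderiv ℝ lam x - tr (fderiv ℝ lam x)

/-- Skew operators. -/
def Sk (c : EV m) : Prop := tr c = -c

/-- The primitive of the constant two-form `c`. -/
noncomputable def lc (c : EV m) (x : V m) : V m := (1 / 2 : ℝ) • c x

/-- Strong flatness. -/
def SFlat (δ : ℝ) (S : Set (V m)) (T : V m → EV m) : Prop :=
  ∀ x ∈ S, ∀ y ∈ S, ‖T y - T x‖ * ‖Ring.inverse (T x)‖ ≤ δ

/-- `lam` is smooth with non-degenerate exterior derivative at each point of `U`. -/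
def NdOn (U : Set (V m)) (lam : V m → V m) : Prop :=
  ∀ x ∈ U, ContDiffAt ℝ ∞ lam x ∧ IsUnit (dd lam x)

/-- `dd lam` is strongly flat on `B(z, r/8)` whenever the ball `B(z, r) ⊆ U` has mass at most `c`. -/
structure Ctrl (δ c : ℝ) (U : Set (V m)) (lam : V m → V m) (μ : Measure (V m)) : Prop where
  nd : NdOn U lam
  flat : ∀ (z : V m) (r : ℝ), 0 < r → closedBall z r ⊆ U → μ.real (closedBall z r) ≤ c →
    SFlat δ (closedBall z (r / 8)) (dd lam)

/-- Controlled forms on the unit ball of mass at most `E` with small mass near the boundary. -/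
structure Loc (δ c E : ℝ) (lam : V m → V m) (μ : Measure (V m)) : Prop where
  fin : IsFiniteMeasure μ
  atom : ∀ x, μ {x} = 0
  ctrl : Ctrl δ c (ball 0 1) lam μ
  mass : μ.real (ball 0 1) ≤ E
  collar : μ.real (ball 0 1 \ closedBall 0 (1 / 16)) ≤ c / 4

/-- Non-degenerate forms which are constant for `‖x‖ ≥ R`. -/
structure Obj (c : EV m) (R : ℝ) (k : V m → V m) : Prop where
  sk : Sk c
  cunit : IsUnit c
  smooth : ContDiff ℝ ∞ k
  unit : ∀ x, IsUnit (dd k x)
  out : ∀ x, R ≤ ‖x‖ → k x = lc c x

/-- Paths; the constant at infinity may move. -/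
def PathV (k k' : V m → V m) : Prop :=
  ∃ (K : ℝ → V m → V m) (c : ℝ → EV m) (R : ℝ), (∀ t, Obj (c t) R (K t)) ∧ Continuous c ∧
    Continuous (fun p : ℝ × V m => dd (K p.1) p.2) ∧ K 0 = k ∧ K 1 = k'

/-- Paths with fixed constant at infinity and fixed radius. -/
def PathC (c : EV m) (r : ℝ) (k k' : V m → V m) : Prop :=
  ∃ K : ℝ → V m → V m, (∀ t, Obj c r (K t)) ∧
    Continuous (fun p : ℝ × V m => dd (K p.1) p.2) ∧ K 0 = k ∧ K 1 = k'

/-- Pull-back by a linear map. -/
noncomputable def pl (A : EV m) (k : V m → V m) (x : V m) : V m := tr A (k (A x))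

/-- Contraction. -/
noncomputable def sc (e : ℝ) (k : V m → V m) (x : V m) : V m := e • k (e⁻¹ • x)

/-- The gradient of a function. -/
noncomputable def grad (F : V m → ℝ) (x : V m) : V m := fun i => fderiv ℝ F x (Pi.single i 1)

/-- The form `lam` in the coordinates `v`, `x = a + s v`; the components of the exterior derivative are those of `lam`. -/
noncomputable def co (lam : V m → V m) (a : V m) (s : ℝ) (v : V m) : V m := s⁻¹ • lam (a + s • v)

/-- `k` is `lam` inside the ring `1/2 ≤ ‖v‖ ≤ 1`, nearly constant in it, and constant outside. -/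
structure CutOf (lam : V m → V m) (k : V m → V m) : Prop where
  ex : ∃ c : EV m, Obj c 1 k ∧ (∀ v, ‖v‖ ≤ 1 / 2 → dd k v = dd lam v) ∧
    ∀ v, 1 / 2 ≤ ‖v‖ → ‖v‖ ≤ 1 → ‖dd k v - c‖ * ‖Ring.inverse c‖ ≤ 1 / 100 ∧
      ‖dd lam v - c‖ * ‖Ring.inverse c‖ ≤ 1 / 100

/-- The two forms have the same class at the rings `1/2 ≤ ‖v‖ ≤ 1`. -/
def LabEq (lam lam' : V m → V m) : Prop :=
  ∃ k k' : V m → V m, CutOf lam k ∧ CutOf lam' k' ∧ PathV k k'

/-- The standard coordinate at the ring of centre `0` and radius `1/4`. -/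
noncomputable def st (lam : V m → V m) : V m → V m := co lam 0 (1 / 2)

/-- Finitely many classes (sequence version). -/
def FinCls (m : ℕ) (δ c E : ℝ) : Prop :=
  ∀ (lam : ℕ → V m → V m) (μ : ℕ → Measure (V m)), (∀ j, Loc δ c E (lam j) (μ j)) →
    ∃ i j, i ≠ j ∧ LabEq (st (lam i)) (st (lam j))

/-- Modifications: smooth, supported in `‖v‖ ≤ 15/16`. -/
structure Md (b : V m → V m) : Prop where
  smooth : ContDiff ℝ ∞ b
  supp : ∀ v, 15 / 16 ≤ ‖v‖ → b v = 0

/-- An ambient real vector space of one-forms `X` with finitely many charts (normalised coordinates, chart ball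
`‖v‖ < 5/4`); `Nd x`: smooth and non-degenerate outside the balls `‖v‖ ≤ 1` of the charts, and what else is required. -/
structure Amb (m : ℕ) (ι X : Type) [Fintype ι] [AddCommGroup X] [Module ℝ X] where
  Nd : X → Prop
  res : ι → X →ₗ[ℝ] (V m → V m)
  ext : ι → (V m → V m) →ₗ[ℝ] X
  res_ext : ∀ i b, Md b → ∀ v, ‖v‖ < 5 / 4 → res i (ext i b) v = b v
  res_ext_ne : ∀ i j b, i ≠ j → Md b → ∀ v, ‖v‖ < 5 / 4 → res j (ext i b) v = 0
  nd_ext : ∀ x i b, Md b → (Nd (x + ext i b) ↔ Nd x)

section

variable {ι X : Type} [Fintype ι] [AddCommGroup X] [Module ℝ X]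

/-- Non-degenerate elements of the ambient space. -/
structure Amb.ND (M : Amb m ι X) (x : X) : Prop where
  out : M.Nd x
  inn : ∀ i v, ‖v‖ < 5 / 4 → ContDiffAt ℝ ∞ (M.res i x) v ∧ IsUnit (dd (M.res i x) v)

/-- Segments of non-degenerate elements. -/
def Amb.Seg (M : Amb m ι X) (x y : X) : Prop :=
  ∀ t : ℝ, 0 ≤ t → t ≤ 1 → M.ND ((1 - t) • x + t • y)

/-- Chains of segments. -/
def Amb.Eqv (M : Amb m ι X) : X → X → Prop := Relation.ReflTransGen M.Seg

/-- Bubbles: one form on `V m`, constant near infinity, for each chart. -/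
structure Bub (cb : ι → EV m) (rb : ℝ) (kb : ι → V m → V m) : Prop where
  pos : 0 < rb
  obj : ∀ i, Obj (cb i) rb (kb i)

/-- An outer form: constant `tr A cb A` in the balls `‖v‖ < 13/16`. -/
structure Amb.Dec (M : Amb m ι X) (cb : ι → EV m) (o : X) (A : ι → EV m) : Prop where
  nd : M.ND o
  unit : ∀ i, IsUnit (A i)
  cst : ∀ i v, ‖v‖ < 13 / 16 → M.res i o v = lc (tr (A i) * cb i * A i) v

/-- Forms `k i` (constant `c i` near infinity) inserted at the scale `e`. -/
noncomputable def Amb.put (M : Amb m ι X) (o : X) (k : ι → V m → V m) (c : ι → EV m) (e : ℝ) : X :=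
  o + ∑ i, M.ext i (fun v => sc e (k i) v - lc (c i) v)

/-- The outer form with the bubbles inserted. -/
noncomputable def Amb.fill (M : Amb m ι X) (cb : ι → EV m) (kb : ι → V m → V m) (o : X)
    (A : ι → EV m) (e : ℝ) : X :=
  M.put o (fun i => pl (A i) (kb i)) (fun i => tr (A i) * cb i * A i) e

/-- `x` is represented by the outer form `o` with the given bubbles. -/
def Amb.Rep (M : Amb m ι X) (cb : ι → EV m) (kb : ι → V m → V m) (x o : X) : Prop :=
  ∃ A : ι → EV m, M.Dec cb o A ∧ ∃ e₀ : ℝ, 0 < e₀ ∧ ∀ e : ℝ, 0 < e → e ≤ e₀ →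
    M.Eqv x (M.fill cb kb o A e)

end

end Pool.Agent.Lib.P28s
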