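import Pool.Agent.Lib.P28s.Move
import Pool.Agent.Lib.P28s.AnnS
import Pool.Agent.Lib.P28s.PullS
import Pool.Agent.Lib.P28f.HeavyMin

set_option autoImplicit false

/-!
# Reduction to light maps by rescaling

PROOF. Adapt the proved file `P28f/HeavyStep.lean`: replace `rep f a R` by `co lam a (2 * R)`, `Iso` by `LabEq`, `rep_move` by `lab_move`, `ann_ctrl` by `ann_ctrlS`, `loc_sub` by `loc_subS`, `cls f` by
`st lam = co lam 0 (1/2)`, `fun v => f (z₀ + s • v)` by `co lam z₀ s` (`st (co lam z₀ s) = co lam z₀ (s/2)`, `co_co`). `heavy_min` is used as it is.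
-/

open MeasureTheory Set Metric
open scoped ContDiff Topology

namespace Pool.Agent.Lib.P28s

open Pool.Agent.Lib.P28f (V EV Light pull ann heavy_min pull_closedBall)

variable {m : ℕ}

private theorem move_aux {δ₁ : ℝ}
    (hrm : ∀ (lam : V m → V m) (a a' : V m) (R R' : ℝ), 0 < R → 0 < R' →
      (∀ t ∈ Icc (0 : ℝ) 1,
        NdOn (closedBall ((1 - t) • a + t • a') (2 * ((1 - t) * R + t * R'))) lam ∧
        SFlat δ₁ (ann ((1 - t) • a + t • a') ((1 - t) * R + t * R')) (dd lam)) →
      LabEq (co lam a (2 * R)) (co lam a' (2 * R')))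
    (hm : 2 ≤ m) {δ c : ℝ} (h0 : 0 ≤ δ) (h1 : δ ≤ 1 / 2000) (h2 : 2000 * δ ≤ δ₁)
    {lam : V m → V m} {μ : Measure (V m)} [IsFiniteMeasure μ] (h : Ctrl δ c (ball 0 1) lam μ)
    (a a' : V m) {R R' : ℝ} (hR : 0 < R) (hR' : 0 < R')
    (hin : ∀ t ∈ Icc (0 : ℝ) 1, closedBall ((1 - t) • a + t • a')
      (9 / 4 * ((1 - t) * R + t * R')) ⊆ ball 0 1)
    (hma : ∀ t ∈ Icc (0 : ℝ) 1, μ.real (closedBall ((1 - t) • a + t • a')
      (9 / 4 * ((1 - t) * R + t * R')) \ ball ((1 - t) • a + t • a')
      (3 / 4 * ((1 - t) * R + t * R'))) ≤ c) :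
    LabEq (co lam a (2 * R)) (co lam a' (2 * R')) := by
  refine hrm lam a a' R R' hR hR' fun t ht => ?_
  have hpos : 0 < (1 - t) * R + t * R' := by
    obtain ⟨h0, h1⟩ := ht
    rcases eq_or_lt_of_le h0 with h | h
    · rw [← h]; simpa using hR
    · have : 0 ≤ (1 - t) * R := mul_nonneg (by linarith) hR.le
      have := mul_pos h hR'
      linarith
  have hi := hin t ht
  have hc := hma t ht
  generalize (1 - t) * R + t * R' = ρ at *
  generalize (1 - t) • a + t • a' = b at *
  constructor
  · intro x hx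
    refine h.nd x (hi ?_)
    exact closedBall_subset_closedBall (by linarith) hx
  · exact SFlat.mono (ann_ctrlS hm h0 h1 h hpos hi hc) h2 le_rfl

theorem heavy_stepS (m : ℕ) (hm : 3 ≤ m) : ∃ δ₀ : ℝ, 0 < δ₀ ∧ ∀ (δ c E : ℝ) (lam : V m → V m)
    (μ : Measure (V m)), 0 ≤ δ → δ ≤ δ₀ → 0 < c → c ≤ E → Loc δ c E lam μ →
    ∃ (g : V m → V m) (ν : Measure (V m)), Loc δ c E g ν ∧ Light c E ν ∧
      LabEq (st lam) (st g) := by
  obtain ⟨δ₁, hδ₁, hrm⟩ := lab_move m hm
  refine ⟨min (1 / 2000) (δ₁ / 2000), by positivity, ?_⟩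
  intro δ c E lam μ h0 hδ hc hcE hL
  have h1 : δ ≤ 1 / 2000 := hδ.trans (min_le_left _ _)
  have h2 : 2000 * δ ≤ δ₁ := by
    have := hδ.trans (min_le_right _ _)
    linarith
  have := hL.fin
  have hm2 : 2 ≤ m := by omega
  have e0 : (2 * (1 / 4) : ℝ) = 1 / 2 := by norm_num
  have hsub : ∀ {x : V m} {a : V m} {ρ : ℝ}, x ∈ closedBall a ρ → ‖x‖ ≤ ρ + ‖a‖ := by
    intro x a ρ hx
    rw [mem_closedBall, dist_eq_norm] at hx
    have := norm_add_le (x - a) a
    rw [sub_add_cancel] at this
    linarith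
  have hmv : ∀ (a a' : V m), ‖a‖ ≤ 5 / 64 → ‖a'‖ ≤ 5 / 64 →
      LabEq (co lam a (2 * (1 / 4))) (co lam a' (2 * (1 / 4))) := by
    intro a a' ha ha'
    have hat : ∀ t ∈ Icc (0 : ℝ) 1, ‖(1 - t) • a + t • a'‖ ≤ 5 / 64 := by
      intro t ht
      obtain ⟨ht0, ht1⟩ := ht
      calc ‖(1 - t) • a + t • a'‖ ≤ ‖(1 - t) • a‖ + ‖t • a'‖ := norm_add_le _ _
        _ = (1 - t) * ‖a‖ + t * ‖a'‖ := by
            rw [norm_smul, norm_smul, Real.norm_eq_abs, Real.norm_eq_abs,
              abs_of_nonneg (by linarith : 0 ≤ 1 - t), abs_of_nonneg ht0]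
        _ ≤ (1 - t) * (5 / 64) + t * (5 / 64) := by gcongr
        _ = 5 / 64 := by ring
    refine move_aux hrm hm2 h0 h1 h2 hL.ctrl a a' (by norm_num) (by norm_num) ?_ ?_
    · intro t ht x hx
      have e : (1 - t) * (1 / 4 : ℝ) + t * (1 / 4) = 1 / 4 := by ring
      rw [e] at hx
      have := hsub hx
      have := hat t ht
      rw [mem_ball, dist_zero_right]
      linarith
    · intro t ht
      have e : (1 - t) * (1 / 4 : ℝ) + t * (1 / 4) = 1 / 4 := by ring
      rw [e]
      have hb := hat t ht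
      generalize (1 - t) • a + t • a' = b at hb
      have hss : closedBall b (9 / 4 * (1 / 4)) \ ball b (3 / 4 * (1 / 4)) ⊆
          ball 0 1 \ closedBall 0 (1 / 16) := by
        rintro x ⟨hx1, hx2⟩
        constructor
        · have := hsub hx1
          rw [mem_ball, dist_zero_right]
          linarith
        · intro hx3
          apply hx2
          rw [mem_closedBall, dist_zero_right] at hx3
          rw [mem_ball, dist_eq_norm]
          have := norm_sub_le x b
          linarith
      calc μ.real _ ≤ μ.real (ball 0 1 \ closedBall 0 (1 / 16)) := measureReal_mono hss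
        _ ≤ c / 4 := hL.collar
        _ ≤ c := by linarith
  by_cases hlight : Light c E μ
  · refine ⟨lam, μ, hL, hlight, ?_⟩
    have h5 := hmv 0 0 (by simp; norm_num) (by simp; norm_num)
    rwa [e0] at h5
  · unfold Light at hlight
    push Not at hlight
    obtain ⟨z₁, r₁, hr₁, hr₁', hb₁, hh₁⟩ := hlight
    obtain ⟨z₀, r₀, hr₀, hr₀', hz₀, hheavy, hmin⟩ :=
      heavy_min hc hcE hL.atom hL.collar hr₁ hr₁' hb₁ hh₁
    have hs : 0 < 32 * r₀ := by linarith
    -- the complement of the heavy ball is light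
    have hb0 : closedBall z₀ r₀ ⊆ ball 0 1 := by
      intro x hx
      have := hsub hx
      rw [mem_ball, dist_zero_right]
      linarith
    have hcomp : μ.real (ball 0 1 \ closedBall z₀ r₀) ≤ c / 8 := by
      rw [measureReal_sdiff hb0 measurableSet_closedBall]
      have := hL.mass
      linarith
    have hball : ball z₀ (32 * r₀) ⊆ ball (0 : V m) 1 := by
      intro x hx
      have := hsub (ball_subset_closedBall hx)
      rw [mem_ball, dist_zero_right]
      linarith
    have hloc : Loc δ c E (co lam z₀ (32 * r₀)) (pull z₀ (32 * r₀) μ) := by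
      refine loc_subS hL.fin hL.atom hL.ctrl hs hball ((measureReal_mono hball).trans hL.mass) ?_
      refine (measureReal_mono ?_).trans (hcomp.trans (by linarith))
      rintro x ⟨hx1, hx2⟩
      refine ⟨hball hx1, fun hx3 => hx2 ?_⟩
      exact closedBall_subset_closedBall (by linarith) hx3
    refine ⟨_, _, hloc, ?_, ?_⟩
    · intro z r hr hr' hzr
      rw [pull_closedBall hs]
      refine hmin _ _ (by positivity) ?_ ?_
      · calc 32 * r₀ * r ≤ 32 * r₀ * (1 / 64) := by gcongr
          _ = r₀ / 2 := by ring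
      · intro y hy
        have hv : (32 * r₀)⁻¹ • (y - z₀) ∈ closedBall z r := by
          rw [mem_closedBall, dist_eq_norm] at hy ⊢
          have e : (32 * r₀)⁻¹ • (y - z₀) - z = (32 * r₀)⁻¹ • (y - (z₀ + (32 * r₀) • z)) := by
            have h3 : z = (32 * r₀)⁻¹ • ((32 * r₀) • z) := by
              rw [smul_smul, inv_mul_cancel₀ hs.ne', one_smul]
            nth_rewrite 1 [h3]
            rw [← smul_sub]
            congr 1
            abel
          rw [e, norm_smul, norm_inv, Real.norm_eq_abs, abs_of_pos hs]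
          rw [inv_mul_le_iff₀ hs]
          exact hy
        have hv1 := hzr hv
        rw [mem_ball, dist_zero_right, norm_smul, norm_inv, Real.norm_eq_abs, abs_of_pos hs,
          inv_mul_lt_iff₀ hs, mul_one] at hv1
        have := norm_add_le (y - z₀) z₀
        rw [sub_add_cancel] at this
        rw [mem_ball, dist_zero_right]
        linarith
    · have e : st (co lam z₀ (32 * r₀)) = co lam z₀ (2 * (8 * r₀)) := by
        unfold st
        rw [co_co, smul_zero, add_zero]
        congr 1
        ring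
      rw [e]
      have h6 := hmv 0 z₀ (by simp; norm_num) hz₀
      rw [e0] at h6
      refine LabEq.trans h6 ?_
      rw [← e0]
      refine move_aux hrm hm2 h0 h1 h2 hL.ctrl z₀ z₀ (by norm_num) (by positivity) ?_ ?_
      · intro t ht x hx
        obtain ⟨ht0, ht1⟩ := ht
        have e1 : (1 - t) • z₀ + t • z₀ = z₀ := by rw [← add_smul]; simp
        rw [e1] at hx
        have := hsub hx
        have h4 : (1 - t) * (1 / 4 : ℝ) + t * (8 * r₀) ≤ 1 / 4 := by
          nlinarith
        rw [mem_ball, dist_zero_right]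
        linarith
      · intro t ht
        obtain ⟨ht0, ht1⟩ := ht
        have e1 : (1 - t) • z₀ + t • z₀ = z₀ := by rw [← add_smul]; simp
        rw [e1]
        have h4 : (1 - t) * (1 / 4 : ℝ) + t * (8 * r₀) ≤ 1 / 4 := by
          nlinarith
        have h5 : 8 * r₀ ≤ (1 - t) * (1 / 4 : ℝ) + t * (8 * r₀) := by
          nlinarith
        generalize (1 - t) * (1 / 4 : ℝ) + t * (8 * r₀) = ρ at h4 h5
        refine (measureReal_mono ?_).trans (hcomp.trans (by linarith))
        rintro x ⟨hx1, hx2⟩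
        constructor
        · have := hsub hx1
          rw [mem_ball, dist_zero_right]
          linarith
        · intro hx3
          apply hx2
          rw [mem_closedBall] at hx3
          rw [mem_ball]
          linarith

end Pool.Agent.Lib.P28s
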