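import Pool.Agent.Lib.P28s.CaseA
import Pool.Agent.Lib.P28s.HeavyS
import Pool.Agent.Lib.P28s.BaseS
import Pool.Agent.Lib.P28s.ConstFin

set_option autoImplicit false

/-!
# Finitely many local classes below every mass

PROOF. As in `P28f/Induct.lean`. Step `0` (mass `≤ c`): `base_S` for all `j`, `const_fin` for the sequence `dd (lam j) 0` (skew by `sk_dd`, units by `Loc.ctrl.nd`), `cut_lc` turns `PathV` into `LabEq`;
`LabEq.trans`, `LabEq.symm`.
-/

open MeasureTheory Set Metric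
open scoped ContDiff Topology

namespace Pool.Agent.Lib.P28s

open Pool.Agent.Lib.P28f (V EV Light)

theorem fin_allS (m : ℕ) (hm : 3 ≤ m) : ∃ δ₀ : ℝ, 0 < δ₀ ∧ ∀ δ c : ℝ, 0 ≤ δ → δ ≤ δ₀ →
    0 < c → ∀ E : ℝ, FinCls m δ c E := by
  obtain ⟨δ₁, hδ₁, hA⟩ := case_AS m hm
  obtain ⟨δ₂, hδ₂, hH⟩ := heavy_stepS m hm
  obtain ⟨δ₃, hδ₃, hB⟩ := base_S m hm
  refine ⟨min (min δ₁ δ₂) δ₃, by positivity, ?_⟩
  intro δ c h0 hδ hc
  have h1 : δ ≤ δ₁ := hδ.trans ((min_le_left _ _).trans (min_le_left _ _))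
  have h2 : δ ≤ δ₂ := hδ.trans ((min_le_left _ _).trans (min_le_right _ _))
  have h3 : δ ≤ δ₃ := hδ.trans (min_le_right _ _)
  have key : ∀ k : ℕ, FinCls m δ c (c + k * (c / 8)) := by
    intro k
    induction k with
    | zero =>
      intro lam μ hf
      have hb : ∀ j, LabEq (st (lam j)) (lc (dd (lam j) 0)) := fun j =>
        hB δ c _ (lam j) (μ j) h0 h3 (by simp) (hf j)
      have hs : ∀ j, Sk (dd (lam j) 0) := fun j => sk_dd _ _
      have hu : ∀ j, IsUnit (dd (lam j) 0) := fun j =>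
        ((hf j).ctrl.nd 0 (mem_ball_self one_pos)).2
      obtain ⟨i, j, hij, hp⟩ := const_fin (fun j => dd (lam j) 0) hs hu
      refine ⟨i, j, hij, ((hb i).trans ?_).trans (hb j).symm⟩
      exact ⟨_, _, cut_lc (hs i) (hu i), cut_lc (hs j) (hu j), hp⟩
    | succ k ih =>
      intro lam μ hf
      have hE : c ≤ c + ((k + 1 : ℕ) : ℝ) * (c / 8) := by
        have : 0 ≤ ((k + 1 : ℕ) : ℝ) * (c / 8) := by positivity
        linarith
      choose g ν hg hlight hiso using fun j => hH δ c _ (lam j) (μ j) h0 h2 hc hE (hf j)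
      have e : c + ((k + 1 : ℕ) : ℝ) * (c / 8) - c / 8 = c + (k : ℝ) * (c / 8) := by
        push_cast
        ring
      obtain ⟨i, j, hij, h⟩ := hA δ c _ h0 h1 hc hE (by rw [e]; exact ih) g ν
        fun j => ⟨hg j, hlight j⟩
      exact ⟨i, j, hij, ((hiso i).trans h).trans (hiso j).symm⟩
  intro E lam μ hf
  obtain ⟨k, hk⟩ := exists_nat_ge ((E - c) / (c / 8))
  have hE : E ≤ c + (k : ℝ) * (c / 8) := by
    rw [div_le_iff₀ (by positivity)] at hk
    linarith
  exact key k lam μ fun j =>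
    ⟨(hf j).fin, (hf j).atom, (hf j).ctrl, (hf j).mass.trans hE, (hf j).collar⟩

end Pool.Agent.Lib.P28s
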