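import Pool.Agent.Lib.P28s.CutL
import Pool.Agent.Lib.P28s.CutUniq

set_option autoImplicit false

/-!
# Moving a ring does not change the class

PROOF. Let `δ₀, C` be as in `cut_exists`, `δ₁ = min δ₀ (1/200)`. ONE STEP: rings `(a, R)`, `(a', R')` with `‖a' - a‖ ≤ R/100`, `|R' - R| ≤ R/100`, both with `NdOn (closedBall _ (2 _)) lam` and
`SFlat δ₁ (ann _ _) (dd lam)`. Put `lam₁ = co lam a (2R)`, `lam₂ = co lam a' (2R')`; `dd lam₁ v = dd lam (a + 2R v)` (`dd_co`), so `lam₁`, `lam₂` satisfy the hypotheses of `cut_exists`: forms `k₁`, `k₂` with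
constants `c₁ = dd lam (a + 2R w0)`, `c₂ = dd lam (a' + 2R' w0)`. Both are cuts (`CutOf`). Let `s = R/R'`, `b = (2R')⁻¹ (a - a')`, `k₂' v = s⁻¹ k₂ (s v + b) - s⁻¹ lc c₂ b`;
`PathV k₂ k₂'` by `obj_shift`. Since `a + 2R v = a' + 2R' (s v + b)`, `dd k₂' v = dd k₂ (s v + b)`. `k₂'` IS A CUT of `lam₁` with constant `c₂`: for `‖v‖ ≤ 1/2`, `‖s v + b‖ < 9/16`
and `k₂ = lam₂` on the open ball of radius `9/16`, so `dd k₂' v = dd lam₂ (s v + b) = dd lam₁ v`; for `‖v‖ ≥ 1`, `‖s v + b‖ ≥ 11/16`, `k₂' v = lc c₂ v`; for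
`1/2 ≤ ‖v‖ ≤ 1`: `dd k₂ (s v + b)` is near `c₂` (if `‖s v + b‖ < 1/2` it is `dd lam₁ v`), and `c₂` is a value of `dd lam` on `ann a R` (`‖a' + 2R' w0 - a‖` is near
`3R/2`), so `dd lam₁ v` is near `c₂` by flatness. Hence `PathV k₁ k₂'` (`cut_uniq`) and `PathV k₁ k₂`, so `LabEq lam₁ lam₂`.
CHAIN: with `N` large, `t_i = i/N`, consecutive rings `((1-t)a + t a', (1-t) R + t R')` satisfy the smallness conditions (all radii are `≥ min R R'`); `LabEq.trans`. (`LabEq` at `i = 0`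
from `CutOf.self`.)
-/

open MeasureTheory Set Metric
open scoped ContDiff Topology

namespace Pool.Agent.Lib.P28s

open Pool.Agent.Lib.P28f (V EV ann w0)

namespace MoveAux

variable {m : ℕ}

theorem norm_w0' (hm : 1 ≤ m) : ‖w0 m‖ = 3 / 4 := by
  apply le_antisymm
  · rw [pi_norm_le_iff_of_nonneg (by norm_num)]
    intro i
    unfold Pool.Agent.Lib.P28f.w0
    split_ifs
    · rw [Real.norm_eq_abs, abs_of_nonneg (by norm_num)]
    · rw [norm_zero]; norm_num
  · have h := norm_le_pi_norm (w0 m) ⟨0, hm⟩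
    simpa [Pool.Agent.Lib.P28f.w0] using h

theorem mem_ann0 {v : V m} (h : v ∈ ann (0 : V m) (1 / 2)) : 1 / 2 ≤ ‖v‖ ∧ ‖v‖ ≤ 1 := by
  obtain ⟨h1, h2⟩ := h
  rw [sub_zero] at h1 h2
  exact ⟨h1, by linarith⟩

theorem pt_norm {R : ℝ} (hR : 0 < R) (a v : V m) : ‖a + (2 * R) • v - a‖ = 2 * R * ‖v‖ := by
  rw [add_sub_cancel_left, norm_smul, Real.norm_eq_abs, abs_of_pos (by linarith)]

theorem dd_co' {lam : V m → V m} {a : V m} {R : ℝ} (hR : 0 < R)
    (hn : NdOn (closedBall a (2 * R)) lam) {v : V m} (hv : ‖v‖ ≤ 1) :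
    dd (co lam a (2 * R)) v = dd lam (a + (2 * R) • v) := by
  have h1 : a + (2 * R) • v ∈ closedBall a (2 * R) := by
    rw [mem_closedBall, dist_eq_norm, pt_norm hR]
    have := mul_le_mul_of_nonneg_left hv (by linarith : (0 : ℝ) ≤ 2 * R)
    linarith
  exact dd_co (by linarith) ((hn _ h1).1.differentiableAt (by simp))

theorem nd_co {lam : V m → V m} {a : V m} {R : ℝ} (hR : 0 < R)
    (hn : NdOn (closedBall a (2 * R)) lam) : NdOn (closedBall 0 1) (co lam a (2 * R)) := by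
  intro v hv
  rw [mem_closedBall, dist_zero_right] at hv
  have h1 : a + (2 * R) • v ∈ closedBall a (2 * R) := by
    rw [mem_closedBall, dist_eq_norm, pt_norm hR]
    have := mul_le_mul_of_nonneg_left hv (by linarith : (0 : ℝ) ≤ 2 * R)
    linarith
  refine ⟨contDiffAt_co (hn _ h1).1, ?_⟩
  rw [dd_co' hR hn hv]
  exact (hn _ h1).2

theorem flat_co {lam : V m → V m} {a : V m} {R δ : ℝ} (hR : 0 < R)
    (hn : NdOn (closedBall a (2 * R)) lam) (hf : SFlat δ (ann a R) (dd lam)) :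
    SFlat δ (ann 0 (1 / 2)) (dd (co lam a (2 * R))) := by
  intro x hx y hy
  obtain ⟨x1, x2⟩ := mem_ann0 hx
  obtain ⟨y1, y2⟩ := mem_ann0 hy
  rw [dd_co' hR hn x2, dd_co' hR hn y2]
  have hmem : ∀ v : V m, 1 / 2 ≤ ‖v‖ → ‖v‖ ≤ 1 → a + (2 * R) • v ∈ ann a R := by
    intro v h1 h2
    constructor
    · rw [pt_norm hR]
      have := mul_le_mul_of_nonneg_left h1 (by linarith : (0 : ℝ) ≤ 2 * R)
      linarith
    · rw [pt_norm hR]
      have := mul_le_mul_of_nonneg_left h2 (by linarith : (0 : ℝ) ≤ 2 * R)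
      linarith
  exact hf _ (hmem x x1 x2) _ (hmem y y1 y2)

/-- one step -/
theorem one_step {δ₀ C δ : ℝ} (hm : 3 ≤ m) (hδ : 0 ≤ δ) (hδ₀ : δ ≤ δ₀) (hδ1 : δ ≤ 1 / 100)
    (hC : 0 < C) (hCδ : C * δ₀ ≤ 1 / 100)
    (hcut : ∀ (δ : ℝ) (lam : V m → V m), 0 ≤ δ → δ ≤ δ₀ → NdOn (closedBall 0 1) lam →
      SFlat δ (ann 0 (1 / 2)) (dd lam) →
      ∃ b k : V m → V m, Md b ∧ Obj (dd lam (w0 m)) (11 / 16) k ∧
        (∀ v, ‖v‖ ≤ 9 / 16 → b v = 0) ∧ (∀ v, ‖v‖ ≤ 9 / 16 → k v = lam v) ∧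
        (∀ v, ‖v‖ < 13 / 16 → lam v + b v = k v) ∧
        (∀ v, 1 / 2 ≤ ‖v‖ →
          ‖dd k v - dd lam (w0 m)‖ * ‖Ring.inverse (dd lam (w0 m))‖ ≤ C * δ) ∧
        ∀ v, 1 / 2 ≤ ‖v‖ → ‖v‖ ≤ 1 →
          ‖dd (fun y => lam y + b y) v - dd lam (w0 m)‖ *
            ‖Ring.inverse (dd lam (w0 m))‖ ≤ C * δ)
    {lam : V m → V m} {a a' : V m} {R R' : ℝ} (hR : 0 < R) (hR' : 0 < R')
    (ha : ‖a' - a‖ ≤ R / 100) (hRR : |R' - R| ≤ R / 100)
    (hn : NdOn (closedBall a (2 * R)) lam) (hf : SFlat δ (ann a R) (dd lam))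
    (hn' : NdOn (closedBall a' (2 * R')) lam) (hf' : SFlat δ (ann a' R') (dd lam)) :
    LabEq (co lam a (2 * R)) (co lam a' (2 * R')) := by
  have hm1 : 1 ≤ m := by omega
  have hw := norm_w0' hm1
  obtain ⟨_, k, -, hO, -, hin, -, hk, -⟩ := hcut δ _ hδ hδ₀ (nd_co hR' hn') (flat_co hR' hn' hf')
  have hCδ' : C * δ ≤ 1 / 100 := (mul_le_mul_of_nonneg_left hδ₀ hC.le).trans hCδ
  set lam₁ := co lam a (2 * R) with hl1
  set lam₂ := co lam a' (2 * R') with hl2
  set c := dd lam₂ (w0 m) with hc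
  have hk1 : ∀ v, 1 / 2 ≤ ‖v‖ → ‖dd k v - c‖ * ‖Ring.inverse c‖ ≤ 1 / 100 := fun v hv =>
    (hk v hv).trans hCδ'
  -- `k` and `lam₂` near the inner ball
  have hddk : ∀ u : V m, ‖u‖ < 9 / 16 → dd k u = dd lam₂ u := by
    intro u hu
    apply dd_congr
    have hopen : IsOpen {z : V m | ‖z‖ < 9 / 16} := isOpen_lt continuous_norm continuous_const
    filter_upwards [hopen.mem_nhds hu] with z hz
    have hz' : ‖z‖ < 9 / 16 := hz
    exact hin z hz'.le
  have hcutk : CutOf lam₂ k := by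
    refine ⟨c, hO.mono (by norm_num), fun v hv => hddk v (by linarith), fun v h1 h2 =>
      ⟨hk1 v h1, ?_⟩⟩
    have h3 := flat_co hR' hn' hf' (w0 m) ⟨by rw [sub_zero, hw]; norm_num,
      by rw [sub_zero, hw]; norm_num⟩ v ⟨by rw [sub_zero]; exact h1, by rw [sub_zero]; linarith⟩
    exact h3.trans hδ1
  -- the change of coordinates
  obtain ⟨hRR1, hRR2⟩ := abs_le.1 hRR
  set s : ℝ := R / R' with hs
  have hs0 : 0 < s := div_pos hR hR'
  have hs1 : 99 / 100 ≤ s := by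
    rw [hs, le_div_iff₀ hR']
    linarith
  have hs2 : s ≤ 102 / 100 := by
    rw [hs, div_le_iff₀ hR']
    linarith
  have hsR : R' * s = R := by
    rw [hs]; field_simp
  set b : V m := (2 * R')⁻¹ • (a - a') with hb
  have hb1 : ‖b‖ ≤ 1 / 100 := by
    rw [hb, norm_smul, norm_inv, Real.norm_eq_abs, abs_of_pos (by linarith), ← div_eq_inv_mul,
      div_le_iff₀ (by linarith), norm_sub_rev]
    linarith
  have hpt : ∀ v : V m, a' + (2 * R') • (s • v + b) = a + (2 * R) • v := by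
    intro v
    rw [smul_add, smul_smul, hb, smul_inv_smul₀ (by linarith : 2 * R' ≠ 0)]
    have : 2 * R' * s = 2 * R := by rw [mul_assoc, hsR]
    rw [this]
    abel
  have hub : ∀ v : V m, ‖s • v + b‖ ≤ 102 / 100 * ‖v‖ + 1 / 100 := by
    intro v
    refine (norm_add_le _ _).trans ?_
    rw [norm_smul, Real.norm_eq_abs, abs_of_pos hs0]
    have := mul_le_mul_of_nonneg_right hs2 (norm_nonneg v)
    linarith
  have hlb : ∀ v : V m, 99 / 100 * ‖v‖ - 1 / 100 ≤ ‖s • v + b‖ := by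
    intro v
    have h1 : ‖s • v‖ ≤ ‖s • v + b‖ + ‖b‖ := by
      have := norm_sub_le (s • v + b) b
      rwa [add_sub_cancel_right] at this
    rw [norm_smul, Real.norm_eq_abs, abs_of_pos hs0] at h1
    have := mul_le_mul_of_nonneg_right hs1 (norm_nonneg v)
    linarith
  set k' : V m → V m := fun x => s⁻¹ • k (s • x + b) - s⁻¹ • lc c b with hk'
  have hpath : PathV k k' := obj_shift hO hs0 b
  have hsmooth : ContDiff ℝ ∞ (fun x : V m => k (s • x + b)) :=
    hO.smooth.comp ((contDiff_id.const_smul s).add contDiff_const)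
  have hddk' : ∀ v, dd k' v = dd k (s • v + b) := by
    intro v
    have h1 : DifferentiableAt ℝ (fun x : V m => k (s • x + b)) v :=
      hsmooth.contDiffAt.differentiableAt (by simp)
    have h2 : dd k' v = dd (fun x => s⁻¹ • k (s • x + b)) v - dd (fun _ : V m => s⁻¹ • lc c b) v :=
      dd_sub (h1.const_smul s⁻¹) (differentiableAt_const _)
    have h3 : dd (fun _ : V m => s⁻¹ • lc c b) v = 0 := by
      unfold dd
      rw [fderiv_fun_const]
      have ht : tr (0 : EV m) = 0 := by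
        have := tr_sub (0 : EV m) 0
        simpa using this
      rw [Pi.zero_apply, ht, sub_zero]
    have h4 : dd (fun x => s⁻¹ • k (s • x + b)) v = dd (co k b s) v := by
      have : (fun x => s⁻¹ • k (s • x + b)) = co k b s := by
        funext x
        simp only [co]
        rw [add_comm]
      rw [this]
    rw [h2, h3, sub_zero, h4, dd_co hs0.ne' (hO.smooth.contDiffAt.differentiableAt (by simp)),
      add_comm]
  have hO' : Obj c 1 k' := by
    refine ⟨hO.sk, hO.cunit, (hsmooth.const_smul s⁻¹).sub contDiff_const, fun v => ?_, fun v hv => ?_⟩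
    · rw [hddk']; exact hO.unit _
    · have h1 : 11 / 16 ≤ ‖s • v + b‖ := by have := hlb v; linarith
      simp only [hk']
      rw [hO.out _ h1]
      simp only [lc, map_add, map_smul, smul_add]
      rw [smul_comm s⁻¹ (1 / 2 : ℝ) (s • c v), inv_smul_smul₀ hs0.ne', add_sub_cancel_right]
  -- values of `dd lam₁`
  have hl12 : ∀ v : V m, ‖v‖ ≤ 1 → ‖s • v + b‖ ≤ 1 → dd lam₂ (s • v + b) = dd lam₁ v := by
    intro v hv hv'
    rw [hl1, hl2, dd_co' hR hn hv, dd_co' hR' hn' hv', hpt]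
  have hy : a' + (2 * R') • w0 m ∈ ann a R := by
    have e1 : a' + (2 * R') • w0 m - a = (2 * R') • w0 m + (a' - a) := by abel
    have e2 : ‖(2 * R') • w0 m‖ = 3 / 2 * R' := by
      rw [norm_smul, Real.norm_eq_abs, abs_of_pos (by linarith), hw]; ring
    constructor
    · rw [e1]
      have h1 : ‖(2 * R') • w0 m‖ ≤ ‖(2 * R') • w0 m + (a' - a)‖ + ‖a' - a‖ := by
        have := norm_sub_le ((2 * R') • w0 m + (a' - a)) (a' - a)
        rwa [add_sub_cancel_right] at this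
      linarith
    · rw [e1]
      have h1 := norm_add_le ((2 * R') • w0 m) (a' - a)
      linarith
  have hcval : c = dd lam (a' + (2 * R') • w0 m) := by
    rw [hc, hl2, dd_co' hR' hn' (by rw [hw]; norm_num)]
  have hmid : ∀ v : V m, 1 / 2 ≤ ‖v‖ → ‖v‖ ≤ 1 → ‖dd lam₁ v - c‖ * ‖Ring.inverse c‖ ≤ 1 / 100 := by
    intro v h1 h2
    have h3 : a + (2 * R) • v ∈ ann a R := by
      constructor
      · rw [pt_norm hR]
        have := mul_le_mul_of_nonneg_left h1 (by linarith : (0 : ℝ) ≤ 2 * R)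
        linarith
      · rw [pt_norm hR]
        have := mul_le_mul_of_nonneg_left h2 (by linarith : (0 : ℝ) ≤ 2 * R)
        linarith
    have h4 := hf _ hy _ h3
    rw [hl1, dd_co' hR hn h2, hcval]
    exact h4.trans hδ1
  have hcutk' : CutOf lam₁ k' := by
    refine ⟨c, hO', fun v hv => ?_, fun v h1 h2 => ⟨?_, hmid v h1 h2⟩⟩
    · have h1 := hub v
      rw [hddk', hddk _ (by linarith), hl12 v (by linarith) (by linarith)]
    · rw [hddk']
      by_cases h3 : 1 / 2 ≤ ‖s • v + b‖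
      · exact hk1 _ h3
      · push Not at h3
        rw [hddk _ (by linarith), hl12 v h2 (by linarith)]
        exact hmid v h1 h2
  exact ⟨k', k, hcutk', hcutk, hpath.symm⟩

end MoveAux

open MoveAux

theorem lab_move (m : ℕ) (hm : 3 ≤ m) : ∃ δ₁ : ℝ, 0 < δ₁ ∧
    ∀ (lam : V m → V m) (a a' : V m) (R R' : ℝ), 0 < R → 0 < R' →
      (∀ t ∈ Icc (0 : ℝ) 1,
        NdOn (closedBall ((1 - t) • a + t • a') (2 * ((1 - t) * R + t * R'))) lam ∧
        SFlat δ₁ (ann ((1 - t) • a + t • a') ((1 - t) * R + t * R')) (dd lam)) →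
      LabEq (co lam a (2 * R)) (co lam a' (2 * R')) := by
  obtain ⟨δ₀, C, hδ₀, hC, hCδ, hcut⟩ := cut_exists m hm
  refine ⟨min δ₀ (1 / 100), lt_min hδ₀ (by norm_num), ?_⟩
  intro lam a a' R R' hR hR' H
  set δ : ℝ := min δ₀ (1 / 100) with hδ
  have hδ0 : 0 ≤ δ := (lt_min hδ₀ (by norm_num)).le
  set A : ℝ → V m := fun t => (1 - t) • a + t • a' with hA
  set Q : ℝ → ℝ := fun t => (1 - t) * R + t * R' with hQ
  set ρ : ℝ := min R R' with hρ
  have hρ0 : 0 < ρ := lt_min hR hR'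
  have hQρ : ∀ t ∈ Icc (0 : ℝ) 1, ρ ≤ Q t := by
    intro t ht
    have h1 : (1 - t) * ρ ≤ (1 - t) * R := mul_le_mul_of_nonneg_left (min_le_left _ _) (by linarith [ht.2])
    have h2 : t * ρ ≤ t * R' := mul_le_mul_of_nonneg_left (min_le_right _ _) ht.1
    simp only [hQ]
    linarith
  obtain ⟨N, hN⟩ := exists_nat_gt (100 * (‖a' - a‖ + |R' - R|) / ρ + 1)
  have hfr : 0 ≤ 100 * (‖a' - a‖ + |R' - R|) / ρ := by positivity
  have hN0 : (0 : ℝ) < N := by linarith
  have hNb : 100 * (‖a' - a‖ + |R' - R|) ≤ N * ρ := by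
    have h1 : 100 * (‖a' - a‖ + |R' - R|) / ρ ≤ N := by linarith
    rwa [div_le_iff₀ hρ0] at h1
  have step : ∀ t t' : ℝ, t ∈ Icc (0 : ℝ) 1 → t' ∈ Icc (0 : ℝ) 1 → |t' - t| ≤ 1 / N →
      LabEq (co lam (A t) (2 * Q t)) (co lam (A t') (2 * Q t')) := by
    intro t t' ht ht' htt
    have hQt := hQρ t ht
    have hQt' := hQρ t' ht'
    refine one_step hm hδ0 (min_le_left _ _) (min_le_right _ _) hC hCδ hcut (by linarith)
      (by linarith) ?_ ?_ (H t ht).1 (H t ht).2 (H t' ht').1 (H t' ht').2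
    · have e1 : A t' - A t = (t' - t) • (a' - a) := by
        simp only [hA]
        module
      rw [e1, norm_smul, Real.norm_eq_abs]
      have h1 : |t' - t| * ‖a' - a‖ ≤ 1 / N * ‖a' - a‖ :=
        mul_le_mul_of_nonneg_right htt (norm_nonneg _)
      have h2 : 1 / N * ‖a' - a‖ ≤ ρ / 100 := by
        rw [one_div, ← div_eq_inv_mul, div_le_iff₀ hN0]
        have := abs_nonneg (R' - R)
        linarith
      linarith
    · have e1 : Q t' - Q t = (t' - t) * (R' - R) := by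
        simp only [hQ]
        ring
      rw [e1, abs_mul]
      have h1 : |t' - t| * |R' - R| ≤ 1 / N * |R' - R| :=
        mul_le_mul_of_nonneg_right htt (abs_nonneg _)
      have h2 : 1 / N * |R' - R| ≤ ρ / 100 := by
        rw [one_div, ← div_eq_inv_mul, div_le_iff₀ hN0]
        have := norm_nonneg (a' - a)
        linarith
      linarith
  have key : ∀ i : ℕ, i ≤ N → LabEq (co lam (A 0) (2 * Q 0)) (co lam (A ((i : ℝ) / N)) (2 * Q ((i : ℝ) / N))) := by
    intro i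
    induction i with
    | zero =>
      intro _
      rw [Nat.cast_zero, zero_div]
      exact step 0 0 ⟨le_rfl, zero_le_one⟩ ⟨le_rfl, zero_le_one⟩ (by rw [sub_self, abs_zero]; positivity)
    | succ i ih =>
      intro hi
      have hi' : (i : ℝ) + 1 ≤ N := by exact_mod_cast hi
      have hi0 : (0 : ℝ) ≤ i := Nat.cast_nonneg i
      refine (ih (by omega)).trans (step _ _ ⟨by positivity, ?_⟩ ⟨by positivity, ?_⟩ ?_)
      · rw [div_le_one hN0]; linarith
      · rw [div_le_one hN0]; push_cast; linarith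
      · push_cast
        rw [← sub_div, add_sub_cancel_left, abs_of_pos (by positivity)]
  have h1 := key N le_rfl
  rw [div_self hN0.ne'] at h1
  simp only [hA, hQ, sub_zero, one_smul, zero_smul, add_zero, one_mul, zero_mul, sub_self,
    zero_add] at h1
  exact h1

end Pool.Agent.Lib.P28s
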