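import Pool.Agent.Lib.P28s.PathRel

set_option autoImplicit false

/-!
# The ambient space of forms on `ℝ^m` with finitely many disjoint rings

PROOF. `rmAmb`: `res_ext`: `(2R)⁻¹ (2R) b ((2R)⁻¹ (a + 2R v - a)) = b v`. `res_ext_ne`: for `‖v‖ < 5/4` the point `y = a j + 2 R j v` satisfies `‖y - a i‖ > 2 R i` (by `sep`), and `b` vanishes
there. `nd_ext`: `ext i b` vanishes for `‖y - a i‖ ≥ (15/16) 2 R i`, so `x + ext i b = x` near each `y` outside the open balls (`Filter.EventuallyEq.contDiffAt_iff`, `dd_congr`)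
and for large `y` (the radius `r` must be enlarged); for the converse apply this to `-b` (or argue symmetrically).
`rm_nd`: `→`: a point `y` lies outside all open balls or in the ball of some `i`, where `x` and `res i x = co x (a i) (2 R i)` determine each other (`x y = s • co x a s (s⁻¹ (y - a))`, `dd_co`).
`rm_eqv`: each segment is a `PathV` by `PathV.seg` and `rm_nd` (`dd` of the convex combination is the convex combination); `PathV.trans`; induction on `ReflTransGen`.
`lc_fix`: `res i (lc D) v = lc D v + κ_i` with `κ_i = (2 R i)⁻¹ lc D (a i)`; `g i = - grad (χ ℓ_i)`, `ℓ_i v = ∑ j, κ_i j * v j`, `χ = ContDiffBump ⟨13/16, 15/16⟩`: smooth (`contDiffAt_grad`),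
`dd (g i) = 0` (`dd_grad`), equal to `-κ_i` for `‖v‖ < 13/16`, zero for `‖v‖ ≥ 15/16` (the derivative of a function vanishing for `‖v‖ ≥ 15/16` vanishes on the closure of the
open set `‖v‖ > 15/16`, by continuity). Then `res_ext`, `res_ext_ne`.
-/

open MeasureTheory Set Metric
open scoped ContDiff Topology

namespace Pool.Agent.Lib.P28s

open Pool.Agent.Lib.P28f (V EV)

variable {m : ℕ} {ι : Type} [Fintype ι]

/-- Disjoint rings. -/
structure Rings (a : ι → V m) (R : ι → ℝ) : Prop where
  pos : ∀ i, 0 < R i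
  sep : ∀ i j, i ≠ j → 2 * R i + 5 / 2 * R j < ‖a i - a j‖

namespace RmAmbAux

theorem co_add (x y : V m → V m) (a : V m) (s : ℝ) : co (x + y) a s = co x a s + co y a s := by
  funext v
  simp [co, smul_add]

theorem co_smul (t : ℝ) (x : V m → V m) (a : V m) (s : ℝ) : co (t • x) a s = t • co x a s := by
  funext v
  simp only [co, Pi.smul_apply]
  rw [smul_comm]

/-- insertion of a modification at a ring -/
noncomputable def ins (a : V m) (s : ℝ) (b : V m → V m) (y : V m) : V m := s • b (s⁻¹ • (y - a))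

theorem co_ins {a : V m} {s : ℝ} (hs : 0 < s) (b : V m → V m) (v : V m) :
    co (ins a s b) a s v = b v := by
  simp only [co, ins, add_sub_cancel_left]
  rw [inv_smul_smul₀ hs.ne', inv_smul_smul₀ hs.ne']

theorem ins_co {a : V m} {s : ℝ} (hs : 0 < s) (x : V m → V m) (y : V m) :
    ins a s (co x a s) y = x y := by
  simp only [co, ins]
  rw [smul_inv_smul₀ hs.ne', smul_inv_smul₀ hs.ne', add_sub_cancel]

theorem ins_zero {a : V m} {s : ℝ} (hs : 0 < s) {b : V m → V m} (hb : Md b) {y : V m}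
    (hy : 15 / 16 * s ≤ ‖y - a‖) : ins a s b y = 0 := by
  have h : b (s⁻¹ • (y - a)) = 0 := by
    apply hb.supp
    rw [norm_smul, norm_inv, Real.norm_eq_abs, abs_of_pos hs, ← div_eq_inv_mul, le_div_iff₀ hs]
    exact hy
  rw [ins, h, smul_zero]

theorem ins_ev {a : V m} {s : ℝ} (hs : 0 < s) {b : V m → V m} (hb : Md b) {y : V m}
    (hy : s ≤ ‖y - a‖) (x : V m → V m) : (x + ins a s b) =ᶠ[𝓝 y] x := by
  have hopen : IsOpen {z : V m | 15 / 16 * s < ‖z - a‖} :=
    isOpen_lt continuous_const ((continuous_id.sub continuous_const).norm)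
  have hmem : y ∈ {z : V m | 15 / 16 * s < ‖z - a‖} := by
    change 15 / 16 * s < ‖y - a‖
    linarith
  filter_upwards [hopen.mem_nhds hmem] with z hz
  have hz' : 15 / 16 * s < ‖z - a‖ := hz
  rw [Pi.add_apply, ins_zero hs hb hz'.le, add_zero]

/-- the condition outside the balls -/
def NdF (a : ι → V m) (R : ι → ℝ) (x : V m → V m) : Prop :=
  ∃ (c : EV m) (r : ℝ), Sk c ∧ IsUnit c ∧ (∀ y, r ≤ ‖y‖ → x y = lc c y) ∧
    ∀ y, (∀ i, 2 * R i ≤ ‖y - a i‖) → ContDiffAt ℝ ∞ x y ∧ IsUnit (dd x y)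

theorem nd_add {a : ι → V m} {R : ι → ℝ} (h : Rings a R) {x : V m → V m} (hx : NdF a R x) (i : ι)
    {b : V m → V m} (hb : Md b) : NdF a R (x + ins (a i) (2 * R i) b) := by
  obtain ⟨c, r, h1, h2, h3, h4⟩ := hx
  have hs : 0 < 2 * R i := by have := h.pos i; linarith
  refine ⟨c, max r (‖a i‖ + 2 * R i), h1, h2, fun y hy => ?_, fun y hy => ?_⟩
  · have e1 : r ≤ ‖y‖ := le_trans (le_max_left _ _) hy
    have e2 : ‖a i‖ + 2 * R i ≤ ‖y‖ := le_trans (le_max_right _ _) hy
    have e3 : ‖y‖ - ‖a i‖ ≤ ‖y - a i‖ := norm_sub_norm_le y (a i)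
    rw [Pi.add_apply, ins_zero hs hb (by linarith), add_zero, h3 y e1]
  · have e := ins_ev hs hb (hy i) x
    obtain ⟨h5, h6⟩ := h4 y hy
    refine ⟨h5.congr_of_eventuallyEq e, ?_⟩
    rw [dd_congr e]
    exact h6

theorem md_neg {b : V m → V m} (hb : Md b) : Md (-b) :=
  ⟨hb.smooth.neg, fun v hv => by rw [Pi.neg_apply, hb.supp v hv, neg_zero]⟩

theorem ins_neg (a : V m) (s : ℝ) (b : V m → V m) : ins a s (-b) = - ins a s b := by
  funext y
  simp [ins]

end RmAmbAux

open RmAmbAux

/-- The ambient space of forms on `V m` which are constant near infinity. -/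
noncomputable def rmAmb (a : ι → V m) (R : ι → ℝ) (h : Rings a R) : Amb m ι (V m → V m) where
  Nd x := ∃ (c : EV m) (r : ℝ), Sk c ∧ IsUnit c ∧ (∀ y, r ≤ ‖y‖ → x y = lc c y) ∧
    ∀ y, (∀ i, 2 * R i ≤ ‖y - a i‖) → ContDiffAt ℝ ∞ x y ∧ IsUnit (dd x y)
  res i :=
    { toFun := fun x => co x (a i) (2 * R i)
      map_add' := by
        intro x y
        exact co_add x y _ _
      map_smul' := by
        intro t x
        exact co_smul t x _ _ }
  ext i :=
    { toFun := fun b y => (2 * R i) • b ((2 * R i)⁻¹ • (y - a i))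
      map_add' := by
        intro x y
        funext v
        simp [smul_add]
      map_smul' := by
        intro t x
        funext v
        simp only [Pi.smul_apply, RingHom.id_apply]
        rw [smul_comm] }
  res_ext := by
    intro i b _ v _
    exact co_ins (by have := h.pos i; linarith) b v
  res_ext_ne := by
    intro i j b hij hb v hv
    have hi := h.pos i
    have hj := h.pos j
    have hz : ins (a i) (2 * R i) b (a j + (2 * R j) • v) = 0 := by
      apply ins_zero (by linarith) hb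
      have e1 := h.sep i j hij
      have e2 : ‖a i - a j‖ ≤ ‖a j + (2 * R j) • v - a i‖ + ‖(2 * R j) • v‖ := by
        have : a i - a j = (2 * R j) • v - (a j + (2 * R j) • v - a i) := by abel
        rw [this]
        have := norm_sub_le ((2 * R j) • v) (a j + (2 * R j) • v - a i)
        linarith
      have e3 : ‖(2 * R j) • v‖ ≤ 5 / 2 * R j := by
        rw [norm_smul, Real.norm_eq_abs, abs_of_pos (by linarith)]
        have := mul_le_mul_of_nonneg_left hv.le (by linarith : (0 : ℝ) ≤ 2 * R j)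
        linarith
      linarith
    have hz' : (2 * R i) • b ((2 * R i)⁻¹ • (a j + (2 * R j) • v - a i)) = 0 := hz
    change (2 * R j)⁻¹ • ((2 * R i) • b ((2 * R i)⁻¹ • (a j + (2 * R j) • v - a i))) = 0
    rw [hz', smul_zero]
  nd_ext := by
    intro x i b hb
    constructor
    · intro hx
      have h1 := nd_add h (x := x + ins (a i) (2 * R i) b) hx i (md_neg hb)
      rw [ins_neg, add_neg_cancel_right] at h1
      exact h1
    · intro hx
      exact nd_add h hx i hb

theorem rm_res {a : ι → V m} {R : ι → ℝ} (h : Rings a R) (i : ι) (x : V m → V m) :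
    (rmAmb a R h).res i x = co x (a i) (2 * R i) := rfl

theorem rm_ext {a : ι → V m} {R : ι → ℝ} (h : Rings a R) (i : ι) (b : V m → V m) (y : V m) :
    (rmAmb a R h).ext i b y = (2 * R i) • b ((2 * R i)⁻¹ • (y - a i)) := rfl

namespace RmAmbAux

theorem obj_of_nd {a : ι → V m} {R : ι → ℝ} (h : Rings a R) {x : V m → V m}
    (hx : (rmAmb a R h).ND x) : ∃ c r, Obj c r x := by
  obtain ⟨⟨c, r, h1, h2, h3, h4⟩, hinn⟩ := hx
  have key : ∀ y, ContDiffAt ℝ ∞ x y ∧ IsUnit (dd x y) := by
    intro y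
    by_cases hy : ∀ i, 2 * R i ≤ ‖y - a i‖
    · exact h4 y hy
    · push Not at hy
      obtain ⟨i, hi⟩ := hy
      have hs : 0 < 2 * R i := by have := h.pos i; linarith
      set v : V m := (2 * R i)⁻¹ • (y - a i) with hv
      have hv1 : ‖v‖ < 5 / 4 := by
        rw [hv, norm_smul, norm_inv, Real.norm_eq_abs, abs_of_pos hs, ← div_eq_inv_mul,
          div_lt_iff₀ hs]
        linarith
      obtain ⟨g1, g2⟩ := hinn i v hv1
      have hay : a i + (2 * R i) • v = y := by
        rw [hv, smul_inv_smul₀ hs.ne', add_sub_cancel]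
      have g1' : ContDiffAt ℝ ∞ (co x (a i) (2 * R i)) v := g1
      have g2' : IsUnit (dd (co x (a i) (2 * R i)) v) := g2
      have hxeq : x = fun z => (2 * R i) • co x (a i) (2 * R i) ((2 * R i)⁻¹ • (z - a i)) := by
        funext z
        exact (ins_co hs x z).symm
      have hsm : ContDiffAt ℝ ∞ x y := by
        rw [hxeq]
        have hψ : ContDiffAt ℝ ∞ (fun z : V m => (2 * R i)⁻¹ • (z - a i)) y :=
          (contDiffAt_id.sub contDiffAt_const).const_smul _
        have hc : ContDiffAt ℝ ∞ (fun z : V m => co x (a i) (2 * R i) ((2 * R i)⁻¹ • (z - a i))) y :=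
          ContDiffAt.comp (g := co x (a i) (2 * R i)) y g1' hψ
        exact hc.const_smul (2 * R i)
      refine ⟨hsm, ?_⟩
      have hd : DifferentiableAt ℝ x (a i + (2 * R i) • v) := by
        rw [hay]; exact hsm.differentiableAt (by simp)
      rw [dd_co hs.ne' hd, hay] at g2'
      exact g2'
  exact ⟨c, r, h1, h2, contDiff_iff_contDiffAt.2 fun y => (key y).1, fun y => (key y).2, h3⟩

theorem nd_of_obj {a : ι → V m} {R : ι → ℝ} (h : Rings a R) {x : V m → V m} {c : EV m} {r : ℝ}
    (hx : Obj c r x) : (rmAmb a R h).ND x := by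
  refine ⟨⟨c, r, hx.sk, hx.cunit, hx.out, fun y _ => ⟨hx.smooth.contDiffAt, hx.unit y⟩⟩, ?_⟩
  intro i v _
  have hs : 0 < 2 * R i := by have := h.pos i; linarith
  have h1 : ContDiffAt ℝ ∞ (co x (a i) (2 * R i)) v := contDiffAt_co hx.smooth.contDiffAt
  refine ⟨h1, ?_⟩
  change IsUnit (dd (co x (a i) (2 * R i)) v)
  rw [dd_co hs.ne' (hx.smooth.contDiffAt.differentiableAt (by simp))]
  exact hx.unit _

/-- a smooth function equal to `1` for `‖v‖ ≤ 13/16` and to `0` for `‖v‖ ≥ 15/16` -/
noncomputable def bmp (m : ℕ) : ContDiffBump (0 : V m) :=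
  ⟨13 / 16, 15 / 16, by norm_num, by norm_num⟩

/-- the linear function with gradient `κ` -/
noncomputable def lin (κ : V m) : V m →L[ℝ] ℝ :=
  ∑ j, κ j • ContinuousLinearMap.proj (R := ℝ) (φ := fun _ : Fin m => ℝ) j

theorem lin_single (κ : V m) (i : Fin m) : lin κ (Pi.single i 1) = κ i := by
  simp [lin, Pi.single_apply]

noncomputable def FF (κ : V m) (w : V m) : ℝ := bmp m w * lin κ w

theorem contDiff_FF (κ : V m) : ContDiff ℝ ∞ (FF κ) :=
  (bmp m).contDiff.mul (lin κ).contDiff

theorem grad_in (κ : V m) {v : V m} (hv : ‖v‖ < 13 / 16) : grad (FF κ) v = κ := by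
  have he : FF κ =ᶠ[𝓝 v] fun w => lin κ w := by
    have hopen : IsOpen {z : V m | ‖z‖ < 13 / 16} := isOpen_lt continuous_norm continuous_const
    filter_upwards [hopen.mem_nhds hv] with z hz
    have hz' : ‖z‖ < 13 / 16 := hz
    have h1 : bmp m z = 1 := by
      apply (bmp m).one_of_mem_closedBall
      rw [mem_closedBall_zero_iff]
      exact hz'.le
    rw [FF, h1, one_mul]
  funext i
  simp only [grad]
  rw [he.fderiv_eq, (lin κ).hasFDerivAt.fderiv, lin_single]

theorem grad_out (κ : V m) {v : V m} (hv : 15 / 16 ≤ ‖v‖) : grad (FF κ) v = 0 := by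
  have h0 : bmp m v = 0 := by
    apply (bmp m).zero_of_le_dist
    rw [dist_zero_right]
    exact hv
  have hmin : IsLocalMin (fun w => bmp m w) v := by
    filter_upwards with w
    rw [h0]
    exact (bmp m).nonneg
  have hd0 : fderiv ℝ (fun w => bmp m w) v = 0 := hmin.fderiv_eq_zero
  have hdiff : DifferentiableAt ℝ (fun w => bmp m w) v :=
    ((bmp m).contDiff (n := 1)).differentiable (by norm_num) v
  have h1 : fderiv ℝ (FF κ) v = 0 := by
    have h2 := fderiv_fun_mul hdiff ((lin κ).differentiableAt (x := v))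
    have h3 : fderiv ℝ (FF κ) v = fderiv ℝ (fun w => bmp m w * lin κ w) v := rfl
    rw [h3, h2, hd0, h0]
    simp
  funext i
  simp [grad, h1]

end RmAmbAux

theorem rm_nd {a : ι → V m} {R : ι → ℝ} (h : Rings a R) (x : V m → V m) :
    (rmAmb a R h).ND x ↔ ∃ c r, Obj c r x :=
  ⟨fun hx => obj_of_nd h hx, fun ⟨_, _, hx⟩ => nd_of_obj h hx⟩

theorem rm_eqv {a : ι → V m} {R : ι → ℝ} (h : Rings a R) {x y : V m → V m}
    (he : (rmAmb a R h).Eqv x y) {c : EV m} {r : ℝ} (hx : Obj c r x) : PathV x y := by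
  induction he with
  | refl => exact PathV.refl hx
  | @tail b y _ hseg ih =>
    refine PathV.trans ih ?_
    have h0 := hseg 0 le_rfl zero_le_one
    have h1 := hseg 1 zero_le_one le_rfl
    simp only [sub_zero, one_smul, zero_smul, add_zero, sub_self, zero_add] at h0 h1
    obtain ⟨c0, r0, o0⟩ := obj_of_nd h h0
    obtain ⟨c1, r1, o1⟩ := obj_of_nd h h1
    refine PathV.seg o0 o1 ?_
    intro t ht z
    obtain ⟨ct, rt, ot⟩ := obj_of_nd h (hseg t ht.1 ht.2)
    have hu := ot.unit z
    have hb : DifferentiableAt ℝ b z := o0.smooth.contDiffAt.differentiableAt (by simp)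
    have hy : DifferentiableAt ℝ y z := o1.smooth.contDiffAt.differentiableAt (by simp)
    have e : dd ((1 - t) • b + t • y) z = (1 - t) • dd b z + t • dd y z := by
      have e1 := dd_add (hb.const_smul (1 - t)) (hy.const_smul t)
      have e2 := dd_smul hb (1 - t)
      have e3 := dd_smul hy t
      have e4 : ((1 - t) • b + t • y) = fun w => (1 - t) • b w + t • y w := rfl
      rw [e4]
      refine e1.trans ?_
      exact congrArg₂ (· + ·) e2 e3
    rw [e] at hu
    exact hu

theorem lc_fix {a : ι → V m} {R : ι → ℝ} (h : Rings a R) {D : EV m} (hD : Sk D) :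
    ∃ g : ι → V m → V m, (∀ i, Md (g i)) ∧ (∀ i v, dd (g i) v = 0) ∧
      ∀ i v, ‖v‖ < 13 / 16 →
        (rmAmb a R h).res i (lc D + ∑ j, (rmAmb a R h).ext j (g j)) v = lc D v := by
  have hsm : ∀ κ : V m, ContDiff ℝ ∞ (grad (FF κ)) := fun κ =>
    contDiff_iff_contDiffAt.2 fun y => contDiffAt_grad (contDiff_FF κ).contDiffAt
  have hMd : ∀ κ : V m, Md (fun v => (-1 : ℝ) • grad (FF κ) v) := fun κ =>
    ⟨(hsm κ).const_smul _, fun v hv => by rw [grad_out κ hv, smul_zero]⟩
  refine ⟨fun i v => (-1 : ℝ) • grad (FF ((2 * R i)⁻¹ • lc D (a i))) v, fun i => hMd _, ?_, ?_⟩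
  · intro i v
    rw [dd_smul ((hsm _).contDiffAt.differentiableAt (by simp)), dd_grad (contDiff_FF _).contDiffAt,
      smul_zero]
  · intro i v hv
    have hs : 0 < 2 * R i := by have := h.pos i; linarith
    have hv' : ‖v‖ < 5 / 4 := by linarith
    rw [map_add, map_sum]
    rw [Pi.add_apply, Finset.sum_apply]
    rw [Finset.sum_eq_single i]
    · rw [(rmAmb a R h).res_ext i _ (hMd _) v hv', rm_res, grad_in _ hv]
      simp only [co, lc, map_add, map_smul, smul_add]
      rw [smul_comm (2 * R i)⁻¹ (1 / 2 : ℝ) ((2 * R i) • D v), inv_smul_smul₀ hs.ne']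
      module
    · intro j _ hj
      exact (rmAmb a R h).res_ext_ne j i _ hj (hMd _) v hv'
    · intro hi
      exact absurd (Finset.mem_univ i) hi

end Pool.Agent.Lib.P28s
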