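import Pool.Agent.Lib.P28s.AmbSeg
import Pool.Agent.Lib.P28s.RmAmb

set_option autoImplicit false

/-!
# Subtracting a constant form from the outer form and scaling

PROOF. Let `g` be given by `lc_fix` for `D`, `θ = lc D + ∑ j, ext j (g j)` (smooth, `dd θ y = D` for all `y`: near `y` at most one `ext j (g j)` is not zero, or use `dd_add` for the finite sum with
`dd (ext j (g j)) y = dd (g j) (..) = 0`; `θ = lc D` for large `y`). `o₁ = o - θ`. `Seg o o₁`: `(1-s) o + s o₁ = o - s θ` is smooth, `dd = dd o y - s D` is a unit, and for large `y` it is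
`lc (c∞ - s D)`, `c∞ - s D` being the value of `dd` at a far point (`m ≥ 1`; for `m = 0` `EV 0` is a subsingleton). Use `rm_nd`. `res i o₁ v = lc (c i) v - lc D v = lc (c i - D) v` for
`‖v‖ < 13/16`; `rep_seg` gives `Rep x o₁`. `o' = ν • o₁`: `(1-s) o₁ + s ν o₁` is a positive multiple of `o₁`; `rep_seg` again.
-/

open MeasureTheory Set Metric
open scoped ContDiff Topology

namespace Pool.Agent.Lib.P28s

open Pool.Agent.Lib.P28f (V EV)

variable {m : ℕ} {ι : Type} [Fintype ι]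

namespace OutPathAux

open RmAmbAux

theorem isUnit_smul' {c : EV m} (hc : IsUnit c) {t : ℝ} (ht : t ≠ 0) : IsUnit (t • c) := by
  obtain ⟨u, rfl⟩ := hc
  refine ⟨⟨t • (u : EV m), t⁻¹ • ((u⁻¹ : (EV m)ˣ) : EV m), ?_, ?_⟩, rfl⟩
  · rw [smul_mul_smul_comm, Units.mul_inv, mul_inv_cancel₀ ht, one_smul]
  · rw [smul_mul_smul_comm, Units.inv_mul, inv_mul_cancel₀ ht, one_smul]

theorem lc_sub (c d : EV m) (v : V m) : lc (c - d) v = lc c v - lc d v := by
  unfold lc
  rw [sub_apply, smul_sub]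

theorem lc_smul (t : ℝ) (c : EV m) (v : V m) : lc (t • c) v = t • lc c v := by
  unfold lc
  rw [smul_apply, smul_comm]

theorem ins_smooth (a : V m) (s : ℝ) {b : V m → V m} (hb : ContDiff ℝ ∞ b) :
    ContDiff ℝ ∞ (ins a s b) := by
  have h1 : ContDiff ℝ ∞ (fun y : V m => s⁻¹ • (y - a)) :=
    (contDiff_id.sub contDiff_const).const_smul _
  exact (hb.comp h1).const_smul s

theorem dd_ins {a : V m} {s : ℝ} (hs : 0 < s) {b : V m → V m} (hb : ContDiff ℝ ∞ b) (y : V m) :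
    dd (ins a s b) y = dd b (s⁻¹ • (y - a)) := by
  have h1 : a + s • (s⁻¹ • (y - a)) = y := by
    rw [smul_inv_smul₀ hs.ne', add_sub_cancel]
  have h2 : co (ins a s b) a s = b := funext fun v => co_ins hs b v
  have h3 := dd_co (lam := ins a s b) (a := a) (v := s⁻¹ • (y - a)) hs.ne'
    ((ins_smooth a s hb).contDiffAt.differentiableAt (by simp))
  rw [h2, h1] at h3
  exact h3.symm

/-- an object at infinity for the constants -/
theorem unit_inf {c D : EV m} {r : ℝ} {o : V m → V m} (ho : Obj c r o) {s : ℝ}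
    (hu : ∀ y, IsUnit (dd o y - s • D)) : IsUnit (c - s • D) := by
  rcases subsingleton_or_nontrivial (V m) with h | h
  · have h1 : Subsingleton (EV m) := ⟨fun A B => ContinuousLinearMap.ext fun v => Subsingleton.elim _ _⟩
    exact isUnit_of_subsingleton _
  · obtain ⟨y, hy⟩ := NormedSpace.exists_lt_norm ℝ (V m) r
    have h1 := hu y
    rwa [ho.dd_out hy] at h1

/-- the closed form to be subtracted -/
theorem theta {a : ι → V m} {R : ι → ℝ} (hr : Rings a R) {D : EV m} (hD : Sk D)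
    {g : ι → V m → V m} (hg : ∀ i, Md (g i)) (hg0 : ∀ i v, dd (g i) v = 0) :
    ContDiff ℝ ∞ (lc D + ∑ j, (rmAmb a R hr).ext j (g j)) ∧
    (∀ y, dd (lc D + ∑ j, (rmAmb a R hr).ext j (g j)) y = D) ∧
    ∃ r : ℝ, ∀ y, r ≤ ‖y‖ → (lc D + ∑ j, (rmAmb a R hr).ext j (g j)) y = lc D y := by
  classical
  have key : ∀ s : Finset ι, ContDiff ℝ ∞ (lc D + ∑ j ∈ s, (rmAmb a R hr).ext j (g j)) ∧
      (∀ y, dd (lc D + ∑ j ∈ s, (rmAmb a R hr).ext j (g j)) y = D) ∧
      ∃ r : ℝ, ∀ y, r ≤ ‖y‖ → (lc D + ∑ j ∈ s, (rmAmb a R hr).ext j (g j)) y = lc D y := by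
    intro s
    induction s using Finset.induction_on with
    | empty =>
      rw [Finset.sum_empty, add_zero]
      exact ⟨contDiff_lc D, fun y => dd_lc hD y, 0, fun y _ => rfl⟩
    | insert i s hi ih =>
      obtain ⟨i1, i2, r, i3⟩ := ih
      have hs : 0 < 2 * R i := by have := hr.pos i; linarith
      have e : lc D + ∑ j ∈ insert i s, (rmAmb a R hr).ext j (g j) =
          fun y => (lc D + ∑ j ∈ s, (rmAmb a R hr).ext j (g j)) y + ins (a i) (2 * R i) (g i) y := by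
        rw [Finset.sum_insert hi]
        funext y
        have e2 : (rmAmb a R hr).ext i (g i) y = ins (a i) (2 * R i) (g i) y := rfl
        simp only [Pi.add_apply]
        rw [e2]
        abel
      have hsm := ins_smooth (a i) (2 * R i) (hg i).smooth
      rw [e]
      refine ⟨i1.add hsm, fun y => ?_, max r (‖a i‖ + 2 * R i), fun y hy => ?_⟩
      · rw [dd_add (i1.contDiffAt.differentiableAt (by simp))
          (hsm.contDiffAt.differentiableAt (by simp)), i2 y, dd_ins hs (hg i).smooth, hg0, add_zero]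
      · have e1 : r ≤ ‖y‖ := le_trans (le_max_left _ _) hy
        have e2 : ‖a i‖ + 2 * R i ≤ ‖y‖ := le_trans (le_max_right _ _) hy
        have e3 : ‖y‖ - ‖a i‖ ≤ ‖y - a i‖ := norm_sub_norm_le y (a i)
        beta_reduce
        rw [i3 y e1, ins_zero hs (hg i) (by linarith), add_zero]
  exact key Finset.univ

theorem obj_sub {c D : EV m} {r : ℝ} {o θ : V m → V m} (ho : Obj c r o) (hD : Sk D)
    (h1 : ContDiff ℝ ∞ θ) (h2 : ∀ y, dd θ y = D) {rθ : ℝ} (h3 : ∀ y, rθ ≤ ‖y‖ → θ y = lc D y)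
    {s : ℝ} (hu : ∀ y, IsUnit (dd o y - s • D)) :
    Obj (c - s • D) (max r rθ) (o - s • θ) ∧ ∀ y, dd (o - s • θ) y = dd o y - s • D := by
  have hθ : ContDiff ℝ ∞ (fun y => s • θ y) := h1.const_smul s
  have e : (o - s • θ) = fun y => o y - s • θ y := rfl
  have hdd : ∀ y, dd (o - s • θ) y = dd o y - s • D := by
    intro y
    rw [e, dd_sub (ho.smooth.contDiffAt.differentiableAt (by simp))
      (hθ.contDiffAt.differentiableAt (by simp)),
      dd_smul (h1.contDiffAt.differentiableAt (by simp)), h2]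
  refine ⟨⟨ho.sk.sub (hD.smul s), unit_inf ho hu, ?_, fun y => ?_, fun y hy => ?_⟩, hdd⟩
  · rw [e]
    exact ho.smooth.sub hθ
  · rw [hdd]
    exact hu y
  · rw [e]
    have e1 : r ≤ ‖y‖ := le_trans (le_max_left _ _) hy
    have e2 : rθ ≤ ‖y‖ := le_trans (le_max_right _ _) hy
    show o y - s • θ y = _
    rw [ho.out y e1, h3 y e2, lc_sub, lc_smul]

theorem obj_smul {c : EV m} {r : ℝ} {o : V m → V m} (ho : Obj c r o) {t : ℝ} (ht : 0 < t) :
    Obj (t • c) r (t • o) ∧ ∀ y, dd (t • o) y = t • dd o y := by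
  have e : (t • o) = fun y => t • o y := rfl
  have hdd : ∀ y, dd (t • o) y = t • dd o y := by
    intro y
    rw [e, dd_smul (ho.smooth.contDiffAt.differentiableAt (by simp))]
  refine ⟨⟨ho.sk.smul t, isUnit_smul' ho.cunit ht.ne', ?_, fun y => ?_, fun y hy => ?_⟩, hdd⟩
  · rw [e]
    exact ho.smooth.const_smul t
  · rw [hdd]
    exact isUnit_smul' (ho.unit y) ht.ne'
  · show t • o y = _
    rw [ho.out y hy, lc_smul]

end OutPathAux

open OutPathAux

theorem out_path {a : ι → V m} {R : ι → ℝ} (hr : Rings a R) {cb : ι → EV m} {rb : ℝ}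
    {kb : ι → V m → V m} (hb : Bub cb rb kb) {x o : V m → V m}
    (h : (rmAmb a R hr).Rep cb kb x o) {c : ι → EV m} (hc : ∀ i, Sk (c i))
    (hin : ∀ i v, ‖v‖ < 13 / 16 → (rmAmb a R hr).res i o v = lc (c i) v) {D : EV m} (hD : Sk D)
    {ν : ℝ} (hν : 0 < ν) (hu : ∀ s ∈ Icc (0 : ℝ) 1, ∀ y, IsUnit (dd o y - s • D)) :
    ∃ o' : V m → V m, (rmAmb a R hr).Rep cb kb x o' ∧ (∃ c r, Obj c r o') ∧
      (∀ y, dd o' y = ν • (dd o y - D)) ∧
      ∀ i v, ‖v‖ < 13 / 16 → (rmAmb a R hr).res i o' v = lc (ν • (c i - D)) v := by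
  obtain ⟨A, hdec, -⟩ := id h
  obtain ⟨cinf, rinf, ho⟩ := (rm_nd hr o).1 hdec.nd
  obtain ⟨g, hg, hg0, hgr⟩ := lc_fix hr hD
  obtain ⟨t1, t2, rθ, t3⟩ := theta hr hD hg hg0
  set θ : V m → V m := lc D + ∑ j, (rmAmb a R hr).ext j (g j) with hθ
  have hobj : ∀ s ∈ Icc (0 : ℝ) 1, Obj (cinf - s • D) (max rinf rθ) (o - s • θ) ∧
      ∀ y, dd (o - s • θ) y = dd o y - s • D := fun s hs => obj_sub ho hD t1 t2 t3 (hu s hs)
  obtain ⟨ho1, hd1⟩ := hobj 1 ⟨zero_le_one, le_rfl⟩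
  set o₁ : V m → V m := o - (1 : ℝ) • θ with ho₁
  have hseg : (rmAmb a R hr).Seg o o₁ := by
    intro t h0 h1
    rw [rm_nd]
    have e : (1 - t) • o + t • o₁ = o - t • θ := by
      rw [ho₁]
      module
    rw [e]
    exact ⟨_, _, (hobj t ⟨h0, h1⟩).1⟩
  have hin1 : ∀ i v, ‖v‖ < 13 / 16 → (rmAmb a R hr).res i o₁ v = lc (c i - D) v := by
    intro i v hv
    rw [ho₁, map_sub, map_smul, Pi.sub_apply, Pi.smul_apply, hin i v hv, hgr i v hv, one_smul,
      lc_sub]
  have hrep1 := rep_seg (rmAmb a R hr) hb h hseg (fun i => (hc i).sub hD) hin1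
  have hseg2 : (rmAmb a R hr).Seg o₁ (ν • o₁) := by
    intro t h0 h1
    rw [rm_nd]
    have e : (1 - t) • o₁ + t • (ν • o₁) = ((1 - t) + t * ν) • o₁ := by module
    rw [e]
    have hpos : 0 < (1 - t) + t * ν := by
      rcases eq_or_lt_of_le h0 with h2 | h2
      · rw [← h2]; norm_num
      · have : 0 < t * ν := mul_pos h2 hν
        linarith
    exact ⟨_, _, (obj_smul ho1 hpos).1⟩
  have hin2 : ∀ i v, ‖v‖ < 13 / 16 → (rmAmb a R hr).res i (ν • o₁) v = lc (ν • (c i - D)) v := by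
    intro i v hv
    rw [map_smul, Pi.smul_apply, hin1 i v hv, lc_smul]
  have hrep2 := rep_seg (rmAmb a R hr) hb hrep1 hseg2 (fun i => ((hc i).sub hD).smul ν) hin2
  obtain ⟨ho2, hd2⟩ := obj_smul ho1 hν
  refine ⟨ν • o₁, hrep2, ⟨_, _, ho2⟩, fun y => ?_, hin2⟩
  rw [hd2, hd1, one_smul]

end Pool.Agent.Lib.P28s
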