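import Pool.Agent.Lib.P28s.AmbInit
import Pool.Agent.Lib.P28s.OutPath

set_option autoImplicit false

/-!
# Two forms with the same bubbles and comparable outer parts

PROOF. `η = 1/(400 (m + 1))`, `δ₁` from `rep_init`. `M = rmAmb a R hr`; `K` is `ND` (`rm_nd`), `M.res i K = co K (a i) (2 R i)` (`rm_res`). `rep_init` gives `g` and
`o = K + ∑ ext i (g i)`, `Rep K o`, `M.res i o v = lc (c i) v` for `‖v‖ < 13/16` with `c i = dd (co K (a i) (2 R i)) (w0) = dd K (p i)`, `p i = a i + 2 R i w0` (`dd_co`). For `y` outside the open balls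
`‖y - a i‖ < 2 R i` we have `o = K` near `y`, `dd o y = dd K y`. For `‖y - a i‖ ≤ 2 R i`, `y = a i + 2 R i v`, `dd o y = dd (M.res i o) v` is `η`-near `c i`. So by (hD) and `near_unit`
`dd o y - s D` is a unit for all `y` and `s ∈ [0,1]`: in the ball `i`, `‖(dd o y - s D) - (c i - s D)‖ ‖(c i - s D)⁻¹‖ ≤ η 2 m ≤ 1/100`. `out_path` (with `D`, `ν`): `o₁` with `Rep K o₁`,
`dd o₁ y = ν (dd o y - D)`. The same for `K'`: `o₁'`. `M.Seg o₁ o₁'` (`rm_nd`; the constant at infinity of a combination is the value of `dd` at a far point): outside the balls by (hcl) and `near_seg`; in the ball `i`: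
`P = ν (c i - D)`, `P' = ν' (c' i - D')` satisfy `‖P' - P‖ ‖P⁻¹‖ ≤ 1/4` (hcl at `p i`), `dd o₁ y` is `1/100`-near `P`, `dd o₁' y` is `1/100`-near `P'` hence
`‖dd o₁' y - P‖ ‖P⁻¹‖ ≤ 1/4 + (1/100) ‖P⁻¹‖ / ‖P'⁻¹‖ ≤ 1/4 + (1/100) (5/4) < 1` (`near_inv`); `near_mid`. Now `rep_seg` gives `Rep K o₁'`, and `Rep K' o₁'`; `rep_final`: `M.Eqv K K'`; `rm_eqv`.
-/

open MeasureTheory Set Metric
open scoped ContDiff Topology

namespace Pool.Agent.Lib.P28s

open Pool.Agent.Lib.P28f (V EV ann w0)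

/-- The points outside the rings, and the base points of the rings. -/
def Yset {m : ℕ} {ι : Type} (a : ι → V m) (R : ι → ℝ) : Set (V m) :=
  {y | (∀ i, 2 * R i ≤ ‖y - a i‖) ∨ ∃ i, y = a i + (2 * R i) • w0 m}

/-- Conditions on one form. -/
structure One {m : ℕ} {ι : Type} (δ : ℝ) (a : ι → V m) (R : ι → ℝ) (kb : ι → V m → V m)
    (K : V m → V m) (D : EV m) (ν : ℝ) : Prop where
  obj : ∃ c r, Obj c r K
  flat : ∀ i, SFlat δ (ann 0 (1 / 2)) (dd (co K (a i) (2 * R i)))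
  cut : ∀ i k, CutOf (co K (a i) (2 * R i)) k → PathV k (kb i)
  sk : Sk D
  pos : 0 < ν
  unit : ∀ y ∈ Yset a R, ∀ s ∈ Icc (0 : ℝ) 1, IsUnit (dd K y - s • D) ∧
    ‖Ring.inverse (dd K y - s • D)‖ ≤ 2 * m * ‖Ring.inverse (dd K y)‖

namespace PairRmAux

open RmAmbAux OutPathAux

variable {m : ℕ}

theorem inv_eq {a b : EV m} (ha : IsUnit a) (h : b * a = 1) : Ring.inverse a = b := by
  have h1 : (b * a) * Ring.inverse a = b := by
    rw [mul_assoc, Ring.mul_inverse_cancel a ha, mul_one]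
  rw [← h1, h, one_mul]

theorem inv_smul' {a : EV m} (ha : IsUnit a) {t : ℝ} (ht : t ≠ 0) :
    Ring.inverse (t • a) = t⁻¹ • Ring.inverse a := by
  refine inv_eq (isUnit_smul' ha ht) ?_
  rw [smul_mul_smul_comm, Ring.inverse_mul_cancel a ha, inv_mul_cancel₀ ht, one_smul]

/-- the form with the outer part constant in the balls, for one form -/
theorem one_side {ι : Type} [Fintype ι] {a : ι → V m} {R : ι → ℝ} (hr : Rings a R)
    {cb : ι → EV m} {rb : ℝ} {kb : ι → V m → V m} (hb : Bub cb rb kb) {K : V m → V m} {D : EV m}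
    {ν δ₁ η : ℝ} (hone : One δ₁ a R kb K D ν) (hη : 2 * (m : ℝ) * η ≤ 1 / 100)
    {g : ι → V m → V m} (hg : ∀ i, Md (g i))
    (hrep : (rmAmb a R hr).Rep cb kb K (K + ∑ i, (rmAmb a R hr).ext i (g i)))
    (hin : ∀ i v, ‖v‖ < 13 / 16 →
      (rmAmb a R hr).res i (K + ∑ j, (rmAmb a R hr).ext j (g j)) v =
        lc (dd ((rmAmb a R hr).res i K) (w0 m)) v)
    (hnear : ∀ i v, ‖v‖ ≤ 1 →
      ‖dd ((rmAmb a R hr).res i (K + ∑ j, (rmAmb a R hr).ext j (g j))) v -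
        dd ((rmAmb a R hr).res i K) (w0 m)‖ *
            ‖Ring.inverse (dd ((rmAmb a R hr).res i K) (w0 m))‖ ≤ η) :
    ∃ o₁ : V m → V m, (rmAmb a R hr).Rep cb kb K o₁ ∧ (∃ c r, Obj c r o₁) ∧
      (∀ y, (∀ i, 2 * R i ≤ ‖y - a i‖) → dd o₁ y = ν • (dd K y - D)) ∧
      (∀ i y, ‖y - a i‖ ≤ 2 * R i →
        ‖dd o₁ y - ν • (dd K (a i + (2 * R i) • w0 m) - D)‖ *
          ‖Ring.inverse (ν • (dd K (a i + (2 * R i) • w0 m) - D))‖ ≤ 1 / 100) ∧
      ∀ i v, ‖v‖ < 13 / 16 →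
        (rmAmb a R hr).res i o₁ v = lc (ν • (dd K (a i + (2 * R i) • w0 m) - D)) v := by
  obtain ⟨cK, rK, hK⟩ := hone.obj
  set o : V m → V m := K + ∑ i, (rmAmb a R hr).ext i (g i) with ho
  have hpos : ∀ i, 0 < 2 * R i := fun i => by have := hr.pos i; linarith
  have hKd : ∀ y, DifferentiableAt ℝ K y := fun y =>
    hK.smooth.contDiffAt.differentiableAt (by simp)
  have hres : ∀ i, dd ((rmAmb a R hr).res i K) (w0 m) = dd K (a i + (2 * R i) • w0 m) := by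
    intro i
    rw [rm_res, dd_co (hpos i).ne' (hKd _)]
  simp only [hres] at hin hnear
  obtain ⟨A, hdec, -⟩ := id hrep
  obtain ⟨co', ro', hobj⟩ := (rm_nd hr o).1 hdec.nd
  have hod : ∀ y, DifferentiableAt ℝ o y := fun y =>
    hobj.smooth.contDiffAt.differentiableAt (by simp)
  -- outside the balls
  have hout : ∀ y, (∀ i, 2 * R i ≤ ‖y - a i‖) → dd o y = dd K y := by
    intro y hy
    apply dd_congr
    have h1 : ∀ i, ∀ᶠ z in 𝓝 y, (rmAmb a R hr).ext i (g i) z = 0 := by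
      intro i
      have hopen : IsOpen {z : V m | 15 / 16 * (2 * R i) < ‖z - a i‖} :=
        isOpen_lt continuous_const ((continuous_id.sub continuous_const).norm)
      have hmem : y ∈ {z : V m | 15 / 16 * (2 * R i) < ‖z - a i‖} := by
        change 15 / 16 * (2 * R i) < ‖y - a i‖
        have := hy i
        have := hpos i
        linarith
      filter_upwards [hopen.mem_nhds hmem] with z hz
      have hz' : 15 / 16 * (2 * R i) < ‖z - a i‖ := hz
      exact ins_zero (hpos i) (hg i) hz'.le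
    have h2 : ∀ᶠ z in 𝓝 y, ∀ i, (rmAmb a R hr).ext i (g i) z = 0 := Filter.eventually_all.2 h1
    filter_upwards [h2] with z hz
    rw [ho, Pi.add_apply, Finset.sum_apply, Finset.sum_eq_zero fun i _ => hz i, add_zero]
  -- inside
  have hins : ∀ i y, ‖y - a i‖ ≤ 2 * R i →
      ‖dd o y - dd K (a i + (2 * R i) • w0 m)‖ *
        ‖Ring.inverse (dd K (a i + (2 * R i) • w0 m))‖ ≤ η := by
    intro i y hy
    obtain ⟨v, hv⟩ : ∃ v : V m, v = (2 * R i)⁻¹ • (y - a i) := ⟨_, rfl⟩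
    have hv1 : ‖v‖ ≤ 1 := by
      rw [hv, norm_smul, norm_inv, Real.norm_eq_abs, abs_of_pos (hpos i), ← div_eq_inv_mul,
        div_le_iff₀ (hpos i), one_mul]
      exact hy
    have hay : a i + (2 * R i) • v = y := by
      rw [hv, smul_inv_smul₀ (hpos i).ne', add_sub_cancel]
    have h1 := hnear i v hv1
    rw [rm_res, dd_co (hpos i).ne' (hod _), hay] at h1
    exact h1
  have hins2 : ∀ i y, ‖y - a i‖ ≤ 2 * R i → ∀ s ∈ Icc (0 : ℝ) 1,
      ‖dd o y - dd K (a i + (2 * R i) • w0 m)‖ *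
        ‖Ring.inverse (dd K (a i + (2 * R i) • w0 m) - s • D)‖ ≤ 1 / 100 := by
    intro i y hy s hs
    have h1 := hins i y hy
    have h2 := (hone.unit (a i + (2 * R i) • w0 m) (Or.inr ⟨i, rfl⟩) s hs).2
    calc ‖dd o y - dd K (a i + (2 * R i) • w0 m)‖ *
          ‖Ring.inverse (dd K (a i + (2 * R i) • w0 m) - s • D)‖
        ≤ ‖dd o y - dd K (a i + (2 * R i) • w0 m)‖ *
          (2 * m * ‖Ring.inverse (dd K (a i + (2 * R i) • w0 m))‖) :=
          mul_le_mul_of_nonneg_left h2 (norm_nonneg _)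
      _ = 2 * m * (‖dd o y - dd K (a i + (2 * R i) • w0 m)‖ *
          ‖Ring.inverse (dd K (a i + (2 * R i) • w0 m))‖) := by ring
      _ ≤ 2 * m * η := mul_le_mul_of_nonneg_left h1 (by positivity)
      _ ≤ 1 / 100 := hη
  have hu : ∀ s ∈ Icc (0 : ℝ) 1, ∀ y, IsUnit (dd o y - s • D) := by
    intro s hs y
    by_cases hy : ∀ i, 2 * R i ≤ ‖y - a i‖
    · rw [hout y hy]
      exact (hone.unit y (Or.inl hy) s hs).1
    · push Not at hy
      obtain ⟨i, hi⟩ := hy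
      refine near_unit (hone.unit (a i + (2 * R i) • w0 m) (Or.inr ⟨i, rfl⟩) s hs).1 ?_
      rw [sub_sub_sub_cancel_right]
      exact lt_of_le_of_lt (hins2 i y hi.le s hs) (by norm_num)
  obtain ⟨o₁, q1, q2, q3, q4⟩ := out_path hr hb hrep
    (c := fun i => dd K (a i + (2 * R i) • w0 m)) (fun i => sk_dd _ _) hin hone.sk hone.pos hu
  refine ⟨o₁, q1, q2, ?_, ?_, q4⟩
  · intro y hy
    rw [q3, hout y hy]
  · intro i y hy
    have hun := (hone.unit (a i + (2 * R i) • w0 m) (Or.inr ⟨i, rfl⟩) 1 ⟨zero_le_one, le_rfl⟩).1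
    rw [one_smul] at hun
    have h1 := hins2 i y hy 1 ⟨zero_le_one, le_rfl⟩
    rw [one_smul] at h1
    have hν := hone.pos
    have e5 : ν • (dd o y - D) - ν • (dd K (a i + (2 * R i) • w0 m) - D) =
        ν • (dd o y - dd K (a i + (2 * R i) • w0 m)) := by module
    rw [q3, e5, inv_smul' hun hν.ne', norm_smul, norm_smul,
      norm_inv, Real.norm_eq_abs, abs_of_pos hν]
    calc ν * ‖dd o y - dd K (a i + (2 * R i) • w0 m)‖ *
          (ν⁻¹ * ‖Ring.inverse (dd K (a i + (2 * R i) • w0 m) - D)‖)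
        = (ν * ν⁻¹) * (‖dd o y - dd K (a i + (2 * R i) • w0 m)‖ *
          ‖Ring.inverse (dd K (a i + (2 * R i) • w0 m) - D)‖) := by ring
      _ ≤ 1 / 100 := by rw [mul_inv_cancel₀ hν.ne', one_mul]; exact h1

/-- combination of two objects -/
theorem obj_comb (hm : 1 ≤ m) {c c' : EV m} {r r' : ℝ} {o o' : V m → V m} (ho : Obj c r o)
    (ho' : Obj c' r' o') {t : ℝ} (hu : ∀ y, IsUnit ((1 - t) • dd o y + t • dd o' y)) :
    Obj ((1 - t) • c + t • c') (max r r') ((1 - t) • o + t • o') := by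
  have hb : ∀ z, DifferentiableAt ℝ o z := fun z => ho.smooth.contDiffAt.differentiableAt (by simp)
  have hy : ∀ z, DifferentiableAt ℝ o' z :=
    fun z => ho'.smooth.contDiffAt.differentiableAt (by simp)
  have e4 : ((1 - t) • o + t • o') = fun w => (1 - t) • o w + t • o' w := rfl
  have e : ∀ z, dd ((1 - t) • o + t • o') z = (1 - t) • dd o z + t • dd o' z := by
    intro z
    have e1 := dd_add ((hb z).const_smul (1 - t)) ((hy z).const_smul t)
    have e2 := dd_smul (hb z) (1 - t)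
    have e3 := dd_smul (hy z) t
    rw [e4]
    refine e1.trans ?_
    exact congrArg₂ (· + ·) e2 e3
  refine ⟨(ho.sk.smul _).add (ho'.sk.smul _), ?_, ?_, fun y => ?_, fun y hy => ?_⟩
  · obtain ⟨y, hy⟩ := PathRelAux.exists_far (m := m) (by omega) (max r r')
    have h1 := hu y
    rwa [ho.dd_out ((le_max_left _ _).trans_lt hy), ho'.dd_out ((le_max_right _ _).trans_lt hy)]
      at h1
  · rw [e4]
    exact (ho.smooth.const_smul _).add (ho'.smooth.const_smul _)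
  · rw [e]
    exact hu y
  · have e1 : r ≤ ‖y‖ := le_trans (le_max_left _ _) hy
    have e2 : r' ≤ ‖y‖ := le_trans (le_max_right _ _) hy
    rw [e4]
    beta_reduce
    rw [ho.out y e1, ho'.out y e2, ← lc_smul, ← lc_smul]
    unfold lc
    rw [add_apply, smul_add]

end PairRmAux

theorem pair_rm (m : ℕ) (hm : 3 ≤ m) : ∃ δ₁ : ℝ, 0 < δ₁ ∧
    ∀ {ι : Type} [Fintype ι] {a : ι → V m} {R : ι → ℝ} (_ : Rings a R) {cb : ι → EV m} {rb : ℝ}
      {kb : ι → V m → V m} (_ : Bub cb rb kb) {K K' : V m → V m} {D D' : EV m} {ν ν' : ℝ}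
      (_ : One δ₁ a R kb K D ν) (_ : One δ₁ a R kb K' D' ν')
      (_ : ∀ y ∈ Yset a R, ‖ν' • (dd K' y - D') - ν • (dd K y - D)‖ *
        ‖Ring.inverse (ν • (dd K y - D))‖ ≤ 1 / 4),
      PathV K K' := by
  have hη : (0 : ℝ) < 1 / (400 * ((m : ℝ) + 1)) := by positivity
  have hη2 : 2 * (m : ℝ) * (1 / (400 * ((m : ℝ) + 1))) ≤ 1 / 100 := by
    have h0 : (0 : ℝ) ≤ m := Nat.cast_nonneg m
    rw [mul_one_div, div_le_div_iff₀ (by positivity) (by norm_num)]
    linarith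
  obtain ⟨δ₁, hδ₁, hinit⟩ := rep_init m hm hη
  refine ⟨δ₁, hδ₁, ?_⟩
  intro ι _ a R hr cb rb kb hb K K' D D' ν ν' h1 h2 hcl
  obtain ⟨cK, rK, hK⟩ := h1.obj
  obtain ⟨cK', rK', hK'⟩ := h2.obj
  obtain ⟨g, hg, hrep, hin, hnear⟩ := hinit (rmAmb a R hr) cb rb kb hb K
    ((rm_nd hr K).2 ⟨_, _, hK⟩) h1.flat h1.cut
  obtain ⟨g', hg', hrep', hin', hnear'⟩ := hinit (rmAmb a R hr) cb rb kb hb K'
    ((rm_nd hr K').2 ⟨_, _, hK'⟩) h2.flat h2.cut
  obtain ⟨o, p1, ⟨c, r, p2⟩, p3, p4, p5⟩ := PairRmAux.one_side hr hb h1 hη2 hg hrep hin hnear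
  obtain ⟨o', q1, ⟨c', r', q2⟩, q3, q4, q5⟩ :=
    PairRmAux.one_side hr hb h2 hη2 hg' hrep' hin' hnear'
  have hPu : ∀ y ∈ Yset a R, IsUnit (ν • (dd K y - D)) := by
    intro y hy
    have h3 := (h1.unit y hy 1 ⟨zero_le_one, le_rfl⟩).1
    rw [one_smul] at h3
    exact OutPathAux.isUnit_smul' h3 h1.pos.ne'
  have hseg : (rmAmb a R hr).Seg o o' := by
    intro t ht0 ht1
    rw [rm_nd]
    refine ⟨_, _, PairRmAux.obj_comb (by omega) p2 q2 fun y => ?_⟩
    by_cases hy : ∀ i, 2 * R i ≤ ‖y - a i‖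
    · have hyY : y ∈ Yset a R := Or.inl hy
      rw [p3 y hy, q3 y hy]
      exact near_seg (hPu y hyY) (lt_of_le_of_lt (hcl y hyY) (by norm_num)) ⟨ht0, ht1⟩
    · push Not at hy
      obtain ⟨i, hi⟩ := hy
      have hpY : a i + (2 * R i) • w0 m ∈ Yset a R := Or.inr ⟨i, rfl⟩
      have h3 := p4 i y hi.le
      have h4 := q4 i y hi.le
      have h5 := hcl _ hpY
      have h6 := hPu _ hpY
      generalize hP : ν • (dd K (a i + (2 * R i) • w0 m) - D) = P at h3 h5 h6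
      generalize hP' : ν' • (dd K' (a i + (2 * R i) • w0 m) - D') = P' at h4 h5
      have h7 := (near_inv h6 h5 (by norm_num)).2
      refine near_mid h6 (lt_of_le_of_lt h3 (by norm_num)) ?_ ⟨ht0, ht1⟩
      have h8 : ‖dd o' y - P‖ ≤ ‖dd o' y - P'‖ + ‖P' - P‖ := norm_sub_le_norm_sub_add_norm_sub _ _ _
      calc ‖dd o' y - P‖ * ‖Ring.inverse P‖
          ≤ (‖dd o' y - P'‖ + ‖P' - P‖) * ‖Ring.inverse P‖ :=
            mul_le_mul_of_nonneg_right h8 (norm_nonneg _)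
        _ = ‖dd o' y - P'‖ * ‖Ring.inverse P‖ + ‖P' - P‖ * ‖Ring.inverse P‖ := by ring
        _ ≤ ‖dd o' y - P'‖ * (‖Ring.inverse P'‖ * (1 + 1 / 4)) + 1 / 4 :=
            add_le_add (mul_le_mul_of_nonneg_left h7 (norm_nonneg _)) h5
        _ = (‖dd o' y - P'‖ * ‖Ring.inverse P'‖) * (5 / 4) + 1 / 4 := by ring
        _ ≤ 1 / 100 * (5 / 4) + 1 / 4 := by linarith
        _ < 1 := by norm_num
  have hrep3 := rep_seg (rmAmb a R hr) hb p1 hseg
    (c' := fun i => ν' • (dd K' (a i + (2 * R i) • w0 m) - D'))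
    (fun i => ((sk_dd _ _).sub h2.sk).smul _) q5
  exact rm_eqv hr (rep_final (rmAmb a R hr) hb hrep3 q1) hK

end Pool.Agent.Lib.P28s
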