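import Pool.Agent.Lib.P28s.Dd

set_option autoImplicit false

/-!
# Objects and paths: formal properties

PROOF. `trans`: reparametrise; with `τ t = max 0 (min 1 t)` the family `t ↦ K (τ (2 t))` for `t ≤ 1/2`, `K' (τ (2 t - 1))` for `t ≥ 1/2`;
the two formulas agree at `t = 1/2`, `Continuous.if_le`. `R` may be enlarged (`Obj.mono`). `seg`: `K t = (1 - τ t) k + (τ t) k'` with
`τ` as above, `c t = (1 - τ t) c + τ t c'`; outside a large ball both are `lc`; the constant `c t` is a unit because it is the value of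
`dd (K t)` at a far point (for `m = 0` everything is trivial: `EV 0` is a subsingleton ring, every element is a unit).
`Obj.unique`: compare `lc c x = lc c' x` for large `x`, both are linear (for `m = 0` `EV 0` is a subsingleton). `Obj.pl`: `dd_pl`,
`‖x‖ ≤ ‖A⁻¹‖ ‖A x‖`, `tr A (lc c (A x)) = lc (tr A * c * A) x`. `Obj.sc`: `sc e (lc c) = lc c`. `sc_path`: `K t = sc (e_t) k`,
`e_t = 1 - τ t (1 - e) ∈ [e, 1]`, `dd (sc e_t k) x = dd k (e_t⁻¹ x)`.
`obj_shift`: `K t = fun x => s_t⁻¹ • k (s_t • x + τ t • b) - s_t⁻¹ • lc c (τ t • b)`, `s_t = 1 + τ t (s - 1) > 0`.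
-/

open MeasureTheory Set Metric
open scoped ContDiff Topology

namespace Pool.Agent.Lib.P28s

open Pool.Agent.Lib.P28f (V EV)

variable {m : ℕ} {c c' : EV m} {R R' r : ℝ} {k k' k'' : V m → V m}

namespace PathRelAux

/-- the clamp to `[0, 1]` -/
noncomputable def cl (t : ℝ) : ℝ := max 0 (min 1 t)

theorem cl_mem (t : ℝ) : cl t ∈ Icc (0 : ℝ) 1 :=
  ⟨le_max_left _ _, max_le zero_le_one (min_le_left _ _)⟩

theorem cl_zero : cl 0 = 0 := by
  unfold cl
  rw [min_eq_right zero_le_one, max_self]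

theorem cl_one : cl 1 = 1 := by
  unfold cl
  rw [min_self, max_eq_right zero_le_one]

theorem cl_cont : Continuous cl := by
  unfold cl
  fun_prop

theorem exists_far (hm : m ≠ 0) (ρ : ℝ) : ∃ x : V m, ρ < ‖x‖ := by
  have : Nonempty (Fin m) := ⟨⟨0, Nat.pos_of_ne_zero hm⟩⟩
  refine ⟨fun _ => |ρ| + 1, ?_⟩
  rw [pi_norm_const, Real.norm_eq_abs, abs_of_pos (by positivity)]
  linarith [le_abs_self ρ]

theorem lc_apply (c : EV m) (x : V m) : lc c x = (1 / 2 : ℝ) • c x := rfl

theorem lc_zero (c : EV m) : lc c 0 = 0 := by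
  rw [lc_apply, map_zero, smul_zero]

theorem dd_const (v x : V m) : dd (fun _ : V m => v) x = 0 := by
  unfold dd
  rw [fderiv_fun_const]
  have h : tr (0 : EV m) = 0 := by
    have h1 := tr_sub (0 : EV m) 0
    rwa [sub_self, sub_self] at h1
  simp only [Pi.zero_apply]
  rw [h, sub_zero]

theorem glue_dd {A B : ℝ → V m → V m} (hA : Continuous (fun p : ℝ × V m => dd (A p.1) p.2))
    (hB : Continuous (fun p : ℝ × V m => dd (B p.1) p.2)) (h : A 1 = B 0) :
    Continuous (fun p : ℝ × V m =>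
      dd ((fun t : ℝ => if t ≤ 1 / 2 then A (2 * t) else B (2 * t - 1)) p.1) p.2) := by
  have e : (fun p : ℝ × V m =>
      dd ((fun t : ℝ => if t ≤ 1 / 2 then A (2 * t) else B (2 * t - 1)) p.1) p.2) =
      fun p : ℝ × V m => if p.1 ≤ 1 / 2 then dd (A (2 * p.1)) p.2 else dd (B (2 * p.1 - 1)) p.2 := by
    funext p
    by_cases hp : p.1 ≤ 1 / 2
    · simp only [if_pos hp]
    · simp only [if_neg hp]
  rw [e]
  refine Continuous.if_le ?_ ?_ continuous_fst continuous_const ?_
  · exact hA.comp ((continuous_const.mul continuous_fst).prodMk continuous_snd)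
  · exact hB.comp (((continuous_const.mul continuous_fst).sub continuous_const).prodMk continuous_snd)
  · intro p hp
    have h1 : 2 * p.1 = 1 := by rw [hp]; norm_num
    have h2 : 2 * p.1 - 1 = 0 := by rw [hp]; norm_num
    rw [h1, sub_self, h]

end PathRelAux

open PathRelAux

theorem Obj.mono (h : Obj c R k) (hR : R ≤ R') : Obj c R' k :=
  ⟨h.sk, h.cunit, h.smooth, h.unit, fun x hx => h.out x (hR.trans hx)⟩

theorem Obj.unique (h : Obj c R k) (h' : Obj c' R' k) : c = c' := by
  refine ContinuousLinearMap.ext fun v => ?_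
  by_cases hv : v = 0
  · rw [hv, map_zero, map_zero]
  have hv0 : 0 < ‖v‖ := norm_pos_iff.2 hv
  set s : ℝ := (max |R| |R'| + 1) / ‖v‖ with hs
  have hs0 : 0 < s := div_pos (by positivity) hv0
  have hn : ‖s • v‖ = max |R| |R'| + 1 := by
    rw [norm_smul, Real.norm_eq_abs, abs_of_pos hs0, hs, div_mul_cancel₀ _ hv0.ne']
  have h1 := h.out (s • v) (by
    rw [hn]; exact (le_abs_self R).trans ((le_max_left _ _).trans (by linarith)))
  have h2 := h'.out (s • v) (by
    rw [hn]; exact (le_abs_self R').trans ((le_max_right _ _).trans (by linarith)))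
  rw [h1, lc_apply, lc_apply, map_smul, map_smul, smul_smul, smul_smul] at h2
  exact smul_right_injective (V m) (mul_ne_zero (by norm_num) hs0.ne') h2

theorem Obj.dd_out (h : Obj c R k) {x : V m} (hx : R < ‖x‖) : dd k x = c := by
  have h1 : k =ᶠ[𝓝 x] lc c := by
    filter_upwards [(isOpen_lt continuous_const continuous_norm).mem_nhds hx] with y hy
    exact h.out y (le_of_lt hy)
  rw [dd_congr h1, dd_lc h.sk]

theorem obj_lc (hs : Sk c) (hu : IsUnit c) : Obj c 0 (lc c) :=
  ⟨hs, hu, contDiff_lc c, fun x => by rw [dd_lc hs]; exact hu, fun _ _ => rfl⟩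

theorem PathV.refl (h : Obj c R k) : PathV k k :=
  ⟨fun _ => k, fun _ => c, R, fun _ => h, continuous_const,
    (continuous_dd h.smooth).comp continuous_snd, rfl, rfl⟩

theorem PathV.symm (h : PathV k k') : PathV k' k := by
  obtain ⟨K, c, R, hO, hc, hK, h0, h1⟩ := h
  refine ⟨fun t => K (1 - t), fun t => c (1 - t), R, fun t => hO _, ?_, ?_, ?_, ?_⟩
  · exact hc.comp (continuous_const.sub continuous_id)
  · exact hK.comp ((continuous_const.sub continuous_fst).prodMk continuous_snd)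
  · show K (1 - 0) = k'
    rw [sub_zero, h1]
  · show K (1 - 1) = k
    rw [sub_self, h0]

theorem PathV.trans (h : PathV k k') (h' : PathV k' k'') : PathV k k'' := by
  obtain ⟨K, c, R, hO, hc, hK, h0, h1⟩ := h
  obtain ⟨K', c', R', hO', hc', hK', h0', h1'⟩ := h'
  have hcc : c 1 = c' 0 := by
    have e1 := hO 1
    have e2 := hO' 0
    rw [h1] at e1
    rw [h0'] at e2
    exact e1.unique e2
  refine ⟨fun t => if t ≤ 1 / 2 then K (2 * t) else K' (2 * t - 1),
    fun t => if t ≤ 1 / 2 then c (2 * t) else c' (2 * t - 1), max R R', fun t => ?_, ?_, ?_, ?_, ?_⟩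
  · by_cases ht : t ≤ 1 / 2
    · simp only [if_pos ht]
      exact (hO _).mono (le_max_left _ _)
    · simp only [if_neg ht]
      exact (hO' _).mono (le_max_right _ _)
  · refine Continuous.if_le ?_ ?_ continuous_id continuous_const ?_
    · exact hc.comp (continuous_const.mul continuous_id)
    · exact hc'.comp ((continuous_const.mul continuous_id).sub continuous_const)
    · intro t ht
      have h3 : 2 * t = 1 := by rw [ht]; norm_num
      rw [h3, sub_self, hcc]
  · exact glue_dd hK hK' (by rw [h1, h0'])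
  · show (if (0 : ℝ) ≤ 1 / 2 then K (2 * 0) else K' (2 * 0 - 1)) = k
    rw [if_pos (by norm_num), mul_zero, h0]
  · show (if (1 : ℝ) ≤ 1 / 2 then K (2 * 1) else K' (2 * 1 - 1)) = k''
    rw [if_neg (by norm_num), ← h1']
    congr 1
    norm_num

theorem PathV.left (h : PathV k k') : ∃ c R, Obj c R k := by
  obtain ⟨K, c, R, hO, hc, hK, h0, h1⟩ := h
  exact ⟨c 0, R, h0 ▸ hO 0⟩

theorem PathV.right (h : PathV k k') : ∃ c R, Obj c R k' := by
  obtain ⟨K, c, R, hO, hc, hK, h0, h1⟩ := h
  exact ⟨c 1, R, h1 ▸ hO 1⟩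

theorem PathC.toV (h : PathC c r k k') : PathV k k' := by
  obtain ⟨K, hO, hK, h0, h1⟩ := h
  exact ⟨K, fun _ => c, r, hO, continuous_const, hK, h0, h1⟩

theorem PathC.refl (h : Obj c r k) : PathC c r k k :=
  ⟨fun _ => k, fun _ => h, (continuous_dd h.smooth).comp continuous_snd, rfl, rfl⟩

theorem PathC.symm (h : PathC c r k k') : PathC c r k' k := by
  obtain ⟨K, hO, hK, h0, h1⟩ := h
  refine ⟨fun t => K (1 - t), fun t => hO _, ?_, ?_, ?_⟩
  · exact hK.comp ((continuous_const.sub continuous_fst).prodMk continuous_snd)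
  · show K (1 - 0) = k'
    rw [sub_zero, h1]
  · show K (1 - 1) = k
    rw [sub_self, h0]

theorem PathC.trans (h : PathC c r k k') (h' : PathC c r k' k'') : PathC c r k k'' := by
  obtain ⟨K, hO, hK, h0, h1⟩ := h
  obtain ⟨K', hO', hK', h0', h1'⟩ := h'
  refine ⟨fun t => if t ≤ 1 / 2 then K (2 * t) else K' (2 * t - 1), fun t => ?_, ?_, ?_, ?_⟩
  · by_cases ht : t ≤ 1 / 2
    · simp only [if_pos ht]
      exact hO _
    · simp only [if_neg ht]
      exact hO' _
  · exact glue_dd hK hK' (by rw [h1, h0'])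
  · show (if (0 : ℝ) ≤ 1 / 2 then K (2 * 0) else K' (2 * 0 - 1)) = k
    rw [if_pos (by norm_num), mul_zero, h0]
  · show (if (1 : ℝ) ≤ 1 / 2 then K (2 * 1) else K' (2 * 1 - 1)) = k''
    rw [if_neg (by norm_num), ← h1']
    congr 1
    norm_num

theorem PathC.mono {r' : ℝ} (h : PathC c r k k') (hr : r ≤ r') : PathC c r' k k' := by
  obtain ⟨K, hO, hK, h0, h1⟩ := h
  exact ⟨K, fun t => (hO t).mono hr, hK, h0, h1⟩

theorem PathV.seg (h : Obj c R k) (h' : Obj c' R' k')
    (hu : ∀ t ∈ Icc (0 : ℝ) 1, ∀ x, IsUnit ((1 - t) • dd k x + t • dd k' x)) : PathV k k' := by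
  have hdiff : ∀ x, DifferentiableAt ℝ k x := fun x => h.smooth.differentiable (by simp) x
  have hdiff' : ∀ x, DifferentiableAt ℝ k' x := fun x => h'.smooth.differentiable (by simp) x
  have hdd : ∀ (t : ℝ) (x : V m), dd (fun y => (1 - t) • k y + t • k' y) x =
      (1 - t) • dd k x + t • dd k' x := by
    intro t x
    have e1 : DifferentiableAt ℝ (fun y => (1 - t) • k y) x := (hdiff x).const_smul (1 - t)
    have e2 : DifferentiableAt ℝ (fun y => t • k' y) x := (hdiff' x).const_smul t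
    rw [dd_add e1 e2, dd_smul (hdiff x), dd_smul (hdiff' x)]
  refine ⟨fun t y => (1 - cl t) • k y + cl t • k' y, fun t => (1 - cl t) • c + cl t • c',
    max R R', fun t => ⟨?_, ?_, ?_, ?_, ?_⟩, ?_, ?_, ?_, ?_⟩
  · exact (h.sk.smul _).add (h'.sk.smul _)
  · by_cases hm : m = 0
    · subst hm
      exact isUnit_of_subsingleton _
    · obtain ⟨x, hx⟩ := exists_far hm (max R R')
      have h1 := hu (cl t) (cl_mem t) x
      rwa [h.dd_out ((le_max_left _ _).trans_lt hx), h'.dd_out ((le_max_right _ _).trans_lt hx)] at h1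
  · exact (h.smooth.const_smul _).add (h'.smooth.const_smul _)
  · intro x
    rw [hdd]
    exact hu _ (cl_mem t) x
  · intro x hx
    show (1 - cl t) • k x + cl t • k' x = _
    rw [h.out x ((le_max_left _ _).trans hx), h'.out x ((le_max_right _ _).trans hx)]
    simp only [lc_apply, ContinuousLinearMap.add_apply, ContinuousLinearMap.smul_apply]
    module
  · exact ((continuous_const.sub cl_cont).smul continuous_const).add
      (cl_cont.smul continuous_const)
  · have e : (fun p : ℝ × V m => dd ((fun (t : ℝ) y => (1 - cl t) • k y + cl t • k' y) p.1) p.2) =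
        fun p : ℝ × V m => (1 - cl p.1) • dd k p.2 + cl p.1 • dd k' p.2 := by
      funext p
      exact hdd (cl p.1) p.2
    rw [e]
    have c1 := (continuous_dd h.smooth).comp (continuous_snd (X := ℝ) (Y := V m))
    have c2 := (continuous_dd h'.smooth).comp (continuous_snd (X := ℝ) (Y := V m))
    have c3 := cl_cont.comp (continuous_fst (X := ℝ) (Y := V m))
    exact ((continuous_const.sub c3).smul c1).add (c3.smul c2)
  · funext y
    show (1 - cl 0) • k y + cl 0 • k' y = k y
    rw [cl_zero]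
    simp
  · funext y
    show (1 - cl 1) • k y + cl 1 • k' y = k' y
    rw [cl_one]
    simp

theorem Obj.pl (h : Obj c R k) {A : EV m} (hA : IsUnit A) :
    Obj (tr A * c * A) (‖Ring.inverse A‖ * |R|) (pl A k) := by
  have hinv : ∀ x : V m, Ring.inverse A (A x) = x := by
    intro x
    have h1 := Ring.inverse_mul_cancel A hA
    calc Ring.inverse A (A x) = (Ring.inverse A * A) x := rfl
      _ = x := by rw [h1]; rfl
  refine ⟨h.sk.conj A, ((isUnit_tr hA).mul h.cunit).mul hA, ?_, ?_, ?_⟩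
  · exact (tr A).contDiff.comp (h.smooth.comp A.contDiff)
  · intro x
    rw [dd_pl A (h.smooth.differentiable (by simp) _)]
    exact ((isUnit_tr hA).mul (h.unit _)).mul hA
  · intro x hx
    have h2 : ‖x‖ ≤ ‖Ring.inverse A‖ * ‖A x‖ := by
      calc ‖x‖ = ‖Ring.inverse A (A x)‖ := by rw [hinv]
        _ ≤ ‖Ring.inverse A‖ * ‖A x‖ := ContinuousLinearMap.le_opNorm _ _
    by_cases h0 : ‖Ring.inverse A‖ = 0
    · have hall : ∀ y : V m, y = 0 := by
        intro y
        rw [← hinv y, norm_eq_zero.1 h0]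
        rfl
      rw [hall (P28s.pl A k x), hall (lc (tr A * c * A) x)]
    · have h3 : 0 < ‖Ring.inverse A‖ := lt_of_le_of_ne (norm_nonneg _) (Ne.symm h0)
      have h4 : |R| ≤ ‖A x‖ := le_of_mul_le_mul_left (hx.trans h2) h3
      show tr A (k (A x)) = lc (tr A * c * A) x
      rw [h.out (A x) ((le_abs_self R).trans h4), lc_apply, lc_apply, map_smul]
      rfl

theorem Obj.sc (h : Obj c R k) {e : ℝ} (he : 0 < e) : Obj c (e * R) (sc e k) := by
  refine ⟨h.sk, h.cunit, ?_, ?_, ?_⟩
  · exact (h.smooth.comp (contDiff_const_smul _)).const_smul _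
  · intro x
    rw [dd_sc he.ne' (h.smooth.differentiable (by simp) _)]
    exact h.unit _
  · intro x hx
    show e • k (e⁻¹ • x) = lc c x
    have h1 : R ≤ ‖e⁻¹ • x‖ := by
      rw [norm_smul, norm_inv, Real.norm_eq_abs, abs_of_pos he, le_inv_mul_iff₀ he]
      exact hx
    rw [h.out _ h1, lc_apply, lc_apply, map_smul, smul_smul, smul_smul]
    congr 1
    field_simp

theorem pl_pl (A B : EV m) (k : V m → V m) : pl A (pl B k) = pl (B * A) k := by
  funext x
  show tr A (tr B (k (B (A x)))) = tr (B * A) (k ((B * A) x))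
  rw [tr_mul]
  rfl

theorem pl_one (k : V m → V m) : pl 1 k = k := by
  funext x
  show tr 1 (k ((1 : EV m) x)) = k x
  rw [tr_one]
  rfl

theorem sc_one (k : V m → V m) : sc 1 k = k := by
  funext x
  show (1 : ℝ) • k ((1 : ℝ)⁻¹ • x) = k x
  rw [inv_one, one_smul, one_smul]

theorem sc_sc {e e' : ℝ} (he : e ≠ 0) (he' : e' ≠ 0) (k : V m → V m) :
    sc e (sc e' k) = sc (e * e') k := by
  funext x
  show e • (e' • k (e'⁻¹ • (e⁻¹ • x))) = (e * e') • k ((e * e')⁻¹ • x)
  rw [smul_smul, smul_smul]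
  congr 3
  rw [mul_inv]
  ring

theorem sc_pl (e : ℝ) (A : EV m) (k : V m → V m) : sc e (pl A k) = pl A (sc e k) := by
  funext x
  show e • tr A (k (A (e⁻¹ • x))) = tr A (e • k (e⁻¹ • A x))
  rw [map_smul, map_smul]

theorem pl_lc (A c : EV m) : pl A (lc c) = lc (tr A * c * A) := by
  funext x
  show tr A (lc c (A x)) = lc (tr A * c * A) x
  rw [lc_apply, lc_apply, map_smul]
  rfl

theorem sc_path (h : Obj c R k) (hR : 0 ≤ R) {e : ℝ} (he : 0 < e) (he1 : e ≤ 1) :
    PathC c R k (sc e k) := by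
  have hpos : ∀ t : ℝ, 0 < 1 - cl t * (1 - e) := by
    intro t
    have h1 := cl_mem t
    have h2 : cl t * (1 - e) ≤ 1 * (1 - e) := mul_le_mul_of_nonneg_right h1.2 (by linarith)
    linarith
  have hle : ∀ t : ℝ, 1 - cl t * (1 - e) ≤ 1 := by
    intro t
    have h1 := cl_mem t
    have h2 : 0 ≤ cl t * (1 - e) := mul_nonneg h1.1 (by linarith)
    linarith
  refine ⟨fun t => P28s.sc (1 - cl t * (1 - e)) k, fun t => ?_, ?_, ?_, ?_⟩
  · refine (h.sc (hpos t)).mono ?_
    exact mul_le_of_le_one_left hR (hle t)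
  · have e1 : (fun p : ℝ × V m => dd ((fun t : ℝ => P28s.sc (1 - cl t * (1 - e)) k) p.1) p.2) =
        fun p : ℝ × V m => dd k ((1 - cl p.1 * (1 - e))⁻¹ • p.2) := by
      funext p
      exact dd_sc (hpos p.1).ne' (h.smooth.differentiable (by simp) _)
    rw [e1]
    refine (continuous_dd h.smooth).comp ?_
    have c3 : Continuous (fun p : ℝ × V m => 1 - cl p.1 * (1 - e)) :=
      continuous_const.sub ((cl_cont.comp continuous_fst).mul continuous_const)
    exact (c3.inv₀ (fun p => (hpos p.1).ne')).smul continuous_snd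
  · show P28s.sc (1 - cl 0 * (1 - e)) k = k
    rw [cl_zero, zero_mul, sub_zero, sc_one]
  · show P28s.sc (1 - cl 1 * (1 - e)) k = P28s.sc e k
    rw [cl_one, one_mul, sub_sub_cancel]

theorem PathC.sc (h : PathC c r k k') {e : ℝ} (he : 0 < e) : PathC c (e * r) (sc e k) (sc e k') := by
  obtain ⟨K, hO, hK, h0, h1⟩ := h
  refine ⟨fun t => P28s.sc e (K t), fun t => (hO t).sc he, ?_, ?_, ?_⟩
  · have e1 : (fun p : ℝ × V m => dd ((fun t : ℝ => P28s.sc e (K t)) p.1) p.2) =
        fun p : ℝ × V m => dd (K p.1) (e⁻¹ • p.2) := by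
      funext p
      exact dd_sc he.ne' ((hO p.1).smooth.differentiable (by simp) _)
    rw [e1]
    exact hK.comp (continuous_fst.prodMk (continuous_snd.const_smul e⁻¹))
  · show P28s.sc e (K 0) = _
    rw [h0]
  · show P28s.sc e (K 1) = _
    rw [h1]

theorem PathC.pl (h : PathC c r k k') {A : EV m} (hA : IsUnit A) :
    PathC (tr A * c * A) (‖Ring.inverse A‖ * |r|) (pl A k) (pl A k') := by
  obtain ⟨K, hO, hK, h0, h1⟩ := h
  refine ⟨fun t => P28s.pl A (K t), fun t => (hO t).pl hA, ?_, ?_, ?_⟩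
  · have e1 : (fun p : ℝ × V m => dd ((fun t : ℝ => P28s.pl A (K t)) p.1) p.2) =
        fun p : ℝ × V m => tr A * dd (K p.1) (A p.2) * A := by
      funext p
      exact dd_pl A ((hO p.1).smooth.differentiable (by simp) _)
    rw [e1]
    have c1 : Continuous (fun p : ℝ × V m => dd (K p.1) (A p.2)) :=
      hK.comp (continuous_fst.prodMk (A.continuous.comp continuous_snd))
    exact (continuous_const.mul c1).mul continuous_const
  · show P28s.pl A (K 0) = _
    rw [h0]
  · show P28s.pl A (K 1) = _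
    rw [h1]

/-- Affine changes of the variable do not change the class. -/
theorem obj_shift (h : Obj c R k) {s : ℝ} (hs : 0 < s) (b : V m) :
    PathV k (fun x => s⁻¹ • k (s • x + b) - s⁻¹ • lc c b) := by
  set σ : ℝ → ℝ := fun t => 1 + cl t * (s - 1) with hσ
  set μ : ℝ := min 1 s with hμ
  have hμ0 : 0 < μ := lt_min one_pos hs
  have hσμ : ∀ t, μ ≤ σ t := by
    intro t
    have h1 := cl_mem t
    have h2 : μ ≤ 1 := min_le_left _ _
    have h3 : μ ≤ s := min_le_right _ _
    have h4 : σ t = (1 - cl t) * 1 + cl t * s := by simp only [hσ]; ring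
    rw [h4]
    have h5 : (1 - cl t) * μ ≤ (1 - cl t) * 1 := mul_le_mul_of_nonneg_left h2 (by linarith [h1.2])
    have h6 : cl t * μ ≤ cl t * s := mul_le_mul_of_nonneg_left h3 h1.1
    linarith
  have hσ0 : ∀ t, 0 < σ t := fun t => hμ0.trans_le (hσμ t)
  have hσc : Continuous σ := continuous_const.add (cl_cont.mul continuous_const)
  have hdiff : ∀ x, DifferentiableAt ℝ k x := fun x => h.smooth.differentiable (by simp) x
  have hdd : ∀ (t : ℝ) (x : V m),
      dd (fun x => (σ t)⁻¹ • k (σ t • x + cl t • b) - (σ t)⁻¹ • lc c (cl t • b)) x =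
        dd k (cl t • b + σ t • x) := by
    intro t x
    have e1 : (fun x => (σ t)⁻¹ • k (σ t • x + cl t • b) - (σ t)⁻¹ • lc c (cl t • b)) =
        fun x => co k (cl t • b) (σ t) x - (fun _ : V m => (σ t)⁻¹ • lc c (cl t • b)) x := by
      funext x
      show _ = (σ t)⁻¹ • k (cl t • b + σ t • x) - (σ t)⁻¹ • lc c (cl t • b)
      rw [add_comm (σ t • x)]
    have hco : DifferentiableAt ℝ (co k (cl t • b) (σ t)) x :=
      (contDiffAt_co (h.smooth.contDiffAt)).differentiableAt (by simp)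
    rw [e1, dd_sub hco (differentiableAt_const _), dd_const, sub_zero,
      dd_co (hσ0 t).ne' (hdiff _)]
  refine ⟨fun t x => (σ t)⁻¹ • k (σ t • x + cl t • b) - (σ t)⁻¹ • lc c (cl t • b), fun _ => c,
    (|R| + ‖b‖) / μ, fun t => ⟨h.sk, h.cunit, ?_, ?_, ?_⟩, continuous_const, ?_, ?_, ?_⟩
  · have h1 : ContDiff ℝ ∞ (fun x : V m => σ t • x + cl t • b) :=
      (contDiff_id.const_smul (σ t)).add contDiff_const
    exact ((h.smooth.comp h1).const_smul _).sub contDiff_const
  · intro x
    rw [hdd]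
    exact h.unit _
  · intro x hx
    have h1 : |R| + ‖b‖ ≤ σ t * ‖x‖ := by
      rw [div_le_iff₀ hμ0] at hx
      have h2 : ‖x‖ * μ ≤ ‖x‖ * σ t := mul_le_mul_of_nonneg_left (hσμ t) (norm_nonneg x)
      linarith
    have h2 : R ≤ ‖σ t • x + cl t • b‖ := by
      have h3 : ‖σ t • x‖ = σ t * ‖x‖ := by
        rw [norm_smul, Real.norm_eq_abs, abs_of_pos (hσ0 t)]
      have h4 : ‖cl t • b‖ ≤ ‖b‖ := by
        rw [norm_smul, Real.norm_eq_abs, abs_of_nonneg (cl_mem t).1]
        exact mul_le_of_le_one_left (norm_nonneg b) (cl_mem t).2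
      have h5 : ‖σ t • x‖ ≤ ‖σ t • x + cl t • b‖ + ‖cl t • b‖ := by
        have h6 := norm_sub_le (σ t • x + cl t • b) (cl t • b)
        rwa [add_sub_cancel_right] at h6
      have h7 := le_abs_self R
      linarith
    show (σ t)⁻¹ • k (σ t • x + cl t • b) - (σ t)⁻¹ • lc c (cl t • b) = lc c x
    rw [h.out _ h2, ← smul_sub, lc_apply, lc_apply, lc_apply, map_add, smul_add,
      add_sub_cancel_right, map_smul, smul_smul, smul_smul]
    congr 1
    have := (hσ0 t).ne'
    field_simp
  · have e1 : (fun p : ℝ × V m => dd ((fun (t : ℝ) x => (σ t)⁻¹ • k (σ t • x + cl t • b) -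
        (σ t)⁻¹ • lc c (cl t • b)) p.1) p.2) =
        fun p : ℝ × V m => dd k (cl p.1 • b + σ p.1 • p.2) := by
      funext p
      exact hdd p.1 p.2
    rw [e1]
    refine (continuous_dd h.smooth).comp ?_
    have c3 := cl_cont.comp (continuous_fst (X := ℝ) (Y := V m))
    have c4 := hσc.comp (continuous_fst (X := ℝ) (Y := V m))
    exact (c3.smul continuous_const).add (c4.smul continuous_snd)
  · funext x
    show (σ 0)⁻¹ • k (σ 0 • x + cl 0 • b) - (σ 0)⁻¹ • lc c (cl 0 • b) = k x
    have h1 : σ 0 = 1 := by simp only [hσ, cl_zero]; ring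
    rw [h1, cl_zero, zero_smul, lc_zero, smul_zero, sub_zero, inv_one, one_smul, one_smul, add_zero]
  · funext x
    show (σ 1)⁻¹ • k (σ 1 • x + cl 1 • b) - (σ 1)⁻¹ • lc c (cl 1 • b) = _
    have h1 : σ 1 = s := by simp only [hσ, cl_one]; ring
    rw [h1, cl_one, one_smul]

end Pool.Agent.Lib.P28s
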