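import Pool.Agent.Lib.P28s.Dd
import Pool.Agent.Lib.P28e.AvgSmooth

set_option autoImplicit false

/-!
# The Poincaré lemma on convex sets, with an estimate

PROOF. `f v = ∫ t in [0, 1], ∑ k, lam (p + t (v - p)) k * (v - p) k`. Smooth on `S`: `Pool.Agent.Lib.P28e.contDiffOn_param` with `F = ℝ`, `K = Icc 0 1`, `Ω = S`: the integrand is smooth on the open set `{(v, t) | p + t (v - p) ∈ S}`; `contDiffOn_param` wants a product `Ω ×ˢ O`, so apply it locally: for `v₀ ∈ S` the segment `[p, v₀]` is compact in the open set `S`, so there are `r, η > 0` with `p + t (v - p) ∈ S` for `v ∈ ball v₀ r`, `t ∈ Ioo (-η) (1 + η)` (tube lemma `generalized_tube_lemma` or `IsCompact.exists_thickening_subset_open`); `Ω = ball v₀ r`,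
`O = Ioo (-η) (1 + η)`. The derivative (differentiate under the integral, e.g. `hasFDerivAt_integral_of_dominated_of_fderiv_le` on `ball v₀ r`, or use the formula from `AvgSmoothAux.param_aux`): with `x_t = p + t (v - p)`,
`∂_j f v = ∫ (∑_k t ∂_j lam_k (x_t) (v - p)_k + lam_j (x_t)) dt`. On the other hand `lam_j v = ∫_0^1 (d/dt) (t lam_j (x_t)) dt = ∫ (lam_j (x_t) + t ∑_k ∂_k lam_j (x_t) (v - p)_k) dt`. Hence `lam v - grad f v = ∫_0^1 t • dd lam (x_t) (v - p) dt`, of norm `≤ ε ‖v - p‖`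
(`(dd lam x u)_j = ∑_k (∂_k lam_j - ∂_j lam_k) u_k` by `tr_apply`).
`grad_lip`: `fderiv ℝ f x v = ∑ i, grad f x i * v i`, so `‖fderiv ℝ f x‖ ≤ m ε` on `S` and `Convex.norm_image_sub_le_of_norm_fderiv_le`.
-/

open MeasureTheory Set Metric
open scoped ContDiff Topology

namespace Pool.Agent.Lib.P28s

open Pool.Agent.Lib.P28f (V EV ann w0 Light)

variable {m : ℕ}

namespace PoinSAux

theorem param_deriv {E F G : Type} [NormedAddCommGroup E] [NormedSpace ℝ E]
    [FiniteDimensional ℝ E] [NormedAddCommGroup F] [NormedSpace ℝ F] [FiniteDimensional ℝ F]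
    [MeasurableSpace F] [BorelSpace F] [NormedAddCommGroup G] [NormedSpace ℝ G]
    [FiniteDimensional ℝ G] (μ : Measure F) [IsFiniteMeasureOnCompacts μ] {Ω : Set E} {O K : Set F}
    (hΩ : IsOpen Ω) (hO : IsOpen O) (hK : IsCompact K) (hKO : K ⊆ O) {Ψ : E × F → G}
    (hΨ : ContDiffOn ℝ 1 Ψ (Ω ×ˢ O)) {z₀ : E} (hz₀ : z₀ ∈ Ω) :
    HasFDerivAt (fun z => ∫ η in K, Ψ (z, η) ∂μ)
      (∫ η in K, (fderiv ℝ Ψ (z₀, η)).comp (ContinuousLinearMap.inl ℝ E F) ∂μ) z₀ ∧
    IntegrableOn (fun η => (fderiv ℝ Ψ (z₀, η)).comp (ContinuousLinearMap.inl ℝ E F)) K μ := by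
  have hopen : IsOpen (Ω ×ˢ O) := hΩ.prod hO
  have hfin : IsFiniteMeasure (μ.restrict K) := ⟨by
    rw [Measure.restrict_apply_univ]; exact hK.measure_lt_top⟩
  have hdiff : DifferentiableOn ℝ Ψ (Ω ×ˢ O) := hΨ.differentiableOn (by norm_num)
  have hder : ContinuousOn (fderiv ℝ Ψ) (Ω ×ˢ O) := hΨ.continuousOn_fderiv_of_isOpen hopen (by norm_num)
  set Ψ' : E × F → E →L[ℝ] G := fun p => (fderiv ℝ Ψ p).comp (ContinuousLinearMap.inl ℝ E F) with hΨ'
  have hder' : ContinuousOn Ψ' (Ω ×ˢ O) := hder.clm_comp continuousOn_const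
  obtain ⟨r, hr, hrΩ⟩ := nhds_basis_closedBall.mem_iff.1 (hΩ.mem_nhds hz₀)
  have hc : IsCompact (closedBall z₀ r ×ˢ K) := (isCompact_closedBall z₀ r).prod hK
  obtain ⟨C, hC⟩ := hc.exists_bound_of_continuousOn (hder'.mono (prod_mono hrΩ hKO))
  have hsl : ∀ z ∈ Ω, ContinuousOn (fun η => Ψ (z, η)) K := fun z hz =>
    hΨ.continuousOn.comp (Continuous.prodMk_right z).continuousOn (fun η hη => ⟨hz, hKO hη⟩)
  have hsl' : ∀ z ∈ Ω, ContinuousOn (fun η => Ψ' (z, η)) K := fun z hz =>
    hder'.comp (Continuous.prodMk_right z).continuousOn (fun η hη => ⟨hz, hKO hη⟩)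
  refine ⟨?_, (hsl' z₀ hz₀).integrableOn_compact hK⟩
  refine hasFDerivAt_integral_of_dominated_of_fderiv_le (bound := fun _ => C) (F' := fun z η => Ψ' (z, η))
    (closedBall_mem_nhds z₀ hr) ?_ ?_ ?_ ?_ ?_ ?_
  · filter_upwards [hΩ.mem_nhds hz₀] with z hz using (hsl z hz).aestronglyMeasurable hK.measurableSet
  · exact (hsl z₀ hz₀).integrableOn_compact hK
  · exact (hsl' z₀ hz₀).aestronglyMeasurable hK.measurableSet
  · rw [ae_restrict_iff' hK.measurableSet]
    exact Filter.Eventually.of_forall fun η hη z hz => hC (z, η) ⟨hz, hη⟩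
  · exact integrable_const C
  · rw [ae_restrict_iff' hK.measurableSet]
    refine Filter.Eventually.of_forall fun η hη z hz => ?_
    have h2 : HasFDerivAt Ψ (fderiv ℝ Ψ (z, η)) (z, η) :=
      (hdiff.differentiableAt (hopen.mem_nhds ⟨hrΩ hz, hKO hη⟩)).hasFDerivAt
    exact h2.comp z (hasFDerivAt_prodMk_left z η)

end PoinSAux

theorem poin {S : Set (V m)} (hS : Convex ℝ S) (ho : IsOpen S) {p : V m} (hp : p ∈ S) {lam : V m → V m}
    (hl : ∀ x ∈ S, ContDiffAt ℝ ∞ lam x) {ε : ℝ} (hε : ∀ x ∈ S, ‖dd lam x‖ ≤ ε) :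
    ∃ f : V m → ℝ, (∀ x ∈ S, ContDiffAt ℝ ∞ f x) ∧ ∀ x ∈ S, ‖lam x - grad f x‖ ≤ ε * ‖x - p‖ := by
  classical
  set X : V m × ℝ → V m := fun q => p + q.2 • (q.1 - p) with hX
  have hXc : Continuous X := by fun_prop
  have hXs : ContDiff ℝ ∞ X := by fun_prop
  have hseg : ∀ v ∈ S, ∀ t ∈ Icc (0 : ℝ) 1, X (v, t) ∈ S := by
    intro v hv t ht
    have := hS.add_smul_sub_mem hp hv ht
    simpa [hX] using this
  set Ψ : V m × ℝ → ℝ := fun q => ∑ k, lam (X q) k * (q.1 - p) k with hΨd
  have hopen : IsOpen (X ⁻¹' S) := ho.preimage hXc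
  have hΨs : ContDiffOn ℝ ∞ Ψ (X ⁻¹' S) := by
    refine ContDiffOn.sum fun k _ => ?_
    have h1 : ContDiffOn ℝ ∞ (fun q => lam (X q)) (X ⁻¹' S) := by
      intro q hq
      exact ((hl (X q) hq).comp q hXs.contDiffAt).contDiffWithinAt
    have h2 : ContDiffOn ℝ ∞ (fun q : V m × ℝ => (q.1 - p) k) (X ⁻¹' S) := by
      have : ContDiff ℝ ∞ (fun q : V m × ℝ => (q.1 - p) k) := by fun_prop
      exact this.contDiffOn
    exact (contDiffOn_pi.1 h1 k).mul h2
  have hloc : ∀ v ∈ S, ∃ (Ω : Set (V m)) (O : Set ℝ), IsOpen Ω ∧ IsOpen O ∧ v ∈ Ω ∧ Icc 0 1 ⊆ O ∧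
      Ω ×ˢ O ⊆ X ⁻¹' S := by
    intro v hv
    obtain ⟨u, w, hu, hw, hvu, hw1, huw⟩ := generalized_tube_lemma (s := {v}) (t := Icc (0 : ℝ) 1)
      isCompact_singleton isCompact_Icc hopen (by
        rintro ⟨a, b⟩ ⟨ha, hb⟩
        rw [mem_singleton_iff] at ha
        simp only at ha
        subst ha
        exact hseg a hv b hb)
    exact ⟨u, w, hu, hw, hvu rfl, hw1, huw⟩
  have hvol : (volume (Icc (0 : ℝ) 1)) < ⊤ := by simp
  refine ⟨fun v => ∫ t in Icc (0 : ℝ) 1, Ψ (v, t), ?_, ?_⟩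
  · intro v hv
    obtain ⟨Ω, O, hΩ, hO, hvΩ, hK, hsub⟩ := hloc v hv
    exact (Pool.Agent.Lib.P28e.contDiffOn_param volume hΩ hO isCompact_Icc hK (hΨs.mono hsub)).contDiffAt
      (hΩ.mem_nhds hvΩ)
  · intro v hv
    obtain ⟨Ω, O, hΩ, hO, hvΩ, hK, hsub⟩ := hloc v hv
    obtain ⟨hd, hint⟩ := PoinSAux.param_deriv volume hΩ hO isCompact_Icc hK
      ((hΨs.mono hsub).of_le (by exact_mod_cast le_top)) hvΩ
    set w : V m := v - p with hw
    set x : ℝ → V m := fun t => X (v, t) with hx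
    have hxS : ∀ t ∈ Icc (0 : ℝ) 1, x t ∈ S := fun t ht => hseg v hv t ht
    have hxd : ∀ t : ℝ, HasDerivAt x w t := by
      intro t
      have h1 : HasDerivAt (fun t : ℝ => p + t • w) ((1 : ℝ) • w) t :=
        ((hasDerivAt_id t).smul_const w).const_add p
      rw [one_smul] at h1
      exact h1
    have hxc : Continuous x := by
      have : x = fun t => p + t • w := rfl
      rw [this]
      fun_prop
    have hdlam : ∀ t ∈ Icc (0 : ℝ) 1, HasFDerivAt lam (fderiv ℝ lam (x t)) (x t) := fun t ht =>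
      ((hl (x t) (hxS t ht)).differentiableAt (by simp)).hasFDerivAt
    -- continuity of the derivative along the segment
    have hDc : ContinuousOn (fun t => fderiv ℝ lam (x t)) (Icc 0 1) := by
      intro t ht
      have h1 : ContinuousAt (fderiv ℝ lam) (x t) :=
        ((hl (x t) (hxS t ht)).fderiv_right (m := 0) (by simp)).continuousAt
      exact (ContinuousAt.comp (f := x) h1 hxc.continuousAt).continuousWithinAt
    have hLc : ContinuousOn (fun t => lam (x t)) (Icc 0 1) := by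
      intro t ht
      exact (ContinuousAt.comp (f := x) (hl (x t) (hxS t ht)).continuousAt hxc.continuousAt).continuousWithinAt
    -- the first expression of `lam v`
    set P : ℝ → V m := fun t => lam (x t) + t • (fderiv ℝ lam (x t) w) with hP
    have hPc : ContinuousOn P (Icc 0 1) :=
      hLc.add (continuousOn_id.smul (hDc.clm_apply continuousOn_const))
    have hlam : ∫ t in Icc (0 : ℝ) 1, P t = lam v := by
      rw [integral_Icc_eq_integral_Ioc, ← intervalIntegral.integral_of_le zero_le_one]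
      have h1 : ∀ t ∈ uIcc (0 : ℝ) 1, HasDerivAt (fun t => t • lam (x t)) (P t) t := by
        intro t ht
        rw [uIcc_of_le zero_le_one] at ht
        have h2 : HasDerivAt (fun t => lam (x t)) (fderiv ℝ lam (x t) w) t :=
          (hdlam t ht).comp_hasDerivAt t (hxd t)
        have h3 := (hasDerivAt_id t).smul h2
        refine h3.congr_deriv ?_
        simp only [hP, id, one_smul]
        rw [add_comm]
      rw [intervalIntegral.integral_eq_sub_of_hasDerivAt h1 (hPc.intervalIntegrable_of_Icc zero_le_one)]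
      have e1 : x 1 = v := by simp [hx, hX]
      rw [e1]
      simp
    -- the gradient
    set Q : ℝ → V m := fun t => lam (x t) + t • (tr (fderiv ℝ lam (x t)) w) with hQ
    have hQc : ContinuousOn Q (Icc 0 1) :=
      hLc.add (continuousOn_id.smul (((continuous_tr.comp_continuousOn hDc)).clm_apply continuousOn_const))
    have hgrad : grad (fun v => ∫ t in Icc (0 : ℝ) 1, Ψ (v, t)) v = ∫ t in Icc (0 : ℝ) 1, Q t := by
      funext j
      have e1 : (∫ t in Icc (0 : ℝ) 1, Q t) j = ∫ t in Icc (0 : ℝ) 1, Q t j := by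
        have h1 : Integrable Q (volume.restrict (Icc (0 : ℝ) 1)) := hQc.integrableOn_compact isCompact_Icc
        exact ((ContinuousLinearMap.proj (R := ℝ) (φ := fun _ : Fin m => ℝ) j).integral_comp_comm h1).symm
      unfold grad
      rw [hd.fderiv, e1, ContinuousLinearMap.integral_apply hint]
      refine setIntegral_congr_fun measurableSet_Icc fun t ht => ?_
      -- compute the derivative of the integrand
      have hΨ1 : HasFDerivAt (fun z => Ψ (z, t)) ((fderiv ℝ Ψ (v, t)).comp (ContinuousLinearMap.inl ℝ (V m) ℝ)) v := by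
        have h2 : HasFDerivAt Ψ (fderiv ℝ Ψ (v, t)) (v, t) :=
          ((hΨs.contDiffAt (hopen.mem_nhds (hseg v hv t ht))).differentiableAt (by simp)).hasFDerivAt
        exact h2.comp (f := fun z : V m => (z, t)) v (hasFDerivAt_prodMk_left v t)
      have hΨ2 : HasFDerivAt (fun z => Ψ (z, t)) (∑ k, (lam (x t) k • (ContinuousLinearMap.proj (R := ℝ) (φ := fun _ : Fin m => ℝ) k)
          + w k • ((ContinuousLinearMap.proj (R := ℝ) (φ := fun _ : Fin m => ℝ) k).comp ((fderiv ℝ lam (x t)).comp (t • ContinuousLinearMap.id ℝ (V m)))))) v := by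
        refine HasFDerivAt.fun_sum fun k _ => ?_
        have h3 : HasFDerivAt (fun z : V m => X (z, t)) (t • ContinuousLinearMap.id ℝ (V m)) v :=
          (((hasFDerivAt_id v).sub_const p).const_smul t).const_add p
        have h4 : HasFDerivAt (fun z : V m => lam (X (z, t))) ((fderiv ℝ lam (x t)).comp (t • ContinuousLinearMap.id ℝ (V m))) v :=
          (hdlam t ht).comp v h3
        have h5 : HasFDerivAt (fun z : V m => lam (X (z, t)) k) ((ContinuousLinearMap.proj (R := ℝ) (φ := fun _ : Fin m => ℝ) k).comp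
            ((fderiv ℝ lam (x t)).comp (t • ContinuousLinearMap.id ℝ (V m)))) v :=
          (ContinuousLinearMap.proj (R := ℝ) (φ := fun _ : Fin m => ℝ) k).hasFDerivAt.comp v h4
        have h6 : HasFDerivAt (fun z : V m => (z - p) k) (ContinuousLinearMap.proj (R := ℝ) (φ := fun _ : Fin m => ℝ) k) v :=
          (ContinuousLinearMap.proj (R := ℝ) (φ := fun _ : Fin m => ℝ) k).hasFDerivAt.comp v ((hasFDerivAt_id v).sub_const p)
        exact h5.mul h6
      show (fderiv ℝ Ψ (v, t)).comp (ContinuousLinearMap.inl ℝ (V m) ℝ) (Pi.single j 1) = Q t j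
      rw [hΨ1.unique hΨ2, _root_.sum_apply]
      simp only [_root_.add_apply, _root_.smul_apply, ContinuousLinearMap.proj_apply,
        ContinuousLinearMap.comp_apply, ContinuousLinearMap.id_apply, smul_eq_mul, map_smul]
      rw [Finset.sum_add_distrib]
      have e2 : ∑ k, lam (x t) k * (Pi.single j 1 : V m) k = lam (x t) j := by
        rw [Finset.sum_eq_single j]
        · simp
        · intro k _ hk
          simp [hk]
        · intro h
          exact absurd (Finset.mem_univ _) h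
      rw [e2]
      show _ = lam (x t) j + t * (tr (fderiv ℝ lam (x t)) w j)
      rw [tr_apply, Finset.mul_sum]
      congr 1
      refine Finset.sum_congr rfl fun k _ => ?_
      ring
    rw [hgrad, ← hlam, ← integral_sub (hPc.integrableOn_compact isCompact_Icc) (hQc.integrableOn_compact isCompact_Icc)]
    have hb : ∀ t ∈ Icc (0 : ℝ) 1, ‖P t - Q t‖ ≤ ε * ‖v - p‖ := by
      intro t ht
      have e1 : P t - Q t = t • (dd lam (x t) w) := by
        simp only [hP, hQ, dd, _root_.sub_apply, smul_sub]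
        abel
      rw [e1, norm_smul, Real.norm_of_nonneg ht.1]
      have h1 : ‖dd lam (x t) w‖ ≤ ε * ‖w‖ := ((dd lam (x t)).le_opNorm w).trans
        (mul_le_mul_of_nonneg_right (hε _ (hxS t ht)) (norm_nonneg _))
      calc t * ‖dd lam (x t) w‖ ≤ 1 * ‖dd lam (x t) w‖ := mul_le_mul_of_nonneg_right ht.2 (norm_nonneg _)
        _ ≤ ε * ‖v - p‖ := by rw [one_mul]; exact h1
    have h2 := norm_setIntegral_le_of_norm_le_const hvol hb
    simpa using h2

theorem grad_lip {S : Set (V m)} (hS : Convex ℝ S) {f : V m → ℝ} (hf : ∀ x ∈ S, DifferentiableAt ℝ f x) {ε : ℝ}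
    (hε : ∀ x ∈ S, ‖grad f x‖ ≤ ε) {x y : V m} (hx : x ∈ S) (hy : y ∈ S) : |f x - f y| ≤ m * ε * ‖x - y‖ := by
  have h1 : ∀ z ∈ S, ‖fderiv ℝ f z‖ ≤ m * ε := by
    intro z hz
    have hε0 : 0 ≤ ε := (norm_nonneg _).trans (hε z hz)
    refine ContinuousLinearMap.opNorm_le_bound _ (by positivity) fun v => ?_
    have e1 : fderiv ℝ f z v = ∑ i, v i * grad f z i := by
      conv_lhs => rw [AlgAux.vec_eq v]
      rw [map_sum]
      refine Finset.sum_congr rfl fun i _ => ?_
      rw [map_smul, smul_eq_mul]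
      rfl
    rw [e1]
    calc ‖∑ i, v i * grad f z i‖ ≤ ∑ i : Fin m, ‖v i * grad f z i‖ := norm_sum_le _ _
      _ ≤ ∑ _i : Fin m, ε * ‖v‖ := by
          refine Finset.sum_le_sum fun i _ => ?_
          rw [norm_mul, mul_comm]
          exact mul_le_mul ((norm_le_pi_norm _ i).trans (hε z hz)) (norm_le_pi_norm _ i) (norm_nonneg _) hε0
      _ = m * ε * ‖v‖ := by
          rw [Finset.sum_const, Finset.card_univ, Fintype.card_fin, nsmul_eq_mul]
          ring
  have h2 := hS.norm_image_sub_le_of_norm_fderiv_le (𝕜 := ℝ) hf h1 hy hx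
  rw [Real.norm_eq_abs] at h2
  exact h2

/-- the gradient of a product of functions -/
theorem grad_mul {f g : V m → ℝ} {x : V m} (hf : DifferentiableAt ℝ f x) (hg : DifferentiableAt ℝ g x) :
    grad (fun v => f v * g v) x = f x • grad g x + g x • grad f x := by
  funext i
  unfold grad
  rw [fderiv_fun_mul hf hg]
  simp [mul_comm]

theorem norm_grad_le (F : V m → ℝ) (x : V m) : ‖grad F x‖ ≤ ‖fderiv ℝ F x‖ := by
  refine (pi_norm_le_iff_of_nonneg (norm_nonneg _)).2 fun i => ?_
  unfold grad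
  refine (ContinuousLinearMap.le_opNorm _ _).trans ?_
  have h := AlgAux.norm_single_le (m := m) i
  have h2 := norm_nonneg (fderiv ℝ F x)
  nlinarith

end Pool.Agent.Lib.P28s
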