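import Pool.Agent.Lib.P28s.Alg

set_option autoImplicit false

/-!
# Symplectic transvections

`JSp c S T`: `S` and `T` preserve the form `c` and are joined by a path of such operators.

PROOF. Write `ω x y = ∑ i, c x i * y i`. It is alternating (`Sk.self`), antisymmetric (`tr_dot` with `tr c = -c`), and non-degenerate since `c` is a unit. `Pr c S` (`tr S * c * S = c`) is equivalent to `ω (S x) (S y) = ω x y` for all `x, y` (`tr_dot`, `ext_dot`).
`trv c r v x = x + r ω x v v` (an operator, continuous in `r`): `ω (T x) (T y) = ω x y + r ω y v ω x v + r ω x v ω v y + r² ω x v ω y v ω v v = ω x y`. The path `r ↦ t r` joins it to `1`. `JSp.mul`: multiply the two paths. `pr_unit`: `tr S c S = c` is a unit, so `S` is left invertible, hence a unit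
(`EV m` finite-dimensional: injective implies bijective, or `c⁻¹ tr S c` is a left inverse and finite dimension: `LinearMap.mul_eq_one_comm`).
`move1`: `W` a set of vectors (to be fixed); let `x`, `y` be `ω`-orthogonal to `W` (`∀ w ∈ W, ω w x = 0 ∧ ω w y = 0`) with `ω x y ≠ 0`: `v = y - x`, `r = 1 / ω x y`: `ω x v = ω x y`, `T x = x + (y - x) = y`, and `T w = w + r ω w v v = w`.
`move2`: `x ≠ 0 ≠ y` orthogonal to `W`, where `W` is such that every vector `z` can be corrected: hypothesis `hW : ∀ z, ∃ z', (∀ w ∈ W, ω w z' = 0) ∧ ∀ u, (∀ w ∈ W, ω w u = 0) → ω u z' = ω u z`. If `ω x y ≠ 0` use `move1`. Otherwise there is `z` with `ω x z ≠ 0`, `ω y z ≠ 0`: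
take `z₁` with `ω x z₁ ≠ 0`, `z₂` with `ω y z₂ ≠ 0` (non-degeneracy); one of `z₁`, `z₂`, `z₁ + z₂` works; correct it to `z'` orthogonal to `W` by `hW` (`ω x z' = ω x z`, `ω y z' = ω y z`) and compose `move1` for `x, z'` and for `z', y`.
`move3`: if `ω z w' ≠ 0` take `v = w' - z`, `r = 1 / ω z w'`: `T z = w'`, `ω x v = ω x w' - ω x z = 0` gives `T x = x`, `ω w v = 0` gives `T w = w`. If `ω z w' = 0` do this for the pairs `z, z + x` (`ω z (z + x) = - ω x z ≠ 0`, `ω x (z + x) = ω x z`) and `z + x, w'`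
(`ω (z + x) w' = ω x w' ≠ 0`) and compose.
-/

open MeasureTheory Set Metric
open scoped ContDiff Topology

namespace Pool.Agent.Lib.P28s

open Pool.Agent.Lib.P28f (V EV ann w0 Light)

variable {m : ℕ}

/-- the bilinear form of `c` -/
def om (c : EV m) (x y : V m) : ℝ := ∑ i, c x i * y i

/-- `S` preserves `c` -/
def Pr (c S : EV m) : Prop := tr S * c * S = c

/-- joined to the identity inside the group of operators which preserve `c` -/
def JSp (c S : EV m) : Prop :=
  ∃ P : ℝ → EV m, Continuous P ∧ P 0 = 1 ∧ P 1 = S ∧ ∀ t, Pr c (P t)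

namespace TrvAux

theorem om_comm_tr (c : EV m) (x y : V m) : om c x y = om (tr c) y x := by
  unfold om
  rw [dot_tr]
  exact Finset.sum_congr rfl fun i _ => mul_comm _ _

theorem om_neg (c : EV m) (x y : V m) : om (-c) x y = -om c x y := by
  unfold om
  rw [← Finset.sum_neg_distrib]
  refine Finset.sum_congr rfl fun i _ => ?_
  rw [neg_apply, Pi.neg_apply]
  ring

end TrvAux

open TrvAux

theorem om_anti {c : EV m} (hc : Sk c) (x y : V m) : om c x y = -om c y x := by
  rw [om_comm_tr, hc, om_neg]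

theorem om_self {c : EV m} (hc : Sk c) (x : V m) : om c x x = 0 := by
  have h := om_anti hc x x
  linarith

theorem om_add_left (c : EV m) (x y z : V m) : om c (x + y) z = om c x z + om c y z := by
  unfold om
  rw [← Finset.sum_add_distrib]
  refine Finset.sum_congr rfl fun i _ => ?_
  rw [map_add, Pi.add_apply, add_mul]

theorem om_add_right (c : EV m) (x y z : V m) : om c x (y + z) = om c x y + om c x z := by
  unfold om
  rw [← Finset.sum_add_distrib]
  refine Finset.sum_congr rfl fun i _ => ?_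
  rw [Pi.add_apply, mul_add]

theorem om_smul_left (c : EV m) (r : ℝ) (x z : V m) : om c (r • x) z = r * om c x z := by
  unfold om
  rw [Finset.mul_sum]
  refine Finset.sum_congr rfl fun i _ => ?_
  rw [map_smul, Pi.smul_apply, smul_eq_mul, mul_assoc]

theorem om_smul_right (c : EV m) (r : ℝ) (x z : V m) : om c x (r • z) = r * om c x z := by
  unfold om
  rw [Finset.mul_sum]
  refine Finset.sum_congr rfl fun i _ => ?_
  rw [Pi.smul_apply, smul_eq_mul]
  ring

theorem om_nondeg {c : EV m} (hu : IsUnit c) {x : V m} (hx : x ≠ 0) : ∃ z, om c x z ≠ 0 := by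
  by_contra h
  push Not at h
  apply hx
  have h1 : c x = 0 := by
    ext i
    have h2 := h (Pi.single i 1)
    unfold om at h2
    simpa [Pi.single_apply] using h2
  have h3 : (Ring.inverse c * c) x = x := by
    rw [Ring.inverse_mul_cancel c hu]
    rfl
  rw [← h3]
  change Ring.inverse c (c x) = 0
  rw [h1, map_zero]

theorem pr_iff (c S : EV m) : Pr c S ↔ ∀ x y, om c (S x) (S y) = om c x y := by
  have key : ∀ x y, om c (S x) (S y) = om (tr S * c * S) x y := by
    intro x y
    have h1 : om (tr S * c * S) x y = ∑ i, tr S (c (S x)) i * y i := rfl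
    rw [h1, dot_tr]
    rfl
  unfold Pr
  constructor
  · intro h x y
    rw [key, h]
  · intro h
    refine AlgAux.ext_dot fun x y => ?_
    have h2 := h x y
    rw [key] at h2
    exact h2

theorem Pr.mul {c S T : EV m} (hS : Pr c S) (hT : Pr c T) : Pr c (S * T) := by
  rw [pr_iff] at *
  intro x y
  change om c (S (T x)) (S (T y)) = om c x y
  rw [hS, hT]

theorem Pr.isUnit {c S : EV m} (hu : IsUnit c) (hS : Pr c S) : IsUnit S :=
  isUnit_of_conj hu hS

theorem Pr.inv {c S : EV m} (hu : IsUnit c) (hS : Pr c S) : Pr c (Ring.inverse S) := by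
  have hunit := Pr.isUnit hu hS
  rw [pr_iff] at *
  intro x y
  rw [← hS]
  have h1 : ∀ z, S (Ring.inverse S z) = z := by
    intro z
    have h3 : (S * Ring.inverse S) z = z := by
      rw [Ring.mul_inverse_cancel S hunit]
      rfl
    exact h3
  rw [h1, h1]

theorem JSp.pr {c S : EV m} (h : JSp c S) : Pr c S := by
  obtain ⟨P, -, -, h1, h2⟩ := h
  rw [← h1]
  exact h2 1

theorem JSp.one (c : EV m) : JSp c 1 := by
  refine ⟨fun _ => 1, continuous_const, rfl, rfl, fun _ => ?_⟩
  rw [pr_iff]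
  intro x y
  rfl

theorem JSp.mul {c S T : EV m} (hS : JSp c S) (hT : JSp c T) : JSp c (S * T) := by
  obtain ⟨P, hP, hP0, hP1, hPp⟩ := hS
  obtain ⟨Q, hQ, hQ0, hQ1, hQp⟩ := hT
  refine ⟨fun t => P t * Q t, hP.mul hQ, ?_, ?_, fun t => (hPp t).mul (hQp t)⟩
  · simp only [hP0, hQ0, mul_one]
  · simp only [hP1, hQ1]

theorem JSp.inv {c S : EV m} (hu : IsUnit c) (hS : JSp c S) : JSp c (Ring.inverse S) := by
  obtain ⟨P, hP, hP0, hP1, hPp⟩ := hS
  refine ⟨fun t => Ring.inverse (P t), ?_, ?_, ?_, fun t => (hPp t).inv hu⟩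
  · rw [continuous_iff_continuousAt]
    intro t
    have hunit : IsUnit (P t) := (hPp t).isUnit hu
    obtain ⟨u, hu'⟩ := hunit
    have h1 : ContinuousAt Ring.inverse (P t) := by
      rw [← hu']
      exact NormedRing.inverse_continuousAt u
    exact ContinuousAt.comp (g := Ring.inverse) h1 hP.continuousAt
  · simp only [hP0, Ring.inverse_one]
  · simp only [hP1]

namespace TrvAux

theorem om_sub_right (c : EV m) (u x y : V m) : om c u (y - x) = om c u y - om c u x := by
  have h : y - x = y + (-1 : ℝ) • x := by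
    rw [neg_one_smul, sub_eq_add_neg]
  rw [h, om_add_right, om_smul_right]
  ring

/-- the functional `om c · v` as a continuous linear map -/
noncomputable def fn (c : EV m) (v : V m) : V m →L[ℝ] ℝ :=
  ∑ i, v i • (ContinuousLinearMap.proj (R := ℝ) (φ := fun _ : Fin m => ℝ) i ∘L c)

theorem fn_apply (c : EV m) (v x : V m) : fn c v x = om c x v := by
  unfold fn om
  rw [sum_apply]
  refine Finset.sum_congr rfl fun i _ => ?_
  simp [mul_comm]

/-- the transvection -/
noncomputable def trv (c : EV m) (r : ℝ) (v : V m) : EV m := 1 + r • (fn c v).smulRight v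

theorem trv_apply (c : EV m) (r : ℝ) (v x : V m) : trv c r v x = x + (r * om c x v) • v := by
  unfold trv
  rw [add_apply, smul_apply, ContinuousLinearMap.smulRight_apply, fn_apply, smul_smul]
  rfl

theorem trv_pr {c : EV m} (hc : Sk c) (r : ℝ) (v : V m) : Pr c (trv c r v) := by
  rw [pr_iff]
  intro x y
  rw [trv_apply, trv_apply, om_add_left, om_add_right, om_add_right, om_smul_left, om_smul_right,
    om_smul_left, om_smul_right, om_self hc v, om_anti hc v y]
  ring

theorem trv_jsp {c : EV m} (hc : Sk c) (r : ℝ) (v : V m) : JSp c (trv c r v) := by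
  refine ⟨fun t => trv c (t * r) v, ?_, ?_, ?_, fun t => trv_pr hc _ v⟩
  · unfold trv
    fun_prop
  · simp [trv]
  · simp

end TrvAux

/-- moving `x` to `y` and fixing `W`, when `om c x y ≠ 0` -/
theorem move1 {c : EV m} (hc : Sk c) {W : Set (V m)} {x y : V m} (hx : ∀ w ∈ W, om c w x = 0)
    (hy : ∀ w ∈ W, om c w y = 0) (hxy : om c x y ≠ 0) :
    ∃ T : EV m, JSp c T ∧ T x = y ∧ ∀ w ∈ W, T w = w := by
  refine ⟨trv c (1 / om c x y) (y - x), trv_jsp hc _ _, ?_, ?_⟩
  · rw [trv_apply, om_sub_right, om_self hc x, sub_zero, one_div, inv_mul_cancel₀ hxy, one_smul,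
      add_sub_cancel]
  · intro w hw
    rw [trv_apply, om_sub_right, hx w hw, hy w hw, sub_zero, mul_zero, zero_smul, add_zero]

theorem move2 {c : EV m} (hc : Sk c) (hu : IsUnit c) {W : Set (V m)}
    (hW : ∀ z, ∃ z', (∀ w ∈ W, om c w z' = 0) ∧ ∀ u, (∀ w ∈ W, om c w u = 0) → om c u z' = om c u z)
    {x y : V m} (hx : ∀ w ∈ W, om c w x = 0) (hy : ∀ w ∈ W, om c w y = 0) (hx0 : x ≠ 0) (hy0 : y ≠ 0) :
    ∃ T : EV m, JSp c T ∧ T x = y ∧ ∀ w ∈ W, T w = w := by
  have key : ∃ z, om c x z ≠ 0 ∧ om c y z ≠ 0 := by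
    obtain ⟨z1, h1⟩ := om_nondeg hu hx0
    obtain ⟨z2, h2⟩ := om_nondeg hu hy0
    by_cases h3 : om c y z1 = 0
    · by_cases h4 : om c x z2 = 0
      · refine ⟨z1 + z2, ?_, ?_⟩
        · rw [om_add_right, h4, add_zero]
          exact h1
        · rw [om_add_right, h3, zero_add]
          exact h2
      · exact ⟨z2, h4, h2⟩
    · exact ⟨z1, h1, h3⟩
  obtain ⟨z, hz1, hz2⟩ := key
  obtain ⟨z', hz', hzu⟩ := hW z
  have h1 : om c x z' ≠ 0 := by
    rw [hzu x hx]
    exact hz1
  have h2 : om c z' y ≠ 0 := by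
    rw [om_anti hc, hzu y hy]
    exact neg_ne_zero.2 hz2
  obtain ⟨T1, hT1, e1, f1⟩ := move1 hc hx hz' h1
  obtain ⟨T2, hT2, e2, f2⟩ := move1 hc hz' hy h2
  refine ⟨T2 * T1, hT2.mul hT1, ?_, ?_⟩
  · change T2 (T1 x) = y
    rw [e1, e2]
  · intro w hw
    change T2 (T1 w) = w
    rw [f1 w hw, f2 w hw]

/-- fixing `x` and `W`, moving `z` to `w'`, when `om c x z = om c x w' ≠ 0` -/
theorem move3 {c : EV m} (hc : Sk c) {W : Set (V m)} {x z w' : V m} (hx : ∀ w ∈ W, om c w x = 0)
    (hz : ∀ w ∈ W, om c w z = 0) (hw : ∀ w ∈ W, om c w w' = 0) (h1 : om c x z = om c x w')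
    (h2 : om c x z ≠ 0) : ∃ T : EV m, JSp c T ∧ T x = x ∧ T z = w' ∧ ∀ w ∈ W, T w = w := by
  -- the elementary step
  have step : ∀ a b : V m, (∀ w ∈ W, om c w a = 0) → (∀ w ∈ W, om c w b = 0) →
      om c x a = om c x b → om c a b ≠ 0 →
      ∃ T : EV m, JSp c T ∧ T x = x ∧ T a = b ∧ ∀ w ∈ W, T w = w := by
    intro a b ha hb hab hne
    refine ⟨trv c (1 / om c a b) (b - a), trv_jsp hc _ _, ?_, ?_, ?_⟩
    · rw [trv_apply, om_sub_right, hab, sub_self, mul_zero, zero_smul, add_zero]
    · rw [trv_apply, om_sub_right, om_self hc a, sub_zero, one_div, inv_mul_cancel₀ hne, one_smul,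
        add_sub_cancel]
    · intro w hw
      rw [trv_apply, om_sub_right, ha w hw, hb w hw, sub_zero, mul_zero, zero_smul, add_zero]
  by_cases h : om c z w' = 0
  · have hzx : om c z (z + x) ≠ 0 := by
      rw [om_add_right, om_self hc, zero_add, om_anti hc]
      exact neg_ne_zero.2 h2
    have hxzx : om c x z = om c x (z + x) := by
      rw [om_add_right, om_self hc x, add_zero]
    have hWzx : ∀ w ∈ W, om c w (z + x) = 0 := by
      intro w hw'
      rw [om_add_right, hz w hw', hx w hw', add_zero]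
    have h3 : om c (z + x) w' ≠ 0 := by
      rw [om_add_left, h, zero_add, ← h1]
      exact h2
    obtain ⟨T1, hT1, e1, f1, g1⟩ := step z (z + x) hz hWzx hxzx hzx
    obtain ⟨T2, hT2, e2, f2, g2⟩ := step (z + x) w' hWzx hw (hxzx.symm.trans h1) h3
    refine ⟨T2 * T1, hT2.mul hT1, ?_, ?_, ?_⟩
    · change T2 (T1 x) = x
      rw [e1, e2]
    · change T2 (T1 z) = w'
      rw [f1, f2]
    · intro w hw'
      change T2 (T1 w) = w
      rw [g1 w hw', g2 w hw']
  · exact step z w' hz hw h1 h

end Pool.Agent.Lib.P28s
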